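import Pool.Agent.H12Tree.FS

/-!
# Minimal graphs outside of a class are small
-/

namespace Pool.Agent.H12Tree

open Tm Pool.Agent.H12Letter

def stepB (L r P N : ℕ) : ℕ :=
  2 ^ (2 ^ (2 * L) * (3 * 2 ^ L * (2 ^ (2 * 2 ^ (L * r) * 2 ^ (L * r) * N ^ r)) ^ P))

def bd (L r P : ℕ) : ℕ → ℕ
  | 0 => 1
  | i + 1 => bd L r P i + stepB L r P (bd L r P i)

/-- bound for the minimal graphs outside of the class -/
def Bd (M m r : ℕ) (Γ : Grm) (i : ℕ) : ℕ :=
  (r + 1) ^ (2 ^ bd (M * m) r Γ.flatten.length (i + 1)) + 1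

theorem bd_mono (L r P : ℕ) : Monotone (bd L r P) :=
  monotone_nat_of_le_succ fun i => Nat.le_add_right _ _

theorem one_le_bd (L r P i : ℕ) : 1 ≤ bd L r P i := bd_mono L r P (Nat.zero_le i)

section Sem

variable {Ω : Type} {r : ℕ} {Λ Λ' V W : Type} {G : SimpleGraph V} {H : SimpleGraph W}
  {A : Ω → Fin r → Fin r → Λ → Λ → Prop} {c : V → Λ} {t : Tm Ω r Λ} {X : Set V}
  {Γ : Grm} {i : ℕ}

theorem Real.pull (f : W ↪ V) (hX : X ⊆ Set.range f) (h : Real G A c t X) :
    Real (G.comap f) A (c ∘ f) t (f ⁻¹' X) := by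
  induction h with
  | emp =>
    rw [Set.preimage_empty]
    exact Real.emp
  | leaf v =>
    obtain ⟨w, rfl⟩ := hX rfl
    have : f ⁻¹' {f w} = {w} := by
      ext u
      simp
    rw [this]
    exact Real.leaf (c := c ∘ f) w
  | node ω ch X _ hd ha ih =>
    rw [Set.preimage_iUnion]
    exact Real.node ω ch _ (fun i => ih i ((Set.subset_iUnion X i).trans hX))
      (fun i j hij => (hd i j hij).preimage f) fun i j hij u hu v hv => ha i j hij _ hu _ hv

theorem DerS.congr {c' c'' : V → ℕ} (h : DerS r Γ G c' i X) (hc : ∀ v ∈ X, c' v = c'' v) :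
    DerS r Γ G c'' i X := by
  obtain ⟨t, h1, h2⟩ := h
  exact ⟨t, h1, h2.congr hc⟩

theorem derS_unique {c' : W → Λ} {Y : Set W} (h : Real G A c t X) (h' : Real H A c' t Y)
    (col : Λ → ℕ) (hS : DerS r Γ G (col ∘ c) i X) : DerS r Γ H (col ∘ c') i Y := by
  classical
  obtain ⟨e, he1, he2⟩ := h.unique h'
  rcases Y.eq_empty_or_nonempty with rfl | ⟨w0, hw0⟩
  · exact DerS.empty
  · obtain ⟨s, hs1, hs2⟩ := hS
    refine ⟨s, hs1, ?_⟩
    have hY : Y = (fun v => if hv : v ∈ X then (e ⟨v, hv⟩ : W) else w0) '' X := by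
      ext w
      constructor
      · intro hw
        refine ⟨e.symm ⟨w, hw⟩, (e.symm ⟨w, hw⟩).2, ?_⟩
        simp
      · rintro ⟨v, hv, rfl⟩
        simp only [hv, dif_pos]
        exact (e ⟨v, hv⟩).2
    rw [hY]
    refine hs2.push _ ?_ ?_ ?_
    · intro u hu v hv huv
      simp only [hu, hv, dif_pos] at huv
      exact Subtype.ext_iff.1 (e.injective (Subtype.ext huv))
    · intro u hu v hv
      simp only [hu, hv, dif_pos]
      exact he2 ⟨u, hu⟩ ⟨v, hv⟩
    · intro v hv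
      simp only [hv, dif_pos, Function.comp]
      rw [he1]

/-- the realizations of the term are generated by nonterminal `i` -/
def PT (Γ : Grm) (A : Ω → Fin r → Fin r → Λ → Λ → Prop) (col : Λ → ℕ) (i : ℕ)
    (t : Tm Ω r Λ) : Prop :=
  ∃ (V : Type) (G : SimpleGraph V) (c : V → Λ), Real G A c t Set.univ ∧
    DerS r Γ G (col ∘ c) i Set.univ

theorem pt_iff (h : Real G A c t X) (col : Λ → ℕ) :
    PT Γ A col i t ↔ DerS r Γ G (col ∘ c) i X := by
  constructor
  · rintro ⟨W, H, c', h1, h2⟩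
    exact derS_unique h1 h col h2
  · intro hS
    obtain ⟨W, H, c', h1⟩ := exists_real A t
    exact ⟨W, H, c', h1, derS_unique h h1 col hS⟩

theorem pw_iff {Q : Λ → Λ → Prop} {κ : Λ → ℕ} (h : Real G A c t X) :
    PW (fun ω i j a b => (κ a < κ b → (A ω i j a b ↔ Q a b)) ∧
      (κ b < κ a → (A ω i j a b ↔ Q b a))) t ↔
    ∀ u ∈ X, ∀ v ∈ X, κ (c u) < κ (c v) → (G.Adj u v ↔ Q (c u) (c v)) := by
  induction h with
  | emp => simp [PW]
  | leaf v =>
    simp only [PW, true_iff]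
    rintro u rfl w rfl h
    exact absurd h (lt_irrefl _)
  | node ω ch X h hd ha ih =>
    simp only [PW, ih]
    constructor
    · rintro ⟨h1, h2⟩ u hu v hv huv
      obtain ⟨i, hi⟩ := Set.mem_iUnion.1 hu
      obtain ⟨j, hj⟩ := Set.mem_iUnion.1 hv
      rcases lt_trichotomy i j with hij | hij | hij
      · have := (h2 i j hij (c u) (by rw [(h i).lv]; exact ⟨u, hi, rfl⟩) (c v)
          (by rw [(h j).lv]; exact ⟨v, hj, rfl⟩)).1 huv
        rw [ha i j hij u hi v hj, this]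
      · subst hij
        exact h1 i u hi v hj huv
      · have := (h2 j i hij (c v) (by rw [(h j).lv]; exact ⟨v, hj, rfl⟩) (c u)
          (by rw [(h i).lv]; exact ⟨u, hi, rfl⟩)).2 huv
        rw [SimpleGraph.adj_comm, ha j i hij v hj u hi, this]
    · intro h1
      refine ⟨fun i u hu v hv => h1 u (Set.mem_iUnion.2 ⟨i, hu⟩) v (Set.mem_iUnion.2 ⟨i, hv⟩),
        fun i j hij a haa b hb => ?_⟩
      rw [(h i).lv] at haa
      rw [(h j).lv] at hb
      obtain ⟨u, hu, rfl⟩ := haa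
      obtain ⟨v, hv, rfl⟩ := hb
      have hu' := Set.mem_iUnion.2 ⟨i, hu⟩
      have hv' := Set.mem_iUnion.2 ⟨j, hv⟩
      refine ⟨fun huv => ?_, fun hvu => ?_⟩
      · rw [← ha i j hij u hu v hv]
        exact h1 u hu' v hv' huv
      · rw [← ha i j hij u hu v hv, SimpleGraph.adj_comm]
        exact h1 v hv' u hu' hvu

end Sem

section Main

variable {Ω : Type} {r M m : ℕ} {A : Ω → Fin r → Fin r → Fin M → Fin M → Prop} {Γ : Grm}

/-- old labels and new colours -/
abbrev L1 (M m : ℕ) : Type := Fin M × Fin m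

/-- interpretation for the labels with colours -/
abbrev A1 (A : Ω → Fin r → Fin r → Fin M → Fin M → Prop) (m : ℕ) :
    Ω → Fin r → Fin r → L1 M m → L1 M m → Prop := fun ω i j a b => A ω i j a.1 b.1

def col1 (a : L1 M m) : ℕ := a.2

/-- one step with the production `p` -/
def NS (A : Ω → Fin r → Fin r → Fin M → Fin M → Prop) (Γ : Grm) (p : PC)
    (u : Tm Ω r (L1 M m)) : Prop :=
  ∃ s : Tm Ω r (L1 M m × Fin r), s.map Prod.fst = u ∧
    (PW (fun ω i j a b => (((a.2 : ℕ) < (b.2 : ℕ)) → (A1 A m ω i j a.1 b.1 ↔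
        ((a.2 : ℕ), (b.2 : ℕ), col1 a.1, col1 b.1) ∈ p.2.1)) ∧
      (((b.2 : ℕ) < (a.2 : ℕ)) → (A1 A m ω i j a.1 b.1 ↔
        ((b.2 : ℕ), (a.2 : ℕ), col1 b.1, col1 a.1) ∈ p.2.1))) s ∧
    ((∀ a ∈ s.lv, p.2.2.getD (a.2 : ℕ) 0 ≠ 0) ∧
      ∀ j : Fin r, p.2.2.getD (j : ℕ) 0 = 1 → ∃ a ∈ s.lv, a.2 ≠ j) ∧
    ∀ j : Fin r, ∀ l, p.2.2.getD (j : ℕ) 0 = l + 2 →
      PT Γ (A1 A m) col1 l ((s.del fun a => decide (a.2 = j)).map Prod.fst))

/-- the first step for terms -/
def FSt (A : Ω → Fin r → Fin r → Fin M → Fin M → Prop) (Γ : Grm) (i : ℕ)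
    (u : Tm Ω r (L1 M m)) : Prop :=
  (u.cnt = 1 ∧ ∀ a ∈ u.lv, (col1 a + 1, [], []) ∈ Γ.getD i []) ∨
    ∃ p ∈ Γ.getD i [], p.1 = 0 ∧ NS A Γ p u

theorem fst_iff (hr : 0 < r) {i : ℕ} (hΓ : ∀ p ∈ Γ.getD i [], ∀ x ∈ p.2.2, x ≤ i + 1)
    {V : Type} {G : SimpleGraph V} {c : V → L1 M m} {u : Tm Ω r (L1 M m)} {Y : Set V}
    (h : Real G (A1 A m) c u Y) :
    FSt A Γ i u ↔ Step r Γ (fun l Z => l = i ∨ DerS r Γ G (col1 ∘ c) l Z) G (col1 ∘ c) i Y := by
  classical
  constructor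
  · rintro (⟨h1, h2⟩ | ⟨p, hp, hp0, s, hs, hpw, ⟨hlv0, hlv1⟩, hlow⟩)
    · left
      rw [h.cnt, Set.ncard_eq_one] at h1
      obtain ⟨v, rfl⟩ := h1
      exact ⟨v, rfl, h2 (c v) (by rw [h.lv]; exact ⟨v, rfl, rfl⟩)⟩
    · right
      obtain ⟨c', hc', hr'⟩ := h.unlift (Prod.fst : L1 M m × Fin r → L1 M m)
        (fun v => (c v, ⟨0, hr⟩)) hs
      refine ⟨p, hp, hp0, fun v => ((c' v).2 : ℕ), ?_, ?_, ?_, ?_⟩
      · intro v hv
        exact ⟨(c' v).2.2, hlv0 (c' v) (by rw [hr'.lv]; exact ⟨v, hv, rfl⟩)⟩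
      · intro v hv w hw hvw
        have := (pw_iff (κ := fun a : L1 M m × Fin r => (a.2 : ℕ))
          (Q := fun a b => ((a.2 : ℕ), (b.2 : ℕ), col1 a.1, col1 b.1) ∈ p.2.1) hr').1 hpw v hv w
            hw hvw
        rw [this, hc' v hv, hc' w hw]
        rfl
      · intro j hj hρ
        obtain ⟨a, ha, haj⟩ := hlv1 ⟨j, hj⟩ hρ
        rw [hr'.lv] at ha
        obtain ⟨v, hv, rfl⟩ := ha
        exact ⟨⟨v, hv, fun hc => haj (Fin.ext hc)⟩, Or.inl rfl⟩
      · intro j hj l hρ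
        right
        have h1 := hlow ⟨j, hj⟩ l hρ
        have h2 := (hr'.del fun a => decide (a.2 = (⟨j, hj⟩ : Fin r))).map
          (A' := A1 A m) Prod.fst (fun _ _ _ _ _ => Iff.rfl)
        rw [pt_iff h2] at h1
        have h3 : {v | v ∈ Y ∧ decide ((c' v).2 = (⟨j, hj⟩ : Fin r)) = true} =
            {v | v ∈ Y ∧ ((c' v).2 : ℕ) = j} := by
          ext v
          simp only [Set.mem_ofPred_eq, decide_eq_true_iff]
          rw [Fin.ext_iff]
        rw [h3] at h1
        refine h1.congr fun v hv => ?_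
        simp only [Function.comp]
        rw [hc' v hv.1]
  · rintro (⟨v, rfl, h1⟩ | ⟨p, hp, hp0, κ, h3, h4, h5, h6⟩)
    · left
      refine ⟨by rw [h.cnt, Set.ncard_singleton], fun a ha => ?_⟩
      rw [h.lv] at ha
      obtain ⟨w, rfl, rfl⟩ := ha
      exact h1
    · right
      set c' : V → L1 M m × Fin r := fun v => (c v, if hv : κ v < r then ⟨κ v, hv⟩ else ⟨0, hr⟩)
        with hc'
      have hκ : ∀ v ∈ Y, ((c' v).2 : ℕ) = κ v := by
        intro v hv
        simp only [hc', (h3 v hv).1, dif_pos]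
      have h' : Real G (A1 A m) (Prod.fst ∘ c') u Y := h
      obtain ⟨s, hs, hr'⟩ := h'.lift
      refine ⟨p, hp, hp0, s, hs, ?_, ⟨?_, ?_⟩, ?_⟩
      · refine (pw_iff (κ := fun a : L1 M m × Fin r => (a.2 : ℕ))
          (Q := fun a b => ((a.2 : ℕ), (b.2 : ℕ), col1 a.1, col1 b.1) ∈ p.2.1) hr').2 ?_
        intro v hv w hw hvw
        rw [hκ v hv, hκ w hw] at hvw ⊢
        exact h4 v hv w hw hvw
      · intro a ha
        rw [hr'.lv] at ha
        obtain ⟨v, hv, rfl⟩ := ha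
        rw [hκ v hv]
        exact (h3 v hv).2
      · intro j hρ
        obtain ⟨⟨v, hv, hvj⟩, -⟩ := h5 j j.2 hρ
        refine ⟨c' v, by rw [hr'.lv]; exact ⟨v, hv, rfl⟩, fun hc => hvj ?_⟩
        rw [← hκ v hv, hc]
      · intro j l hρ
        have h2 := (hr'.del fun a => decide (a.2 = j)).map
          (A' := A1 A m) Prod.fst (fun _ _ _ _ _ => Iff.rfl)
        rw [pt_iff h2]
        have h3 : {v | v ∈ Y ∧ decide ((c' v).2 = j) = true} =
            {v | v ∈ Y ∧ κ v = j} := by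
          ext v
          simp only [Set.mem_ofPred_eq, decide_eq_true_iff]
          constructor
          · rintro ⟨hv, hj⟩
            refine ⟨hv, ?_⟩
            rw [← hκ v hv, hj]
          · rintro ⟨hv, hj⟩
            refine ⟨hv, ?_⟩
            rw [Fin.ext_iff, hκ v hv, hj]
        rw [h3]
        rcases h6 j j.2 l hρ with h7 | h7
        · have := hΓ p hp _ (mem_of_getD hρ)
          omega
        · exact h7

theorem pt_iff_fst (hr : 0 < r) {i : ℕ} (hΓ : ∀ p ∈ Γ.getD i [], ∀ x ∈ p.2.2, x ≤ i + 1)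
    (t : Tm Ω r (L1 M m)) :
    PT Γ (A1 A m) col1 i t ↔ ∀ s : Tm Ω r (L1 M m × Bool), s.map Prod.fst = t →
      ((∃ a ∈ s.lv, a.2 = true) → FSt A Γ i ((s.del Prod.snd).map Prod.fst)) := by
  classical
  obtain ⟨V, G, c, h⟩ := exists_real (A1 A m) t
  rw [pt_iff h, derS_iff_step h.finite hΓ]
  constructor
  · intro hall s hs hne
    obtain ⟨c', hc', hr'⟩ := h.unlift (Prod.fst : L1 M m × Bool → L1 M m)
      (fun v => (c v, false)) hs
    have hcc : Prod.fst ∘ c' = c := funext fun v => hc' v trivial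
    have h2 := (hr'.del Prod.snd).map (A' := A1 A m) Prod.fst (fun _ _ _ _ _ => Iff.rfl)
    rw [hcc] at h2
    rw [fst_iff hr hΓ h2]
    refine hall _ (Set.subset_univ _) ?_
    obtain ⟨a, ha, ha2⟩ := hne
    rw [hr'.lv] at ha
    obtain ⟨v, hv, rfl⟩ := ha
    exact ⟨v, hv, ha2⟩
  · intro hall Y _ hne
    set c' : V → L1 M m × Bool := fun v => (c v, decide (v ∈ Y)) with hc'
    have h' : Real G (A1 A m) (Prod.fst ∘ c') t Set.univ := h
    obtain ⟨s, hs, hr'⟩ := h'.lift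
    have h2 := (hr'.del Prod.snd).map (A' := A1 A m) Prod.fst (fun _ _ _ _ _ => Iff.rfl)
    have h3 : {v | v ∈ (Set.univ : Set V) ∧ (c' v).2 = true} = Y := by
      ext v
      simp [hc']
    rw [h3] at h2
    refine (fst_iff hr hΓ h2).1 (hall s hs ?_)
    obtain ⟨v, hv⟩ := hne
    exact ⟨c' v, by rw [hr'.lv]; exact ⟨v, trivial, rfl⟩, by simp [hc', hv]⟩

theorem rec_const (q : Prop) : Rec 1 fun _ : Tm Ω r (L1 M m × Fin r) => q :=
  ⟨Unit, inferInstance, fun _ => (), by simp, fun _ _ _ _ => rfl, fun _ _ _ h => h⟩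

theorem rec_false : Rec 1 fun _ : Tm Ω r (L1 M m) => False :=
  ⟨Unit, inferInstance, fun _ => (), by simp, fun _ _ _ _ => rfl, fun _ _ _ h => h⟩

theorem rec_pt (hr : 0 < r) (hΓ : okG m r Γ) (i : ℕ) :
    Rec (bd (M * m) r Γ.flatten.length (i + 1)) (PT Γ (A1 A m) col1 i) := by
  classical
  have hΓ' : ∀ i, ∀ p ∈ Γ.getD i [], ∀ x ∈ p.2.2, x ≤ i + 1 := by
    intro i p hp
    by_cases hi : i < Γ.length
    · exact ((hΓ i hi).2 p hp).2
    · rw [List.getD_eq_default _ _ (by omega)] at hp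
      simp at hp
  induction i using Nat.strong_induction_on with
  | _ i ih =>
    set L := M * m with hL
    set P := Γ.flatten.length with hP
    have cL : Fintype.card (L1 M m) = L := by simp [hL]
    have cLB : Fintype.card (L1 M m × Bool) = 2 * L := by
      rw [Fintype.card_prod, cL, Fintype.card_bool, mul_comm]
    have cLr : Fintype.card (L1 M m × Fin r) = L * r := by
      rw [Fintype.card_prod, cL, Fintype.card_fin]
    have hlen : (Γ.getD i []).length ≤ P := by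
      by_cases hi : i < Γ.length
      · rw [List.getD_eq_getElem _ _ hi, hP]
        exact (List.sublist_flatten_of_mem (List.getElem_mem hi)).length_le
      · rw [List.getD_eq_default _ _ (by omega)]
        simp
    -- one production
    have h1 : ∀ p ∈ Γ.getD i [], Rec (2 ^ (2 * 2 ^ (L * r) * 2 ^ (L * r) * bd L r P i ^ r))
        (fun u : Tm Ω r (L1 M m) => p.1 = 0 ∧ NS A Γ p u) := by
      intro p hp
      by_cases hp0 : p.1 = 0
      · have a1 := rec_pw (r := r) (fun (ω : Ω) (i j : Fin r) (a b : L1 M m × Fin r) =>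
          (((a.2 : ℕ) < (b.2 : ℕ)) → (A1 A m ω i j a.1 b.1 ↔
            ((a.2 : ℕ), (b.2 : ℕ), col1 a.1, col1 b.1) ∈ p.2.1)) ∧
          (((b.2 : ℕ) < (a.2 : ℕ)) → (A1 A m ω i j a.1 b.1 ↔
            ((b.2 : ℕ), (a.2 : ℕ), col1 b.1, col1 a.1) ∈ p.2.1)))
        have a2 := rec_lv (Ω := Ω) (r := r) (fun S : Set (L1 M m × Fin r) =>
          (∀ a ∈ S, p.2.2.getD (a.2 : ℕ) 0 ≠ 0) ∧
            ∀ j : Fin r, p.2.2.getD (j : ℕ) 0 = 1 → ∃ a ∈ S, a.2 ≠ j)
        have a3 : Rec (bd L r P i ^ r) (fun s : Tm Ω r (L1 M m × Fin r) =>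
            ∀ j : Fin r, ∀ l, p.2.2.getD (j : ℕ) 0 = l + 2 →
              PT Γ (A1 A m) col1 l ((s.del fun a => decide (a.2 = j)).map Prod.fst)) := by
          refine rec_pi fun j => ?_
          by_cases hρ : ∃ l, p.2.2.getD (j : ℕ) 0 = l + 2
          · obtain ⟨l, hl⟩ := hρ
            have hli : l < i := by
              have := hΓ' i p hp _ (mem_of_getD hl)
              omega
            have b1 := ((((ih l hli).mono (bd_mono L r P (by omega : l + 1 ≤ i))).map
              (Prod.fst : L1 M m × Fin r → L1 M m)).del fun a => decide (a.2 = j))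
            refine b1.congr fun t => ?_
            constructor
            · intro ht l' hl'
              have : l = l' := by omega
              rw [← this]
              exact ht
            · intro ht
              exact ht l hl
          · refine ((rec_const True).mono (one_le_bd L r P i)).congr fun t => ?_
            simp only [true_iff]
            intro l hl
            exact absurd ⟨l, hl⟩ hρ
        have a4 := (a1.and (a2.and a3)).exmap (Prod.fst : L1 M m × Fin r → L1 M m)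
        rw [cLr] at a4
        refine (a4.mono ?_).congr fun u => ?_
        · rw [← mul_assoc]
        · simp only [hp0, true_and]
          rfl
      · refine (rec_false.mono Nat.one_le_two_pow).congr fun u => ?_
        simp [hp0]
    have h2 := (rec_exlist (Γ.getD i []) h1).mono
      (Nat.pow_le_pow_right Nat.one_le_two_pow hlen)
    have h3 : Rec (3 * 2 ^ L) (fun u : Tm Ω r (L1 M m) =>
        u.cnt = 1 ∧ ∀ a ∈ u.lv, (col1 a + 1, [], []) ∈ Γ.getD i []) := by
      have a1 := rec_cnt (Ω := Ω) (r := r) (Λ := L1 M m) 1 (by omega)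
      have a2 := rec_lv (Ω := Ω) (r := r) (fun S : Set (L1 M m) =>
        ∀ a ∈ S, (col1 a + 1, ([] : Tab), ([] : List ℕ)) ∈ Γ.getD i [])
      rw [cL] at a2
      exact a1.and a2
    have h4 := ((h3.or h2).map (Prod.fst : L1 M m × Bool → L1 M m)).del Prod.snd
    have h5 := rec_lv (Ω := Ω) (r := r) (fun S : Set (L1 M m × Bool) => ∃ a ∈ S, a.2 = true)
    rw [cLB] at h5
    have h6 := (h5.imp h4).allmap (Prod.fst : L1 M m × Bool → L1 M m)
    refine (h6.mono ?_).congr fun t => ?_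
    · exact (Nat.le_add_left _ _ : stepB L r P (bd L r P i) ≤ bd L r P i + _)
    · exact (pt_iff_fst hr (hΓ' i) t).symm

theorem derT_colour (hΓ : okG m r Γ) {i : ℕ} {t : Tm Tab r ℕ} (h : DerT Γ i t) :
    ∀ a ∈ t.lv, a < m := by
  induction h with
  | emp i => simp [Tm.lv]
  | leaf i a h =>
    intro b hb
    simp only [Tm.lv, Set.mem_singleton_iff] at hb
    subst hb
    by_cases hi : i < Γ.length
    · exact ((hΓ i hi).2 _ h).1
    · rw [List.getD_eq_default _ _ (by omega)] at h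
      simp at h
  | node i q ρ ch h h0 _ _ ih1 ih2 =>
    intro b hb
    simp only [Tm.lv, Set.mem_iUnion] at hb
    obtain ⟨j, hj⟩ := hb
    rcases hρ : ρ.getD j 0 with _ | _ | l
    · rw [h0 j hρ] at hj
      simp [Tm.lv] at hj
    · exact ih1 j hρ b hj
    · exact ih2 j l hρ b hj

theorem derS_colour (hΓ : okG m r Γ) {i : ℕ} {V : Type} {G : SimpleGraph V} {c : V → ℕ}
    {X : Set V} (h : DerS r Γ G c i X) : ∀ v ∈ X, c v < m := by
  obtain ⟨t, h1, h2⟩ := h
  intro v hv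
  exact derT_colour hΓ h1 _ (by rw [h2.lv]; exact ⟨v, hv, rfl⟩)

theorem inCl_iff_derS {i : ℕ} {V : Type} {G : SimpleGraph V} :
    InCl r Γ i G ↔ ∃ c : V → ℕ, DerS r Γ G c i Set.univ := Iff.rfl

/-- the property for terms without colours -/
def PC0 (A : Ω → Fin r → Fin r → Fin M → Fin M → Prop) (m : ℕ) (Γ : Grm) (i : ℕ)
    (t : Tm Ω r (Fin M)) : Prop :=
  ∃ t' : Tm Ω r (L1 M m), t'.map Prod.fst = t ∧ PT Γ (A1 A m) col1 i t'

theorem pc0_iff (hm : 0 < m) (hΓ : okG m r Γ) {i : ℕ} {V : Type} {G : SimpleGraph V}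
    {c : V → Fin M} {t : Tm Ω r (Fin M)} (h : Real G A c t Set.univ) :
    PC0 A m Γ i t ↔ InCl r Γ i G := by
  constructor
  · rintro ⟨t', ht', hp⟩
    obtain ⟨c', -, hr'⟩ := h.unlift (Prod.fst : L1 M m → Fin M) (fun v => (c v, ⟨0, hm⟩)) ht'
    exact ⟨_, (pt_iff (A := A1 A m) hr' col1).1 hp⟩
  · rintro ⟨c1, hS⟩
    have hS' : DerS r Γ G c1 i Set.univ := hS
    set c' : V → L1 M m := fun v => (c v, ⟨c1 v, derS_colour hΓ hS' v trivial⟩) with hc'
    have h' : Real G A (Prod.fst ∘ c') t Set.univ := h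
    obtain ⟨t', ht', hr'⟩ := h'.lift
    exact ⟨t', ht', (pt_iff (A := A1 A m) hr' col1).2 hS'⟩

end Main

theorem Dec.exists_real {V : Type} {G : SimpleGraph V} {m r : ℕ} {c : V → Fin m} {X : Set V}
    (h : Dec G m r c X) : ∃ t : Tm (Fin r → Fin r → Fin m → Fin m → Prop) r (Fin m),
      Real G (fun ω i j a b => ω i j a b) c t X := by
  induction h with
  | empty => exact ⟨.emp, Real.emp⟩
  | single v => exact ⟨.leaf (c v), Real.leaf v⟩
  | union X f _ hd ha ih =>
    choose t ht using ih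
    exact ⟨.node f t, Real.node f t X ht hd ha⟩

theorem Dec.zero {V : Type} {G : SimpleGraph V} {m : ℕ} {c : V → Fin m} {X : Set V}
    (h : Dec G m 0 c X) : X.Subsingleton := by
  cases h with
  | empty => exact Set.subsingleton_empty
  | single v => exact Set.subsingleton_singleton
  | union X f _ _ _ =>
    rw [Set.iUnion_of_empty]
    exact Set.subsingleton_empty

theorem exists_small {M m r : ℕ} {Γ : Grm} (hΓ : okG m r Γ) (i : ℕ) {G : FG}
    (c : Fin G.1 → Fin M) (hd : Dec G.2 M r c Set.univ) (hn : ¬ InCl r Γ i G.2) :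
    ∃ H : FG, Emb H G ∧ ¬ InCl r Γ i H.2 ∧ H.1 < Bd M m r Γ i := by
  classical
  rcases Nat.eq_zero_or_pos r with rfl | hr
  · refine ⟨G, Emb.refl G, hn, ?_⟩
    have h1 := hd.zero
    have h2 : G.1 ≤ 1 := by
      by_contra hc
      push Not at hc
      have := h1 (Set.mem_univ (⟨0, by omega⟩ : Fin G.1)) (Set.mem_univ (⟨1, hc⟩ : Fin G.1))
      simp at this
    unfold Bd
    simp only [zero_add, one_pow]
    omega
  have hne : 0 < G.1 := by
    by_contra hc
    apply hn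
    refine ⟨fun _ => 0, .emp, DerT.emp _, ?_⟩
    have : (Set.univ : Set (Fin G.1)) = ∅ := by
      ext v
      exact absurd v.2 (by omega)
    rw [this]
    exact Real.emp
  rcases Nat.eq_zero_or_pos m with rfl | hm
  · refine ⟨⟨1, ⊥⟩, ⟨⟨⟨fun _ => ⟨0, hne⟩, fun x y _ => Subsingleton.elim x y⟩, ?_⟩⟩, ?_, ?_⟩
    · intro x y
      have : x = y := Subsingleton.elim x y
      subst this
      simp
    · rintro ⟨c1, hS⟩
      exact absurd (derS_colour hΓ hS (0 : Fin 1) trivial) (Nat.not_lt_zero _)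
    · have : 0 < (r + 1) ^ (2 ^ bd (M * 0) r Γ.flatten.length (i + 1)) := by positivity
      unfold Bd
      simp only
      omega
  obtain ⟨t, ht⟩ := hd.exists_real
  have hrec : Rec (2 ^ bd (M * m) r Γ.flatten.length (i + 1))
      (PC0 (fun (ω : Fin r → Fin r → Fin M → Fin M → Prop) i j a b => ω i j a b) m Γ i) :=
    (rec_pt hr hΓ i).exmap (Prod.fst : L1 M m → Fin M)
  obtain ⟨s, hs1, hs2, hs3⟩ := hrec.pump t
  obtain ⟨Y, -, hY⟩ := ht.le hs1
  set e : Y ≃ Fin (Nat.card Y) := Finite.equivFin Y with he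
  set f : Fin (Nat.card Y) ↪ Fin G.1 := e.symm.toEmbedding.trans (Function.Embedding.subtype _)
    with hf
  have hrange : Set.range f = Y := by
    ext v
    constructor
    · rintro ⟨x, rfl⟩
      exact (e.symm x).2
    · intro hv
      refine ⟨e ⟨v, hv⟩, ?_⟩
      change ((e.symm (e ⟨v, hv⟩) : Y) : Fin G.1) = v
      rw [Equiv.symm_apply_apply]
  have hpull := hY.pull f (by rw [hrange])
  have huniv : f ⁻¹' Y = Set.univ := by
    ext x
    simp only [Set.mem_preimage, Set.mem_univ, iff_true]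
    exact (e.symm x).2
  rw [huniv] at hpull
  refine ⟨⟨Nat.card Y, G.2.comap f⟩, ⟨SimpleGraph.Embedding.comap f G.2⟩, ?_, ?_⟩
  · rw [← pc0_iff hm hΓ hpull, hs3, pc0_iff hm hΓ ht]
    exact hn
  · have h1 : Nat.card Y = s.cnt := by
      rw [hY.cnt]
      rfl
    have h2 := s.cnt_le
    have h3 : (r + 1) ^ s.height ≤ (r + 1) ^ (2 ^ bd (M * m) r Γ.flatten.length (i + 1)) :=
      Nat.pow_le_pow_right (by omega) hs2
    unfold Bd
    simp only
    omega

end Pool.Agent.H12Tree
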