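import Pool.Agent.H12Tree.Gram

/-!
# The classes of an admissible grammar are hereditary and have the joint embedding property
-/

namespace Pool.Agent.H12Tree

open Tm Pool.Agent.H12Letter

/-- a term of a production with a reference to itself absorbs larger terms -/
theorem DerT.absorb {r : ℕ} {Γ : Grm} {i : ℕ} {q : Tab} {ρ : List ℕ} {ch : Fin r → Tm Tab r ℕ}
    (h : (0, q, ρ) ∈ Γ.getD i []) (h0 : ∀ j : Fin r, ρ.getD j 0 = 0 → ch j = .emp)
    (h1 : ∀ j : Fin r, ρ.getD j 0 = 1 → DerT Γ i (ch j))
    (h2 : ∀ (j : Fin r) (l : ℕ), ρ.getD j 0 = l + 2 → DerT Γ l (ch j))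
    {j : Fin r} (hj : ρ.getD j 0 = 1) {u : Tm Tab r ℕ} (hu : DerT Γ i u) (hle : Le (ch j) u) :
    ∃ w, DerT Γ i w ∧ Le u w ∧ Le (.node q ch) w := by
  classical
  refine ⟨.node q (Function.update ch j u), DerT.node i q ρ _ h ?_ ?_ ?_, ?_, ?_⟩
  · intro j' hj'
    have hne : j' ≠ j := by
      rintro rfl
      omega
    rw [Function.update_of_ne hne]
    exact h0 j' hj'
  · intro j' hj'
    by_cases hne : j' = j
    · subst hne
      rw [Function.update_self]
      exact hu
    · rw [Function.update_of_ne hne]
      exact h1 j' hj'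
  · intro j' l hj'
    have hne : j' ≠ j := by
      rintro rfl
      omega
    rw [Function.update_of_ne hne]
    exact h2 j' l hj'
  · refine Le.child _ _ _ j ?_
    rw [Function.update_self]
    exact Le.refl _
  · refine Le.node _ _ _ fun j' => ?_
    by_cases hne : j' = j
    · subst hne
      rw [Function.update_self]
      exact hle
    · rw [Function.update_of_ne hne]
      exact Le.refl _

/-- the languages of an admissible grammar are directed -/
theorem derT_directed {m r : ℕ} {Γ : Grm} (h : okG m r Γ) (i : ℕ) {s t : Tm Tab r ℕ}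
    (hs : DerT Γ i s) (ht : DerT Γ i t) : ∃ u, DerT Γ i u ∧ Le s u ∧ Le t u := by
  classical
  induction i using Nat.strong_induction_on generalizing s t with
  | _ i IH =>
  by_cases hi : i < Γ.length
  swap
  · have hnil : Γ.getD i [] = [] := List.getD_eq_default _ _ (not_lt.1 hi)
    cases hs with
    | emp => exact ⟨t, ht, Le.emp _, Le.refl _⟩
    | leaf _ a h => rw [hnil] at h; exact absurd h List.not_mem_nil
    | node _ q ρ ch h => rw [hnil] at h; exact absurd h List.not_mem_nil
  obtain ⟨hok, href⟩ := h i hi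
  have hlt : ∀ (q : Tab) (ρ : List ℕ), (0, q, ρ) ∈ Γ.getD i [] → ∀ (j l : ℕ),
      ρ.getD j 0 = l + 2 → l < i := by
    intro q ρ hq j l hj
    have hjl : j < ρ.length := by
      by_contra hc
      rw [List.getD_eq_default _ _ (not_lt.1 hc)] at hj
      omega
    rw [List.getD_eq_getElem _ _ hjl] at hj
    have := (href _ hq).2 _ (List.getElem_mem hjl)
    omega
  rcases hok with ⟨⟨p1, q, ρ⟩, hp, hp1, j, hj, k, hk, hjk, hρj, hρk⟩ | hone
  · -- two references
    simp only at hp1 hρj hρk
    subst hp1
    set J : Fin r := ⟨j, hj⟩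
    set K : Fin r := ⟨k, hk⟩
    have hJK : K ≠ J := fun h => hjk (congrArg Fin.val h).symm
    refine ⟨.node q (Function.update (Function.update (fun _ => .emp) J s) K t),
      DerT.node i q ρ _ hp ?_ ?_ ?_, ?_, ?_⟩
    · intro j' hj'
      have h1 : j' ≠ J := by
        rintro rfl
        have : ρ.getD j 0 = 0 := hj'
        omega
      have h2 : j' ≠ K := by
        rintro rfl
        have : ρ.getD k 0 = 0 := hj'
        omega
      rw [Function.update_of_ne h2, Function.update_of_ne h1]
    · intro j' _
      by_cases h2 : j' = K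
      · rw [h2, Function.update_self]
        exact ht
      · rw [Function.update_of_ne h2]
        by_cases h1 : j' = J
        · rw [h1, Function.update_self]
          exact hs
        · rw [Function.update_of_ne h1]
          exact DerT.emp _
    · intro j' l hj'
      have h1 : j' ≠ J := by
        rintro rfl
        have : ρ.getD j 0 = l + 2 := hj'
        omega
      have h2 : j' ≠ K := by
        rintro rfl
        have : ρ.getD k 0 = l + 2 := hj'
        omega
      rw [Function.update_of_ne h2, Function.update_of_ne h1]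
      exact DerT.emp _
    · refine Le.child _ _ _ J ?_
      rw [Function.update_of_ne hJK.symm, Function.update_self]
      exact Le.refl _
    · refine Le.child _ _ _ K ?_
      rw [Function.update_self]
      exact Le.refl _
  · -- at most one production without reference to itself
    have hleaf : ∀ a : ℕ, ∀ j < r, ((a + 1, [], []) : PC).2.2.getD j 0 ≠ 1 := by
      intro a j _
      simp
    induction s generalizing t with
    | emp => exact ⟨t, ht, Le.emp _, Le.refl _⟩
    | leaf a =>
      cases hs with
      | leaf _ _ ha =>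
      induction t with
      | emp => exact ⟨.leaf a, DerT.leaf _ _ ha, Le.refl _, Le.emp _⟩
      | leaf b =>
        cases ht with
        | leaf _ _ hb =>
        have he := hone _ ha _ hb (hleaf a) (hleaf b)
        simp only [Prod.mk.injEq, Nat.add_right_cancel_iff, and_true] at he
        subst he
        exact ⟨.leaf a, DerT.leaf _ _ ha, Le.refl _, Le.refl _⟩
      | node q ch ih =>
        cases ht with
        | node _ _ ρ _ hb h0 h1 h2 =>
        by_cases hex : ∃ j : Fin r, ρ.getD j 0 = 1
        · obtain ⟨j, hj⟩ := hex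
          obtain ⟨u, hu, hsu, htu⟩ := ih j (h1 j hj)
          obtain ⟨w, hw, h3, h4⟩ := DerT.absorb hb h0 h1 h2 hj hu htu
          exact ⟨w, hw, hsu.trans h3, h4⟩
        · push Not at hex
          have he := hone _ ha _ hb (hleaf a) fun j hj => hex ⟨j, hj⟩
          simp at he
    | node q ch ihs =>
      cases hs with
      | node _ _ ρ _ ha h0 h1 h2 =>
      by_cases hex : ∃ j : Fin r, ρ.getD j 0 = 1
      · obtain ⟨j, hj⟩ := hex
        obtain ⟨u, hu, hsu, htu⟩ := ihs j (h1 j hj) ht
        obtain ⟨w, hw, h3, h4⟩ := DerT.absorb ha h0 h1 h2 hj hu hsu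
        exact ⟨w, hw, h4, htu.trans h3⟩
      · push Not at hex
        induction t with
        | emp => exact ⟨.node q ch, DerT.node i q ρ ch ha h0 h1 h2, Le.refl _, Le.emp _⟩
        | leaf b =>
          cases ht with
          | leaf _ _ hb =>
          have he := hone _ ha _ hb (fun j hj => hex ⟨j, hj⟩) (hleaf b)
          simp at he
        | node q' ch' iht =>
          cases ht with
          | node _ _ ρ' _ hb g0 g1 g2 =>
          by_cases hex' : ∃ j : Fin r, ρ'.getD j 0 = 1
          · obtain ⟨j, hj⟩ := hex'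
            obtain ⟨u, hu, hsu, htu⟩ := iht j (g1 j hj)
            obtain ⟨w, hw, h3, h4⟩ := DerT.absorb hb g0 g1 g2 hj hu htu
            exact ⟨w, hw, hsu.trans h3, h4⟩
          · push Not at hex'
            have he := hone _ ha _ hb (fun j hj => hex ⟨j, hj⟩) fun j hj => hex' ⟨j, hj⟩
            simp only [Prod.mk.injEq, true_and] at he
            obtain ⟨rfl, rfl⟩ := he
            have key : ∀ j : Fin r, ∃ w : Tm Tab r ℕ, (ρ.getD j 0 = 0 → w = .emp) ∧
                (∀ l, ρ.getD j 0 = l + 2 → DerT Γ l w) ∧ Le (ch j) w ∧ Le (ch' j) w := by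
              intro j
              rcases hc : ρ.getD j 0 with _ | _ | l
              · refine ⟨.emp, fun _ => rfl, fun l hl => by omega, ?_, ?_⟩
                · rw [h0 j hc]
                  exact Le.refl _
                · rw [g0 j hc]
                  exact Le.refl _
              · exact absurd hc (hex j)
              · obtain ⟨w, hw, h3, h4⟩ := IH l (hlt _ _ ha _ _ hc) (h2 j l hc) (g2 j l hc)
                refine ⟨w, fun h => by omega, fun l' hl' => ?_, h3, h4⟩
                have : l' = l := by omega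
                rw [this]
                exact hw
            choose w w0 w2 w3 w4 using key
            exact ⟨.node q w, DerT.node i q ρ w ha w0 (fun j hj => absurd hj (hex j))
              (fun j l => w2 j l), Le.node _ _ _ w3, Le.node _ _ _ w4⟩

/-- realizations can be pulled back -/
theorem Real.comap {Ω : Type} {r : ℕ} {Λ V W : Type} {G : SimpleGraph V} {H : SimpleGraph W}
    {A : Ω → Fin r → Fin r → Λ → Λ → Prop} {c : V → Λ} {t : Tm Ω r Λ} {X : Set V} {f : W → V}
    (hf : Function.Injective f) (hadj : ∀ u v, H.Adj u v ↔ G.Adj (f u) (f v))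
    (h : Real G A c t X) (hX : X ⊆ Set.range f) : Real H A (c ∘ f) t (f ⁻¹' X) := by
  induction h with
  | emp =>
    rw [Set.preimage_empty]
    exact Real.emp
  | leaf v =>
    obtain ⟨w, rfl⟩ := hX (Set.mem_singleton v)
    have : f ⁻¹' {f w} = {w} := by
      ext x
      simp only [Set.mem_preimage, Set.mem_singleton_iff]
      exact hf.eq_iff
    rw [this]
    exact Real.leaf (c := c ∘ f) w
  | node ω ch X _ hd ha ih =>
    rw [Set.preimage_iUnion]
    refine Real.node ω ch _ (fun i => ih i ((Set.subset_iUnion X i).trans hX))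
      (fun i j hij => (hd i j hij).preimage f) fun i j hij u hu v hv => ?_
    rw [hadj]
    exact ha i j hij _ hu _ hv

theorem inCl_hereditary (r : ℕ) (Γ : Grm) (i : ℕ) : Hereditary {G : FG | InCl r Γ i G.2} := by
  rintro G H ⟨f⟩ ⟨c, t, ht, hr⟩
  obtain ⟨s, hs, hr'⟩ := hr.restrict (Set.range f)
  refine ⟨c ∘ f, s, ht.shr hs, ?_⟩
  have h1 := hr'.comap (H := G.2) (f := f) f.injective (fun u v => f.map_rel_iff.symm)
    Set.inter_subset_right
  have h2 : f ⁻¹' (Set.univ ∩ Set.range f) = Set.univ := by
    ext x
    simp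
  rw [h2] at h1
  exact h1

/-- a term below the term of a graph gives an induced subgraph -/
theorem Real.emb {Ω : Type} {r : ℕ} {Λ V W : Type} {G : SimpleGraph V} {H : SimpleGraph W}
    {A : Ω → Fin r → Fin r → Λ → Λ → Prop} {c : V → Λ} {c' : W → Λ} {s t : Tm Ω r Λ}
    (h : Real G A c s Set.univ) (hle : Le s t) (h' : Real H A c' t Set.univ) :
    Nonempty (G ↪g H) := by
  obtain ⟨Y, -, hY⟩ := h'.le hle
  obtain ⟨e, -, he⟩ := h.unique hY
  refine ⟨⟨⟨fun x => (e ⟨x, trivial⟩ : W), fun x y hxy => ?_⟩, fun {x y} => he _ _⟩⟩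
  have := e.injective (Subtype.ext hxy)
  exact congrArg Subtype.val this

theorem inCl_jep {m r : ℕ} {Γ : Grm} (h : okG m r Γ) (i : ℕ) :
    JEP {G : FG | InCl r Γ i G.2} := by
  rintro G ⟨c, s, hs, hG⟩ H ⟨c', t, ht, hH⟩
  obtain ⟨u, hu, hsu, htu⟩ := derT_directed h i hs ht
  obtain ⟨V, K, d, hK⟩ := exists_real AT u
  have : Finite V := Set.finite_univ_iff.1 hK.finite
  obtain ⟨n, ⟨e⟩⟩ := Finite.exists_equiv_fin V
  have hK' : Real (K.comap e.symm) AT (d ∘ e.symm) u Set.univ := by
    have := hK.comap (H := K.comap e.symm) (f := e.symm) e.symm.injective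
      (fun u v => Iff.rfl) (by rw [e.symm.surjective.range_eq])
    rwa [Set.preimage_univ] at this
  exact ⟨⟨n, K.comap e.symm⟩, ⟨d ∘ e.symm, u, hu, hK'⟩, hG.emb hsu hK', hH.emb htu hK'⟩

end Pool.Agent.H12Tree
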