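import Pool.Agent.H12Tree.BJ
import Pool.Agent.H12Tree.Jep
import Pool.Agent.H12Tree.Bound

/-!
# The classes of an admissible grammar have joint embeddings of bounded interaction
-/

namespace Pool.Agent.H12Tree

open Tm Pool.Agent.H12Letter

/-- bounded interaction of two sets of vertices -/
def BI (f : ℕ) {V : Type} (K : SimpleGraph V) (Y₁ Y₂ : Set V) : Prop :=
  ∃ (d₁ d₂ : V → Fin f) (E T : Fin f → Fin f → Prop), ∀ u ∈ Y₁, ∀ v ∈ Y₂,
    (u = v ↔ E (d₁ u) (d₂ v)) ∧ (K.Adj u v ↔ T (d₁ u) (d₂ v))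

/-- bounded interaction with colours in `D` -/
def BId (D : Type) {V : Type} (K : SimpleGraph V) (Y₁ Y₂ : Set V) : Prop :=
  ∃ (d₁ d₂ : V → D) (E T : D → D → Prop), ∀ u ∈ Y₁, ∀ v ∈ Y₂,
    (u = v ↔ E (d₁ u) (d₂ v)) ∧ (K.Adj u v ↔ T (d₁ u) (d₂ v))

section BIdLemmas

variable {D D' V : Type} {K : SimpleGraph V} {Y₁ Y₂ Z₁ Z₂ : Set V}

theorem BId.map (g : D → D') (hg : Function.Injective g) (h : BId D K Y₁ Y₂) :
    BId D' K Y₁ Y₂ := by
  obtain ⟨d₁, d₂, E, T, h⟩ := h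
  refine ⟨g ∘ d₁, g ∘ d₂, fun a b => ∃ x y, g x = a ∧ g y = b ∧ E x y,
    fun a b => ∃ x y, g x = a ∧ g y = b ∧ T x y, fun u hu v hv => ?_⟩
  obtain ⟨h1, h2⟩ := h u hu v hv
  refine ⟨h1.trans ⟨fun h => ⟨_, _, rfl, rfl, h⟩, ?_⟩,
    h2.trans ⟨fun h => ⟨_, _, rfl, rfl, h⟩, ?_⟩⟩
  · rintro ⟨x, y, hx, hy, h⟩
    rwa [hg hx, hg hy] at h
  · rintro ⟨x, y, hx, hy, h⟩
    rwa [hg hx, hg hy] at h

theorem BId.sub (h : BId D K Y₁ Y₂) (h1 : Z₁ ⊆ Y₁) (h2 : Z₂ ⊆ Y₂) : BId D K Z₁ Z₂ := by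
  obtain ⟨d₁, d₂, E, T, h⟩ := h
  exact ⟨d₁, d₂, E, T, fun u hu v hv => h u (h1 hu) v (h2 hv)⟩

theorem BId.left [Nonempty D] : BId D K ∅ Y₂ :=
  ⟨fun _ => Classical.arbitrary D, fun _ => Classical.arbitrary D, fun _ _ => False,
    fun _ _ => False, fun _ hu => absurd hu (Set.notMem_empty _)⟩

theorem BId.right [Nonempty D] : BId D K Y₁ ∅ :=
  ⟨fun _ => Classical.arbitrary D, fun _ => Classical.arbitrary D, fun _ _ => False,
    fun _ _ => False, fun _ _ _ hv => absurd hv (Set.notMem_empty _)⟩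

end BIdLemmas

/-- `u` contains `s` and `t` with the interaction `P` -/
def Joins {r : ℕ} (Γ : Grm) (i : ℕ)
    (P : ∀ V : Type, SimpleGraph V → (V → ℕ) → Set V → Set V → Prop)
    (s t : Tm Tab r ℕ) : Prop :=
  ∃ u : Tm Tab r ℕ, DerT Γ i u ∧
    ∀ (V : Type) (K : SimpleGraph V) (c : V → ℕ) (X : Set V), Real K AT c u X →
      ∃ Y₁ ⊆ X, ∃ Y₂ ⊆ X, Real K AT c s Y₁ ∧ Real K AT c t Y₂ ∧ P V K c Y₁ Y₂

/-- rows of the adjacency matrix given by the tables -/
abbrev Row (m r : ℕ) (ps : List PC) : Type := {p // p ∈ ps} × Fin r × Fin r × Fin (m + 1)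

def rv {m r : ℕ} {ps : List PC} (ρ : Row m r ps) (b : ℕ) : Prop :=
  (ρ.2.1 < ρ.2.2.1 ∧ AT ρ.1.1.2.1 ρ.2.1 ρ.2.2.1 (ρ.2.2.2 : ℕ) b) ∨
    (ρ.2.2.1 < ρ.2.1 ∧ AT ρ.1.1.2.1 ρ.2.2.1 ρ.2.1 b (ρ.2.2.2 : ℕ))

def lab (m n : ℕ) : Fin (m + 1) := ⟨min n m, by omega⟩

theorem lab_val {m n : ℕ} (h : n ≤ m) : (lab m n : ℕ) = n := min_eq_left h

/-- colours for two terms without reference to themselves -/
abbrev B2 (m r f : ℕ) : Type := Unit ⊕ (Fin (m + 1) × Fin r × Fin f)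

def P1 (m r f : ℕ) (ps : List PC) (V : Type) (K : SimpleGraph V) (c : V → ℕ)
    (Y₁ Y₂ : Set V) : Prop :=
  ∃ S₂ : Set V, (∀ y ∈ Y₂, y ∈ S₂ → ∃ ρ : Row m r ps, ∀ x ∈ Y₁,
      x ≠ y ∧ (K.Adj x y ↔ rv ρ (c x))) ∧
    BId (B2 m r f) K Y₁ (Y₂ \ S₂)

def P2 (m r f : ℕ) (ps : List PC) (V : Type) (K : SimpleGraph V) (c : V → ℕ)
    (Y₁ Y₂ : Set V) : Prop :=
  ∃ S₁ S₂ : Set V, (∀ x ∈ Y₁, x ∈ S₁ → ∃ ρ : Row m r ps, ∀ y ∈ Y₂,
      x ≠ y ∧ (K.Adj x y ↔ rv ρ (c y))) ∧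
    (∀ y ∈ Y₂, y ∈ S₂ → ∃ ρ : Row m r ps, ∀ x ∈ Y₁ \ S₁,
      x ≠ y ∧ (K.Adj x y ↔ rv ρ (c x))) ∧
    BId (B2 m r f) K (Y₁ \ S₁) (Y₂ \ S₂)

theorem P1.toP2 {m r f : ℕ} {ps : List PC} {V : Type} {K : SimpleGraph V} {c : V → ℕ}
    {Y₁ Y₂ : Set V} (h : P1 m r f ps V K c Y₁ Y₂) : P2 m r f ps V K c Y₁ Y₂ := by
  obtain ⟨S₂, h1, h2⟩ := h
  refine ⟨∅, S₂, fun x _ hx => absurd hx (Set.notMem_empty _), fun y hy hy2 => ?_, ?_⟩
  · obtain ⟨ρ, hρ⟩ := h1 y hy hy2
    exact ⟨ρ, fun x hx => hρ x hx.1⟩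
  · exact h2.sub Set.sdiff_subset subset_rfl

/-- all colours -/
abbrev Dc (m r f : ℕ) (ps : List PC) : Type := Fin (m + 1) × (Row m r ps ⊕ B2 m r f)

theorem P2.bid {m r f : ℕ} {ps : List PC} {V : Type} {K : SimpleGraph V} {c : V → ℕ}
    {Y₁ Y₂ : Set V} (h : P2 m r f ps V K c Y₁ Y₂) (h1 : ∀ x ∈ Y₁, c x ≤ m)
    (h2 : ∀ y ∈ Y₂, c y ≤ m) : BId (Dc m r f ps) K Y₁ Y₂ := by
  classical
  obtain ⟨S₁, S₂, hr1, hr2, e₁, e₂, E, T, hb⟩ := h
  have hr1' : ∀ x, ∃ o : Row m r ps ⊕ B2 m r f, (x ∈ Y₁ → x ∈ S₁ → ∃ ρ, o = Sum.inl ρ ∧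
      ∀ y ∈ Y₂, x ≠ y ∧ (K.Adj x y ↔ rv ρ (c y))) ∧
      (x ∈ Y₁ → x ∉ S₁ → o = Sum.inr (e₁ x)) := by
    intro x
    by_cases hx : x ∈ Y₁ ∧ x ∈ S₁
    · obtain ⟨ρ, hρ⟩ := hr1 x hx.1 hx.2
      exact ⟨Sum.inl ρ, fun _ _ => ⟨ρ, rfl, hρ⟩, fun _ h => absurd hx.2 h⟩
    · exact ⟨Sum.inr (e₁ x), fun h h' => absurd ⟨h, h'⟩ hx, fun _ _ => rfl⟩
  have hr2' : ∀ y, ∃ o : Row m r ps ⊕ B2 m r f, (y ∈ Y₂ → y ∈ S₂ → ∃ ρ, o = Sum.inl ρ ∧
      ∀ x ∈ Y₁ \ S₁, x ≠ y ∧ (K.Adj x y ↔ rv ρ (c x))) ∧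
      (y ∈ Y₂ → y ∉ S₂ → o = Sum.inr (e₂ y)) := by
    intro y
    by_cases hy : y ∈ Y₂ ∧ y ∈ S₂
    · obtain ⟨ρ, hρ⟩ := hr2 y hy.1 hy.2
      exact ⟨Sum.inl ρ, fun _ _ => ⟨ρ, rfl, hρ⟩, fun _ h => absurd hy.2 h⟩
    · exact ⟨Sum.inr (e₂ y), fun h h' => absurd ⟨h, h'⟩ hy, fun _ _ => rfl⟩
  choose o₁ ho₁ ho₁' using hr1'
  choose o₂ ho₂ ho₂' using hr2'
  refine ⟨fun x => (lab m (c x), o₁ x), fun y => (lab m (c y), o₂ y),
    fun a b => match a.2, b.2 with
      | Sum.inl _, _ => False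
      | Sum.inr _, Sum.inl _ => False
      | Sum.inr e, Sum.inr e' => E e e',
    fun a b => match a.2, b.2 with
      | Sum.inl ρ, _ => rv ρ (b.1 : ℕ)
      | Sum.inr _, Sum.inl ρ => rv ρ (a.1 : ℕ)
      | Sum.inr e, Sum.inr e' => T e e', ?_⟩
  intro x hx y hy
  by_cases hxS : x ∈ S₁
  · obtain ⟨ρ, hρ, hxy⟩ := ho₁ x hx hxS
    simp only [hρ, lab_val (h2 y hy)]
    exact ⟨by simp [(hxy y hy).1], (hxy y hy).2⟩
  · have e1 := ho₁' x hx hxS
    by_cases hyS : y ∈ S₂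
    · obtain ⟨ρ, hρ, hxy⟩ := ho₂ y hy hyS
      simp only [e1, hρ, lab_val (h1 x hx)]
      exact ⟨by simp [(hxy x ⟨hx, hxS⟩).1], (hxy x ⟨hx, hxS⟩).2⟩
    · have e2 := ho₂' y hy hyS
      simp only [e1, e2]
      exact hb x ⟨hx, hxS⟩ y ⟨hy, hyS⟩

theorem colour_le {m r : ℕ} {Γ : Grm} (hΓ : okG m r Γ) {i : ℕ} {u : Tm Tab r ℕ}
    (hu : DerT Γ i u) {V : Type} {K : SimpleGraph V} {c : V → ℕ} {X : Set V}
    (h : Real K AT c u X) : ∀ x ∈ X, c x ≤ m := by
  intro x hx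
  refine (derT_colour hΓ hu (c x) ?_).le
  rw [h.lv]
  exact ⟨x, hx, rfl⟩

/-- a production with a reference to itself: a larger term, and what is added -/
theorem DerT.expand {m r : ℕ} {Γ : Grm} (hΓ : okG m r Γ) {i : ℕ} {q : Tab} {ρ : List ℕ}
    {ch : Fin r → Tm Tab r ℕ}
    (h : (0, q, ρ) ∈ Γ.getD i []) (h0 : ∀ j : Fin r, ρ.getD j 0 = 0 → ch j = .emp)
    (h1 : ∀ j : Fin r, ρ.getD j 0 = 1 → DerT Γ i (ch j))
    (h2 : ∀ (j : Fin r) (l : ℕ), ρ.getD j 0 = l + 2 → DerT Γ l (ch j))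
    {j0 : Fin r} (hj : ρ.getD j0 0 = 1) {u' : Tm Tab r ℕ} (hu' : DerT Γ i u') :
    ∃ u : Tm Tab r ℕ, DerT Γ i u ∧
      ∀ (V : Type) (K : SimpleGraph V) (c : V → ℕ) (Z : Set V), Real K AT c u Z →
        ∃ Z' ⊆ Z, Real K AT c u' Z' ∧ ∃ S ⊆ Z,
          (∀ Y' ⊆ Z', Real K AT c (ch j0) Y' → Real K AT c (.node q ch) (S ∪ Y')) ∧
          ∀ x ∈ S, ∃ row : Row m r (Γ.getD i []), ∀ y ∈ Z',
            x ≠ y ∧ (K.Adj x y ↔ rv row (c y)) := by
  classical
  have hu : DerT Γ i (.node q (Function.update ch j0 u')) := by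
    refine DerT.node i q ρ _ h ?_ ?_ ?_
    · intro j' hj'
      have hne : j' ≠ j0 := by
        rintro rfl
        omega
      rw [Function.update_of_ne hne]
      exact h0 j' hj'
    · intro j' hj'
      by_cases hne : j' = j0
      · subst hne
        rw [Function.update_self]
        exact hu'
      · rw [Function.update_of_ne hne]
        exact h1 j' hj'
    · intro j' l hj'
      have hne : j' ≠ j0 := by
        rintro rfl
        omega
      rw [Function.update_of_ne hne]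
      exact h2 j' l hj'
  refine ⟨_, hu, ?_⟩
  intro V K c Z hZ
  have hcol := colour_le hΓ hu hZ
  generalize hw : (Tm.node q (Function.update ch j0 u') : Tm Tab r ℕ) = w at hZ
  cases hZ with
  | emp => exact absurd hw (by simp)
  | leaf v => exact absurd hw (by simp)
  | node q' ch' X hX hd ha =>
    simp only [Tm.node.injEq] at hw
    obtain ⟨rfl, rfl⟩ := hw
    refine ⟨X j0, Set.subset_iUnion X j0, ?_, ⋃ j, ⋃ _ : j ≠ j0, X j, ?_, ?_, ?_⟩
    · have := hX j0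
      rwa [Function.update_self] at this
    · intro x hx
      simp only [Set.mem_iUnion] at hx ⊢
      obtain ⟨j, -, hx⟩ := hx
      exact ⟨j, hx⟩
    · intro Y' hY' hr
      have hU : (⋃ j, ⋃ _ : j ≠ j0, X j) ∪ Y' = ⋃ j, Function.update X j0 Y' j := by
        ext x
        simp only [Set.mem_union, Set.mem_iUnion]
        constructor
        · rintro (⟨j, hj, hx⟩ | hx)
          · exact ⟨j, by rwa [Function.update_of_ne hj]⟩
          · exact ⟨j0, by rwa [Function.update_self]⟩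
        · rintro ⟨j, hx⟩
          by_cases hj : j = j0
          · subst hj
            rw [Function.update_self] at hx
            exact Or.inr hx
          · rw [Function.update_of_ne hj] at hx
            exact Or.inl ⟨j, hj, hx⟩
      have hsub : ∀ j, Function.update X j0 Y' j ⊆ X j := by
        intro j
        by_cases hj : j = j0
        · subst hj
          rw [Function.update_self]
          exact hY'
        · rw [Function.update_of_ne hj]
      rw [hU]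
      refine Real.node q ch _ (fun j => ?_)
        (fun j k hjk => (hd j k hjk).mono (hsub j) (hsub k))
        fun j k hjk x hx y hy => ha j k hjk x (hsub j hx) y (hsub k hy)
      by_cases hj : j = j0
      · subst hj
        rw [Function.update_self]
        exact hr
      · have := hX j
        rw [Function.update_of_ne hj] at this
        rwa [Function.update_of_ne hj]
    · intro x hx
      simp only [Set.mem_iUnion] at hx
      obtain ⟨j, hj, hx⟩ := hx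
      have hxm : c x ≤ m := hcol x (Set.mem_iUnion.2 ⟨j, hx⟩)
      refine ⟨(⟨(0, q, ρ), h⟩, j, j0, lab m (c x)), fun y hy => ⟨?_, ?_⟩⟩
      · rintro rfl
        exact Set.disjoint_left.1 (hd j j0 hj) hx hy
      · simp only [rv, lab_val hxm]
        rcases lt_or_gt_of_ne hj with hlt | hlt
        · rw [ha j j0 hlt x hx y hy]
          simp [hlt, hlt.not_gt]
        · rw [SimpleGraph.adj_comm, ha j0 j hlt y hy x hx]
          simp [hlt, hlt.not_gt]

/-- two terms of one production without reference to itself -/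
theorem joins_node {m r : ℕ} {Γ : Grm} (hΓ : okG m r Γ) {i f : ℕ} {q : Tab} {ρ : List ℕ}
    {ch ch' : Fin r → Tm Tab r ℕ} (hf : 0 < f)
    (h : (0, q, ρ) ∈ Γ.getD i []) (h0 : ∀ j : Fin r, ρ.getD j 0 = 0 → ch j = .emp)
    (g0 : ∀ j : Fin r, ρ.getD j 0 = 0 → ch' j = .emp)
    (h1 : ∀ j : Fin r, ρ.getD j 0 ≠ 1)
    (h2 : ∀ (j : Fin r) (l : ℕ), ρ.getD j 0 = l + 2 →
      Joins Γ l (fun _ K _ Y₁ Y₂ => BId (Fin f) K Y₁ Y₂) (ch j) (ch' j)) :
    Joins Γ i (fun _ K _ Y₁ Y₂ => BId (B2 m r f) K Y₁ Y₂) (.node q ch) (.node q ch') := by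
  classical
  have hne : Nonempty (Fin f) := ⟨⟨0, hf⟩⟩
  have key : ∀ j : Fin r, ∃ w : Tm Tab r ℕ, (ρ.getD j 0 = 0 → w = .emp) ∧
      (∀ l, ρ.getD j 0 = l + 2 → DerT Γ l w) ∧
      ∀ (V : Type) (K : SimpleGraph V) (c : V → ℕ) (X : Set V), Real K AT c w X →
        ∃ Y₁ ⊆ X, ∃ Y₂ ⊆ X, Real K AT c (ch j) Y₁ ∧ Real K AT c (ch' j) Y₂ ∧
          BId (Fin f) K Y₁ Y₂ := by
    intro j
    rcases hc : ρ.getD j 0 with _ | _ | l
    · refine ⟨.emp, fun _ => rfl, fun l hl => by omega, fun V K c X _ => ?_⟩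
      rw [h0 j hc, g0 j hc]
      exact ⟨∅, Set.empty_subset _, ∅, Set.empty_subset _, Real.emp, Real.emp, BId.left⟩
    · exact absurd hc (h1 j)
    · obtain ⟨w, hw, hr⟩ := h2 j l hc
      refine ⟨w, fun h => by omega, fun l' hl' => ?_, hr⟩
      have : l' = l := by omega
      rw [this]
      exact hw
  choose w w0 w2 hr using key
  have hu : DerT Γ i (.node q w) := DerT.node i q ρ w h w0 (fun j hj => absurd hj (h1 j))
    (fun j l => w2 j l)
  refine ⟨_, hu, ?_⟩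
  intro V K c Z hZ
  have hcol := colour_le hΓ hu hZ
  generalize hw : (Tm.node q w : Tm Tab r ℕ) = ww at hZ
  cases hZ with
  | emp => exact absurd hw (by simp)
  | leaf v => exact absurd hw (by simp)
  | node q' ch' X hX hd ha =>
    simp only [Tm.node.injEq] at hw
    obtain ⟨rfl, rfl⟩ := hw
    choose Y₁ hY₁ Y₂ hY₂ hr₁ hr₂ d₁ d₂ E T hb using fun j => hr j V K c (X j) (hX j)
    refine ⟨⋃ j, Y₁ j, Set.iUnion_mono hY₁, ⋃ j, Y₂ j, Set.iUnion_mono hY₂,
      Real.node q _ _ hr₁ (fun j k hjk => (hd j k hjk).mono (hY₁ j) (hY₁ k))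
        (fun j k hjk x hx y hy => ha j k hjk x (hY₁ j hx) y (hY₁ k hy)),
      Real.node q _ _ hr₂ (fun j k hjk => (hd j k hjk).mono (hY₂ j) (hY₂ k))
        (fun j k hjk x hx y hy => ha j k hjk x (hY₂ j hx) y (hY₂ k hy)), ?_⟩
    have hpart : ∀ x, ∃ o : Option (Fin r), ∀ j, x ∈ X j → o = some j := by
      intro x
      by_cases hx : ∃ j, x ∈ X j
      · obtain ⟨j, hj⟩ := hx
        refine ⟨some j, fun k hk => ?_⟩
        by_contra hne
        exact Set.disjoint_left.1 (hd j k (fun h => hne (by rw [h]))) hj hk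
      · exact ⟨none, fun j hj => absurd ⟨j, hj⟩ hx⟩
    choose o ho using hpart
    refine ⟨fun x => match o x with
        | some j => Sum.inr (lab m (c x), j, d₁ j x)
        | none => Sum.inl (),
      fun x => match o x with
        | some j => Sum.inr (lab m (c x), j, d₂ j x)
        | none => Sum.inl (),
      fun a b => match a, b with
        | Sum.inr (_, j, e), Sum.inr (_, k, e') => j = k ∧ E j e e'
        | _, _ => False,
      fun a b => match a, b with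
        | Sum.inr (x, j, e), Sum.inr (y, k, e') =>
          (j < k ∧ AT q j k (x : ℕ) (y : ℕ)) ∨ (k < j ∧ AT q k j (y : ℕ) (x : ℕ)) ∨
            (j = k ∧ T j e e')
        | _, _ => False, ?_⟩
    intro x hx y hy
    obtain ⟨j, hj⟩ := Set.mem_iUnion.1 hx
    obtain ⟨k, hk⟩ := Set.mem_iUnion.1 hy
    have hxX := hY₁ j hj
    have hyX := hY₂ k hk
    simp only [ho x j hxX, ho y k hyX]
    have hxm : c x ≤ m := hcol x (Set.mem_iUnion.2 ⟨j, hxX⟩)
    have hym : c y ≤ m := hcol y (Set.mem_iUnion.2 ⟨k, hyX⟩)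
    rw [lab_val hxm, lab_val hym]
    rcases lt_trichotomy j k with hjk | hjk | hjk
    · constructor
      · constructor
        · rintro rfl
          exact absurd hyX (Set.disjoint_left.1 (hd j k hjk.ne) hxX)
        · rintro ⟨h, -⟩
          exact absurd h hjk.ne
      · rw [ha j k hjk x hxX y hyX]
        simp [hjk, hjk.not_gt, hjk.ne]
    · subst hjk
      simpa using hb j x hj y hk
    · constructor
      · constructor
        · rintro rfl
          exact absurd hxX (Set.disjoint_left.1 (hd k j hjk.ne) hyX)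
        · rintro ⟨h, -⟩
          exact absurd h hjk.ne'
      · rw [SimpleGraph.adj_comm, ha k j hjk y hyX x hxX]
        simp [hjk, hjk.not_gt, hjk.ne']

theorem Joins.mono {r : ℕ} {Γ : Grm} {i : ℕ}
    {P Q : ∀ V : Type, SimpleGraph V → (V → ℕ) → Set V → Set V → Prop}
    {s t : Tm Tab r ℕ} (h : Joins Γ i P s t)
    (hPQ : ∀ (V : Type) (K : SimpleGraph V) (c : V → ℕ) (Y₁ Y₂ : Set V),
      P V K c Y₁ Y₂ → Q V K c Y₁ Y₂) : Joins Γ i Q s t := by
  obtain ⟨u, hu, hr⟩ := h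
  refine ⟨u, hu, fun V K c X hX => ?_⟩
  obtain ⟨Y₁, hY₁, Y₂, hY₂, h1, h2, hP⟩ := hr V K c X hX
  exact ⟨Y₁, hY₁, Y₂, hY₂, h1, h2, hPQ V K c Y₁ Y₂ hP⟩

/-- one more step of the first term -/
theorem Joins.stepL {m r : ℕ} {Γ : Grm} (hΓ : okG m r Γ) {i f : ℕ} {q : Tab} {ρ : List ℕ}
    {ch : Fin r → Tm Tab r ℕ}
    (h : (0, q, ρ) ∈ Γ.getD i []) (h0 : ∀ j : Fin r, ρ.getD j 0 = 0 → ch j = .emp)
    (h1 : ∀ j : Fin r, ρ.getD j 0 = 1 → DerT Γ i (ch j))
    (h2 : ∀ (j : Fin r) (l : ℕ), ρ.getD j 0 = l + 2 → DerT Γ l (ch j))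
    {j0 : Fin r} (hj : ρ.getD j0 0 = 1) {t : Tm Tab r ℕ}
    (hJ : Joins Γ i (P2 m r f (Γ.getD i [])) (ch j0) t) :
    Joins Γ i (P2 m r f (Γ.getD i [])) (.node q ch) t := by
  obtain ⟨u', hu', hr'⟩ := hJ
  obtain ⟨u, hu, hr⟩ := DerT.expand hΓ h h0 h1 h2 hj hu'
  refine ⟨u, hu, fun V K c Z hZ => ?_⟩
  obtain ⟨Z', hZ', hrZ', S, hS, hS1, hS2⟩ := hr V K c Z hZ
  obtain ⟨Y₁, hY₁, Y₂, hY₂, hy1, hy2, S₁, S₂, a1, a2, a3⟩ := hr' V K c Z' hrZ'
  refine ⟨S ∪ Y₁, Set.union_subset hS (hY₁.trans hZ'), Y₂, hY₂.trans hZ', hS1 Y₁ hY₁ hy1, hy2,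
    S ∪ S₁, S₂, ?_, ?_, ?_⟩
  · intro x hx hxS
    by_cases hxs : x ∈ S
    · obtain ⟨row, hrow⟩ := hS2 x hxs
      exact ⟨row, fun y hy => hrow y (hY₂ hy)⟩
    · exact a1 x (hx.resolve_left hxs) (hxS.resolve_left hxs)
  · intro y hy hyS
    obtain ⟨row, hrow⟩ := a2 y hy hyS
    refine ⟨row, fun x hx => hrow x ⟨hx.1.resolve_left fun h => hx.2 (Or.inl h),
      fun h => hx.2 (Or.inr h)⟩⟩
  · exact a3.sub (fun x hx => ⟨hx.1.resolve_left fun h => hx.2 (Or.inl h),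
      fun h => hx.2 (Or.inr h)⟩) subset_rfl

/-- one more step of the second term -/
theorem Joins.stepR {m r : ℕ} {Γ : Grm} (hΓ : okG m r Γ) {i f : ℕ} {q : Tab} {ρ : List ℕ}
    {ch : Fin r → Tm Tab r ℕ}
    (h : (0, q, ρ) ∈ Γ.getD i []) (h0 : ∀ j : Fin r, ρ.getD j 0 = 0 → ch j = .emp)
    (h1 : ∀ j : Fin r, ρ.getD j 0 = 1 → DerT Γ i (ch j))
    (h2 : ∀ (j : Fin r) (l : ℕ), ρ.getD j 0 = l + 2 → DerT Γ l (ch j))
    {j0 : Fin r} (hj : ρ.getD j0 0 = 1) {s : Tm Tab r ℕ}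
    (hJ : Joins Γ i (P1 m r f (Γ.getD i [])) s (ch j0)) :
    Joins Γ i (P1 m r f (Γ.getD i [])) s (.node q ch) := by
  obtain ⟨u', hu', hr'⟩ := hJ
  obtain ⟨u, hu, hr⟩ := DerT.expand hΓ h h0 h1 h2 hj hu'
  refine ⟨u, hu, fun V K c Z hZ => ?_⟩
  obtain ⟨Z', hZ', hrZ', S, hS, hS1, hS2⟩ := hr V K c Z hZ
  obtain ⟨Y₁, hY₁, Y₂, hY₂, hy1, hy2, S₂, a1, a2⟩ := hr' V K c Z' hrZ'
  refine ⟨Y₁, hY₁.trans hZ', S ∪ Y₂, Set.union_subset hS (hY₂.trans hZ'), hy1,
    hS1 Y₂ hY₂ hy2, S ∪ S₂, ?_, ?_⟩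
  · intro y hy hyS
    by_cases hys : y ∈ S
    · obtain ⟨row, hrow⟩ := hS2 y hys
      refine ⟨row, fun x hx => ?_⟩
      obtain ⟨b1, b2⟩ := hrow x (hY₁ hx)
      exact ⟨b1.symm, by rw [SimpleGraph.adj_comm]; exact b2⟩
    · exact a1 y (hy.resolve_left hys) (hyS.resolve_left hys)
  · exact a2.sub subset_rfl fun x hx => ⟨hx.1.resolve_left fun h => hx.2 (Or.inl h),
      fun h => hx.2 (Or.inr h)⟩

theorem joins_empL {r : ℕ} {Γ : Grm} {i : ℕ} {D : Type} [Nonempty D] {t : Tm Tab r ℕ}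
    (ht : DerT Γ i t) : Joins Γ i (fun _ K _ Y₁ Y₂ => BId D K Y₁ Y₂) .emp t :=
  ⟨t, ht, fun _ _ _ X hX => ⟨∅, Set.empty_subset _, X, subset_rfl, Real.emp, hX, BId.left⟩⟩

theorem joins_empR {r : ℕ} {Γ : Grm} {i : ℕ} {D : Type} [Nonempty D] {t : Tm Tab r ℕ}
    (ht : DerT Γ i t) : Joins Γ i (fun _ K _ Y₁ Y₂ => BId D K Y₁ Y₂) t .emp :=
  ⟨t, ht, fun _ _ _ X hX => ⟨X, subset_rfl, ∅, Set.empty_subset _, hX, Real.emp, BId.right⟩⟩

theorem joins_leaf {r : ℕ} {Γ : Grm} {i a : ℕ} {D : Type} [Nonempty D]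
    (ht : DerT Γ i (.leaf a : Tm Tab r ℕ)) :
    Joins Γ i (fun _ K _ Y₁ Y₂ => BId D K Y₁ Y₂) (.leaf a : Tm Tab r ℕ) (.leaf a) := by
  refine ⟨_, ht, fun V K c X hX => ⟨X, subset_rfl, X, subset_rfl, hX, hX,
    fun _ => Classical.arbitrary D, fun _ => Classical.arbitrary D, fun _ _ => True,
    fun _ _ => False, ?_⟩⟩
  generalize hw : (Tm.leaf a : Tm Tab r ℕ) = w at hX
  cases hX with
  | emp => exact absurd hw (by simp)
  | leaf v =>
    rintro x rfl y rfl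
    simp
  | node => exact absurd hw (by simp)

theorem BId.toP1 {m r f : ℕ} {ps : List PC} {V : Type} {K : SimpleGraph V} {c : V → ℕ}
    {Y₁ Y₂ : Set V} (h : BId (B2 m r f) K Y₁ Y₂) : P1 m r f ps V K c Y₁ Y₂ :=
  ⟨∅, fun _ _ hy => absurd hy (Set.notMem_empty _), h.sub subset_rfl Set.sdiff_subset⟩

theorem derT_bounded {m r : ℕ} {Γ : Grm} (h : okG m r Γ) (i : ℕ) :
    ∃ f, 0 < f ∧ ∀ s t : Tm Tab r ℕ, DerT Γ i s → DerT Γ i t →
      ∃ u : Tm Tab r ℕ, DerT Γ i u ∧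
      ∀ (V : Type) (K : SimpleGraph V) (c : V → ℕ) (X : Set V), Real K AT c u X →
        ∃ Y₁ ⊆ X, ∃ Y₂ ⊆ X, Real K AT c s Y₁ ∧ Real K AT c t Y₂ ∧ BI f K Y₁ Y₂ := by
  classical
  induction i using Nat.strong_induction_on with
  | _ i IH =>
  -- it is enough to bound with colours in a finite type
  suffices H : ∃ D : Type, Finite D ∧ Nonempty D ∧ ∀ s t : Tm Tab r ℕ, DerT Γ i s → DerT Γ i t →
      Joins Γ i (fun _ K _ Y₁ Y₂ => BId D K Y₁ Y₂) s t by
    obtain ⟨D, hD, ⟨x⟩, H⟩ := H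
    obtain ⟨n, ⟨e⟩⟩ := Finite.exists_equiv_fin D
    refine ⟨n, (e x).pos, fun s t hs ht => ?_⟩
    exact (H s t hs ht).mono fun V K c Y₁ Y₂ hb => hb.map e e.injective
  by_cases hi : i < Γ.length
  swap
  · have hnil : Γ.getD i [] = [] := List.getD_eq_default _ _ (not_lt.1 hi)
    refine ⟨Unit, inferInstance, inferInstance, fun s t hs ht => ?_⟩
    cases hs with
    | emp => exact joins_empL ht
    | leaf _ a h => rw [hnil] at h; exact absurd h List.not_mem_nil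
    | node _ q ρ ch h => rw [hnil] at h; exact absurd h List.not_mem_nil
  obtain ⟨hok, href⟩ := h i hi
  have hlt : ∀ (q : Tab) (ρ : List ℕ), (0, q, ρ) ∈ Γ.getD i [] → ∀ (j l : ℕ),
      ρ.getD j 0 = l + 2 → l < i := by
    intro q ρ hq j l hj
    have hjl : j < ρ.length := by
      by_contra hc
      rw [List.getD_eq_default _ _ (not_lt.1 hc)] at hj
      omega
    rw [List.getD_eq_getElem _ _ hjl] at hj
    have := (href _ hq).2 _ (List.getElem_mem hjl)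
    omega
  rcases hok with ⟨⟨p1, q, ρ⟩, hp, hp1, j, hj, k, hk, hjk, hρj, hρk⟩ | hone
  · -- two references
    simp only at hp1 hρj hρk
    subst hp1
    refine ⟨Fin (m + 1), inferInstance, inferInstance, fun s t hs ht => ?_⟩
    set J : Fin r := ⟨j, hj⟩ with hJ
    set L : Fin r := ⟨k, hk⟩ with hL
    have hJL : L ≠ J := fun h => hjk (congrArg Fin.val h).symm
    have hu : DerT Γ i (.node q (Function.update (Function.update (fun _ => .emp) J s) L t)) := by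
      refine DerT.node i q ρ _ hp ?_ ?_ ?_
      · intro j' hj'
        have h1 : j' ≠ J := by
          rintro rfl
          have : ρ.getD j 0 = 0 := hj'
          omega
        have h2 : j' ≠ L := by
          rintro rfl
          have : ρ.getD k 0 = 0 := hj'
          omega
        rw [Function.update_of_ne h2, Function.update_of_ne h1]
      · intro j' _
        by_cases h2 : j' = L
        · rw [h2, Function.update_self]
          exact ht
        · rw [Function.update_of_ne h2]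
          by_cases h1 : j' = J
          · rw [h1, Function.update_self]
            exact hs
          · rw [Function.update_of_ne h1]
            exact DerT.emp _
      · intro j' l hj'
        have h1 : j' ≠ J := by
          rintro rfl
          have : ρ.getD j 0 = l + 2 := hj'
          omega
        have h2 : j' ≠ L := by
          rintro rfl
          have : ρ.getD k 0 = l + 2 := hj'
          omega
        rw [Function.update_of_ne h2, Function.update_of_ne h1]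
        exact DerT.emp _
    refine ⟨_, hu, ?_⟩
    intro V K c Z hZ
    have hcol := colour_le h hu hZ
    generalize hw : (Tm.node q (Function.update (Function.update (fun _ => .emp) J s) L t) :
      Tm Tab r ℕ) = w at hZ
    cases hZ with
    | emp => exact absurd hw (by simp)
    | leaf v => exact absurd hw (by simp)
    | node q' ch' X hX hd ha =>
      simp only [Tm.node.injEq] at hw
      obtain ⟨rfl, rfl⟩ := hw
      refine ⟨X J, Set.subset_iUnion X J, X L, Set.subset_iUnion X L, ?_, ?_,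
        fun x => lab m (c x), fun x => lab m (c x), fun _ _ => False,
        fun a b => (J < L ∧ AT q J L (a : ℕ) (b : ℕ)) ∨ (L < J ∧ AT q L J (b : ℕ) (a : ℕ)),
        ?_⟩
      · have := hX J
        rwa [Function.update_of_ne hJL.symm, Function.update_self] at this
      · have := hX L
        rwa [Function.update_self] at this
      · intro x hx y hy
        have hxm : c x ≤ m := hcol x (Set.mem_iUnion.2 ⟨J, hx⟩)
        have hym : c y ≤ m := hcol y (Set.mem_iUnion.2 ⟨L, hy⟩)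
        beta_reduce
        rw [lab_val hxm, lab_val hym]
        refine ⟨iff_of_false ?_ (fun h => h), ?_⟩
        · rintro rfl
          exact Set.disjoint_left.1 (hd J L hJL.symm) hx hy
        · rcases lt_or_gt_of_ne hJL.symm with hlt | hlt
          · rw [ha J L hlt x hx y hy]
            simp [hlt, hlt.not_gt]
          · rw [SimpleGraph.adj_comm, ha L J hlt y hy x hx]
            simp [hlt, hlt.not_gt]
  · -- at most one production without reference to itself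
    choose f0 hf0 hf using IH
    obtain ⟨f, hfpos, hfle⟩ : ∃ f, 0 < f ∧ ∀ (l : ℕ) (hl : l < i), f0 l hl ≤ f := by
      refine ⟨(∑ l : Fin i, f0 l.1 l.2) + 1, by omega, fun l hl => ?_⟩
      have := Finset.single_le_sum (f := fun l : Fin i => f0 l.1 l.2) (fun _ _ => Nat.zero_le _)
        (Finset.mem_univ (⟨l, hl⟩ : Fin i))
      simp only at this
      omega
    have hlow : ∀ (l : ℕ) (hl : l < i) (s t : Tm Tab r ℕ), DerT Γ l s → DerT Γ l t →
        Joins Γ l (fun _ K _ Y₁ Y₂ => BId (Fin f) K Y₁ Y₂) s t := by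
      intro l hl s t hs ht
      refine Joins.mono (P := fun _ K _ Y₁ Y₂ => BId (Fin (f0 l hl)) K Y₁ Y₂) ?_
        fun V K c Y₁ Y₂ hb => hb.map (Fin.castLE (hfle l hl)) (Fin.castLE_injective _)
      exact hf l hl s t hs ht
    have hleaf : ∀ a : ℕ, ∀ j < r, ((a + 1, [], []) : PC).2.2.getD j 0 ≠ 1 := by
      intro a j _
      simp
    have hfin : Finite {p // p ∈ Γ.getD i []} := (List.finite_toSet (Γ.getD i [])).to_subtype
    refine ⟨Dc m r f (Γ.getD i []), inferInstance, ⟨(0, Sum.inr (Sum.inl ()))⟩, ?_⟩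
    have main : ∀ s t : Tm Tab r ℕ, DerT Γ i s → DerT Γ i t →
        Joins Γ i (P2 m r f (Γ.getD i [])) s t := by
      intro s t hs ht
      induction s with
      | emp =>
        exact (joins_empL (D := B2 m r f) ht).mono fun V K c Y₁ Y₂ hb => (hb.toP1 (c := c)).toP2
      | leaf a =>
        cases hs with
        | leaf _ _ ha =>
        refine Joins.mono (P := P1 m r f (Γ.getD i [])) ?_ fun V K c Y₁ Y₂ hb => hb.toP2
        induction t with
        | emp =>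
          exact (joins_empR (D := B2 m r f) (DerT.leaf _ _ ha)).mono
            fun V K c Y₁ Y₂ hb => hb.toP1 (c := c)
        | leaf b =>
          cases ht with
          | leaf _ _ hb =>
          have he := hone _ ha _ hb (hleaf a) (hleaf b)
          simp only [Prod.mk.injEq, Nat.add_right_cancel_iff, and_true] at he
          subst he
          exact (joins_leaf (D := B2 m r f) (DerT.leaf _ _ ha)).mono
            fun V K c Y₁ Y₂ hb => hb.toP1 (c := c)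
        | node q ch ih =>
          cases ht with
          | node _ _ ρ _ hb h0 h1 h2 =>
          by_cases hex : ∃ j : Fin r, ρ.getD j 0 = 1
          · obtain ⟨j, hj⟩ := hex
            exact Joins.stepR h hb h0 h1 h2 hj (ih j (h1 j hj))
          · push Not at hex
            have he := hone _ ha _ hb (hleaf a) fun j hj => hex ⟨j, hj⟩
            simp at he
      | node q ch ihs =>
        cases hs with
        | node _ _ ρ _ ha h0 h1 h2 =>
        by_cases hex : ∃ j : Fin r, ρ.getD j 0 = 1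
        · obtain ⟨j, hj⟩ := hex
          exact Joins.stepL h ha h0 h1 h2 hj (ihs j (h1 j hj))
        · push Not at hex
          clear ihs
          refine Joins.mono (P := P1 m r f (Γ.getD i [])) ?_ fun V K c Y₁ Y₂ hb => hb.toP2
          induction t with
          | emp =>
            exact (joins_empR (D := B2 m r f) (DerT.node i q ρ ch ha h0 h1 h2)).mono
              fun V K c Y₁ Y₂ hb => hb.toP1 (c := c)
          | leaf b =>
            cases ht with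
            | leaf _ _ hb =>
            have he := hone _ ha _ hb (fun j hj => hex ⟨j, hj⟩) (hleaf b)
            simp at he
          | node q' ch' iht =>
            cases ht with
            | node _ _ ρ' _ hb g0 g1 g2 =>
            by_cases hex' : ∃ j : Fin r, ρ'.getD j 0 = 1
            · obtain ⟨j, hj⟩ := hex'
              exact Joins.stepR h hb g0 g1 g2 hj (iht j (g1 j hj))
            · push Not at hex'
              have he := hone _ ha _ hb (fun j hj => hex ⟨j, hj⟩) fun j hj => hex' ⟨j, hj⟩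
              simp only [Prod.mk.injEq, true_and] at he
              obtain ⟨rfl, rfl⟩ := he
              refine (joins_node (m := m) h hfpos ha h0 g0 hex fun j l hl => ?_).mono
                fun V K c Y₁ Y₂ hb => hb.toP1 (c := c)
              exact hlow l (hlt _ _ ha _ _ hl) _ _ (h2 j l hl) (g2 j l hl)
    intro s t hs ht
    refine Joins.mono (P := fun V K c Y₁ Y₂ => (∀ x ∈ Y₁, c x ≤ m) ∧ (∀ y ∈ Y₂, c y ≤ m) ∧
      P2 m r f (Γ.getD i []) V K c Y₁ Y₂) ?_ fun V K c Y₁ Y₂ hb => hb.2.2.bid hb.1 hb.2.1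
    obtain ⟨u, hu, hr⟩ := main s t hs ht
    refine ⟨u, hu, fun V K c X hX => ?_⟩
    obtain ⟨Y₁, hY₁, Y₂, hY₂, b1, b2, b3⟩ := hr V K c X hX
    exact ⟨Y₁, hY₁, Y₂, hY₂, b1, b2, colour_le h hs b1, colour_le h ht b2, b3⟩

theorem inCl_boundedJoin {m r : ℕ} {Γ : Grm} (h : okG m r Γ) (i : ℕ) :
    ∃ f, ∀ G₁ G₂ : FG, InCl r Γ i G₁.2 → InCl r Γ i G₂.2 →
      ∃ H : FG, InCl r Γ i H.2 ∧ BJoin f G₁ G₂ H := by
  obtain ⟨f, -, hf⟩ := derT_bounded h i
  refine ⟨f, ?_⟩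
  rintro G₁ G₂ ⟨c, s, hs, hG⟩ ⟨c', t, ht, hH⟩
  obtain ⟨u, hu, hr⟩ := hf s t hs ht
  obtain ⟨V, K, d, hK⟩ := exists_real AT u
  have : Finite V := Set.finite_univ_iff.1 hK.finite
  obtain ⟨n, ⟨e⟩⟩ := Finite.exists_equiv_fin V
  have hK' : Real (K.comap e.symm) AT (d ∘ e.symm) u Set.univ := by
    have := hK.comap (H := K.comap e.symm) (f := e.symm) e.symm.injective
      (fun u v => Iff.rfl) (by rw [e.symm.surjective.range_eq])
    rwa [Set.preimage_univ] at this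
  obtain ⟨Y₁, -, Y₂, -, h1, h2, d₁, d₂, E, T, hb⟩ := hr _ _ _ _ hK'
  obtain ⟨e₁, -, he₁⟩ := hG.unique h1
  obtain ⟨e₂, -, he₂⟩ := hH.unique h2
  refine ⟨⟨n, K.comap e.symm⟩, ⟨d ∘ e.symm, u, hu, hK'⟩,
    ⟨⟨fun x => (e₁ ⟨x, trivial⟩ : Fin n), fun x y hxy => ?_⟩, fun {x y} => he₁ _ _⟩,
    ⟨⟨fun x => (e₂ ⟨x, trivial⟩ : Fin n), fun x y hxy => ?_⟩, fun {x y} => he₂ _ _⟩,
    fun x => d₁ (e₁ ⟨x, trivial⟩), fun x => d₂ (e₂ ⟨x, trivial⟩), E, T, fun x y => ?_⟩
  · have := e₁.injective (Subtype.ext hxy)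
    exact congrArg Subtype.val this
  · have := e₂.injective (Subtype.ext hxy)
    exact congrArg Subtype.val this
  · exact hb _ (e₁ ⟨x, trivial⟩).2 _ (e₂ ⟨y, trivial⟩).2

end Pool.Agent.H12Tree
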