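import Pool.Agent.H12Tree.Gram

/-!
# Bounded width implies bounded clique-width
-/

namespace Pool.Agent.H12Tree

open Tm Pool.Agent.H12Letter

/-- the labelled graphs which can be built with the operations of clique-width and `k` labels:
single vertices, disjoint unions, adding all edges between the labels `i ≠ j`, renaming the
label `i` to `j`; and isomorphic copies -/
inductive CW (k : ℕ) : (V : Type) → SimpleGraph V → (V → Fin k) → Prop
  | single (a : Fin k) : CW k Unit ⊥ (fun _ => a)
  | union (V W : Type) (G : SimpleGraph V) (H : SimpleGraph W) (c : V → Fin k) (d : W → Fin k)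
      (hG : CW k V G c) (hH : CW k W H d) : CW k (V ⊕ W) (G ⊕g H) (Sum.elim c d)
  | join (V : Type) (G : SimpleGraph V) (c : V → Fin k) (i j : Fin k) (hij : i ≠ j)
      (h : CW k V G c) : CW k V (G ⊔ SimpleGraph.fromRel fun u v => c u = i ∧ c v = j) c
  | relabel (V : Type) (G : SimpleGraph V) (c : V → Fin k) (i j : Fin k) (h : CW k V G c) :
      CW k V G (fun v => if c v = i then j else c v)
  | iso (V W : Type) (G : SimpleGraph V) (H : SimpleGraph W) (c : V → Fin k) (d : W → Fin k)
      (e : G ≃g H) (hc : ∀ v, d (e v) = c v) (h : CW k V G c) : CW k W H d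

/-- `G` has clique-width at most `k` (the graph without vertices has every width) -/
def CliqueWidthLE (k : ℕ) (G : FG) : Prop :=
  G.1 = 0 ∨ ∃ c : Fin G.1 → Fin k, CW k (Fin G.1) G.2 c

/-- bounded width -/
def BoundedDec (X : Set FG) : Prop :=
  ∃ m r, ∀ G ∈ X, ∃ c : Fin G.1 → Fin m, Dec G.2 m r c Set.univ

/-- `X` is empty, or the graph induced by `X` with the labels `d` can be built -/
def CWOn (k : ℕ) {V : Type} (E : SimpleGraph V) (d : V → Fin k) (X : Set V) : Prop :=
  X.Nonempty → CW k X (E.induce X) fun v => d v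

section CWOn

variable {k : ℕ} {V : Type} {E E' : SimpleGraph V} {d d' : V → Fin k} {X Y : Set V}

theorem CWOn.congr (h : CWOn k E d X) (hE : ∀ u ∈ X, ∀ v ∈ X, (E'.Adj u v ↔ E.Adj u v))
    (hd : ∀ v ∈ X, d' v = d v) : CWOn k E' d' X := by
  intro hX
  have h1 : E'.induce X = E.induce X := by
    ext u v
    exact hE u u.2 v v.2
  have h2 : (fun v : X => d' v) = fun v : X => d v := funext fun v => hd v v.2
  rw [h1, h2]
  exact h hX

theorem CWOn.empty : CWOn k E d ∅ := fun h => absurd h Set.not_nonempty_empty

theorem CWOn.single (v : V) : CWOn k E d {v} := by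
  intro _
  have e : (⊥ : SimpleGraph Unit) ≃g E.induce ({v} : Set V) :=
    { toFun := fun _ => ⟨v, rfl⟩
      invFun := fun _ => ()
      left_inv := fun _ => rfl
      right_inv := fun u => Subtype.ext u.2.symm
      map_rel_iff' := by
        intro a b
        simp }
  exact CW.iso _ _ _ _ _ _ e (fun u => congrArg d (e u).2) (CW.single (d v))

theorem CWOn.relabel (h : CWOn k E d X) (i j : Fin k) :
    CWOn k E (fun v => if d v = i then j else d v) X :=
  fun hX => CW.relabel _ _ _ i j (h hX)

theorem CWOn.relabels (h : CWOn k E d X) (S : Finset (Fin k)) (σ : Fin k → Fin k)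
    (hS : ∀ x ∈ S, σ x ∉ S) : CWOn k E (fun v => if d v ∈ S then σ (d v) else d v) X := by
  induction S using Finset.induction_on with
  | empty => simpa using h
  | insert x S hx ih =>
    have h1 := (ih fun y hy h2 => hS y (Finset.mem_insert_of_mem hy)
      (Finset.mem_insert_of_mem h2)).relabel x (σ x)
    refine h1.congr (fun _ _ _ _ => Iff.rfl) fun v _ => ?_
    by_cases h2 : d v ∈ S
    · have h3 : σ (d v) ≠ x := by
        intro h4
        exact hS (d v) (Finset.mem_insert_of_mem h2) (h4 ▸ Finset.mem_insert_self x S)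
      rw [if_pos (Finset.mem_insert_of_mem h2), if_pos h2, if_neg h3]
    · rw [if_neg h2]
      by_cases h3 : d v = x
      · rw [if_pos (by rw [h3]; exact Finset.mem_insert_self x S), if_pos h3, h3]
      · rw [if_neg (by simp [h2, h3]), if_neg h3]

theorem CWOn.join (h : CWOn k E d X) {i j : Fin k} (hij : i ≠ j) :
    CWOn k (E ⊔ SimpleGraph.fromRel fun u v => d u = i ∧ d v = j) d X := by
  intro hX
  have h1 := CW.join _ _ _ i j hij (h hX)
  have h2 : (E ⊔ SimpleGraph.fromRel fun u v => d u = i ∧ d v = j).induce X =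
      E.induce X ⊔ SimpleGraph.fromRel fun u v : X => d u = i ∧ d v = j := by
    ext u v
    simp [SimpleGraph.fromRel_adj, Subtype.ext_iff]
  rw [h2]
  exact h1

theorem CWOn.joins (h : CWOn k E d X) (L : Finset (Fin k × Fin k))
    (hL : ∀ p ∈ L, p.1 ≠ p.2) :
    CWOn k (E ⊔ SimpleGraph.fromRel fun u v => (d u, d v) ∈ L) d X := by
  induction L using Finset.induction_on with
  | empty =>
    refine h.congr (fun u _ v _ => ?_) fun _ _ => rfl
    simp [SimpleGraph.fromRel_adj]
  | insert p L hp ih =>
    have h1 := (ih fun q hq => hL q (Finset.mem_insert_of_mem hq)).join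
      (hL p (Finset.mem_insert_self p L))
    refine h1.congr (fun u _ v _ => ?_) fun _ _ => rfl
    simp only [SimpleGraph.sup_adj, SimpleGraph.fromRel_adj, Finset.mem_insert, Prod.ext_iff]
    tauto

theorem CWOn.union (h : CWOn k E d X) (h' : CWOn k E d Y) (hXY : Disjoint X Y)
    (hE : ∀ u ∈ X, ∀ v ∈ Y, ¬ E.Adj u v) : CWOn k E d (X ∪ Y) := by
  classical
  intro _
  rcases X.eq_empty_or_nonempty with hX | hX
  · subst hX
    rw [Set.empty_union] at *
    exact h' ‹_›
  rcases Y.eq_empty_or_nonempty with hY | hY
  · subst hY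
    rw [Set.union_empty] at *
    exact h ‹_›
  have h1 := CW.union _ _ _ _ _ _ (h hX) (h' hY)
  let e : (E.induce X) ⊕g (E.induce Y) ≃g E.induce (X ∪ Y) :=
    { toEquiv := (Equiv.Set.union hXY).symm
      map_rel_iff' := by
        intro a b
        rcases a with a | a <;> rcases b with b | b
        · simp
        · have := hE a a.2 b b.2
          simpa using this
        · have := hE b b.2 a a.2
          have h2 : ¬ E.Adj (a : V) (b : V) := fun h3 => this h3.symm
          simpa using h2
        · simp }
  refine CW.iso _ _ _ _ _ _ e ?_ h1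
  rintro (a | a) <;> rfl

end CWOn

theorem dec_cwOn {V : Type} {G : SimpleGraph V} {m r : ℕ} {c : V → Fin m} {X : Set V}
    (h : Dec G m r c X) :
    CWOn ((r + 1) * m) G (fun v => finProdFinEquiv ((0 : Fin (r + 1)), c v)) X := by
  classical
  induction h with
  | empty => exact CWOn.empty
  | single v => exact CWOn.single v
  | union X f _ hd ha ih =>
    set lab : Fin (r + 1) → Fin m → Fin ((r + 1) * m) := fun i a => finProdFinEquiv (i, a)
      with hlab
    have hinj : ∀ i a j b, lab i a = lab j b → i = j ∧ a = b := by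
      intro i a j b h
      have := finProdFinEquiv.injective h
      exact ⟨congrArg Prod.fst this, congrArg Prod.snd this⟩
    have hsurj : ∀ x, ∃ i a, lab i a = x := fun x =>
      ⟨(finProdFinEquiv.symm x).1, (finProdFinEquiv.symm x).2, finProdFinEquiv.apply_symm_apply x⟩
    -- number of the part
    let p : V → Fin (r + 1) := fun v => if h : ∃ i, v ∈ X i then h.choose.succ else 0
    have hp : ∀ i, ∀ v ∈ X i, p v = i.succ := by
      intro i v hv
      have h1 : ∃ i, v ∈ X i := ⟨i, hv⟩
      have h2 : p v = h1.choose.succ := dif_pos h1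
      rw [h2]
      by_contra h3
      have h4 : h1.choose ≠ i := fun h => h3 (by rw [h])
      exact Set.disjoint_left.1 (hd _ _ h4) h1.choose_spec hv
    let E : SimpleGraph V :=
      { Adj := fun u v => G.Adj u v ∧ p u = p v
        symm := ⟨fun _ _ h => ⟨h.1.symm, h.2.symm⟩⟩
        loopless := ⟨fun _ h => G.loopless.irrefl _ h.1⟩ }
    let d : V → Fin ((r + 1) * m) := fun v => lab (p v) (c v)
    -- each part
    have hA : ∀ i, CWOn ((r + 1) * m) E d (X i) := by
      intro i
      have h1 := (ih i).relabels (Finset.univ.image (lab 0))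
        (fun x => lab i.succ (finProdFinEquiv.symm x).2) (by
          intro x _ h2
          obtain ⟨a, -, h3⟩ := Finset.mem_image.1 h2
          exact absurd (hinj _ _ _ _ h3).1.symm (Fin.succ_ne_zero i))
      refine h1.congr (fun u hu v hv => ?_) fun v hv => ?_
      · show G.Adj u v ∧ p u = p v ↔ G.Adj u v
        rw [hp i u hu, hp i v hv]
        simp
      · show lab (p v) (c v) = _
        rw [if_pos (Finset.mem_image.2 ⟨c v, Finset.mem_univ _, rfl⟩), hp i v hv,
          Equiv.symm_apply_apply]
    -- the disjoint union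
    have hB : ∀ s : Finset (Fin r), CWOn ((r + 1) * m) E d (⋃ i ∈ s, X i) := by
      intro s
      induction s using Finset.induction_on with
      | empty => simpa using CWOn.empty
      | insert i s hi ih2 =>
        rw [Finset.set_biUnion_insert]
        refine (hA i).union ih2 ?_ ?_
        · rw [Set.disjoint_left]
          intro v hv h2
          obtain ⟨j, hj, h3⟩ := Set.mem_iUnion₂.1 h2
          have : i ≠ j := fun h => hi (h ▸ hj)
          exact Set.disjoint_left.1 (hd _ _ this) hv h3
        · intro u hu v h2 h4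
          obtain ⟨j, hj, h3⟩ := Set.mem_iUnion₂.1 h2
          have h5 : p u = p v := h4.2
          rw [hp i u hu, hp j v h3] at h5
          exact hi (Fin.succ_injective _ h5 ▸ hj)
    have hB' : CWOn ((r + 1) * m) E d (⋃ i, X i) := by
      have := hB Finset.univ
      simpa using this
    -- the edges between the parts
    have hC := hB'.joins (Finset.univ.filter fun q : Fin ((r + 1) * m) × Fin ((r + 1) * m) =>
      ∃ i j a b, i < j ∧ f i j a b ∧ q = (lab i.succ a, lab j.succ b)) (by
        intro q hq h2
        obtain ⟨i, j, a, b, hij, -, rfl⟩ := (Finset.mem_filter.1 hq).2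
        have := (hinj _ _ _ _ h2).1
        exact hij.ne (Fin.succ_injective _ this))
    have hmem : ∀ i j u v, u ∈ X i → v ∈ X j →
        ((d u, d v) ∈ (Finset.univ.filter fun q : Fin ((r + 1) * m) × Fin ((r + 1) * m) =>
          ∃ i j a b, i < j ∧ f i j a b ∧ q = (lab i.succ a, lab j.succ b)) ↔
            i < j ∧ f i j (c u) (c v)) := by
      intro i j u v hu hv
      rw [Finset.mem_filter]
      have hdu : d u = lab i.succ (c u) := by
        show lab (p u) (c u) = _
        rw [hp i u hu]
      have hdv : d v = lab j.succ (c v) := by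
        show lab (p v) (c v) = _
        rw [hp j v hv]
      rw [hdu, hdv]
      constructor
      · rintro ⟨-, i', j', a, b, h1, h2, h3⟩
        rw [Prod.ext_iff] at h3
        obtain ⟨h4, h5⟩ := hinj _ _ _ _ h3.1
        obtain ⟨h6, h7⟩ := hinj _ _ _ _ h3.2
        have h4 := Fin.succ_injective _ h4
        have h6 := Fin.succ_injective _ h6
        subst h4 h6 h5 h7
        exact ⟨h1, h2⟩
      · rintro ⟨h1, h2⟩
        exact ⟨Finset.mem_univ _, i, j, c u, c v, h1, h2, rfl⟩
    have hG : CWOn ((r + 1) * m) G d (⋃ i, X i) := by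
      refine hC.congr (fun u hu v hv => ?_) fun _ _ => rfl
      obtain ⟨i, hu⟩ := Set.mem_iUnion.1 hu
      obtain ⟨j, hv⟩ := Set.mem_iUnion.1 hv
      rw [SimpleGraph.sup_adj, SimpleGraph.fromRel_adj, hmem i j u v hu hv, hmem j i v u hv hu]
      have hEa : E.Adj u v ↔ G.Adj u v ∧ i = j := by
        show G.Adj u v ∧ p u = p v ↔ _
        rw [hp i u hu, hp j v hv]
        constructor
        · rintro ⟨h1, h2⟩
          exact ⟨h1, Fin.succ_injective _ h2⟩
        · rintro ⟨h1, h2⟩
          exact ⟨h1, by rw [h2]⟩
      rw [hEa]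
      rcases lt_trichotomy i j with hij | hij | hij
      · have h1 := ha i j hij u hu v hv
        have h2 : u ≠ v := by
          rintro rfl
          exact Set.disjoint_left.1 (hd _ _ hij.ne) hu hv
        simp only [hij.ne, and_false, false_or, hij, true_and, hij.not_gt, false_and, or_false,
          h1, h2, ne_eq, not_false_eq_true]
      · subst hij
        simp
      · have h1 := ha j i hij v hv u hu
        have h2 : u ≠ v := by
          rintro rfl
          exact Set.disjoint_left.1 (hd _ _ hij.ne) hv hu
        rw [SimpleGraph.adj_comm] at h1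
        simp only [hij.ne', and_false, false_or, hij, true_and, hij.not_gt, false_and,
          h1, h2, ne_eq, not_false_eq_true]
    have hD := hG.relabels (Finset.univ.filter fun x => ∀ a, x ≠ lab 0 a)
      (fun x => lab 0 (finProdFinEquiv.symm x).2) (by
        intro x _ h2
        exact (Finset.mem_filter.1 h2).2 _ rfl)
    refine hD.congr (fun _ _ _ _ => Iff.rfl) fun v _ => ?_
    show lab 0 (c v) = _
    have h3 : (finProdFinEquiv.symm (d v)).2 = c v := by
      show (finProdFinEquiv.symm (finProdFinEquiv (p v, c v))).2 = c v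
      rw [Equiv.symm_apply_apply]
    split_ifs with h1
    · rw [h3]
    · rw [Finset.mem_filter] at h1
      push Not at h1
      obtain ⟨a, h2⟩ := h1 (Finset.mem_univ _)
      have h4 : lab (p v) (c v) = lab 0 a := h2
      obtain ⟨h5, h6⟩ := hinj _ _ _ _ h4
      show lab 0 (c v) = lab (p v) (c v)
      rw [h5]

theorem boundedDec_cliqueWidth {X : Set FG} (h : BoundedDec X) :
    ∃ k, ∀ G ∈ X, CliqueWidthLE k G := by
  obtain ⟨m, r, h⟩ := h
  refine ⟨(r + 1) * m, fun G hG => ?_⟩
  obtain ⟨c, hc⟩ := h G hG
  rcases Nat.eq_zero_or_pos G.1 with h0 | h0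
  · exact Or.inl h0
  · exact Or.inr ⟨fun v => finProdFinEquiv ((0 : Fin (r + 1)), c v),
      CW.iso _ _ _ _ _ _ (SimpleGraph.induceUnivIso G.2) (fun _ => rfl)
        (dec_cwOn hc ⟨⟨0, h0⟩, trivial⟩)⟩

end Pool.Agent.H12Tree
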