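import Pool.Agent.H12Tree.Full
import Pool.Agent.H12Tree.Cw
import Pool.Agent.H12Letter.Final

/-!
# The algorithm for the classes of bounded width
-/

namespace Pool.Agent.H12Tree

open Tm Pool.Agent.H12Letter

/-- the certificate for atomicity -/
def CertA (F : List Code) (m r : ℕ) (Γ : Grm) (i : ℕ) : Prop :=
  okG m r Γ ∧ (∀ f ∈ F, ¬ inClC m r Γ i f) ∧
    ∀ n < Bd m m r Γ i, ∀ D ∈ rels n, freeC F (n, D) → inClC m r Γ i (n, D)

/-- the certificate for the failure of atomicity -/
def CertN (F : List Code) (g1 g2 : Code) : Prop :=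
  freeC F g1 ∧ freeC F g2 ∧ ∀ n < g1.1 + g2.1 + 1, ∀ D ∈ rels n,
    ¬ (freeC F (n, D) ∧ embC g1 (n, D) ∧ embC g2 (n, D))

theorem certA_sound {F : List Code} {m r : ℕ} {Γ : Grm} {i : ℕ}
    (hk : ∀ G ∈ Free F, ∃ c : Fin G.1 → Fin m, Dec G.2 m r c Set.univ)
    (h : CertA F m r Γ i) : JEP (Free F) := by
  obtain ⟨h1, h2, h3⟩ := h
  have : Free F = {G : FG | InCl r Γ i G.2} := by
    refine Set.Subset.antisymm ?_ ?_
    · intro G hG
      by_contra hno
      obtain ⟨c, hc⟩ := hk G hG
      obtain ⟨H, hH1, hH2, hH3⟩ := exists_small h1 i c hc hno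
      obtain ⟨D, hD, hcode⟩ := exists_code_rels H
      have hHF : H ∈ Free F := free_hereditary F _ _ hH1 hG
      have h4 : decodeG (H.1, D) ∈ {G : FG | InCl r Γ i G.2} := by
        refine (inClC_iff h1 i (H.1, D)).1 (h3 H.1 hH3 D hD ?_)
        rw [freeC_iff, hcode]
        exact hHF
      rw [hcode] at h4
      exact hH2 h4
    · intro G hG f hf he
      exact h2 f hf ((inClC_iff h1 i f).2 (inCl_hereditary r Γ i _ _ he hG))
  rw [this]
  exact inCl_jep h1 i

theorem certA_complete {F : List Code} {m r : ℕ} (hr : 0 < r)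
    (hk : ∀ G ∈ Free F, ∃ c : Fin G.1 → Fin m, Dec G.2 m r c Set.univ)
    (hJ : JEP (Free F)) (hne : (Free F).Nonempty) : ∃ Γ i, CertA F m r Γ i := by
  obtain ⟨Γ, I, h1, h2, h3⟩ := exists_grammar m r hr F
  obtain ⟨i, hi, hiX⟩ : ∃ i ∈ I, Free F ⊆ {G : FG | InCl r Γ i G.2} := by
    by_contra hno
    push Not at hno
    obtain ⟨G, hG, h⟩ := directed_union (Free F) hJ hne
      (fun i : ℕ => {G : FG | InCl r Γ i G.2}) (fun i => inCl_hereditary r Γ i) I hno
    obtain ⟨i, hi, hGi⟩ := h3 G hG (hk G hG)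
    exact h i hi hGi
  refine ⟨Γ, i, h1, fun f hf hc => ?_, fun n _ D _ hD => ?_⟩
  · have := h2 i hi _ ((inClC_iff h1 i f).1 hc)
    exact this f hf (Emb.refl _)
  · rw [freeC_iff] at hD
    exact (inClC_iff h1 i (n, D)).2 (hiX hD)

theorem certN_sound {F : List Code} {g1 g2 : Code} (h : CertN F g1 g2) : ¬ JEP (Free F) := by
  classical
  intro hJ
  obtain ⟨h1, h2, h3⟩ := h
  rw [freeC_iff] at h1 h2
  obtain ⟨K, hK, ⟨f1⟩, ⟨f2⟩⟩ := hJ _ h1 _ h2
  set S : Finset (Fin K.1) := Finset.univ.image f1 ∪ Finset.univ.image f2 with hS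
  have hcard : S.card ≤ g1.1 + g2.1 := by
    refine (Finset.card_union_le _ _).trans (Nat.add_le_add ?_ ?_)
    · exact Finset.card_image_le.trans (Finset.card_fin _).le
    · exact Finset.card_image_le.trans (Finset.card_fin _).le
  have hmem1 : ∀ v, f1 v ∈ S := fun v =>
    Finset.mem_union_left _ (Finset.mem_image_of_mem _ (Finset.mem_univ v))
  have hmem2 : ∀ v, f2 v ∈ S := fun v =>
    Finset.mem_union_right _ (Finset.mem_image_of_mem _ (Finset.mem_univ v))
  set e : Fin S.card ≃ S := (S.orderIsoOfFin rfl).toEquiv with he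
  set j : Fin S.card ↪ Fin K.1 := e.toEmbedding.trans (Function.Embedding.subtype _) with hj
  have hje : ∀ (v : Fin K.1) (hv : v ∈ S), j (e.symm ⟨v, hv⟩) = v := by
    intro v hv
    change ((e (e.symm ⟨v, hv⟩) : S) : Fin K.1) = v
    rw [Equiv.apply_symm_apply]
  set H : FG := ⟨S.card, K.2.comap j⟩ with hH
  have hHK : Emb H K := ⟨SimpleGraph.Embedding.comap j K.2⟩
  have e1 : Emb (decodeG g1) H := by
    refine ⟨⟨⟨fun v => e.symm ⟨f1 v, hmem1 v⟩, fun u v huv => ?_⟩, fun {u v} => ?_⟩⟩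
    · exact f1.injective (Subtype.ext_iff.1 (e.symm.injective huv))
    · change K.2.Adj (j (e.symm ⟨f1 u, hmem1 u⟩)) (j (e.symm ⟨f1 v, hmem1 v⟩)) ↔ _
      rw [hje, hje]
      exact f1.map_adj_iff
  have e2 : Emb (decodeG g2) H := by
    refine ⟨⟨⟨fun v => e.symm ⟨f2 v, hmem2 v⟩, fun u v huv => ?_⟩, fun {u v} => ?_⟩⟩
    · exact f2.injective (Subtype.ext_iff.1 (e.symm.injective huv))
    · change K.2.Adj (j (e.symm ⟨f2 u, hmem2 u⟩)) (j (e.symm ⟨f2 v, hmem2 v⟩)) ↔ _
      rw [hje, hje]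
      exact f2.map_adj_iff
  obtain ⟨D, hD, hcode⟩ := exists_code_rels H
  refine h3 H.1 (by change S.card < _; omega) D hD ⟨?_, ?_, ?_⟩
  · rw [freeC_iff, hcode]
    exact free_hereditary F _ _ hHK hK
  · rw [embC_iff, hcode]
    exact e1
  · rw [embC_iff, hcode]
    exact e2

theorem certN_complete {F : List Code} (h : ¬ JEP (Free F)) : ∃ g1 g2, CertN F g1 g2 := by
  unfold JEP at h
  push Not at h
  obtain ⟨G, hG, H, hH, hno⟩ := h
  obtain ⟨g1, rfl⟩ := exists_code G
  obtain ⟨g2, rfl⟩ := exists_code H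
  refine ⟨g1, g2, (freeC_iff _ _).2 hG, (freeC_iff _ _).2 hH, fun n _ D _ hw => ?_⟩
  exact hno _ ((freeC_iff _ _).1 hw.1) ((embC_iff _ _).1 hw.2.1) ((embC_iff _ _).1 hw.2.2)

section Prim

open Primrec

variable {α : Type} [Primcodable α]

theorem stepB_primrec {L r P N : α → ℕ} (hL : Primrec L) (hr : Primrec r) (hP : Primrec P)
    (hN : Primrec N) : Primrec fun a => stepB (L a) (r a) (P a) (N a) := by
  have two : Primrec fun _ : α => 2 := Primrec.const 2
  have hLr : Primrec fun a => 2 ^ (L a * r a) :=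
    pow_primrec.comp two (Primrec.nat_mul.comp hL hr)
  refine pow_primrec.comp two (Primrec.nat_mul.comp
    (pow_primrec.comp two (Primrec.nat_mul.comp two hL)) (Primrec.nat_mul.comp
      (Primrec.nat_mul.comp (Primrec.const 3) (pow_primrec.comp two hL))
      (pow_primrec.comp (pow_primrec.comp two (Primrec.nat_mul.comp (Primrec.nat_mul.comp
        (Primrec.nat_mul.comp two hLr) hLr) (pow_primrec.comp hN hr))) hP)))

theorem bd_primrec {L r P i : α → ℕ} (hL : Primrec L) (hr : Primrec r) (hP : Primrec P)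
    (hi : Primrec i) : Primrec fun a => bd (L a) (r a) (P a) (i a) := by
  have h : Primrec fun a => (Nat.rec 1 (fun _ IH => IH + stepB (L a) (r a) (P a) IH)
      (i a) : ℕ) := by
    refine Primrec.nat_rec' (h := fun a (p : ℕ × ℕ) => p.2 + stepB (L a) (r a) (P a) p.2)
      hi (Primrec.const 1) ?_
    have hIH : Primrec fun x : α × (ℕ × ℕ) => x.2.2 := Primrec.snd.comp Primrec.snd
    exact Primrec.nat_add.comp hIH (stepB_primrec (hL.comp Primrec.fst) (hr.comp Primrec.fst)
      (hP.comp Primrec.fst) hIH)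
  refine h.of_eq fun a => ?_
  induction i a with
  | zero => rfl
  | succ m ih => simp only [bd]; rw [← ih]

theorem Bd_primrec {M m r i : α → ℕ} {Γ : α → Grm} (hM : Primrec M) (hm : Primrec m)
    (hr : Primrec r) (hΓ : Primrec Γ) (hi : Primrec i) :
    Primrec fun a => Bd (M a) (m a) (r a) (Γ a) (i a) := by
  refine Primrec.succ.comp (pow_primrec.comp (Primrec.succ.comp hr) (pow_primrec.comp
    (Primrec.const 2) (bd_primrec (Primrec.nat_mul.comp hM hm) hr
      (Primrec.list_length.comp (Primrec.list_flatten.comp hΓ)) (Primrec.succ.comp hi))))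

theorem full_primrec {m r : α → ℕ} (hm : Primrec m) (hr : Primrec r) :
    Primrec fun a => full (m a) (r a) := by
  unfold full
  refine Primrec.list_cons.comp (Primrec.list_append.comp ?_ ?_) (Primrec.const [])
  · refine Primrec.list_map (Primrec.list_range.comp hm) ?_
    exact Primrec.pair (Primrec.succ.comp Primrec.snd) (Primrec.const (([] : Tab), ([] : List ℕ)))
  · refine Primrec.list_map (tabs_primrec hm hr) ?_
    refine Primrec.pair (Primrec.const 0) (Primrec.pair Primrec.snd ?_)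
    refine Primrec.list_map (Primrec.list_range.comp (hr.comp Primrec.fst)) ?_
    exact Primrec.const 1

/-- all graphs in `Free F` with fewer than `B` vertices are in the class -/
theorem check_primrec {F : α → List Code} {B m r i : α → ℕ} {Γ : α → Grm} (hF : Primrec F)
    (hB : Primrec B) (hm : Primrec m) (hr : Primrec r) (hΓ : Primrec Γ) (hi : Primrec i) :
    PrimrecPred fun a => ∀ n < B a, ∀ D ∈ rels n, freeC (F a) (n, D) →
      inClC (m a) (r a) (Γ a) (i a) (n, D) := by
  refine pAllLt hB ?_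
  refine pAll (rels_primrec Primrec.snd) ?_
  have h0 : Primrec fun x : (α × ℕ) × List (ℕ × ℕ) => x.1.1 := Primrec.fst.comp Primrec.fst
  have hg : Primrec fun x : (α × ℕ) × List (ℕ × ℕ) => ((x.1.2, x.2) : Code) :=
    Primrec.pair (Primrec.snd.comp Primrec.fst) Primrec.snd
  exact pImp (freeC_primrec (hF.comp h0) hg) (inClC_primrec (hm.comp h0) (hr.comp h0)
    (hΓ.comp h0) (hi.comp h0) hg)

theorem certK_primrec {F : α → List Code} {m r : α → ℕ} (hF : Primrec F) (hm : Primrec m)
    (hr : Primrec r) : PrimrecPred fun a => CertK (F a) (m a) (r a) := by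
  unfold CertK
  refine PrimrecPred.and ?_ ?_
  · exact (pLt (Primrec.const 1) hr).of_eq fun a => Iff.rfl
  · exact check_primrec hF (Bd_primrec (Primrec.succ.comp
      (Primrec.nat_mul.comp (Primrec.const 2) hm)) hm hr (full_primrec hm hr)
      (Primrec.const 0)) hm hr (full_primrec hm hr) (Primrec.const 0)

theorem certA_primrec {F : α → List Code} {m r i : α → ℕ} {Γ : α → Grm} (hF : Primrec F)
    (hm : Primrec m) (hr : Primrec r) (hΓ : Primrec Γ) (hi : Primrec i) :
    PrimrecPred fun a => CertA (F a) (m a) (r a) (Γ a) (i a) := by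
  unfold CertA
  refine (okG_primrec hm hr hΓ).and (PrimrecPred.and ?_ (check_primrec hF
    (Bd_primrec hm hm hr hΓ hi) hm hr hΓ hi))
  exact pAll hF (inClC_primrec (hm.comp Primrec.fst) (hr.comp Primrec.fst)
    (hΓ.comp Primrec.fst) (hi.comp Primrec.fst) Primrec.snd).not

theorem certN_primrec {F : α → List Code} {g1 g2 : α → Code} (hF : Primrec F)
    (h1 : Primrec g1) (h2 : Primrec g2) : PrimrecPred fun a => CertN (F a) (g1 a) (g2 a) := by
  unfold CertN
  refine (freeC_primrec hF h1).and ((freeC_primrec hF h2).and ?_)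
  refine pAllLt (Primrec.succ.comp (Primrec.nat_add.comp (Primrec.fst.comp h1)
    (Primrec.fst.comp h2))) ?_
  refine pAll (rels_primrec Primrec.snd) ?_
  have h0 : Primrec fun x : (α × ℕ) × List (ℕ × ℕ) => x.1.1 := Primrec.fst.comp Primrec.fst
  have hg : Primrec fun x : (α × ℕ) × List (ℕ × ℕ) => ((x.1.2, x.2) : Code) :=
    Primrec.pair (Primrec.snd.comp Primrec.fst) Primrec.snd
  exact ((freeC_primrec (hF.comp h0) hg).and ((embC_primrec (h1.comp h0) hg).and
    (embC_primrec (h2.comp h0) hg))).not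

end Prim

/-- certificates -/
abbrev Ct : Type := (ℕ × ℕ) × ((Grm × ℕ) × (Code × Code))

def QA (F : List Code) (x : Ct) : Prop :=
  (∃ f ∈ F, f.1 = 0) ∨ (CertK F x.1.1 x.1.2 ∧ CertA F x.1.1 x.1.2 x.2.1.1 x.2.1.2)

def QN (F : List Code) (x : Ct) : Prop := CertK F x.1.1 x.1.2 ∧ CertN F x.2.2.1 x.2.2.2

theorem qa_primrec : PrimrecPred fun p : List Code × Ct => QA p.1 p.2 := by
  unfold QA
  have hF : Primrec fun p : List Code × Ct => p.1 := Primrec.fst
  have h2 : Primrec fun p : List Code × Ct => p.2 := Primrec.snd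
  have hm : Primrec fun p : List Code × Ct => p.2.1.1 := Primrec.fst.comp (Primrec.fst.comp h2)
  have hr : Primrec fun p : List Code × Ct => p.2.1.2 := Primrec.snd.comp (Primrec.fst.comp h2)
  have hΓ : Primrec fun p : List Code × Ct => p.2.2.1.1 :=
    Primrec.fst.comp (Primrec.fst.comp (Primrec.snd.comp h2))
  have hi : Primrec fun p : List Code × Ct => p.2.2.1.2 :=
    Primrec.snd.comp (Primrec.fst.comp (Primrec.snd.comp h2))
  refine PrimrecPred.or ?_ ((certK_primrec hF hm hr).and (certA_primrec hF hm hr hΓ hi))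
  exact pEx Primrec.fst (pEq (Primrec.fst.comp Primrec.snd) (Primrec.const 0))

theorem qn_primrec : PrimrecPred fun p : List Code × Ct => QN p.1 p.2 := by
  unfold QN
  have hF : Primrec fun p : List Code × Ct => p.1 := Primrec.fst
  have h2 : Primrec fun p : List Code × Ct => p.2 := Primrec.snd
  have hm : Primrec fun p : List Code × Ct => p.2.1.1 := Primrec.fst.comp (Primrec.fst.comp h2)
  have hr : Primrec fun p : List Code × Ct => p.2.1.2 := Primrec.snd.comp (Primrec.fst.comp h2)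
  have h3 : Primrec fun p : List Code × Ct => p.2.2.2.1 :=
    Primrec.fst.comp (Primrec.snd.comp (Primrec.snd.comp h2))
  have h4 : Primrec fun p : List Code × Ct => p.2.2.2.2 :=
    Primrec.snd.comp (Primrec.snd.comp (Primrec.snd.comp h2))
  exact (certK_primrec hF hm hr).and (certN_primrec hF h3 h4)

/-- Atomicity of hereditary classes of bounded width is decidable -/
theorem main : ∃ A : List (ℕ × List (ℕ × ℕ)) →. Bool, Partrec A ∧
    (∀ F, (A F).Dom ↔ BoundedDec (Free F)) ∧
      ∀ F, ∀ b ∈ A F, (b = true ↔ Atomic (Free F)) := by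
  obtain ⟨A, h1, h2, h3⟩ := search qa_primrec qn_primrec
  refine ⟨A, h1, fun F => (h2 F).trans ⟨?_, ?_⟩, fun F b hb => ?_⟩
  · rintro ⟨x, (h | h) | h⟩
    · rw [free_empty h]
      exact ⟨0, 0, fun G hG => absurd hG (Set.notMem_empty G)⟩
    · exact ⟨x.1.1, x.1.2, certK_sound h.1⟩
    · exact ⟨x.1.1, x.1.2, certK_sound h.1⟩
  · rintro ⟨m, r, hk⟩
    have hk' : ∀ G ∈ Free F, ∃ c : Fin G.1 → Fin m, Dec G.2 m (r + 2) c Set.univ := by
      intro G hG
      obtain ⟨c, hc⟩ := hk G hG
      exact ⟨c, hc.mono (by omega)⟩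
    have hK := certK_complete (F := F) (m := m) (r := r + 2) (by omega) hk'
    by_cases he : ∃ f ∈ F, f.1 = 0
    · exact ⟨((0, 0), (([], 0), ((0, []), (0, [])))), Or.inl (Or.inl he)⟩
    · by_cases hJ : JEP (Free F)
      · obtain ⟨Γ, i, h⟩ := certA_complete (by omega) hk' hJ (free_nonempty he)
        exact ⟨((m, r + 2), ((Γ, i), ((0, []), (0, [])))), Or.inl (Or.inr ⟨hK, h⟩)⟩
      · obtain ⟨g1, g2, h⟩ := certN_complete hJ
        exact ⟨((m, r + 2), (([], 0), (g1, g2))), Or.inr ⟨hK, h⟩⟩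
  · obtain ⟨x, hx, hiff⟩ := h3 F b hb
    rw [hiff, atomic_iff (free_hereditary F)]
    constructor
    · rintro (h | h)
      · rw [free_empty h]
        intro G hG
        exact absurd hG (Set.notMem_empty G)
      · exact certA_sound (certK_sound h.1) h.2
    · intro hJ
      rcases hx with hx | hx
      · exact hx
      · exact absurd hJ (certN_sound hx.2)

end Pool.Agent.H12Tree
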