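import Pool.Agent.H12Tree.BJ

/-!
# The existence of a bounded joint embedding in `Free F` depends only on the types
-/

namespace Pool.Agent.H12Tree

open Tm Pool.Agent.H12Letter

section Sim

variable {V V' Λ : Type} {q : ℕ} {G : SimpleGraph V} {G' : SimpleGraph V'} {c : V → Λ}
  {c' : V' → Λ} {x : Fin q → Option V} {x' : Fin q → Option V'}

theorem exists_sim (h : tyS q G' c' = tyS q G c) (x : Fin q → Option V) :
    ∃ x' : Fin q → Option V', aty G' c' x' = aty G c x := by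
  have h1 : aty G c x ∈ tyS q G' c' := by
    rw [h]
    exact ⟨x, rfl⟩
  obtain ⟨x', hx'⟩ := h1
  exact ⟨x', hx'⟩

theorem sim_some (h : aty G' c' x' = aty G c x) {i : Fin q} {u : V} (hu : x i = some u) :
    ∃ u', x' i = some u' ∧ c' u' = c u := by
  have h1 : (x' i).map c' = (x i).map c := congrFun (congrArg Prod.fst h) i
  rw [hu, Option.map_some] at h1
  exact Option.map_eq_some_iff.1 h1

theorem sim_eq (h : aty G' c' x' = aty G c x) {i j : Fin q} {u v : V} {u' v' : V'}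
    (hu : x i = some u) (hv : x j = some v) (hu' : x' i = some u') (hv' : x' j = some v') :
    u' = v' ↔ u = v := by
  have h1 : (∃ w, x' i = some w ∧ x' j = some w) = (∃ w, x i = some w ∧ x j = some w) :=
    congrFun (congrFun (congrArg (fun t => t.2.1) h) i) j
  rw [hu, hv, hu', hv'] at h1
  constructor
  · rintro rfl
    obtain ⟨w, h2, h3⟩ := h1.mp ⟨u', rfl, rfl⟩
    rw [Option.some.inj h2, Option.some.inj h3]
  · rintro rfl
    obtain ⟨w, h2, h3⟩ := h1.mpr ⟨u, rfl, rfl⟩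
    rw [Option.some.inj h2, Option.some.inj h3]

theorem sim_adj (h : aty G' c' x' = aty G c x) {i j : Fin q} {u v : V} {u' v' : V'}
    (hu : x i = some u) (hv : x j = some v) (hu' : x' i = some u') (hv' : x' j = some v') :
    G'.Adj u' v' ↔ G.Adj u v := by
  have h1 : (∃ a b, x' i = some a ∧ x' j = some b ∧ G'.Adj a b) =
      (∃ a b, x i = some a ∧ x j = some b ∧ G.Adj a b) :=
    congrFun (congrFun (congrArg (fun t => t.2.2) h) i) j
  rw [hu, hv, hu', hv'] at h1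
  constructor
  · intro h2
    obtain ⟨a, b, h3, h4, h5⟩ := h1.mp ⟨u', v', rfl, rfl, h2⟩
    rw [Option.some.inj h3, Option.some.inj h4]
    exact h5
  · intro h2
    obtain ⟨a, b, h3, h4, h5⟩ := h1.mpr ⟨u, v, rfl, rfl, h2⟩
    rw [Option.some.inj h3, Option.some.inj h4]
    exact h5

theorem two_point (hq2 : 2 ≤ q) (h : tyS q G' c' = tyS q G c) (u v : V) :
    ∃ u' v' : V', c' u' = c u ∧ c' v' = c v ∧ (u' = v' ↔ u = v) ∧
      (G'.Adj u' v' ↔ G.Adj u v) := by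
  obtain ⟨x', hx'⟩ := exists_sim h
    (fun i => if i.1 = 0 then some u else if i.1 = 1 then some v else none)
  have h0 : (fun i : Fin q => if i.1 = 0 then some u else if i.1 = 1 then some v else none)
      ⟨0, by omega⟩ = some u := rfl
  have h1 : (fun i : Fin q => if i.1 = 0 then some u else if i.1 = 1 then some v else none)
      ⟨1, by omega⟩ = some v := rfl
  obtain ⟨u', hu', hc⟩ := sim_some hx' h0
  obtain ⟨v', hv', hd⟩ := sim_some hx' h1
  exact ⟨u', v', hc, hd, sim_eq hx' h0 h1 hu' hv', sim_adj hx' h0 h1 hu' hv'⟩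

end Sim

theorem free_transfer {F : List Code} {q : ℕ} (hq : ∀ g ∈ F, g.1 ≤ q) {f : ℕ} {G G' : FG}
    {c : Fin G.1 → Fin f} {c' : Fin G'.1 → Fin f} (h : tyS q G.2 c = tyS q G'.2 c')
    (hG : G ∈ Free F) : G' ∈ Free F := by
  intro g hg hE
  obtain ⟨ψ⟩ := hE
  refine hG g hg ?_
  obtain ⟨y, hy⟩ := exists_sim h
    (fun i : Fin q => if hi : i.1 < g.1 then some (ψ (⟨i, hi⟩ : Fin g.1)) else none)
  have hx : ∀ i : Fin g.1, (fun i : Fin q => if hi : i.1 < g.1 then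
      some (ψ (⟨i, hi⟩ : Fin g.1)) else none) (Fin.castLE (hq g hg) i) = some (ψ i) := by
    intro i
    simp only [Fin.val_castLE, i.2, dif_pos]
  choose u hu hc using fun i : Fin g.1 => sim_some hy (hx i)
  refine ⟨⟨⟨u, fun i j hij => ?_⟩, fun {i j} => ?_⟩⟩
  · exact ψ.injective ((sim_eq hy (hx i) (hx j) (hu i) (hu j)).1 hij)
  · exact (sim_adj hy (hx i) (hx j) (hu i) (hu j)).trans ψ.map_adj_iff

section Join

variable {V₁ V₂ V₁' V₂' W' Λ : Type} {q : ℕ} {G₁ : SimpleGraph V₁} {G₂ : SimpleGraph V₂}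
  {G₁' : SimpleGraph V₁'} {G₂' : SimpleGraph V₂'} {H' : SimpleGraph W'} {c₁ : V₁ → Λ}
  {c₂ : V₂ → Λ} {c₁' : V₁' → Λ} {c₂' : V₂' → Λ}

/-- the graph on the disjoint union with cross adjacency `T` -/
def crossG (G₁ : SimpleGraph V₁) (G₂ : SimpleGraph V₂) (T : V₁ → V₂ → Prop) :
    SimpleGraph (V₁ ⊕ V₂) where
  Adj x y := match x, y with
    | .inl u, .inl u' => G₁.Adj u u'
    | .inr v, .inr v' => G₂.Adj v v'
    | .inl u, .inr v => T u v
    | .inr v, .inl u => T u v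
  symm := ⟨by
    rintro (u | v) (u' | v') h
    · exact SimpleGraph.Adj.symm h
    · exact h
    · exact h
    · exact SimpleGraph.Adj.symm h⟩
  loopless := ⟨by
    rintro (u | v) h
    · exact h.ne rfl
    · exact h.ne rfl⟩

theorem join_aux (hq2 : 2 ≤ q) (e₁ : tyS q G₁' c₁' = tyS q G₁ c₁)
    (e₂ : tyS q G₂' c₂' = tyS q G₂ c₂) (φ₁' : G₁' ↪g H') (φ₂' : G₂' ↪g H')
    (E T : Λ → Λ → Prop)
    (hET : ∀ u v, (φ₁' u = φ₂' v ↔ E (c₁' u) (c₂' v)) ∧
      (H'.Adj (φ₁' u) (φ₂' v) ↔ T (c₁' u) (c₂' v))) :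
    ∃ (P : V₁ ⊕ V₂ → Prop) (K : SimpleGraph {x // P x}) (φ₁ : G₁ ↪g K) (φ₂ : G₂ ↪g K),
      (∀ u v, (φ₁ u = φ₂ v ↔ E (c₁ u) (c₂ v)) ∧ (K.Adj (φ₁ u) (φ₂ v) ↔ T (c₁ u) (c₂ v))) ∧
      ∀ n ≤ q, ∀ D : SimpleGraph (Fin n), Nonempty (D ↪g K) → Nonempty (D ↪g H') := by
  classical
  have a1 : ∀ u u' v, E (c₁ u) (c₂ v) → E (c₁ u') (c₂ v) → u = u' := by
    intro u u' v h h'
    obtain ⟨a, a', ha, ha', he, -⟩ := two_point hq2 e₁ u u'
    obtain ⟨b, _, hb, -⟩ := two_point hq2 e₂ v v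
    rw [← ha, ← hb, ← (hET a b).1] at h
    rw [← ha', ← hb, ← (hET a' b).1] at h'
    exact he.1 (φ₁'.injective (h.trans h'.symm))
  have a2 : ∀ u v v', E (c₁ u) (c₂ v) → E (c₁ u) (c₂ v') → v = v' := by
    intro u v v' h h'
    obtain ⟨b, b', hb, hb', he, -⟩ := two_point hq2 e₂ v v'
    obtain ⟨a, _, ha, -⟩ := two_point hq2 e₁ u u
    rw [← ha, ← hb, ← (hET a b).1] at h
    rw [← ha, ← hb', ← (hET a b').1] at h'
    exact he.1 (φ₂'.injective (h.symm.trans h'))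
  have b1 : ∀ u v v', E (c₁ u) (c₂ v) → (T (c₁ u) (c₂ v') ↔ G₂.Adj v v') := by
    intro u v v' h
    obtain ⟨b, b', hb, hb', -, hadj⟩ := two_point hq2 e₂ v v'
    obtain ⟨a, _, ha, -⟩ := two_point hq2 e₁ u u
    rw [← ha, ← hb, ← (hET a b).1] at h
    rw [← ha, ← hb', ← (hET a b').2, h, φ₂'.map_adj_iff]
    exact hadj
  have b2 : ∀ u u' v, E (c₁ u) (c₂ v) → (T (c₁ u') (c₂ v) ↔ G₁.Adj u' u) := by
    intro u u' v h
    obtain ⟨a', a, ha', ha, -, hadj⟩ := two_point hq2 e₁ u' u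
    obtain ⟨b, _, hb, -⟩ := two_point hq2 e₂ v v
    rw [← ha, ← hb, ← (hET a b).1] at h
    rw [← ha', ← hb, ← (hET a' b).2, ← h, φ₁'.map_adj_iff]
    exact hadj
  set C := crossG G₁ G₂ fun u v => T (c₁ u) (c₂ v) with hC
  set P : V₁ ⊕ V₂ → Prop := fun x => ∀ v, x = .inr v → ∀ u, ¬ E (c₁ u) (c₂ v) with hP
  have hPl : ∀ u, P (.inl u) := by
    intro u v h
    exact absurd h (by simp)
  have hPr : ∀ v, (¬ ∃ u, E (c₁ u) (c₂ v)) → P (.inr v) := by
    intro v h v' hv' u hu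
    rw [Sum.inr.inj hv'] at h
    exact h ⟨u, hu⟩
  set K : SimpleGraph {x // P x} := C.comap Subtype.val with hK
  have hKadj : ∀ x y : {x // P x}, K.Adj x y ↔ C.Adj x.1 y.1 := fun x y => Iff.rfl
  let φ₁ : G₁ ↪g K := ⟨⟨fun u => ⟨.inl u, hPl u⟩, fun u u' h =>
    Sum.inl.inj (congrArg Subtype.val h)⟩, fun {u u'} => Iff.rfl⟩
  have hφ₁ : ∀ u, φ₁ u = ⟨.inl u, hPl u⟩ := fun _ => rfl
  let g : V₂ → {x // P x} := fun v => if h : ∃ u, E (c₁ u) (c₂ v) then ⟨.inl h.choose, hPl _⟩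
    else ⟨.inr v, hPr v h⟩
  have hg1 : ∀ u v, E (c₁ u) (c₂ v) → g v = ⟨.inl u, hPl u⟩ := by
    intro u v h
    have hex : ∃ u, E (c₁ u) (c₂ v) := ⟨u, h⟩
    have : g v = ⟨.inl hex.choose, hPl _⟩ := dif_pos hex
    rw [this]
    have h2 := a1 _ _ _ hex.choose_spec h
    simp only [Subtype.mk.injEq, Sum.inl.injEq]
    exact h2
  have hg2 : ∀ v (h : ¬ ∃ u, E (c₁ u) (c₂ v)), g v = ⟨.inr v, hPr v h⟩ := fun v h => dif_neg h
  have hginj : Function.Injective g := by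
    intro v v' h
    by_cases h1 : ∃ u, E (c₁ u) (c₂ v)
    · obtain ⟨u, hu⟩ := h1
      rw [hg1 u v hu] at h
      by_cases h2 : ∃ u, E (c₁ u) (c₂ v')
      · obtain ⟨u', hu'⟩ := h2
        rw [hg1 u' v' hu'] at h
        have h3 : u = u' := Sum.inl.inj (congrArg Subtype.val h)
        rw [← h3] at hu'
        exact a2 _ _ _ hu hu'
      · rw [hg2 v' h2] at h
        exact absurd (congrArg Subtype.val h) (by simp)
    · rw [hg2 v h1] at h
      by_cases h2 : ∃ u, E (c₁ u) (c₂ v')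
      · obtain ⟨u', hu'⟩ := h2
        rw [hg1 u' v' hu'] at h
        exact absurd (congrArg Subtype.val h) (by simp)
      · rw [hg2 v' h2] at h
        exact Sum.inr.inj (congrArg Subtype.val h)
  have hgadj : ∀ v v', K.Adj (g v) (g v') ↔ G₂.Adj v v' := by
    intro v v'
    by_cases h1 : ∃ u, E (c₁ u) (c₂ v)
    · obtain ⟨u, hu⟩ := h1
      rw [hg1 u v hu]
      by_cases h2 : ∃ u, E (c₁ u) (c₂ v')
      · obtain ⟨u', hu'⟩ := h2
        rw [hg1 u' v' hu', ← b1 u v v' hu, b2 u' u v' hu']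
        exact Iff.rfl
      · rw [hg2 v' h2, ← b1 u v v' hu]
        exact Iff.rfl
    · rw [hg2 v h1]
      by_cases h2 : ∃ u, E (c₁ u) (c₂ v')
      · obtain ⟨u', hu'⟩ := h2
        rw [hg1 u' v' hu', G₂.adj_comm, ← b1 u' v' v hu']
        exact Iff.rfl
      · rw [hg2 v' h2]
        exact Iff.rfl
  let φ₂ : G₂ ↪g K := ⟨⟨g, hginj⟩, fun {v v'} => hgadj v v'⟩
  have hφ₂ : ∀ v, φ₂ v = g v := fun _ => rfl
  refine ⟨P, K, φ₁, φ₂, fun u v => ⟨?_, ?_⟩, ?_⟩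
  · rw [hφ₁, hφ₂]
    constructor
    · intro h
      by_cases h1 : ∃ u, E (c₁ u) (c₂ v)
      · obtain ⟨u', hu'⟩ := h1
        rw [hg1 u' v hu'] at h
        have h3 : u = u' := Sum.inl.inj (congrArg Subtype.val h)
        rw [h3]
        exact hu'
      · rw [hg2 v h1] at h
        exact absurd (congrArg Subtype.val h) (by simp)
    · intro h
      exact (hg1 u v h).symm
  · rw [hφ₁, hφ₂]
    by_cases h1 : ∃ u, E (c₁ u) (c₂ v)
    · obtain ⟨u', hu'⟩ := h1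
      rw [hg1 u' v hu', b2 u' u v hu']
      exact Iff.rfl
    · rw [hg2 v h1]
      exact Iff.rfl
  · rintro n hn D ⟨ψ⟩
    obtain ⟨x₁, hx₁⟩ := exists_sim e₁
      (fun i : Fin q => if hi : i.1 < n then (ψ (⟨i, hi⟩ : Fin n)).1.getLeft? else none)
    obtain ⟨x₂, hx₂⟩ := exists_sim e₂
      (fun i : Fin q => if hi : i.1 < n then (ψ (⟨i, hi⟩ : Fin n)).1.getRight? else none)
    have hl : ∀ (i : Fin n) (u : V₁), (ψ i).1 = .inl u →
        (fun i : Fin q => if hi : i.1 < n then (ψ (⟨i, hi⟩ : Fin n)).1.getLeft? else none)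
          (Fin.castLE hn i) = some u := by
      intro i u h
      simp only [Fin.val_castLE, i.2, dif_pos, h, Sum.getLeft?_inl]
    have hr : ∀ (i : Fin n) (v : V₂), (ψ i).1 = .inr v →
        (fun i : Fin q => if hi : i.1 < n then (ψ (⟨i, hi⟩ : Fin n)).1.getRight? else none)
          (Fin.castLE hn i) = some v := by
      intro i v h
      simp only [Fin.val_castLE, i.2, dif_pos, h, Sum.getRight?_inr]
    -- the new map
    have key : ∀ i : Fin n, ∃ w : W',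
        (∀ u, (ψ i).1 = .inl u → ∃ u', x₁ (Fin.castLE hn i) = some u' ∧ c₁' u' = c₁ u ∧
          w = φ₁' u') ∧
        (∀ v, (ψ i).1 = .inr v → ∃ v', x₂ (Fin.castLE hn i) = some v' ∧ c₂' v' = c₂ v ∧
          w = φ₂' v') := by
      intro i
      rcases hi : (ψ i).1 with u | v
      · obtain ⟨u', h1, h2⟩ := sim_some hx₁ (hl i u hi)
        refine ⟨φ₁' u', fun u0 h0 => ⟨u', h1, ?_, rfl⟩, fun v h => absurd h (by simp)⟩
        rw [h2, Sum.inl.inj h0]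
      · obtain ⟨v', h1, h2⟩ := sim_some hx₂ (hr i v hi)
        refine ⟨φ₂' v', fun u h => absurd h (by simp), fun v0 h0 => ⟨v', h1, ?_, rfl⟩⟩
        rw [h2, Sum.inr.inj h0]
    choose w hw1 hw2 using key
    have main : ∀ i j : Fin n, (w i = w j → i = j) ∧ (H'.Adj (w i) (w j) ↔ D.Adj i j) := by
      intro i j
      rw [← ψ.map_adj_iff, hKadj]
      have hinj : ∀ {x y}, (ψ i).1 = x → (ψ j).1 = y → x = y → i = j := fun hx hy h =>
        ψ.injective (Subtype.ext (hx.trans (h.trans hy.symm)))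
      rcases hi : (ψ i).1 with u | v <;> rcases hj : (ψ j).1 with u' | v'
      · obtain ⟨a, ha1, ha2, ha3⟩ := hw1 i u hi
        obtain ⟨b, hb1, hb2, hb3⟩ := hw1 j u' hj
        rw [ha3, hb3, φ₁'.map_adj_iff]
        refine ⟨fun h => ?_, sim_adj hx₁ (hl i u hi) (hl j u' hj) ha1 hb1⟩
        have h1 := (sim_eq hx₁ (hl i u hi) (hl j u' hj) ha1 hb1).1 (φ₁'.injective h)
        exact hinj hi hj (by rw [h1])
      · obtain ⟨a, ha1, ha2, ha3⟩ := hw1 i u hi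
        obtain ⟨b, hb1, hb2, hb3⟩ := hw2 j v' hj
        rw [ha3, hb3]
        constructor
        · intro h
          rw [(hET a b).1, ha2, hb2] at h
          exact absurd h ((ψ j).2 v' hj u)
        · rw [(hET a b).2, ha2, hb2]
          exact Iff.rfl
      · obtain ⟨a, ha1, ha2, ha3⟩ := hw2 i v hi
        obtain ⟨b, hb1, hb2, hb3⟩ := hw1 j u' hj
        rw [ha3, hb3]
        constructor
        · intro h
          have h' := h.symm
          rw [(hET b a).1, ha2, hb2] at h'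
          exact absurd h' ((ψ i).2 v hi u')
        · rw [H'.adj_comm, (hET b a).2, ha2, hb2]
          exact Iff.rfl
      · obtain ⟨a, ha1, ha2, ha3⟩ := hw2 i v hi
        obtain ⟨b, hb1, hb2, hb3⟩ := hw2 j v' hj
        rw [ha3, hb3, φ₂'.map_adj_iff]
        refine ⟨fun h => ?_, sim_adj hx₂ (hr i v hi) (hr j v' hj) ha1 hb1⟩
        have h1 := (sim_eq hx₂ (hr i v hi) (hr j v' hj) ha1 hb1).1 (φ₂'.injective h)
        exact hinj hi hj (by rw [h1])
    exact ⟨⟨⟨w, fun i j h => (main i j).1 h⟩, fun {i j} => (main i j).2⟩⟩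

end Join

theorem join_transfer {F : List Code} {q : ℕ} (hq : ∀ g ∈ F, g.1 ≤ q) (hq2 : 2 ≤ q) {f : ℕ}
    {G₁ G₂ G₁' G₂' : FG}
    (h₁ : ∀ c' : Fin G₁'.1 → Fin f, ∃ c : Fin G₁.1 → Fin f, tyS q G₁'.2 c' = tyS q G₁.2 c)
    (h₂ : ∀ c' : Fin G₂'.1 → Fin f, ∃ c : Fin G₂.1 → Fin f, tyS q G₂'.2 c' = tyS q G₂.2 c)
    (hJ : ∃ H' ∈ Free F, BJoin f G₁' G₂' H') : ∃ H ∈ Free F, BJoin f G₁ G₂ H := by
  classical
  obtain ⟨H', hH', φ₁', φ₂', c₁', c₂', E, T, hET⟩ := hJ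
  obtain ⟨c₁, e₁⟩ := h₁ c₁'
  obtain ⟨c₂, e₂⟩ := h₂ c₂'
  obtain ⟨P, K, φ₁, φ₂, hφ, hD⟩ := join_aux hq2 e₁ e₂ φ₁' φ₂' E T hET
  let e := K.overFinIso (rfl : Fintype.card {x // P x} = _)
  refine ⟨⟨_, K.overFin rfl⟩, ?_, e.toEmbedding.comp φ₁, e.toEmbedding.comp φ₂, c₁, c₂, E, T,
    fun u v => ⟨?_, ?_⟩⟩
  · rintro g hg ⟨ψ⟩
    obtain ⟨ψ'⟩ := hD g.1 (hq g hg) (decodeG g).2 ⟨e.symm.toEmbedding.comp ψ⟩
    exact hH' g hg ⟨ψ'⟩
  · rw [← (hφ u v).1]
    exact e.injective.eq_iff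
  · rw [← (hφ u v).2]
    exact e.map_adj_iff

end Pool.Agent.H12Tree
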