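import Pool.Agent.H12Tree.SmallRep
import Pool.Agent.H12Tree.Transfer
import Pool.Agent.H12Tree.BJep
import Pool.Agent.H12Tree.Final

/-!
# The algorithm for the classes of bounded clique-width
-/

namespace Pool.Agent.H12Tree

open Tm Pool.Agent.H12Letter

theorem BJoin.mono {f : ℕ} {G₁ G₂ H : FG} (h : BJoin f G₁ G₂ H) : BJoin (f + 1) G₁ G₂ H := by
  obtain ⟨φ₁, φ₂, c₁, c₂, E, T, h⟩ := h
  refine ⟨φ₁, φ₂, fun v => (c₁ v).castSucc, fun v => (c₂ v).castSucc,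
    fun a b => ∃ a' b', a = Fin.castSucc a' ∧ b = Fin.castSucc b' ∧ E a' b',
    fun a b => ∃ a' b', a = Fin.castSucc a' ∧ b = Fin.castSucc b' ∧ T a' b', fun u v => ?_⟩
  refine ⟨(h u v).1.trans ⟨fun hh => ⟨_, _, rfl, rfl, hh⟩, ?_⟩,
    (h u v).2.trans ⟨fun hh => ⟨_, _, rfl, rfl, hh⟩, ?_⟩⟩
  · rintro ⟨a', b', ha, hb, hh⟩
    rw [Fin.castSucc_inj] at ha hb
    rw [ha, hb]
    exact hh
  · rintro ⟨a', b', ha, hb, hh⟩
    rw [Fin.castSucc_inj] at ha hb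
    rw [ha, hb]
    exact hh

theorem BoundedlyAtomic.jep {X : Set FG} (h : BoundedlyAtomic X) : JEP X := by
  obtain ⟨f, h⟩ := h
  intro G hG H hH
  obtain ⟨K, hK, φ₁, φ₂, -⟩ := h G hG H hH
  exact ⟨K, hK, ⟨φ₁⟩, ⟨φ₂⟩⟩

/-- the joint embedding can be taken small -/
theorem BJoin.small {f : ℕ} {G₁ G₂ K : FG} (h : BJoin f G₁ G₂ K) :
    ∃ H, Emb H K ∧ H.1 ≤ G₁.1 + G₂.1 ∧ BJoin f G₁ G₂ H := by
  classical
  obtain ⟨f1, f2, c₁, c₂, E, T, h⟩ := h
  set S : Finset (Fin K.1) := Finset.univ.image f1 ∪ Finset.univ.image f2 with hS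
  have hcard : S.card ≤ G₁.1 + G₂.1 := by
    refine (Finset.card_union_le _ _).trans (Nat.add_le_add ?_ ?_)
    · exact Finset.card_image_le.trans (Finset.card_fin _).le
    · exact Finset.card_image_le.trans (Finset.card_fin _).le
  have hmem1 : ∀ v, f1 v ∈ S := fun v =>
    Finset.mem_union_left _ (Finset.mem_image_of_mem _ (Finset.mem_univ v))
  have hmem2 : ∀ v, f2 v ∈ S := fun v =>
    Finset.mem_union_right _ (Finset.mem_image_of_mem _ (Finset.mem_univ v))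
  set e : Fin S.card ≃ S := (S.orderIsoOfFin rfl).toEquiv with he
  set j : Fin S.card ↪ Fin K.1 := e.toEmbedding.trans (Function.Embedding.subtype _) with hj
  have hje : ∀ (v : Fin K.1) (hv : v ∈ S), j (e.symm ⟨v, hv⟩) = v := by
    intro v hv
    change ((e (e.symm ⟨v, hv⟩) : S) : Fin K.1) = v
    rw [Equiv.apply_symm_apply]
  refine ⟨⟨S.card, K.2.comap j⟩, ⟨SimpleGraph.Embedding.comap j K.2⟩, hcard, ?_⟩
  set e1 : G₁.2 ↪g K.2.comap j :=
    ⟨⟨fun v => e.symm ⟨f1 v, hmem1 v⟩, fun u v huv =>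
      f1.injective (Subtype.ext_iff.1 (e.symm.injective huv))⟩, fun {u v} => by
      change K.2.Adj (j (e.symm ⟨f1 u, hmem1 u⟩)) (j (e.symm ⟨f1 v, hmem1 v⟩)) ↔ _
      rw [hje, hje]
      exact f1.map_adj_iff⟩ with he1
  set e2 : G₂.2 ↪g K.2.comap j :=
    ⟨⟨fun v => e.symm ⟨f2 v, hmem2 v⟩, fun u v huv =>
      f2.injective (Subtype.ext_iff.1 (e.symm.injective huv))⟩, fun {u v} => by
      change K.2.Adj (j (e.symm ⟨f2 u, hmem2 u⟩)) (j (e.symm ⟨f2 v, hmem2 v⟩)) ↔ _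
      rw [hje, hje]
      exact f2.map_adj_iff⟩ with he2
  refine ⟨e1, e2, c₁, c₂, E, T, fun u v => ⟨?_, ?_⟩⟩
  · rw [← (h u v).1]
    constructor
    · intro huv
      have h1 : e.symm ⟨f1 u, hmem1 u⟩ = e.symm ⟨f2 v, hmem2 v⟩ := huv
      exact Subtype.ext_iff.1 (e.symm.injective h1)
    · intro huv
      change e.symm ⟨f1 u, hmem1 u⟩ = e.symm ⟨f2 v, hmem2 v⟩
      congr 1
      exact Subtype.ext huv
  · rw [← (h u v).2]
    change K.2.Adj (j (e.symm ⟨f1 u, hmem1 u⟩)) (j (e.symm ⟨f2 v, hmem2 v⟩)) ↔ _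
    rw [hje, hje]

/-- `φ` is the list of the values of an embedding -/
def isEmb (f g : Code) (φ : List ℕ) : Prop :=
  ∀ i < f.1, ∀ j < f.1, (φ.getD i 0 = φ.getD j 0 → i = j) ∧
    (adjC f i j ↔ adjC g (φ.getD i 0) (φ.getD j 0))

def relC (g : Code) (n₁ n₂ : ℕ) (φ₁ φ₂ c₁ c₂ : List ℕ) (E T : List (ℕ × ℕ)) : Prop :=
  ∀ u < n₁, ∀ v < n₂,
    (φ₁.getD u 0 = φ₂.getD v 0 ↔ (c₁.getD u 0, c₂.getD v 0) ∈ E) ∧
    (adjC g (φ₁.getD u 0) (φ₂.getD v 0) ↔ (c₁.getD u 0, c₂.getD v 0) ∈ T)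

/-- existence of a bounded joint embedding, for codes -/
def bjC (F : List Code) (f : ℕ) (g₁ g₂ : Code) : Prop :=
  ∃ n ∈ List.range (g₁.1 + g₂.1 + 1), ∃ D ∈ rels n, freeC F (n, D) ∧
    ∃ φ₁ ∈ tuples (List.range n) g₁.1, isEmb g₁ (n, D) φ₁ ∧
    ∃ φ₂ ∈ tuples (List.range n) g₂.1, isEmb g₂ (n, D) φ₂ ∧
    ∃ c₁ ∈ tuples (List.range f) g₁.1, ∃ c₂ ∈ tuples (List.range f) g₂.1,
    ∃ E ∈ rels f, ∃ T ∈ rels f, relC (n, D) g₁.1 g₂.1 φ₁ φ₂ c₁ c₂ E T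

theorem exists_emb_of_isEmb {f g : Code} {φ : List ℕ} (hφ : φ ∈ tuples (List.range g.1) f.1)
    (h : isEmb f g φ) : ∃ F : (decodeG f).2 ↪g (decodeG g).2,
      ∀ i : Fin f.1, ((F i : Fin g.1) : ℕ) = φ.getD i 0 := by
  refine ⟨⟨⟨fun i => ⟨φ.getD i 0, getD_lt hφ i⟩, fun i j hij => ?_⟩, fun {i j} => ?_⟩,
    fun i => rfl⟩
  · exact Fin.ext ((h i i.2 j j.2).1 (Fin.mk.inj_iff.1 hij))
  · exact (adjC_iff g ⟨_, getD_lt hφ i⟩ ⟨_, getD_lt hφ j⟩).symm.trans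
      ((h i i.2 j j.2).2.symm.trans (adjC_iff f i j))

theorem isEmb_of_emb {f g : Code} (F : (decodeG f).2 ↪g (decodeG g).2) :
    isEmb f g (List.ofFn fun i : Fin f.1 => ((F i : Fin g.1) : ℕ)) := by
  intro i hi j hj
  have h1 := getD_ofFn (fun i : Fin f.1 => ((F i : Fin g.1) : ℕ)) ⟨i, hi⟩
  have h2 := getD_ofFn (fun i : Fin f.1 => ((F i : Fin g.1) : ℕ)) ⟨j, hj⟩
  simp only at h1 h2
  rw [h1, h2]
  constructor
  · intro h
    exact Fin.mk.inj_iff.1 (F.injective (Fin.ext h))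
  · exact (adjC_iff f ⟨i, hi⟩ ⟨j, hj⟩).trans
      (F.map_adj_iff.symm.trans (adjC_iff g _ _).symm)

theorem bjC_iff (F : List Code) (f : ℕ) (g₁ g₂ : Code) :
    bjC F f g₁ g₂ ↔ ∃ H ∈ Free F, BJoin f (decodeG g₁) (decodeG g₂) H := by
  constructor
  · rintro ⟨n, -, D, -, hfree, φ₁, hφ₁, he₁, φ₂, hφ₂, he₂, c₁, hc₁, c₂, hc₂, E, -, T, -, h⟩
    obtain ⟨F₁, hF₁⟩ := exists_emb_of_isEmb (g := (n, D)) hφ₁ he₁
    obtain ⟨F₂, hF₂⟩ := exists_emb_of_isEmb (g := (n, D)) hφ₂ he₂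
    refine ⟨decodeG (n, D), (freeC_iff _ _).1 hfree, F₁, F₂,
      fun v : Fin g₁.1 => ⟨c₁.getD v 0, getD_lt hc₁ v⟩,
      fun v : Fin g₂.1 => ⟨c₂.getD v 0, getD_lt hc₂ v⟩,
      fun a b => ((a : ℕ), (b : ℕ)) ∈ E, fun a b => ((a : ℕ), (b : ℕ)) ∈ T, ?_⟩
    intro u v
    obtain ⟨h1, h2⟩ := h u (Fin.is_lt (u : Fin g₁.1)) v (Fin.is_lt (v : Fin g₂.1))
    have e1 := hF₁ u
    have e2 := hF₂ v
    rw [← e1, ← e2] at h1 h2
    exact ⟨⟨fun hh => h1.1 (congrArg Fin.val hh), fun hh => Fin.ext (h1.2 hh)⟩,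
      (adjC_iff (n, D) (F₁ u) (F₂ v)).symm.trans h2⟩
  · rintro ⟨K, hK, hJ⟩
    obtain ⟨H, hHK, hcard, hJ'⟩ := hJ.small
    have hH : H ∈ Free F := free_hereditary F _ _ hHK hK
    obtain ⟨D, hD, hcode⟩ := exists_code_rels H
    have hJ2 : BJoin f (decodeG g₁) (decodeG g₂) (decodeG (H.1, D)) := by
      rw [hcode]
      exact hJ'
    obtain ⟨F₁, F₂, c₁, c₂, E, T, h⟩ := hJ2
    obtain ⟨E', hE', hE⟩ := exists_rel f fun a b => ∃ (ha : a < f) (hb : b < f),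
      E ⟨a, ha⟩ ⟨b, hb⟩
    obtain ⟨T', hT', hT⟩ := exists_rel f fun a b => ∃ (ha : a < f) (hb : b < f),
      T ⟨a, ha⟩ ⟨b, hb⟩
    refine ⟨H.1, List.mem_range.2 (Nat.lt_succ_of_le hcard), D, hD, ?_,
      List.ofFn fun i : Fin g₁.1 => ((F₁ i : Fin H.1) : ℕ),
      ofFn_mem_tuples _ fun i => Fin.is_lt _, isEmb_of_emb (g := (H.1, D)) F₁,
      List.ofFn fun i : Fin g₂.1 => ((F₂ i : Fin H.1) : ℕ),
      ofFn_mem_tuples _ fun i => Fin.is_lt _, isEmb_of_emb (g := (H.1, D)) F₂,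
      List.ofFn fun i : Fin g₁.1 => ((c₁ i : Fin f) : ℕ), ofFn_mem_tuples _ fun i => Fin.is_lt _,
      List.ofFn fun i : Fin g₂.1 => ((c₂ i : Fin f) : ℕ), ofFn_mem_tuples _ fun i => Fin.is_lt _,
      E', hE', T', hT', ?_⟩
    · rw [freeC_iff, hcode]
      exact hH
    · intro u hu v hv
      have a1 := getD_ofFn (fun i : Fin g₁.1 => ((F₁ i : Fin H.1) : ℕ)) ⟨u, hu⟩
      have a2 := getD_ofFn (fun i : Fin g₂.1 => ((F₂ i : Fin H.1) : ℕ)) ⟨v, hv⟩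
      have a3 := getD_ofFn (fun i : Fin g₁.1 => ((c₁ i : Fin f) : ℕ)) ⟨u, hu⟩
      have a4 := getD_ofFn (fun i : Fin g₂.1 => ((c₂ i : Fin f) : ℕ)) ⟨v, hv⟩
      simp only at a1 a2 a3 a4
      rw [a1, a2, a3, a4, hE _ (Fin.is_lt _) _ (Fin.is_lt _), hT _ (Fin.is_lt _) _ (Fin.is_lt _)]
      obtain ⟨h1, h2⟩ := h ⟨u, hu⟩ ⟨v, hv⟩
      refine ⟨?_, ?_⟩
      · constructor
        · intro hh
          exact ⟨Fin.is_lt _, Fin.is_lt _, h1.1 (Fin.ext hh)⟩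
        · rintro ⟨_, _, hh⟩
          exact congrArg Fin.val (h1.2 hh)
      · constructor
        · intro hh
          exact ⟨Fin.is_lt _, Fin.is_lt _, h2.1 ((adjC_iff (H.1, D) _ _).1 hh)⟩
        · rintro ⟨_, _, hh⟩
          exact (adjC_iff (H.1, D) _ _).2 (h2.2 hh)

/-- a bound for the sizes of the members of `F` -/
def qF (F : List Code) : ℕ := F.foldr (fun g s => g.1 + s) 2

theorem two_le_qF (F : List Code) : 2 ≤ qF F := by
  induction F with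
  | nil => exact le_rfl
  | cons g F ih =>
    unfold qF at ih ⊢
    simp only [List.foldr_cons]
    omega

theorem le_qF {F : List Code} : ∀ g ∈ F, g.1 ≤ qF F := by
  induction F with
  | nil => simp
  | cons g F ih =>
    intro g' hg'
    unfold qF at ih ⊢
    simp only [List.foldr_cons]
    rcases List.mem_cons.1 hg' with rfl | hg'
    · omega
    · have := ih g' hg'
      omega

/-- the certificate for bounded atomicity -/
def CertB (k : ℕ) (F : List Code) (f : ℕ) : Prop :=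
  0 < f ∧ ∀ n₁ < Bq k f (qF F) + 1, ∀ D₁ ∈ rels n₁, freeC F (n₁, D₁) →
    ∀ n₂ < Bq k f (qF F) + 1, ∀ D₂ ∈ rels n₂, freeC F (n₂, D₂) →
      bjC F f (n₁, D₁) (n₂, D₂)

theorem certB_sound {k : ℕ} {F : List Code} {f : ℕ} (hk : ∀ G ∈ Free F, CliqueWidthLE k G)
    (h : CertB k F f) : BoundedlyAtomic (Free F) := by
  obtain ⟨hf, h⟩ := h
  have key : ∀ G ∈ Free F, ∃ G' : FG, G'.1 < Bq k f (qF F) + 1 ∧ G' ∈ Free F ∧
      ∀ c' : Fin G'.1 → Fin f, ∃ c : Fin G.1 → Fin f, tyS (qF F) G'.2 c' = tyS (qF F) G.2 c := by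
    intro G hG
    obtain ⟨G', h1, h2, h3⟩ := exists_small_rep k f (qF F) (hk G hG)
    obtain ⟨c', hc'⟩ := h3 fun _ => ⟨0, hf⟩
    exact ⟨G', Nat.lt_succ_of_le h1, free_transfer le_qF hc' hG, h2⟩
  refine ⟨f, fun G₁ hG₁ G₂ hG₂ => ?_⟩
  obtain ⟨G₁', h1, h1F, h1c⟩ := key G₁ hG₁
  obtain ⟨G₂', h2, h2F, h2c⟩ := key G₂ hG₂
  obtain ⟨D₁, hD₁, hcode₁⟩ := exists_code_rels G₁'
  obtain ⟨D₂, hD₂, hcode₂⟩ := exists_code_rels G₂'
  have h3 := h G₁'.1 h1 D₁ hD₁ (by rw [freeC_iff, hcode₁]; exact h1F)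
    G₂'.1 h2 D₂ hD₂ (by rw [freeC_iff, hcode₂]; exact h2F)
  rw [bjC_iff, hcode₁, hcode₂] at h3
  exact join_transfer le_qF (two_le_qF F) h1c h2c h3

theorem certB_complete {F : List Code} (k : ℕ) (h : BoundedlyAtomic (Free F)) :
    ∃ f, CertB k F f := by
  obtain ⟨f, h⟩ := h
  refine ⟨f + 1, Nat.succ_pos f, fun n₁ _ D₁ _ h₁ n₂ _ D₂ _ h₂ => ?_⟩
  rw [freeC_iff] at h₁ h₂
  obtain ⟨H, hH, hJ⟩ := h _ h₁ _ h₂
  exact (bjC_iff _ _ _ _).2 ⟨H, hH, hJ.mono⟩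

section Prim

open Primrec

variable {α : Type} [Primcodable α]

theorem isEmb_primrec {f g : α → Code} {φ : α → List ℕ} (hf : Primrec f) (hg : Primrec g)
    (hφ : Primrec φ) : PrimrecPred fun a => isEmb (f a) (g a) (φ a) := by
  unfold isEmb
  refine pAllLt (Primrec.fst.comp hf) (pAllLt (Primrec.fst.comp (hf.comp Primrec.fst)) ?_)
  have hi : Primrec fun x : (α × ℕ) × ℕ => x.1.2 := Primrec.snd.comp Primrec.fst
  have hj : Primrec fun x : (α × ℕ) × ℕ => x.2 := Primrec.snd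
  have h0 : Primrec fun x : (α × ℕ) × ℕ => x.1.1 := Primrec.fst.comp Primrec.fst
  have hφ' := hφ.comp h0
  exact (pImp (pEq (pget hφ' hi) (pget hφ' hj)) (pEq hi hj)).and
    (pIff (adjC_primrec (hf.comp h0) hi hj) (adjC_primrec (hg.comp h0) (pget hφ' hi)
      (pget hφ' hj)))

theorem relC_primrec {g : α → Code} {n₁ n₂ : α → ℕ} {φ₁ φ₂ c₁ c₂ : α → List ℕ}
    {E T : α → List (ℕ × ℕ)} (hg : Primrec g) (hn₁ : Primrec n₁) (hn₂ : Primrec n₂)
    (hφ₁ : Primrec φ₁) (hφ₂ : Primrec φ₂) (hc₁ : Primrec c₁) (hc₂ : Primrec c₂)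
    (hE : Primrec E) (hT : Primrec T) : PrimrecPred fun a =>
      relC (g a) (n₁ a) (n₂ a) (φ₁ a) (φ₂ a) (c₁ a) (c₂ a) (E a) (T a) := by
  unfold relC
  refine pAllLt hn₁ (pAllLt (hn₂.comp Primrec.fst) ?_)
  have hi : Primrec fun x : (α × ℕ) × ℕ => x.1.2 := Primrec.snd.comp Primrec.fst
  have hj : Primrec fun x : (α × ℕ) × ℕ => x.2 := Primrec.snd
  have h0 : Primrec fun x : (α × ℕ) × ℕ => x.1.1 := Primrec.fst.comp Primrec.fst
  have a1 := pget (hφ₁.comp h0) hi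
  have a2 := pget (hφ₂.comp h0) hj
  have a3 := pget (hc₁.comp h0) hi
  have a4 := pget (hc₂.comp h0) hj
  exact (pIff (pEq a1 a2) (pMem (Primrec.pair a3 a4) (hE.comp h0))).and
    (pIff (adjC_primrec (hg.comp h0) a1 a2) (pMem (Primrec.pair a3 a4) (hT.comp h0)))

theorem bjC_primrec {F : α → List Code} {f : α → ℕ} {g₁ g₂ : α → Code} (hF : Primrec F)
    (hf : Primrec f) (h₁ : Primrec g₁) (h₂ : Primrec g₂) :
    PrimrecPred fun a => bjC (F a) (f a) (g₁ a) (g₂ a) := by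
  unfold bjC
  have hn₁ : Primrec fun a => (g₁ a).1 := Primrec.fst.comp h₁
  have hn₂ : Primrec fun a => (g₂ a).1 := Primrec.fst.comp h₂
  refine pEx (Primrec.list_range.comp (Primrec.succ.comp (Primrec.nat_add.comp hn₁ hn₂))) ?_
  refine pEx (rels_primrec Primrec.snd) ?_
  -- context: ((a, n), D)
  have b0 : Primrec fun x : (α × ℕ) × List (ℕ × ℕ) => x.1.1 := Primrec.fst.comp Primrec.fst
  have bn : Primrec fun x : (α × ℕ) × List (ℕ × ℕ) => x.1.2 := Primrec.snd.comp Primrec.fst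
  have bg : Primrec fun x : (α × ℕ) × List (ℕ × ℕ) => ((x.1.2, x.2) : Code) :=
    Primrec.pair bn Primrec.snd
  refine (freeC_primrec (hF.comp b0) bg).and ?_
  refine pEx (tuples_primrec (Primrec.list_range.comp bn) (hn₁.comp b0)) ?_
  have p1 : Primrec fun x : ((α × ℕ) × List (ℕ × ℕ)) × List ℕ => x.1 := Primrec.fst
  refine (isEmb_primrec (h₁.comp (b0.comp p1)) (bg.comp p1) Primrec.snd).and ?_
  refine pEx (tuples_primrec (Primrec.list_range.comp (bn.comp p1)) (hn₂.comp (b0.comp p1))) ?_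
  have p2 : Primrec fun x : (((α × ℕ) × List (ℕ × ℕ)) × List ℕ) × List ℕ => x.1.1 :=
    Primrec.fst.comp Primrec.fst
  refine (isEmb_primrec (h₂.comp (b0.comp p2)) (bg.comp p2) Primrec.snd).and ?_
  refine pEx (tuples_primrec (Primrec.list_range.comp (hf.comp (b0.comp p2)))
    (hn₁.comp (b0.comp p2))) ?_
  have p3 : Primrec fun x : ((((α × ℕ) × List (ℕ × ℕ)) × List ℕ) × List ℕ) × List ℕ =>
    x.1.1.1 := p2.comp Primrec.fst
  refine pEx (tuples_primrec (Primrec.list_range.comp (hf.comp (b0.comp p3)))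
    (hn₂.comp (b0.comp p3))) ?_
  have p4 : Primrec fun x : (((((α × ℕ) × List (ℕ × ℕ)) × List ℕ) × List ℕ) × List ℕ) ×
    List ℕ => x.1.1.1.1 := p3.comp Primrec.fst
  refine pEx (rels_primrec (hf.comp (b0.comp p4))) ?_
  have p5 : Primrec fun x : ((((((α × ℕ) × List (ℕ × ℕ)) × List ℕ) × List ℕ) × List ℕ) ×
    List ℕ) × List (ℕ × ℕ) => x.1.1.1.1.1 := p4.comp Primrec.fst
  refine pEx (rels_primrec (hf.comp (b0.comp p5))) ?_
  have p6 : Primrec fun x : (((((((α × ℕ) × List (ℕ × ℕ)) × List ℕ) × List ℕ) × List ℕ) ×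
    List ℕ) × List (ℕ × ℕ)) × List (ℕ × ℕ) => x.1.1.1.1.1.1 := p5.comp Primrec.fst
  have q1 : Primrec fun x : (((((((α × ℕ) × List (ℕ × ℕ)) × List ℕ) × List ℕ) × List ℕ) ×
    List ℕ) × List (ℕ × ℕ)) × List (ℕ × ℕ) => x.1 := Primrec.fst
  have q2 : Primrec fun x : (((((((α × ℕ) × List (ℕ × ℕ)) × List ℕ) × List ℕ) × List ℕ) ×
    List ℕ) × List (ℕ × ℕ)) × List (ℕ × ℕ) => x.1.1 := Primrec.fst.comp q1
  have q3 : Primrec fun x : (((((((α × ℕ) × List (ℕ × ℕ)) × List ℕ) × List ℕ) × List ℕ) ×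
    List ℕ) × List (ℕ × ℕ)) × List (ℕ × ℕ) => x.1.1.1 := Primrec.fst.comp q2
  have q4 : Primrec fun x : (((((((α × ℕ) × List (ℕ × ℕ)) × List ℕ) × List ℕ) × List ℕ) ×
    List ℕ) × List (ℕ × ℕ)) × List (ℕ × ℕ) => x.1.1.1.1 := Primrec.fst.comp q3
  have q5 : Primrec fun x : (((((((α × ℕ) × List (ℕ × ℕ)) × List ℕ) × List ℕ) × List ℕ) ×
    List ℕ) × List (ℕ × ℕ)) × List (ℕ × ℕ) => x.1.1.1.1.1 := Primrec.fst.comp q4
  exact relC_primrec (bg.comp p6) (hn₁.comp (b0.comp p6)) (hn₂.comp (b0.comp p6))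
    (Primrec.snd.comp q5) (Primrec.snd.comp q4) (Primrec.snd.comp q3) (Primrec.snd.comp q2)
    (Primrec.snd.comp q1) Primrec.snd

theorem qF_primrec {F : α → List Code} (hF : Primrec F) : Primrec fun a => qF (F a) := by
  have : Primrec₂ fun (_ : α) (p : Code × ℕ) => p.1.1 + p.2 :=
    Primrec.nat_add.comp (Primrec.fst.comp (Primrec.fst.comp Primrec.snd))
      (Primrec.snd.comp Primrec.snd)
  exact Primrec.list_foldr hF (Primrec.const 2) this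

theorem Bq_primrec {k f q : α → ℕ} (hk : Primrec k) (hf : Primrec f) (hq : Primrec q) :
    Primrec fun a => Bq (k a) (f a) (q a) := by
  unfold Bq
  have two : Primrec fun _ : α => 2 := Primrec.const 2
  have hqq : Primrec fun a => 2 ^ (q a * q a) := pow_primrec.comp two (Primrec.nat_mul.comp hq hq)
  exact pow_primrec.comp two (pow_primrec.comp two (pow_primrec.comp two
    (Primrec.nat_mul.comp (pow_primrec.comp (Primrec.succ.comp (Primrec.nat_mul.comp hk hf)) hq)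
      (Primrec.nat_mul.comp hqq hqq))))

theorem certB_primrec {k : α → ℕ} {F : α → List Code} {f : α → ℕ} (hk : Primrec k)
    (hF : Primrec F) (hf : Primrec f) : PrimrecPred fun a => CertB (k a) (F a) (f a) := by
  unfold CertB
  have hB : Primrec fun a => Bq (k a) (f a) (qF (F a)) + 1 :=
    Primrec.succ.comp (Bq_primrec hk hf (qF_primrec hF))
  refine (pLt (Primrec.const 0) hf).and ?_
  refine pAllLt hB (pAll (rels_primrec Primrec.snd) ?_)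
  have b0 : Primrec fun x : (α × ℕ) × List (ℕ × ℕ) => x.1.1 := Primrec.fst.comp Primrec.fst
  have bg : Primrec fun x : (α × ℕ) × List (ℕ × ℕ) => ((x.1.2, x.2) : Code) :=
    Primrec.pair (Primrec.snd.comp Primrec.fst) Primrec.snd
  refine pImp (freeC_primrec (hF.comp b0) bg) ?_
  refine pAllLt (hB.comp b0) (pAll (rels_primrec Primrec.snd) ?_)
  have d0 : Primrec fun x : ((((α × ℕ) × List (ℕ × ℕ)) × ℕ) × List (ℕ × ℕ)) => x.1.1 :=
    Primrec.fst.comp Primrec.fst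
  have dg : Primrec fun x : ((((α × ℕ) × List (ℕ × ℕ)) × ℕ) × List (ℕ × ℕ)) =>
      ((x.1.2, x.2) : Code) := Primrec.pair (Primrec.snd.comp Primrec.fst) Primrec.snd
  exact pImp (freeC_primrec (hF.comp (b0.comp d0)) dg)
    (bjC_primrec (hF.comp (b0.comp d0)) (hf.comp (b0.comp d0)) (bg.comp d0) dg)

end Prim

/-- For all `k`: atomicity is decided for all classes `Free F` of clique-width at most `k`
which are not atomic or are boundedly atomic -/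
theorem main2 : ∃ A : ℕ × List (ℕ × List (ℕ × ℕ)) →. Bool, Partrec A ∧
    ∀ k F, (∀ G ∈ Free F, CliqueWidthLE k G) →
      ((A (k, F)).Dom ↔ (¬ Atomic (Free F) ∨ BoundedlyAtomic (Free F))) ∧
        ∀ b ∈ A (k, F), (b = true ↔ Atomic (Free F)) := by
  have hA : PrimrecPred fun p : (ℕ × List Code) × (ℕ × (Code × Code)) =>
      CertB p.1.1 p.1.2 p.2.1 :=
    certB_primrec (Primrec.fst.comp Primrec.fst) (Primrec.snd.comp Primrec.fst)
      (Primrec.fst.comp Primrec.snd)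
  have hN : PrimrecPred fun p : (ℕ × List Code) × (ℕ × (Code × Code)) =>
      CertN p.1.2 p.2.2.1 p.2.2.2 :=
    certN_primrec (Primrec.snd.comp Primrec.fst)
      (Primrec.fst.comp (Primrec.snd.comp Primrec.snd))
      (Primrec.snd.comp (Primrec.snd.comp Primrec.snd))
  obtain ⟨A, h1, h2, h3⟩ := search (QA := fun (a : ℕ × List Code) (x : ℕ × (Code × Code)) =>
    CertB a.1 a.2 x.1) (QN := fun a x => CertN a.2 x.2.1 x.2.2) hA hN
  refine ⟨A, h1, fun k F hk => ⟨(h2 (k, F)).trans ⟨?_, ?_⟩, fun b hb => ?_⟩⟩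
  · rintro ⟨x, h | h⟩
    · exact Or.inr (certB_sound hk h)
    · left
      rw [atomic_iff (free_hereditary F)]
      exact certN_sound h
  · rintro (h | h)
    · rw [atomic_iff (free_hereditary F)] at h
      obtain ⟨g1, g2, h⟩ := certN_complete h
      exact ⟨(0, (g1, g2)), Or.inr h⟩
    · obtain ⟨f, h⟩ := certB_complete k h
      exact ⟨(f, ((0, []), (0, []))), Or.inl h⟩
  · obtain ⟨x, hx, hiff⟩ := h3 (k, F) b hb
    rw [hiff, atomic_iff (free_hereditary F)]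
    constructor
    · intro h
      exact (certB_sound hk h).jep
    · intro hJ
      rcases hx with hx | hx
      · exact hx
      · exact absurd hJ (certN_sound hx)

/-- the classes of bounded width are boundedly atomic if they are atomic -/
theorem main3 (F : List Code) (hX : BoundedDec (Free F)) (hJ : Atomic (Free F)) :
    BoundedlyAtomic (Free F) := by
  rw [atomic_iff (free_hereditary F)] at hJ
  obtain ⟨m, r, hk⟩ := hX
  have hk' : ∀ G ∈ Free F, ∃ c : Fin G.1 → Fin m, Dec G.2 m (r + 2) c Set.univ := by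
    intro G hG
    obtain ⟨c, hc⟩ := hk G hG
    exact ⟨c, hc.mono (by omega)⟩
  by_cases hne : (Free F).Nonempty
  · obtain ⟨Γ, I, h1, h2, h3⟩ := exists_grammar m (r + 2) (by omega) F
    obtain ⟨i, hi, hiX⟩ : ∃ i ∈ I, Free F ⊆ {G : FG | InCl (r + 2) Γ i G.2} := by
      by_contra hno
      push Not at hno
      obtain ⟨G, hG, h⟩ := directed_union (Free F) hJ hne
        (fun i : ℕ => {G : FG | InCl (r + 2) Γ i G.2})
        (fun i => inCl_hereditary (r + 2) Γ i) I hno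
      obtain ⟨i, hi, hGi⟩ := h3 G hG (hk' G hG)
      exact h i hi hGi
    obtain ⟨f, hf⟩ := inCl_boundedJoin h1 i
    refine ⟨f, fun G₁ hG₁ G₂ hG₂ => ?_⟩
    obtain ⟨H, hH, hB⟩ := hf G₁ G₂ (hiX hG₁) (hiX hG₂)
    exact ⟨H, h2 i hi H hH, hB⟩
  · refine ⟨0, fun G hG => absurd ⟨G, hG⟩ hne⟩

end Pool.Agent.H12Tree
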