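import Pool.Agent.H12Tree.Cw

/-!
# Joint embeddings of bounded interaction
-/

namespace Pool.Agent.H12Tree

open Tm Pool.Agent.H12Letter

/-- `H` contains copies of `G₁` and `G₂` which interact in a bounded way: there are colourings
of `G₁` and of `G₂` with `f` colours such that for all vertices `u` of `G₁` and `v` of `G₂` the
two colours determine whether the two images in `H` are equal, and whether they are
adjacent -/
def BJoin (f : ℕ) (G₁ G₂ H : FG) : Prop :=
  ∃ (φ₁ : G₁.2 ↪g H.2) (φ₂ : G₂.2 ↪g H.2) (c₁ : Fin G₁.1 → Fin f) (c₂ : Fin G₂.1 → Fin f)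
    (E T : Fin f → Fin f → Prop),
    ∀ u v, (φ₁ u = φ₂ v ↔ E (c₁ u) (c₂ v)) ∧ (H.2.Adj (φ₁ u) (φ₂ v) ↔ T (c₁ u) (c₂ v))

/-- there is a bound `f` such that any two members of `X` have a joint embedding into
a member of `X` with interaction bounded by `f` -/
def BoundedlyAtomic (X : Set FG) : Prop :=
  ∃ f, ∀ G₁ ∈ X, ∀ G₂ ∈ X, ∃ H ∈ X, BJoin f G₁ G₂ H

/-- types of partial `q`-tuples of vertices with labels in `Λ`: the labels of the entries (where
they are defined), the equalities and the adjacencies -/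
abbrev PTy (Λ : Type) (q : ℕ) : Type :=
  (Fin q → Option Λ) × ((Fin q → Fin q → Prop) × (Fin q → Fin q → Prop))

/-- the type of a partial tuple -/
def aty {V Λ : Type} {q : ℕ} (G : SimpleGraph V) (c : V → Λ) (x : Fin q → Option V) :
    PTy Λ q :=
  (fun i => (x i).map c, fun i j => ∃ v, x i = some v ∧ x j = some v,
    fun i j => ∃ u v, x i = some u ∧ x j = some v ∧ G.Adj u v)

/-- all types of partial `q`-tuples -/
def tyS {V Λ : Type} (q : ℕ) (G : SimpleGraph V) (c : V → Λ) : Set (PTy Λ q) :=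
  Set.range fun x : Fin q → Option V => aty G c x

/-- the bound for the small representatives -/
def Bq (k f q : ℕ) : ℕ :=
  2 ^ (2 ^ (2 ^ ((k * f + 1) ^ q * (2 ^ (q * q) * 2 ^ (q * q)))))

end Pool.Agent.H12Tree
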