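import Pool.Agent.H12Tree.FS

/-!
# The membership in the classes of a grammar is primitive recursive
-/

namespace Pool.Agent.H12Tree

open Tm Pool.Agent.H12Letter Primrec

/-- the part of `Y` (a list of `n` bits) with `κ = j` -/
def partC (n : ℕ) (Y κ : List ℕ) (j : ℕ) : List ℕ :=
  (List.range n).map fun u => if Y.getD u 0 = 1 ∧ κ.getD u 0 = j then 1 else 0

/-- the first step, for the code `g` of a graph, the list `c` of its colours, a list `S` of
pairs (nonterminal, list of bits) and the pair `x` -/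
def stepC (r : ℕ) (Γ : Grm) (g : Code) (c : List ℕ) (S : List (ℕ × List ℕ))
    (x : ℕ × List ℕ) : Prop :=
  (∀ u < g.1, x.2.getD u 0 ≠ 1) ∨
  (∃ v ∈ List.range g.1, (∀ u < g.1, (x.2.getD u 0 = 1 ↔ u = v)) ∧
    (c.getD v 0 + 1, [], []) ∈ Γ.getD x.1 []) ∨
  ∃ p ∈ Γ.getD x.1 [], p.1 = 0 ∧ ∃ κ ∈ tuples (List.range r) g.1,
    (∀ u < g.1, x.2.getD u 0 = 1 → p.2.2.getD (κ.getD u 0) 0 ≠ 0) ∧
    (∀ u < g.1, ∀ v < g.1, x.2.getD u 0 = 1 → x.2.getD v 0 = 1 → κ.getD u 0 < κ.getD v 0 →
      (adjC g u v ↔ (κ.getD u 0, κ.getD v 0, c.getD u 0, c.getD v 0) ∈ p.2.1)) ∧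
    (∀ j < r, p.2.2.getD j 0 = 1 → (∃ u ∈ List.range g.1, x.2.getD u 0 = 1 ∧ κ.getD u 0 ≠ j) ∧
      (x.1, partC g.1 x.2 κ j) ∈ S) ∧
    ∀ j < r, 2 ≤ p.2.2.getD j 0 → (p.2.2.getD j 0 - 2, partC g.1 x.2 κ j) ∈ S

/-- all pairs (nonterminal at most `i`, list of `n` bits) -/
def allC (i n : ℕ) : List (ℕ × List ℕ) :=
  (List.range (i + 1)).flatMap fun l => (tuples (List.range 2) n).map fun Y => (l, Y)

/-- membership in the class of nonterminal `i`, for codes -/
def inClC (m r : ℕ) (Γ : Grm) (i : ℕ) (g : Code) : Prop :=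
  ∃ c ∈ tuples (List.range m) g.1, ∃ S ∈ subs (allC i g.1),
    (i, (List.range g.1).map fun _ => 1) ∈ S ∧ ∀ x ∈ S, stepC r Γ g c S x

/-- the set of the positions of the ones of a list of bits -/
def setC (n : ℕ) (Y : List ℕ) : Set (Fin n) := {v | Y.getD v 0 = 1}

theorem mem_setC {n : ℕ} {Y : List ℕ} {v : Fin n} : v ∈ setC n Y ↔ Y.getD v 0 = 1 := Iff.rfl

theorem getD_map_range {n : ℕ} (f : ℕ → ℕ) {u : ℕ} (hu : u < n) :
    ((List.range n).map f).getD u 0 = f u := by
  rw [List.getD_eq_getElem _ _ (by simpa using hu)]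
  simp

theorem getD_partC {n : ℕ} (Y κ : List ℕ) (j : ℕ) {u : ℕ} (hu : u < n) :
    (partC n Y κ j).getD u 0 = if Y.getD u 0 = 1 ∧ κ.getD u 0 = j then 1 else 0 :=
  getD_map_range _ hu

theorem setC_partC (n : ℕ) (Y κ : List ℕ) (j : ℕ) :
    setC n (partC n Y κ j) = {u | u ∈ setC n Y ∧ κ.getD u 0 = j} := by
  ext u
  rw [mem_setC, getD_partC Y κ j u.2, Set.mem_ofPred_eq, mem_setC]
  split_ifs with h
  · exact iff_of_true rfl h
  · exact iff_of_false (by simp) h

theorem setC_ones (n : ℕ) : setC n ((List.range n).map fun _ => 1) = Set.univ := by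
  ext u
  rw [mem_setC, getD_map_range _ u.2]
  simp

theorem ones_mem_tuples (n : ℕ) :
    ((List.range n).map fun _ => 1) ∈ tuples (List.range 2) n := by
  rw [mem_tuples]
  refine ⟨by simp, fun x hx => ?_⟩
  obtain ⟨u, -, rfl⟩ := List.mem_map.1 hx
  simp

theorem partC_mem_tuples (n : ℕ) (Y κ : List ℕ) (j : ℕ) :
    partC n Y κ j ∈ tuples (List.range 2) n := by
  rw [mem_tuples]
  refine ⟨by simp [partC], fun x hx => ?_⟩
  obtain ⟨u, -, rfl⟩ := List.mem_map.1 hx
  split_ifs <;> simp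

theorem mem_allC {i n : ℕ} {x : ℕ × List ℕ} :
    x ∈ allC i n ↔ x.1 < i + 1 ∧ x.2 ∈ tuples (List.range 2) n := by
  rcases x with ⟨l, Y⟩
  simp only [allC, List.mem_flatMap, List.mem_range, List.mem_map, Prod.mk.injEq]
  constructor
  · rintro ⟨l', hl, Y', hY, rfl, rfl⟩
    exact ⟨hl, hY⟩
  · rintro ⟨hl, hY⟩
    exact ⟨l, hl, Y, hY, rfl, rfl⟩

theorem lt_length_of_mem {Γ : Grm} {i : ℕ} {p : PC} (h : p ∈ Γ.getD i []) : i < Γ.length := by
  by_contra hno
  rw [List.getD_eq_default _ _ (not_lt.1 hno)] at h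
  simp at h

theorem okG.ref_le {m r : ℕ} {Γ : Grm} (hΓ : okG m r Γ) {i : ℕ} {p : PC}
    (h : p ∈ Γ.getD i []) (j : ℕ) : p.2.2.getD j 0 ≤ i + 1 := by
  by_cases hj : j < p.2.2.length
  · rw [List.getD_eq_getElem _ _ hj]
    exact ((hΓ i (lt_length_of_mem h)).2 p h).2 _ (List.getElem_mem _)
  · rw [List.getD_eq_default _ _ (not_lt.1 hj)]
    omega

theorem okG.lv_lt {m r : ℕ} {Γ : Grm} (hΓ : okG m r Γ) {i : ℕ} {t : Tm Tab r ℕ}
    (h : DerT Γ i t) : ∀ a ∈ t.lv, a < m := by
  induction h with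
  | emp i =>
    intro a ha
    exact ha.elim
  | leaf i a h =>
    intro b hb
    rw [Tm.lv, Set.mem_singleton_iff] at hb
    subst hb
    exact ((hΓ i (lt_length_of_mem h)).2 _ h).1
  | node i q ρ ch h h0 _ _ ih1 ih2 =>
    intro a ha
    rw [Tm.lv] at ha
    obtain ⟨j, hj⟩ := Set.mem_iUnion.1 ha
    rcases Nat.eq_zero_or_pos (ρ.getD j 0) with h3 | h3
    · rw [h0 j h3] at hj
      exact hj.elim
    · rcases Nat.eq_or_lt_of_le h3 with h4 | h4
      · exact ih1 j h4.symm a hj
      · exact ih2 j (ρ.getD j 0 - 2) (by omega) a hj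

theorem derS_emptyC (r : ℕ) (Γ : Grm) {V : Type} (G : SimpleGraph V) (c : V → ℕ) (i : ℕ) :
    DerS r Γ G c i ∅ := ⟨.emp, DerT.emp i, Real.emp⟩

/-- soundness -/
theorem derS_of_stepC {m r : ℕ} {Γ : Grm} (hΓ : okG m r Γ) {g : Code}
    {G : SimpleGraph (Fin g.1)} (hG : ∀ i j : Fin g.1, adjC g i j ↔ G.Adj i j) {c : List ℕ}
    {S : List (ℕ × List ℕ)} (hS : ∀ x ∈ S, stepC r Γ g c S x) (l : ℕ) :
    ∀ (k : ℕ) (Y : List ℕ), (setC g.1 Y).ncard ≤ k → (l, Y) ∈ S →
      DerS r Γ G (fun v : Fin g.1 => c.getD v 0) l (setC g.1 Y) := by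
  induction l using Nat.strong_induction_on with
  | _ l ihl =>
    intro k
    induction k using Nat.strong_induction_on with
    | _ k ihk =>
      intro Y hk hY
      rcases hS _ hY with h | ⟨v, hv, h, hp⟩ | ⟨p, hp, hp0, κ, hκ, h1, h2, h3, h4⟩
      · have : setC g.1 Y = ∅ := by
          ext u
          simp only [mem_setC, Set.mem_empty_iff_false, iff_false]
          exact h u u.2
        rw [this]
        exact derS_emptyC _ _ _ _ _
      · refine DerS.of_step (Or.inl ⟨⟨v, List.mem_range.1 hv⟩, ?_, hp⟩)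
        ext u
        rw [mem_setC, Set.mem_singleton_iff, Fin.ext_iff]
        exact h u u.2
      · refine DerS.of_step (Or.inr ⟨p, hp, hp0, fun v : Fin g.1 => κ.getD v 0, ?_, ?_, ?_, ?_⟩)
        · intro u hu
          exact ⟨getD_lt hκ u, h1 u u.2 hu⟩
        · intro u hu v hv huv
          exact (hG u v).symm.trans (h2 u u.2 v v.2 hu hv huv)
        · intro j hj hj1
          obtain ⟨⟨u, hu, huY, huj⟩, hm⟩ := h3 j hj hj1
          have hu' : u < g.1 := List.mem_range.1 hu
          refine ⟨⟨⟨u, hu'⟩, huY, huj⟩, ?_⟩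
          change DerS r Γ G _ l {u | u ∈ setC g.1 Y ∧ κ.getD u 0 = j}
          rw [← setC_partC]
          have hlt : (setC g.1 (partC g.1 Y κ j)).ncard < (setC g.1 Y).ncard := by
            refine Set.ncard_lt_ncard ?_ (Set.toFinite _)
            rw [setC_partC, Set.ssubset_iff_of_subset (fun u hu => hu.1)]
            exact ⟨⟨u, hu'⟩, huY, fun h => huj h.2⟩
          exact ihk ((setC g.1 (partC g.1 Y κ j)).ncard) (lt_of_lt_of_le hlt hk) _ le_rfl hm
        · intro j hj l' hl'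
          have hle := hΓ.ref_le hp j
          have hm := h4 j hj (by omega)
          rw [hl', Nat.add_sub_cancel] at hm
          change DerS r Γ G _ l' {u | u ∈ setC g.1 Y ∧ κ.getD u 0 = j}
          rw [← setC_partC]
          exact ihl l' (by omega) _ _ le_rfl hm

/-- the first step in coded form -/
theorem stepC_of_step {m r : ℕ} {Γ : Grm} (hΓ : okG m r Γ) {g : Code}
    {G : SimpleGraph (Fin g.1)} (hG : ∀ i j : Fin g.1, adjC g i j ↔ G.Adj i j)
    {c : Fin g.1 → ℕ} {S : List (ℕ × List ℕ)} {i : ℕ} (x : ℕ × List ℕ) (hx : x.1 < i + 1)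
    (hS : ∀ y : ℕ × List ℕ, y.1 < i + 1 → y.2 ∈ tuples (List.range 2) g.1 →
      DerS r Γ G c y.1 (setC g.1 y.2) → y ∈ S)
    (h : DerS r Γ G c x.1 (setC g.1 x.2)) :
    stepC r Γ g (List.ofFn c) S x := by
  classical
  rcases Set.eq_empty_or_nonempty (setC g.1 x.2) with he | he
  · left
    intro u hu h1
    have : (⟨u, hu⟩ : Fin g.1) ∈ setC g.1 x.2 := h1
    rw [he] at this
    exact this
  · rcases h.step he with ⟨v, hv, hp⟩ | ⟨p, hp, hp0, κ, h1, h2, h3, h4⟩
    · right; left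
      refine ⟨v, List.mem_range.2 v.2, ?_, ?_⟩
      · intro u hu
        have : (⟨u, hu⟩ : Fin g.1) ∈ setC g.1 x.2 ↔ (⟨u, hu⟩ : Fin g.1) = v := by
          rw [hv, Set.mem_singleton_iff]
        rw [mem_setC, Fin.ext_iff] at this
        exact this
      · rw [getD_ofFn c v]
        exact hp
    · right; right
      obtain ⟨u0, hu0⟩ := he
      set κ' : Fin g.1 → ℕ := fun u => if u ∈ setC g.1 x.2 then κ u else κ u0 with hκ'
      have e1 : ∀ u (hu : u < g.1), x.2.getD u 0 = 1 →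
          (List.ofFn κ').getD u 0 = κ ⟨u, hu⟩ := by
        intro u hu hu1
        have h5 := getD_ofFn κ' ⟨u, hu⟩
        simp only at h5
        rw [h5, hκ']
        exact if_pos hu1
      have e2 : ∀ j, setC g.1 (partC g.1 x.2 (List.ofFn κ') j) =
          {u | u ∈ setC g.1 x.2 ∧ κ u = j} := by
        intro j
        rw [setC_partC]
        ext u
        simp only [Set.mem_ofPred_eq]
        constructor
        · rintro ⟨h5, h6⟩
          rw [e1 u u.2 h5] at h6
          exact ⟨h5, h6⟩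
        · rintro ⟨h5, h6⟩
          refine ⟨h5, ?_⟩
          rw [e1 u u.2 h5]
          exact h6
      refine ⟨p, hp, hp0, List.ofFn κ', ofFn_mem_tuples _ fun u => ?_, ?_, ?_, ?_, ?_⟩
      · rw [hκ']
        simp only
        split_ifs with hu
        · exact (h1 u hu).1
        · exact (h1 u0 hu0).1
      · intro u hu hu1
        rw [e1 u hu hu1]
        exact (h1 ⟨u, hu⟩ hu1).2
      · intro u hu v hv hu1 hv1
        rw [e1 u hu hu1, e1 v hv hv1]
        intro huv
        have h5 := getD_ofFn c ⟨u, hu⟩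
        have h6 := getD_ofFn c ⟨v, hv⟩
        simp only at h5 h6
        rw [h5, h6]
        exact (hG ⟨u, hu⟩ ⟨v, hv⟩).trans (h2 ⟨u, hu⟩ hu1 ⟨v, hv⟩ hv1 huv)
      · intro j hj hj1
        obtain ⟨⟨u, hu, huj⟩, hR⟩ := h3 j hj hj1
        refine ⟨⟨u, List.mem_range.2 u.2, hu, ?_⟩, hS _ hx (partC_mem_tuples _ _ _ _) ?_⟩
        · rw [e1 u u.2 hu]
          exact huj
        · simp only
          rw [e2]
          exact hR
      · intro j hj hj2
        have hle := hΓ.ref_le hp j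
        refine hS _ ?_ (partC_mem_tuples _ _ _ _) ?_
        · simp only
          omega
        · simp only
          rw [e2]
          exact h4 j hj _ (by omega)

theorem inClC_iff {m r : ℕ} {Γ : Grm} (hΓ : okG m r Γ) (i : ℕ) (g : Code) :
    inClC m r Γ i g ↔ InCl r Γ i (decodeG g).2 := by
  classical
  constructor
  · rintro ⟨c, -, S, -, hi, hS⟩
    have h := derS_of_stepC hΓ (adjC_iff g) hS i _ _ le_rfl hi
    rw [setC_ones] at h
    obtain ⟨t, h1, h2⟩ := h
    exact ⟨_, t, h1, h2⟩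
  · rintro ⟨c, t, h1, h2⟩
    have hc : ∀ v : Fin g.1, c v < m := by
      intro v
      refine hΓ.lv_lt h1 _ ?_
      rw [h2.lv]
      exact ⟨v, trivial, rfl⟩
    refine ⟨List.ofFn c, ofFn_mem_tuples _ hc,
      (allC i g.1).filter fun x => decide (DerS r Γ (decodeG g).2 c x.1 (setC g.1 x.2)),
      filter_mem_subs _ _, ?_, ?_⟩
    · rw [List.mem_filter, mem_allC, decide_eq_true_iff]
      refine ⟨⟨Nat.lt_succ_self i, ones_mem_tuples _⟩, ?_⟩
      simp only
      rw [setC_ones]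
      exact ⟨t, h1, h2⟩
    · intro x hx
      rw [List.mem_filter, mem_allC, decide_eq_true_iff] at hx
      refine stepC_of_step hΓ (adjC_iff g) x hx.1.1 (i := i) (fun y hy1 hy2 hy3 => ?_) hx.2
      rw [List.mem_filter, mem_allC, decide_eq_true_iff]
      exact ⟨⟨hy1, hy2⟩, hy3⟩

section Prim

variable {α : Type} [Primcodable α]

theorem pExLt {n : α → ℕ} {p : α → ℕ → Prop} (hn : Primrec n)
    (hp : PrimrecPred fun x : α × ℕ => p x.1 x.2) : PrimrecPred fun a => ∃ i < n a, p a i :=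
  (pEx (Primrec.list_range.comp hn) hp).of_eq fun a => by simp

theorem pLe {f g : α → ℕ} (hf : Primrec f) (hg : Primrec g) :
    PrimrecPred fun a => f a ≤ g a := PrimrecRel.comp Primrec.nat_le hf hg

theorem subs_primrec {β : Type} [Primcodable β] {S : α → List β} (hS : Primrec S) :
    Primrec fun a => subs (S a) := by
  refine Primrec.list_flatMap (Primrec.list_range.comp
    (Primrec.succ.comp (Primrec.list_length.comp hS))) ?_
  exact tuples_primrec (hS.comp Primrec.fst) Primrec.snd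

theorem quads_primrec {m r : α → ℕ} (hm : Primrec m) (hr : Primrec r) :
    Primrec fun a => quads (m a) (r a) := by
  refine Primrec.list_flatMap (pairs_primrec hr) ?_
  refine Primrec.list_map (pairs_primrec (hm.comp Primrec.fst)) ?_
  have hp : Primrec fun x : (α × (ℕ × ℕ)) × (ℕ × ℕ) => x.1.2 := Primrec.snd.comp Primrec.fst
  exact Primrec.pair (Primrec.fst.comp hp) (Primrec.pair (Primrec.snd.comp hp) Primrec.snd)

theorem tabs_primrec {m r : α → ℕ} (hm : Primrec m) (hr : Primrec r) :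
    Primrec fun a => tabs (m a) (r a) :=
  subs_primrec (quads_primrec hm hr)

theorem gget {Γ : α → Grm} {i : α → ℕ} (hΓ : Primrec Γ) (hi : Primrec i) :
    Primrec fun a => (Γ a).getD (i a) [] := (Primrec.list_getD []).comp hΓ hi

theorem partC_primrec {n j : α → ℕ} {Y κ : α → List ℕ} (hn : Primrec n) (hY : Primrec Y)
    (hκ : Primrec κ) (hj : Primrec j) : Primrec fun a => partC (n a) (Y a) (κ a) (j a) := by
  refine Primrec.list_map (Primrec.list_range.comp hn) ?_
  refine Primrec.ite ?_ (Primrec.const 1) (Primrec.const 0)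
  exact (pEq (pget (hY.comp Primrec.fst) Primrec.snd) (Primrec.const 1)).and
    (pEq (pget (hκ.comp Primrec.fst) Primrec.snd) (hj.comp Primrec.fst))

/-- the conditions on one production and one list `κ` in `stepC` -/
def bodyC (r : ℕ) (g : Code) (c : List ℕ) (S : List (ℕ × List ℕ)) (x : ℕ × List ℕ)
    (p : PC) (κ : List ℕ) : Prop :=
  (∀ u < g.1, x.2.getD u 0 = 1 → p.2.2.getD (κ.getD u 0) 0 ≠ 0) ∧
    (∀ u < g.1, ∀ v < g.1, x.2.getD u 0 = 1 → x.2.getD v 0 = 1 → κ.getD u 0 < κ.getD v 0 →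
      (adjC g u v ↔ (κ.getD u 0, κ.getD v 0, c.getD u 0, c.getD v 0) ∈ p.2.1)) ∧
    (∀ j < r, p.2.2.getD j 0 = 1 → (∃ u ∈ List.range g.1, x.2.getD u 0 = 1 ∧ κ.getD u 0 ≠ j) ∧
      (x.1, partC g.1 x.2 κ j) ∈ S) ∧
    ∀ j < r, 2 ≤ p.2.2.getD j 0 → (p.2.2.getD j 0 - 2, partC g.1 x.2 κ j) ∈ S

theorem bodyC_primrec {r : α → ℕ} {g : α → Code} {c κ : α → List ℕ}
    {S : α → List (ℕ × List ℕ)} {x : α → ℕ × List ℕ} {p : α → PC} (hr : Primrec r)
    (hg : Primrec g) (hc : Primrec c) (hS : Primrec S) (hx : Primrec x) (hp : Primrec p)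
    (hκ : Primrec κ) :
    PrimrecPred fun a => bodyC (r a) (g a) (c a) (S a) (x a) (p a) (κ a) := by
  unfold bodyC
  have hn : Primrec fun a => (g a).1 := Primrec.fst.comp hg
  have hY : Primrec fun a => (x a).2 := Primrec.snd.comp hx
  have hi : Primrec fun a => (x a).1 := Primrec.fst.comp hx
  have hρ : Primrec fun a => (p a).2.2 := Primrec.snd.comp (Primrec.snd.comp hp)
  have hq : Primrec fun a => (p a).2.1 := Primrec.fst.comp (Primrec.snd.comp hp)
  have k1 : Primrec fun y : α × ℕ => y.1 := Primrec.fst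
  have k2 : Primrec fun y : α × ℕ => y.2 := Primrec.snd
  have l1 : Primrec fun y : (α × ℕ) × ℕ => y.1.1 := Primrec.fst.comp Primrec.fst
  have l2 : Primrec fun y : (α × ℕ) × ℕ => y.1.2 := Primrec.snd.comp Primrec.fst
  have l3 : Primrec fun y : (α × ℕ) × ℕ => y.2 := Primrec.snd
  refine PrimrecPred.and ?_ (PrimrecPred.and ?_ (PrimrecPred.and ?_ ?_))
  · refine pAllLt hn ?_
    refine pImp (pEq (pget (hY.comp k1) k2) (Primrec.const 1)) ?_
    exact (pEq (pget (hρ.comp k1) (pget (hκ.comp k1) k2)) (Primrec.const 0)).not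
  · refine pAllLt hn ?_
    refine pAllLt (hn.comp k1) ?_
    refine pImp (pEq (pget (hY.comp l1) l2) (Primrec.const 1)) ?_
    refine pImp (pEq (pget (hY.comp l1) l3) (Primrec.const 1)) ?_
    refine pImp (pLt (pget (hκ.comp l1) l2) (pget (hκ.comp l1) l3)) ?_
    refine pIff (adjC_primrec (hg.comp l1) l2 l3) ?_
    refine pMem ?_ (hq.comp l1)
    exact Primrec.pair (pget (hκ.comp l1) l2) (Primrec.pair (pget (hκ.comp l1) l3)
      (Primrec.pair (pget (hc.comp l1) l2) (pget (hc.comp l1) l3)))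
  · refine pAllLt hr ?_
    refine pImp (pEq (pget (hρ.comp k1) k2) (Primrec.const 1)) ?_
    refine PrimrecPred.and ?_ ?_
    · refine pEx (Primrec.list_range.comp (hn.comp k1)) ?_
      exact (pEq (pget (hY.comp l1) l3) (Primrec.const 1)).and
        (pEq (pget (hκ.comp l1) l3) l2).not
    · exact pMem (Primrec.pair (hi.comp k1) (partC_primrec (hn.comp k1) (hY.comp k1)
        (hκ.comp k1) k2)) (hS.comp k1)
  · refine pAllLt hr ?_
    refine pImp (pLe (Primrec.const 2) (pget (hρ.comp k1) k2)) ?_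
    exact pMem (Primrec.pair (Primrec.nat_sub.comp (pget (hρ.comp k1) k2) (Primrec.const 2))
      (partC_primrec (hn.comp k1) (hY.comp k1) (hκ.comp k1) k2)) (hS.comp k1)

theorem stepC_primrec {r : α → ℕ} {Γ : α → Grm} {g : α → Code} {c : α → List ℕ}
    {S : α → List (ℕ × List ℕ)} {x : α → ℕ × List ℕ} (hr : Primrec r) (hΓ : Primrec Γ)
    (hg : Primrec g) (hc : Primrec c) (hS : Primrec S) (hx : Primrec x) :
    PrimrecPred fun a => stepC (r a) (Γ a) (g a) (c a) (S a) (x a) := by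
  unfold stepC
  have hn : Primrec fun a => (g a).1 := Primrec.fst.comp hg
  have hY : Primrec fun a => (x a).2 := Primrec.snd.comp hx
  have hi : Primrec fun a => (x a).1 := Primrec.fst.comp hx
  have hΓi : Primrec fun a => (Γ a).getD (x a).1 [] := gget hΓ hi
  have k1 : Primrec fun y : α × ℕ => y.1 := Primrec.fst
  have k2 : Primrec fun y : α × ℕ => y.2 := Primrec.snd
  have l1 : Primrec fun y : (α × ℕ) × ℕ => y.1.1 := Primrec.fst.comp Primrec.fst
  have l2 : Primrec fun y : (α × ℕ) × ℕ => y.1.2 := Primrec.snd.comp Primrec.fst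
  have l3 : Primrec fun y : (α × ℕ) × ℕ => y.2 := Primrec.snd
  refine PrimrecPred.or ?_ (PrimrecPred.or ?_ ?_)
  · exact pAllLt hn (pEq (pget (hY.comp k1) k2) (Primrec.const 1)).not
  · refine pEx (Primrec.list_range.comp hn) (PrimrecPred.and ?_ ?_)
    · refine pAllLt (hn.comp k1) ?_
      exact pIff (pEq (pget (hY.comp l1) l3) (Primrec.const 1)) (pEq l3 l2)
    · refine pMem ?_ (hΓi.comp k1)
      exact Primrec.pair (Primrec.succ.comp (pget (hc.comp k1) k2)) (Primrec.const ([], []))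
  · refine pEx hΓi (PrimrecPred.and ?_ ?_)
    · exact pEq (Primrec.fst.comp Primrec.snd) (Primrec.const 0)
    · have m1 : Primrec fun y : α × PC => y.1 := Primrec.fst
      refine pEx (tuples_primrec (Primrec.list_range.comp (hr.comp m1)) (hn.comp m1)) ?_
      have n1 : Primrec fun y : (α × PC) × List ℕ => y.1.1 := Primrec.fst.comp Primrec.fst
      have n2 : Primrec fun y : (α × PC) × List ℕ => y.1.2 := Primrec.snd.comp Primrec.fst
      exact bodyC_primrec (hr.comp n1) (hg.comp n1) (hc.comp n1) (hS.comp n1) (hx.comp n1) n2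
        Primrec.snd

theorem allC_primrec {i n : α → ℕ} (hi : Primrec i) (hn : Primrec n) :
    Primrec fun a => allC (i a) (n a) := by
  refine Primrec.list_flatMap (Primrec.list_range.comp (Primrec.succ.comp hi)) ?_
  refine Primrec.list_map (tuples_primrec (Primrec.const (List.range 2))
    (hn.comp Primrec.fst)) ?_
  exact Primrec.pair (Primrec.snd.comp Primrec.fst) Primrec.snd

theorem inClC_primrec {m r i : α → ℕ} {Γ : α → Grm} {g : α → Code} (hm : Primrec m)
    (hr : Primrec r) (hΓ : Primrec Γ) (hi : Primrec i) (hg : Primrec g) :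
    PrimrecPred fun a => inClC (m a) (r a) (Γ a) (i a) (g a) := by
  unfold inClC
  have hn : Primrec fun a => (g a).1 := Primrec.fst.comp hg
  refine pEx (tuples_primrec (Primrec.list_range.comp hm) hn) ?_
  refine pEx (subs_primrec (allC_primrec (hi.comp Primrec.fst) (hn.comp Primrec.fst))) ?_
  have k1 : Primrec fun y : (α × List ℕ) × List (ℕ × List ℕ) => y.1.1 :=
    Primrec.fst.comp Primrec.fst
  have k2 : Primrec fun y : (α × List ℕ) × List (ℕ × List ℕ) => y.1.2 :=
    Primrec.snd.comp Primrec.fst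
  refine PrimrecPred.and ?_ ?_
  · refine pMem (Primrec.pair (hi.comp k1) ?_) Primrec.snd
    exact Primrec.list_map (Primrec.list_range.comp (hn.comp k1)) (Primrec.const 1)
  · refine pAll Primrec.snd ?_
    exact stepC_primrec (hr.comp (k1.comp Primrec.fst)) (hΓ.comp (k1.comp Primrec.fst))
      (hg.comp (k1.comp Primrec.fst)) (k2.comp Primrec.fst) (Primrec.snd.comp Primrec.fst)
      Primrec.snd

theorem okNT_primrec {r : α → ℕ} {ps : α → List PC} (hr : Primrec r) (hps : Primrec ps) :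
    PrimrecPred fun a => okNT (r a) (ps a) := by
  unfold okNT
  have k1 : Primrec fun y : α × PC => y.1 := Primrec.fst
  have k2 : Primrec fun y : α × PC => y.2 := Primrec.snd
  have hno : ∀ {β : Type} [Primcodable β] {r : β → ℕ} {p : β → PC}, Primrec r → Primrec p →
      PrimrecPred fun b => ∀ j < r b, (p b).2.2.getD j 0 ≠ 1 := by
    intro β _ r p hr hp
    refine pAllLt hr ?_
    exact (pEq (pget (Primrec.snd.comp (Primrec.snd.comp (hp.comp Primrec.fst))) Primrec.snd)
      (Primrec.const 1)).not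
  refine PrimrecPred.or ?_ ?_
  · refine pEx hps (PrimrecPred.and (pEq (Primrec.fst.comp k2) (Primrec.const 0)) ?_)
    refine pExLt (hr.comp k1) ?_
    have l1 : Primrec fun y : (α × PC) × ℕ => y.1 := Primrec.fst
    refine pExLt (hr.comp (k1.comp l1)) ?_
    have hj : Primrec fun y : ((α × PC) × ℕ) × ℕ => y.1.2 := Primrec.snd.comp Primrec.fst
    have hk : Primrec fun y : ((α × PC) × ℕ) × ℕ => y.2 := Primrec.snd
    have hρ : Primrec fun y : ((α × PC) × ℕ) × ℕ => y.1.1.2.2.2 :=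
      Primrec.snd.comp (Primrec.snd.comp (k2.comp (l1.comp Primrec.fst)))
    exact (pEq hj hk).not.and ((pEq (pget hρ hj) (Primrec.const 1)).and
      (pEq (pget hρ hk) (Primrec.const 1)))
  · refine pAll hps ?_
    refine pAll (hps.comp k1) ?_
    have hp : Primrec fun y : (α × PC) × PC => y.1.2 := Primrec.snd.comp Primrec.fst
    have hp' : Primrec fun y : (α × PC) × PC => y.2 := Primrec.snd
    have h1 : Primrec fun y : (α × PC) × PC => r y.1.1 :=
      hr.comp (Primrec.fst.comp Primrec.fst)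
    exact pImp (hno h1 hp) (pImp (hno h1 hp') (pEq hp hp'))

theorem okG_primrec {m r : α → ℕ} {Γ : α → Grm} (hm : Primrec m) (hr : Primrec r)
    (hΓ : Primrec Γ) : PrimrecPred fun a => okG (m a) (r a) (Γ a) := by
  unfold okG
  refine pAllLt (Primrec.list_length.comp hΓ) ?_
  have hΓi : Primrec fun y : α × ℕ => (Γ y.1).getD y.2 [] :=
    gget (hΓ.comp Primrec.fst) Primrec.snd
  refine PrimrecPred.and (okNT_primrec (hr.comp Primrec.fst) hΓi) ?_
  refine pAll hΓi ?_
  have k1 : Primrec fun y : (α × ℕ) × PC => y.1.1 := Primrec.fst.comp Primrec.fst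
  have k2 : Primrec fun y : (α × ℕ) × PC => y.1.2 := Primrec.snd.comp Primrec.fst
  have k3 : Primrec fun y : (α × ℕ) × PC => y.2 := Primrec.snd
  refine PrimrecPred.and (pLe (Primrec.fst.comp k3) (hm.comp k1)) ?_
  refine pAll (Primrec.snd.comp (Primrec.snd.comp k3)) ?_
  exact pLe Primrec.snd (Primrec.succ.comp (k2.comp Primrec.fst))

end Prim

end Pool.Agent.H12Tree
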