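import Pool.Agent.H12Tree.Cw

/-!
# Graphs of clique-width at most two
-/

namespace Pool.Agent.H12Tree

open Tm Pool.Agent.H12Letter

theorem Dec.push {V W : Type} {G : SimpleGraph V} {H : SimpleGraph W} {m r : ℕ}
    {c : V → Fin m} {X : Set V} (h : Dec G m r c X) {φ : V → W} (hφ : Function.Injective φ)
    (d : W → Fin m) (hd : ∀ v ∈ X, d (φ v) = c v)
    (hH : ∀ u ∈ X, ∀ v ∈ X, (H.Adj (φ u) (φ v) ↔ G.Adj u v)) : Dec H m r d (φ '' X) := by
  induction h with
  | empty =>
    rw [Set.image_empty]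
    exact Dec.empty
  | single v =>
    rw [Set.image_singleton]
    exact Dec.single _
  | union X f _ hdis ha ih =>
    rw [Set.image_iUnion]
    refine Dec.union (fun i => φ '' X i) f (fun i => ih i
      (fun v hv => hd v (Set.mem_iUnion.2 ⟨i, hv⟩))
      fun u hu v hv => hH u (Set.mem_iUnion.2 ⟨i, hu⟩) v (Set.mem_iUnion.2 ⟨i, hv⟩))
      (fun i j hij => (Set.disjoint_image_iff hφ).2 (hdis i j hij)) ?_
    rintro i j hij _ ⟨u, hu, rfl⟩ _ ⟨v, hv, rfl⟩
    rw [hH u (Set.mem_iUnion.2 ⟨i, hu⟩) v (Set.mem_iUnion.2 ⟨j, hv⟩), ha i j hij u hu v hv,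
      hd u (Set.mem_iUnion.2 ⟨i, hu⟩), hd v (Set.mem_iUnion.2 ⟨j, hv⟩)]

theorem Dec.congr {V : Type} {G H : SimpleGraph V} {m r : ℕ} {c : V → Fin m} {X : Set V}
    (h : Dec G m r c X) (hH : ∀ u ∈ X, ∀ v ∈ X, (H.Adj u v ↔ G.Adj u v)) : Dec H m r c X := by
  have := h.push (H := H) Function.injective_id c (fun _ _ => rfl) hH
  rwa [Set.image_id] at this

theorem Dec.restrict {V : Type} {G : SimpleGraph V} {m r : ℕ} {c : V → Fin m} {X : Set V}
    (h : Dec G m r c X) (Y : Set V) : Dec G m r c (X ∩ Y) := by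
  classical
  induction h with
  | empty =>
    rw [Set.empty_inter]
    exact Dec.empty
  | single v =>
    by_cases hv : v ∈ Y
    · rw [Set.inter_eq_left.2 (Set.singleton_subset_iff.2 hv)]
      exact Dec.single v
    · rw [Set.singleton_inter_eq_empty.2 hv]
      exact Dec.empty
  | union X f _ hdis ha ih =>
    rw [Set.iUnion_inter]
    exact Dec.union (fun i => X i ∩ Y) f ih
      (fun i j hij => (hdis i j hij).mono Set.inter_subset_left Set.inter_subset_left)
      fun i j hij u hu v hv => ha i j hij u hu.1 v hv.1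

/-- Two sets which are completely joined or have no edges between them. -/
theorem Dec.two {V : Type} {G : SimpleGraph V} {c : V → Fin 1} {A B : Set V}
    (hA : Dec G 1 2 c A) (hB : Dec G 1 2 c B) (hAB : Disjoint A B) (P : Prop)
    (hP : ∀ u ∈ A, ∀ v ∈ B, (G.Adj u v ↔ P)) : Dec G 1 2 c (A ∪ B) := by
  have h1 : (⋃ i : Fin 2, (![A, B] : Fin 2 → Set V) i) = A ∪ B := by
    ext v
    simp [Fin.exists_fin_two]
  rw [← h1]
  refine Dec.union _ (fun _ _ _ _ => P) ?_ ?_ ?_
  · rw [Fin.forall_fin_two]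
    exact ⟨hA, hB⟩
  · intro i j hij
    fin_cases i <;> fin_cases j
    · exact absurd rfl hij
    · exact hAB
    · exact hAB.symm
    · exact absurd rfl hij
  · intro i j hij u hu v hv
    fin_cases i <;> fin_cases j
    · exact absurd hij (lt_irrefl _)
    · exact hP u hu v hv
    · exact absurd hij (by decide)
    · exact absurd hij (lt_irrefl _)

theorem dec_of_cw {V : Type} {G : SimpleGraph V} {l : V → Fin 2} (h : CW 2 V G l) :
    Dec G 1 2 (fun _ => 0) Set.univ := by
  induction h with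
  | single a =>
    have : (Set.univ : Set Unit) = {()} := by
      ext u
      simp
    rw [this]
    exact Dec.single _
  | union V W G H c d _ _ ihG ihH =>
    have h1 : (Set.univ : Set (V ⊕ W)) = Sum.inl '' Set.univ ∪ Sum.inr '' Set.univ := by
      rw [Set.image_univ, Set.image_univ, Set.range_inl_union_range_inr]
    rw [h1]
    refine Dec.two (ihG.push Sum.inl_injective _ (fun _ _ => rfl) ?_)
      (ihH.push Sum.inr_injective _ (fun _ _ => rfl) ?_) ?_ False ?_
    · intro u _ v _
      simp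
    · intro u _ v _
      simp
    · rw [Set.image_univ, Set.image_univ]
      exact Set.isCompl_range_inl_range_inr.disjoint
    · rintro _ ⟨u, -, rfl⟩ _ ⟨v, -, rfl⟩
      simp
  | join V G c i j hij _ ih =>
    have h2 : ∀ x : Fin 2, x = i ∨ x = j := by
      intro x
      have hij' : (i : ℕ) ≠ j := fun h => hij (Fin.ext h)
      rcases Nat.lt_or_ge (x : ℕ) 1 with hx | hx
      · rcases Nat.lt_or_ge (i : ℕ) 1 with hi | hi
        · exact Or.inl (Fin.ext (by omega))
        · exact Or.inr (Fin.ext (by omega))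
      · rcases Nat.lt_or_ge (i : ℕ) 1 with hi | hi
        · exact Or.inr (Fin.ext (by omega))
        · exact Or.inl (Fin.ext (by omega))
    have h1 : (Set.univ : Set V) = (Set.univ ∩ {v | c v = i}) ∪ (Set.univ ∩ {v | c v = j}) := by
      ext v
      simp only [Set.mem_univ, Set.univ_inter, Set.mem_union, Set.mem_ofPred_eq, true_iff]
      exact h2 (c v)
    rw [h1]
    refine Dec.two ((ih.restrict _).congr ?_) ((ih.restrict _).congr ?_) ?_ True ?_
    · rintro u ⟨-, hu⟩ v ⟨-, hv⟩
      have hu : c u = i := hu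
      have hv : c v = i := hv
      simp [SimpleGraph.fromRel_adj, hu, hv, hij]
    · rintro u ⟨-, hu⟩ v ⟨-, hv⟩
      have hu : c u = j := hu
      have hv : c v = j := hv
      simp [SimpleGraph.fromRel_adj, hu, hv, hij.symm]
    · rw [Set.disjoint_left]
      rintro v ⟨-, hu⟩ ⟨-, hv⟩
      exact hij (Eq.trans (Eq.symm hu) hv)
    · rintro u ⟨-, hu⟩ v ⟨-, hv⟩
      have hu : c u = i := hu
      have hv : c v = j := hv
      have h3 : u ≠ v := by
        rintro rfl
        exact hij (hu.symm.trans hv)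
      simp [SimpleGraph.fromRel_adj, hu, hv, h3]
  | relabel V G c i j _ ih => exact ih
  | iso V W G H c d e _ _ ih =>
    have h1 := ih.push (H := H) (φ := e) e.injective (fun _ => 0) (fun _ _ => rfl)
      fun u _ v _ => e.map_rel_iff
    rwa [Set.image_univ, e.surjective.range_eq] at h1

theorem boundedDec_of_cliqueWidth_two {X : Set FG} (h : ∀ G ∈ X, CliqueWidthLE 2 G) :
    BoundedDec X := by
  refine ⟨1, 2, fun G hG => ⟨fun _ => 0, ?_⟩⟩
  rcases h G hG with h0 | ⟨c, hc⟩
  · have : (Set.univ : Set (Fin G.1)) = ∅ := by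
      ext v
      exact absurd v.2 (by omega)
    rw [this]
    exact Dec.empty
  · exact dec_of_cw hc

end Pool.Agent.H12Tree
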