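import Pool.Agent.H12Tree.Cw

/-!
# Bounded lettericity and m-partite cographs
-/

namespace Pool.Agent.H12Tree

open Tm Pool.Agent.H12Letter

/-- `m`-partite cographs: the vertices have labels, and the set `X` is empty, a single vertex,
or the disjoint union of any number of sets which have been obtained before, where a symmetric
relation between the labels (which depends on the union) determines the adjacency of
vertices in different parts -/
inductive MPart {V : Type} (G : SimpleGraph V) (m : ℕ) (c : V → Fin m) : Set V → Prop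
  | empty : MPart G m c ∅
  | single (v : V) : MPart G m c {v}
  | union (n : ℕ) (X : Fin n → Set V) (f : Fin m → Fin m → Prop) (h : ∀ i, MPart G m c (X i))
      (hd : ∀ i j, i ≠ j → Disjoint (X i) (X j))
      (ha : ∀ i j, i ≠ j → ∀ u ∈ X i, ∀ v ∈ X j, (G.Adj u v ↔ f (c u) (c v))) :
      MPart G m c (⋃ i, X i)

theorem Dec.union2 {V : Type} {G : SimpleGraph V} {m : ℕ} {c : V → Fin m} {A B : Set V}
    (hA : Dec G m 2 c A) (hB : Dec G m 2 c B) (hd : Disjoint A B) (f : Fin m → Fin m → Prop)
    (ha : ∀ u ∈ A, ∀ v ∈ B, (G.Adj u v ↔ f (c u) (c v))) : Dec G m 2 c (A ∪ B) := by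
  have h := Dec.union (G := G) (m := m) (r := 2) (c := c) ![A, B] (fun _ _ => f)
    (by
      intro i
      fin_cases i
      · exact hA
      · exact hB)
    (by
      intro i j hij
      fin_cases i <;> fin_cases j
      · exact absurd rfl hij
      · exact hd
      · exact hd.symm
      · exact absurd rfl hij)
    (by
      intro i j hij
      fin_cases i <;> fin_cases j
      · exact absurd hij (lt_irrefl _)
      · exact ha
      · exact absurd hij (by decide)
      · exact absurd hij (lt_irrefl _))
  have e : (⋃ i : Fin 2, (![A, B] : Fin 2 → Set V) i) = A ∪ B := by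
    ext v
    simp [Fin.exists_fin_two]
  rwa [e] at h

theorem dec_of_mpart {V : Type} {G : SimpleGraph V} {m : ℕ} {c : V → Fin m} {X : Set V}
    (h : MPart G m c X) : Dec G m 2 c X := by
  induction h with
  | empty => exact Dec.empty
  | single v => exact Dec.single v
  | union n X f _ hd ha ih =>
    have key : ∀ l, l ≤ n → Dec G m 2 c {v | ∃ i : Fin n, (i : ℕ) < l ∧ v ∈ X i} := by
      intro l
      induction l with
      | zero =>
        intro _
        have e : {v | ∃ i : Fin n, (i : ℕ) < 0 ∧ v ∈ X i} = (∅ : Set V) := by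
          ext v
          simp
        rw [e]
        exact Dec.empty
      | succ l ihl =>
        intro hl
        have e : {v | ∃ i : Fin n, (i : ℕ) < l + 1 ∧ v ∈ X i} =
            {v | ∃ i : Fin n, (i : ℕ) < l ∧ v ∈ X i} ∪ X ⟨l, hl⟩ := by
          ext v
          simp only [Set.mem_ofPred_eq, Set.mem_union]
          constructor
          · rintro ⟨i, hi, hv⟩
            rcases Nat.lt_succ_iff_lt_or_eq.1 hi with h1 | h1
            · exact Or.inl ⟨i, h1, hv⟩
            · right
              have : i = ⟨l, hl⟩ := Fin.ext h1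
              rwa [← this]
          · rintro (⟨i, hi, hv⟩ | hv)
            · exact ⟨i, Nat.lt_succ_of_lt hi, hv⟩
            · exact ⟨_, Nat.lt_succ_self l, hv⟩
        rw [e]
        refine Dec.union2 (ihl (Nat.le_of_succ_le hl)) (ih ⟨l, hl⟩) ?_ f ?_
        · rw [Set.disjoint_left]
          rintro v ⟨i, hi, hv⟩ hv'
          have hne : i ≠ ⟨l, hl⟩ := fun h => absurd (congrArg Fin.val h) (Nat.ne_of_lt hi)
          exact Set.disjoint_left.1 (hd i _ hne) hv hv'
        · rintro u ⟨i, hi, hu⟩ v hv
          have hne : i ≠ ⟨l, hl⟩ := fun h => absurd (congrArg Fin.val h) (Nat.ne_of_lt hi)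
          exact ha i _ hne u hu v hv
    have e : (⋃ i, X i) = {v | ∃ i : Fin n, (i : ℕ) < n ∧ v ∈ X i} := by
      ext v
      simp only [Set.mem_iUnion, Set.mem_ofPred_eq]
      exact ⟨fun ⟨i, hi⟩ => ⟨i, i.2, hi⟩, fun ⟨i, _, hi⟩ => ⟨i, hi⟩⟩
    rw [e]
    exact key n le_rfl

theorem boundedDec_of_mpart {X : Set FG} {m : ℕ}
    (h : ∀ G ∈ X, ∃ c : Fin G.1 → Fin m, MPart G.2 m c Set.univ) : BoundedDec X := by
  refine ⟨m, 2, fun G hG => ?_⟩
  obtain ⟨c, hc⟩ := h G hG
  exact ⟨c, dec_of_mpart hc⟩

theorem boundedDec_of_lettericity {X : Set FG} (h : BoundedLettericity X) : BoundedDec X := by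
  obtain ⟨k, hk⟩ := h
  refine ⟨k, 2, fun G hG => ?_⟩
  obtain ⟨D, w, σ, hw⟩ := hk G hG
  refine ⟨fun v => w (σ.symm v), ?_⟩
  have key : ∀ d, d ≤ G.1 → Dec G.2 k 2 (fun v => w (σ.symm v))
      {v | G.1 - d ≤ ((σ.symm v : Fin G.1) : ℕ)} := by
    intro d
    induction d with
    | zero =>
      intro _
      have e : {v | G.1 - 0 ≤ ((σ.symm v : Fin G.1) : ℕ)} = (∅ : Set (Fin G.1)) := by
        ext v
        simp only [Set.mem_ofPred_eq, Set.mem_empty_iff_false, iff_false]
        have := (σ.symm v).2
        omega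
      rw [e]
      exact Dec.empty
    | succ d ih =>
      intro hd
      have hp : G.1 - (d + 1) < G.1 := by omega
      have e : {v | G.1 - (d + 1) ≤ ((σ.symm v : Fin G.1) : ℕ)} =
          {σ ⟨G.1 - (d + 1), hp⟩} ∪ {v | G.1 - d ≤ ((σ.symm v : Fin G.1) : ℕ)} := by
        ext v
        simp only [Set.mem_ofPred_eq, Set.mem_union, Set.mem_singleton_iff]
        constructor
        · intro h1
          by_cases h2 : G.1 - d ≤ ((σ.symm v : Fin G.1) : ℕ)
          · exact Or.inr h2
          · left
            have h3 : σ.symm v = ⟨G.1 - (d + 1), hp⟩ := Fin.ext (by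
              show ((σ.symm v : Fin G.1) : ℕ) = G.1 - (d + 1)
              omega)
            rw [← h3, Equiv.apply_symm_apply]
        · rintro (h1 | h1)
          · rw [h1, Equiv.symm_apply_apply]
          · omega
      rw [e]
      refine Dec.union2 (Dec.single _) (ih (by omega)) ?_ D ?_
      · rw [Set.disjoint_left]
        intro v hv hv'
        rw [Set.mem_singleton_iff] at hv
        simp only [Set.mem_ofPred_eq, hv, Equiv.symm_apply_apply] at hv'
        omega
      · intro u hu v hv
        rw [Set.mem_singleton_iff] at hu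
        subst hu
        simp only [Set.mem_ofPred_eq] at hv
        have h1 := hw ⟨G.1 - (d + 1), hp⟩ (σ.symm v) (by
          rw [Fin.lt_def]
          show G.1 - (d + 1) < ((σ.symm v : Fin G.1) : ℕ)
          omega)
        rw [Equiv.apply_symm_apply] at h1
        rw [h1, Equiv.symm_apply_apply]
  have h1 := key G.1 le_rfl
  have e : {v | G.1 - G.1 ≤ ((σ.symm v : Fin G.1) : ℕ)} = (Set.univ : Set (Fin G.1)) := by
    ext v
    simp
  rwa [e] at h1

end Pool.Agent.H12Tree
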