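import Pool.Agent.H12Tree.Cw

/-!
# Clique-width expressions in which every vertex is relabelled at most `d` times
-/

namespace Pool.Agent.H12Tree

open Tm Pool.Agent.H12Letter

/-- the labelled graphs which can be built with the operations of clique-width and `k` labels
such that at most `d` renamings are applied to every vertex -/
inductive CWd (k : ℕ) : ℕ → (V : Type) → SimpleGraph V → (V → Fin k) → Prop
  | single (d : ℕ) (a : Fin k) : CWd k d Unit ⊥ (fun _ => a)
  | union (d : ℕ) (V W : Type) (G : SimpleGraph V) (H : SimpleGraph W) (c : V → Fin k)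
      (e : W → Fin k) (hG : CWd k d V G c) (hH : CWd k d W H e) :
      CWd k d (V ⊕ W) (G ⊕g H) (Sum.elim c e)
  | join (d : ℕ) (V : Type) (G : SimpleGraph V) (c : V → Fin k) (i j : Fin k) (hij : i ≠ j)
      (h : CWd k d V G c) :
      CWd k d V (G ⊔ SimpleGraph.fromRel fun u v => c u = i ∧ c v = j) c
  | relabel (d : ℕ) (V : Type) (G : SimpleGraph V) (c : V → Fin k) (i j : Fin k)
      (h : CWd k d V G c) : CWd k (d + 1) V G (fun v => if c v = i then j else c v)
  | iso (d : ℕ) (V W : Type) (G : SimpleGraph V) (H : SimpleGraph W) (c : V → Fin k)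
      (e : W → Fin k) (f : G ≃g H) (hc : ∀ v, e (f v) = c v) (h : CWd k d V G c) :
      CWd k d W H e

/-- `Dec` with two parts and with colours in an arbitrary type -/
inductive DecC {V C : Type} (G : SimpleGraph V) (c : V → C) : Set V → Prop
  | empty : DecC G c ∅
  | single (v : V) : DecC G c {v}
  | union (X : Fin 2 → Set V) (f : Fin 2 → Fin 2 → C → C → Prop)
      (h : ∀ i, DecC G c (X i)) (hd : ∀ i j, i ≠ j → Disjoint (X i) (X j))
      (ha : ∀ i j, i < j → ∀ u ∈ X i, ∀ v ∈ X j, (G.Adj u v ↔ f i j (c u) (c v))) :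
      DecC G c (⋃ i, X i)

section DecC

variable {V W C D : Type} {G : SimpleGraph V} {c : V → C} {X : Set V}

theorem DecC.toDec {m : ℕ} (e : C ≃ Fin m) (h : DecC G c X) :
    Dec G m 2 (fun v => e (c v)) X := by
  induction h with
  | empty => exact Dec.empty
  | single v => exact Dec.single v
  | union X f _ hd ha ih =>
    refine Dec.union X (fun i j a b => f i j (e.symm a) (e.symm b)) ih hd ?_
    intro i j hij u hu v hv
    rw [ha i j hij u hu v hv, Equiv.symm_apply_apply, Equiv.symm_apply_apply]

/-- finer colours -/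
theorem DecC.lift {c' : V → D} (g : D → C) (hg : ∀ v, g (c' v) = c v) (h : DecC G c X) :
    DecC G c' X := by
  induction h with
  | empty => exact DecC.empty
  | single v => exact DecC.single v
  | union X f _ hd ha ih =>
    refine DecC.union X (fun i j a b => f i j (g a) (g b)) ih hd ?_
    intro i j hij u hu v hv
    rw [ha i j hij u hu v hv, hg, hg]

/-- transport along an injective map which preserves adjacency and colours -/
theorem DecC.push {H : SimpleGraph W} {c' : W → C} (f : V → W) (hf : Function.Injective f)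
    (hadj : ∀ u v, H.Adj (f u) (f v) ↔ G.Adj u v) (hc : ∀ v, c' (f v) = c v)
    (h : DecC G c X) : DecC H c' (f '' X) := by
  induction h with
  | empty => rw [Set.image_empty]; exact DecC.empty
  | single v => rw [Set.image_singleton]; exact DecC.single (f v)
  | union X F _ hd ha ih =>
    rw [Set.image_iUnion]
    refine DecC.union (fun i => f '' X i) F ih ?_ ?_
    · intro i j hij
      exact (Set.disjoint_image_iff hf).2 (hd i j hij)
    · rintro i j hij _ ⟨u, hu, rfl⟩ _ ⟨v, hv, rfl⟩
      rw [hadj, hc, hc]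
      exact ha i j hij u hu v hv

theorem DecC.pair {H : SimpleGraph W} {c' : W → C} {Y Z : Set W} (hY : DecC H c' Y)
    (hZ : DecC H c' Z) (hYZ : Disjoint Y Z) (F : C → C → Prop)
    (ha : ∀ u ∈ Y, ∀ v ∈ Z, (H.Adj u v ↔ F (c' u) (c' v))) : DecC H c' (Y ∪ Z) := by
  have h1 : Y ∪ Z = ⋃ i : Fin 2, (![Y, Z] : Fin 2 → Set W) i := by
    ext w
    simp [Fin.exists_fin_two]
  rw [h1]
  refine DecC.union _ (fun _ _ => F) ?_ ?_ ?_
  · intro i
    fin_cases i
    · exact hY
    · exact hZ
  · intro i j hij
    fin_cases i <;> fin_cases j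
    · exact absurd rfl hij
    · exact hYZ
    · exact hYZ.symm
    · exact absurd rfl hij
  · intro i j hij
    fin_cases i <;> fin_cases j
    · exact absurd hij (by decide)
    · exact ha
    · exact absurd hij (by decide)
    · exact absurd hij (by decide)

end DecC

/-- the vertices of `G` which are related by `A` through their labels become adjacent -/
def addRel {V : Type} {k : ℕ} (G : SimpleGraph V) (lab : V → Fin k)
    (A : Fin k → Fin k → Prop) : SimpleGraph V :=
  G ⊔ SimpleGraph.fromRel fun u v => A (lab u) (lab v)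

theorem addRel_adj {V : Type} {k : ℕ} {G : SimpleGraph V} {lab : V → Fin k}
    {A : Fin k → Fin k → Prop} {u v : V} :
    (addRel G lab A).Adj u v ↔
      G.Adj u v ∨ (u ≠ v ∧ (A (lab u) (lab v) ∨ A (lab v) (lab u))) := by
  rw [addRel, SimpleGraph.sup_adj, SimpleGraph.fromRel_adj]

theorem decC_of_cwd {k d : ℕ} {V : Type} {G : SimpleGraph V} {lab : V → Fin k}
    (h : CWd k d V G lab) : ∀ A : Fin k → Fin k → Prop, ∃ c : V → Fin (d + 1) → Fin k,
      (∀ v, c v 0 = lab v) ∧ DecC (addRel G lab A) c Set.univ := by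
  induction h with
  | single d a =>
    intro A
    refine ⟨fun _ _ => a, fun _ => rfl, ?_⟩
    have : (Set.univ : Set Unit) = {()} := by
      ext x
      simp
    rw [this]
    exact DecC.single ()
  | union d V W G H c e _ _ ih1 ih2 =>
    intro A
    obtain ⟨c1, h1, h2⟩ := ih1 A
    obtain ⟨c2, h3, h4⟩ := ih2 A
    refine ⟨Sum.elim c1 c2, ?_, ?_⟩
    · rintro (v | v)
      · exact h1 v
      · exact h3 v
    · have h5 : DecC (addRel (G ⊕g H) (Sum.elim c e) A) (Sum.elim c1 c2)
          (Sum.inl '' Set.univ) := by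
        refine h2.push Sum.inl Sum.inl_injective ?_ fun _ => rfl
        intro u v
        rw [addRel_adj, addRel_adj]
        simp
      have h6 : DecC (addRel (G ⊕g H) (Sum.elim c e) A) (Sum.elim c1 c2)
          (Sum.inr '' Set.univ) := by
        refine h4.push Sum.inr Sum.inr_injective ?_ fun _ => rfl
        intro u v
        rw [addRel_adj, addRel_adj]
        simp
      have h7 : (Set.univ : Set (V ⊕ W)) = Sum.inl '' Set.univ ∪ Sum.inr '' Set.univ := by
        ext x
        rcases x with x | x <;> simp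
      rw [h7]
      refine h5.pair h6 ?_ (fun a b => A (a 0) (b 0) ∨ A (b 0) (a 0)) ?_
      · rw [Set.disjoint_left]
        rintro _ ⟨u, -, rfl⟩ ⟨v, -, h8⟩
        exact Sum.inr_ne_inl h8
      · rintro _ ⟨u, -, rfl⟩ _ ⟨v, -, rfl⟩
        rw [addRel_adj]
        simp [h1, h3]
  | join d V G c i j hij _ ih =>
    intro A
    obtain ⟨c1, h1, h2⟩ := ih fun a b => A a b ∨ (a = i ∧ b = j)
    refine ⟨c1, h1, ?_⟩
    have : addRel (G ⊔ SimpleGraph.fromRel fun u v => c u = i ∧ c v = j) c A =
        addRel G c fun a b => A a b ∨ (a = i ∧ b = j) := by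
      ext u v
      rw [addRel_adj, addRel_adj, SimpleGraph.sup_adj, SimpleGraph.fromRel_adj]
      tauto
    rw [this]
    exact h2
  | relabel d V G c i j _ ih =>
    intro A
    obtain ⟨c1, h1, h2⟩ := ih fun a b => A (if a = i then j else a) (if b = i then j else b)
    refine ⟨fun v => Fin.cons (if c v = i then j else c v) (c1 v), fun _ => rfl, ?_⟩
    exact h2.lift Fin.tail fun v => Fin.tail_cons _ _
  | iso d V W G H c e f hc _ ih =>
    intro A
    obtain ⟨c1, h1, h2⟩ := ih A
    refine ⟨fun w => c1 (f.symm w), ?_, ?_⟩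
    · intro w
      show c1 (f.symm w) 0 = e w
      rw [h1, ← hc, RelIso.apply_symm_apply]
    · have h3 : (Set.univ : Set W) = f '' Set.univ := by
        rw [Set.image_univ]
        exact f.surjective.range_eq.symm
      rw [h3]
      refine h2.push f f.injective ?_ ?_
      · intro u v
        rw [addRel_adj, addRel_adj, hc, hc, f.map_adj_iff, ne_eq, f.injective.eq_iff]
      · intro v
        show c1 (f.symm (f v)) = c1 v
        rw [RelIso.symm_apply_apply]

theorem boundedDec_of_relabel {X : Set FG} {k d : ℕ}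
    (h : ∀ G ∈ X, G.1 = 0 ∨ ∃ c : Fin G.1 → Fin k, CWd k d (Fin G.1) G.2 c) :
    BoundedDec X := by
  have e : (Fin (d + 1) → Fin k) ≃ Fin (k ^ (d + 1)) := finFunctionFinEquiv
  refine ⟨k ^ (d + 1), 2, fun G hG => ?_⟩
  rcases h G hG with h0 | ⟨c, hc⟩
  · have : IsEmpty (Fin G.1) := by
      rw [h0]
      infer_instance
    refine ⟨fun v => isEmptyElim v, ?_⟩
    rw [Set.univ_eq_empty_iff.2 this]
    exact Dec.empty
  · obtain ⟨c1, -, h2⟩ := decC_of_cwd hc fun _ _ => False
    refine ⟨fun v => e (c1 v), ?_⟩
    have h3 : addRel G.2 c (fun _ _ => False) = G.2 := by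
      ext u v
      rw [addRel_adj]
      simp
    rw [h3] at h2
    exact h2.toDec e

end Pool.Agent.H12Tree
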