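import Pool.Agent.H12Tree.Gram

/-!
# Decomposition of downward closed sets of terms into languages of a grammar
-/

namespace Pool.Agent.H12Tree

open Tm Pool.Agent.H12Letter

/-- terms with node labels in `tabs m r` and leaf labels `< m` -/
inductive Ok (m r : ℕ) : Tm Tab r ℕ → Prop
  | emp : Ok m r .emp
  | leaf (a : ℕ) (h : a < m) : Ok m r (.leaf a)
  | node (q : Tab) (ch : Fin r → Tm Tab r ℕ) (hq : q ∈ tabs m r) (h : ∀ i, Ok m r (ch i)) :
      Ok m r (.node q ch)

/-! ### References -/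

theorem ref_lt {m r : ℕ} {Γ : Grm} (hok : okG m r Γ) {i : ℕ} (hi : i < Γ.length) {q : Tab}
    {ρ : List ℕ} (h : (0, q, ρ) ∈ Γ.getD i []) {j l : ℕ} (hj : ρ.getD j 0 = l + 2) : l < i := by
  have hjl : j < ρ.length := by
    by_contra hcon
    rw [List.getD_eq_default _ _ (not_lt.1 hcon)] at hj
    omega
  have hmem : ρ.getD j 0 ∈ ρ := by
    rw [List.getD_eq_getElem _ _ hjl]
    exact List.getElem_mem hjl
  have := ((hok i hi).2 _ h).2 _ hmem
  omega

theorem getD_append_lt {Γ Δ : Grm} {i : ℕ} (hi : i < Γ.length) :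
    (Γ ++ Δ).getD i [] = Γ.getD i [] := List.getD_append _ _ _ _ hi

theorem getD_append_ge {Γ Δ : Grm} (k : ℕ) :
    (Γ ++ Δ).getD (Γ.length + k) [] = Δ.getD k [] := by
  rw [List.getD_append_right _ _ _ _ (Nat.le_add_right _ _), Nat.add_sub_cancel_left]

/-- appending nonterminals changes nothing for the old ones -/
theorem derT_append {m r : ℕ} {Γ Δ : Grm} (hok : okG m r Γ) : ∀ i < Γ.length,
    ∀ t : Tm Tab r ℕ, DerT (Γ ++ Δ) i t ↔ DerT Γ i t := by
  intro i
  induction i using Nat.strong_induction_on with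
  | _ i ih =>
    intro hi t
    have hg := getD_append_lt (Δ := Δ) hi
    induction t with
    | emp => exact ⟨fun _ => DerT.emp _, fun _ => DerT.emp _⟩
    | leaf a =>
      constructor
      · intro h
        cases h with
        | leaf _ _ h => exact DerT.leaf _ _ (hg ▸ h)
      · intro h
        cases h with
        | leaf _ _ h => exact DerT.leaf _ _ (hg.symm ▸ h)
    | node q ch iht =>
      constructor
      · intro h
        cases h with
        | node _ _ ρ _ h h0 h1 h2 =>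
          rw [hg] at h
          exact DerT.node i q ρ ch h h0 (fun j hj => (iht j).1 (h1 j hj)) fun j l hj =>
            (ih l (ref_lt hok hi h hj) ((ref_lt hok hi h hj).trans hi) (ch j)).1 (h2 j l hj)
      · intro h
        cases h with
        | node _ _ ρ _ h h0 h1 h2 =>
          refine DerT.node i q ρ ch (hg.symm ▸ h) h0 (fun j hj => (iht j).2 (h1 j hj)) fun j l hj =>
            (ih l (ref_lt hok hi h hj) ((ref_lt hok hi h hj).trans hi) (ch j)).2 (h2 j l hj)

theorem okG_append {m r : ℕ} {Γ Δ : Grm} (hok : okG m r Γ)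
    (h : ∀ k < Δ.length, okNT r (Δ.getD k []) ∧
      ∀ p ∈ Δ.getD k [], p.1 ≤ m ∧ ∀ x ∈ p.2.2, x ≤ Γ.length + 1) : okG m r (Γ ++ Δ) := by
  intro i hi
  rw [List.length_append] at hi
  rcases lt_or_ge i Γ.length with h1 | h1
  · rw [getD_append_lt h1]
    exact hok i h1
  · obtain ⟨k, rfl⟩ := Nat.exists_eq_add_of_le h1
    rw [getD_append_ge]
    obtain ⟨h2, h3⟩ := h k (by omega)
    exact ⟨h2, fun p hp => ⟨(h3 p hp).1, fun x hx => ((h3 p hp).2 x hx).trans (by omega)⟩⟩

/-! ### The downward closed sets -/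

/-- the terms which avoid `S` -/
def LL (m r : ℕ) (S : Set (Tm Tab r ℕ)) : Set (Tm Tab r ℕ) :=
  {t | Ok m r t ∧ ∀ u ∈ S, ¬ Le u t}

theorem LL.child {m r : ℕ} {S : Set (Tm Tab r ℕ)} {q : Tab} {ch : Fin r → Tm Tab r ℕ}
    (h : Tm.node q ch ∈ LL m r S) (j : Fin r) : ch j ∈ LL m r S := by
  refine ⟨?_, fun u hu hle => h.2 u hu (Le.child _ _ _ j hle)⟩
  have := h.1
  cases this with
  | node _ _ _ h => exact h j

theorem emp_mem_LL {m r : ℕ} {S : Set (Tm Tab r ℕ)} (hS : Tm.emp ∉ S) :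
    (Tm.emp : Tm Tab r ℕ) ∈ LL m r S := by
  refine ⟨Ok.emp, fun u hu hle => ?_⟩
  cases hle
  exact hS hu

/-- the terms of height at most `n` -/
def UU (m r n : ℕ) : Set (Tm Tab r ℕ) := {u | Ok m r u ∧ u.height ≤ n}

theorem UU_finite (m r n : ℕ) : (UU m r n).Finite := by
  induction n with
  | zero =>
    refine (Set.finite_singleton (Tm.emp : Tm Tab r ℕ)).subset ?_
    rintro t ⟨-, ht⟩
    cases t with
    | emp => rfl
    | leaf a => simp [height] at ht
    | node ω ch => simp [height] at ht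
  | succ n ih =>
    have h1 : ((fun a => (Tm.leaf a : Tm Tab r ℕ)) '' Set.Iio m).Finite :=
      (Set.finite_Iio m).image _
    have h2 : {f : Fin r → Tm Tab r ℕ | ∀ i, f i ∈ UU m r n}.Finite :=
      Set.Finite.pi' fun _ => ih
    have h3 : (Set.image2 (fun (q : Tab) (ch : Fin r → Tm Tab r ℕ) => Tm.node q ch)
        {q | q ∈ tabs m r} {f : Fin r → Tm Tab r ℕ | ∀ i, f i ∈ UU m r n}).Finite :=
      Set.Finite.image2 _ (List.finite_toSet _) h2
    refine (((Set.finite_singleton (Tm.emp : Tm Tab r ℕ)).union h1).union h3).subset ?_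
    rintro t ⟨hok, ht⟩
    cases hok with
    | emp => exact Or.inl (Or.inl rfl)
    | leaf a ha => exact Or.inl (Or.inr ⟨a, ha, rfl⟩)
    | node q ch hq hch =>
      refine Or.inr ⟨q, hq, ch, fun i => ⟨hch i, ?_⟩, rfl⟩
      have h4 : (ch i).height ≤ Finset.univ.sup fun i => (ch i).height :=
        Finset.le_sup (f := fun i => (ch i).height) (Finset.mem_univ i)
      simp only [height] at ht
      omega

/-- upward closed in `UU m r n` -/
def UpC (m r n : ℕ) (S : Set (Tm Tab r ℕ)) : Prop :=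
  S ⊆ UU m r n ∧ ∀ u ∈ S, ∀ v ∈ UU m r n, Le u v → v ∈ S

/-- the list `I` of nonterminals of `Γ` generates exactly the terms avoiding `S` -/
def Srv (m r : ℕ) (Γ : Grm) (S : Set (Tm Tab r ℕ)) (I : List ℕ) : Prop :=
  (∀ i ∈ I, i < Γ.length) ∧ ∀ t : Tm Tab r ℕ, (∃ i ∈ I, DerT Γ i t) ↔ t ∈ LL m r S

theorem Srv.append {m r : ℕ} {Γ Δ : Grm} (hok : okG m r Γ) {S : Set (Tm Tab r ℕ)} {I : List ℕ}
    (h : Srv m r Γ S I) : Srv m r (Γ ++ Δ) S I := by
  refine ⟨fun i hi => ?_, fun t => ?_⟩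
  · rw [List.length_append]
    have := h.1 i hi
    omega
  · rw [← h.2 t]
    constructor
    · rintro ⟨i, hi, hd⟩
      exact ⟨i, hi, (derT_append hok i (h.1 i hi) t).1 hd⟩
    · rintro ⟨i, hi, hd⟩
      exact ⟨i, hi, (derT_append hok i (h.1 i hi) t).2 hd⟩

/-- every admissible grammar can be extended to one that serves `S` -/
def Ext (m r : ℕ) (S : Set (Tm Tab r ℕ)) : Prop :=
  ∀ Γ : Grm, okG m r Γ → ∃ (Δ : Grm) (I : List ℕ), okG m r (Γ ++ Δ) ∧ Srv m r (Γ ++ Δ) S I

theorem Ext.all {m r : ℕ} {F : Set (Set (Tm Tab r ℕ))} (hF : F.Finite)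
    (h : ∀ S ∈ F, Ext m r S) (Γ : Grm) (hΓ : okG m r Γ) :
    ∃ Δ : Grm, okG m r (Γ ++ Δ) ∧ ∀ S ∈ F, ∃ I, Srv m r (Γ ++ Δ) S I := by
  induction F, hF using Set.Finite.induction_on with
  | empty => exact ⟨[], by rwa [List.append_nil], fun S hS => absurd hS (Set.notMem_empty S)⟩
  | insert _ _ ih =>
    obtain ⟨Δ, hΔ, hI⟩ := ih fun S hS => h S (Set.mem_insert_of_mem _ hS)
    obtain ⟨Δ', I, hΔ', hS⟩ := h _ (Set.mem_insert _ _) (Γ ++ Δ) hΔ
    refine ⟨Δ ++ Δ', by rwa [← List.append_assoc], fun S hS' => ?_⟩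
    rw [← List.append_assoc]
    rcases Set.mem_insert_iff.1 hS' with rfl | hS'
    · exact ⟨I, hS⟩
    · obtain ⟨I', hI'⟩ := hI S hS'
      exact ⟨I', hI'.append hΔ⟩

/-! ### Sound productions -/

/-- sound productions -/
def Snd (m r : ℕ) (Γ : Grm) (S : Set (Tm Tab r ℕ)) (q : Tab) (ρ : List ℕ) : Prop :=
  ∀ ch : Fin r → Tm Tab r ℕ, (∀ j : Fin r, ρ.getD j 0 = 1 → ch j ∈ LL m r S) →
    (∀ (j : Fin r) (l : ℕ), ρ.getD j 0 = l + 2 → DerT Γ l (ch j)) → Tm.node q ch ∈ LL m r S

/-- entries -/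
def ents (N : ℕ) : List ℕ := 1 :: (List.range N).map (· + 2)

theorem mem_ents {N x : ℕ} : x ∈ ents N ↔ x = 1 ∨ ∃ l < N, x = l + 2 := by
  simp only [ents, List.mem_cons, List.mem_map, List.mem_range]
  constructor
  · rintro (h | ⟨l, hl, rfl⟩)
    · exact Or.inl h
    · exact Or.inr ⟨l, hl, rfl⟩
  · rintro (h | ⟨l, hl, rfl⟩)
    · exact Or.inl h
    · exact Or.inr ⟨l, hl, rfl⟩

theorem exists_prod {m r n : ℕ} {Γ : Grm} {S : Set (Tm Tab r ℕ)} (hS : UpC m r n S)
    (he : Tm.emp ∉ S)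
    (hI : ∀ S' : Set (Tm Tab r ℕ), UpC m r n S' → S ⊂ S' → ∃ I, Srv m r Γ S' I)
    {q : Tab} {ch : Fin r → Tm Tab r ℕ} (ht : Tm.node q ch ∈ LL m r S) :
    ∃ ρ ∈ tuples (ents Γ.length) r, Snd m r Γ S q ρ ∧
      ∀ (j : Fin r) (l : ℕ), ρ.getD j 0 = l + 2 → DerT Γ l (ch j) := by
  classical
  -- the sets of the children
  set T : Fin r → Set (Tm Tab r ℕ) := fun j => {v | v ∈ UU m r n ∧ (v ∈ S ∨
    ∃ uch : Fin r → Tm Tab r ℕ, Tm.node q uch ∈ S ∧ ¬ Le (uch j) (ch j) ∧ Le (uch j) v)} with hT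
  have hTup : ∀ j, UpC m r n (T j) := by
    intro j
    refine ⟨fun v hv => hv.1, ?_⟩
    rintro u ⟨-, hu⟩ v hv huv
    refine ⟨hv, ?_⟩
    rcases hu with hu | ⟨uch, h1, h2, h3⟩
    · exact Or.inl (hS.2 u hu v hv huv)
    · exact Or.inr ⟨uch, h1, h2, h3.trans huv⟩
  have hST : ∀ j, S ⊆ T j := fun j v hv => ⟨hS.1 hv, Or.inl hv⟩
  have hchT : ∀ j, ch j ∈ LL m r (T j) := by
    intro j
    refine ⟨(LL.child ht j).1, ?_⟩
    rintro u ⟨-, hu | ⟨uch, h1, h2, h3⟩⟩ hle
    · exact (LL.child ht j).2 u hu hle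
    · exact h2 (h3.trans hle)
  have hq : q ∈ tabs m r := by
    have := ht.1
    cases this with
    | node _ _ hq _ => exact hq
  have hsound : ∀ ch' : Fin r → Tm Tab r ℕ, (∀ j, ch' j ∈ LL m r (T j)) →
      Tm.node q ch' ∈ LL m r S := by
    intro ch' h
    refine ⟨Ok.node q ch' hq fun j => (h j).1, fun u hu hle => ?_⟩
    cases hle with
    | emp => exact he hu
    | child _ _ _ j hle => exact (h j).2 u (hST j hu) hle
    | node _ uch _ hle =>
      have hex : ∃ j, ¬ Le (uch j) (ch j) := by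
        by_contra hcon
        push Not at hcon
        exact ht.2 _ hu (Le.node _ _ _ hcon)
      obtain ⟨j, hj⟩ := hex
      refine (h j).2 (uch j) ⟨?_, Or.inr ⟨uch, hu, hj, Le.refl _⟩⟩ (hle j)
      obtain ⟨h1, h2⟩ := hS.1 hu
      refine ⟨?_, ?_⟩
      · cases h1 with
        | node _ _ _ h => exact h j
      · have h4 : (uch j).height ≤ Finset.univ.sup fun i => (uch i).height :=
          Finset.le_sup (f := fun i => (uch i).height) (Finset.mem_univ j)
        simp only [height] at h2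
        omega
  -- the entries
  have hent : ∀ j : Fin r, ∃ x ∈ ents Γ.length, (∀ l, x = l + 2 → DerT Γ l (ch j)) ∧
      ∀ y : Tm Tab r ℕ, (x = 1 → y ∈ LL m r S) → (∀ l, x = l + 2 → DerT Γ l y) →
        y ∈ LL m r (T j) := by
    intro j
    by_cases hj : T j = S
    · refine ⟨1, mem_ents.2 (Or.inl rfl), fun l hl => by omega, fun y hy _ => ?_⟩
      rw [hj]
      exact hy rfl
    · obtain ⟨I, hI1, hI2⟩ := hI (T j) (hTup j) ((hST j).ssubset_of_ne (Ne.symm hj))
      obtain ⟨i, hi, hd⟩ := (hI2 (ch j)).2 (hchT j)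
      refine ⟨i + 2, mem_ents.2 (Or.inr ⟨i, hI1 i hi, rfl⟩), fun l hl => ?_, fun y _ hy => ?_⟩
      · have : l = i := by omega
        rw [this]
        exact hd
      · exact (hI2 y).1 ⟨i, hi, hy i rfl⟩
  choose x hx1 hx2 hx3 using hent
  have hget : ∀ j : Fin r, (List.ofFn x).getD j 0 = x j := by
    intro j
    rw [List.getD_eq_getElem _ _ (by rw [List.length_ofFn]; exact j.2), List.getElem_ofFn]
  refine ⟨List.ofFn x, mem_tuples.2 ⟨List.length_ofFn, fun y hy => ?_⟩, ?_, fun j l hj => ?_⟩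
  · obtain ⟨j, rfl⟩ := (List.mem_ofFn' _ _).1 hy
    exact hx1 j
  · intro ch' h1 h2
    refine hsound ch' fun j => hx3 j (ch' j) (fun h => h1 j ?_) fun l hl => h2 j l ?_
    · rw [hget, h]
    · rw [hget, hl]
  · rw [hget] at hj
    exact hx2 j l hj

/-- soundness of nonterminals all of whose productions are sound -/
theorem sound_nt {m r : ℕ} {Γ Δ : Grm} (hok : okG m r Γ) {S : Set (Tm Tab r ℕ)}
    (he : Tm.emp ∉ S) {i : ℕ} 
    (hl : ∀ a, (a + 1, [], []) ∈ (Γ ++ Δ).getD i [] → (Tm.leaf a : Tm Tab r ℕ) ∈ LL m r S)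
    (hn : ∀ q ρ, (0, q, ρ) ∈ (Γ ++ Δ).getD i [] → Snd m r Γ S q ρ ∧
      ∀ (j : Fin r) (l : ℕ), ρ.getD j 0 = l + 2 → l < Γ.length)
    (t : Tm Tab r ℕ) (h : DerT (Γ ++ Δ) i t) : t ∈ LL m r S := by
  induction t with
  | emp => exact emp_mem_LL he
  | leaf a =>
    cases h with
    | leaf _ _ h => exact hl a h
  | node q ch ih =>
    cases h with
    | node _ _ ρ _ h h0 h1 h2 =>
      obtain ⟨hs, hlt⟩ := hn q ρ h
      exact hs ch (fun j hj => ih j (h1 j hj)) fun j l hj =>
        (derT_append hok l (hlt j l hj) (ch j)).1 (h2 j l hj)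

theorem step_ext {m r n : ℕ} {Γ : Grm} (hok : okG m r Γ) {S : Set (Tm Tab r ℕ)}
    (hS : UpC m r n S) (he : Tm.emp ∉ S)
    (hI : ∀ S' : Set (Tm Tab r ℕ), UpC m r n S' → S ⊂ S' → ∃ I, Srv m r Γ S' I) :
    ∃ (Δ : Grm) (I : List ℕ), okG m r (Γ ++ Δ) ∧ Srv m r (Γ ++ Δ) S I := by
  classical
  set N := Γ.length with hN
  -- sound productions and leaves
  set P : List PC := (tabs m r).flatMap fun q =>
    ((tuples (ents N) r).filter fun ρ => decide (Snd m r Γ S q ρ)).map fun ρ => (0, q, ρ) with hP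
  set Lv : List PC := ((List.range m).filter fun a =>
    decide ((Tm.leaf a : Tm Tab r ℕ) ∈ LL m r S)).map fun a => (a + 1, [], []) with hLv
  have memP : ∀ p : PC, p ∈ P ↔ p.1 = 0 ∧ p.2.1 ∈ tabs m r ∧ p.2.2 ∈ tuples (ents N) r ∧
      Snd m r Γ S p.2.1 p.2.2 := by
    rintro ⟨x, q, ρ⟩
    simp only [hP, List.mem_flatMap, List.mem_map, List.mem_filter, decide_eq_true_eq,
      Prod.mk.injEq]
    constructor
    · rintro ⟨q', hq', ρ', ⟨h1, h2⟩, rfl, rfl, rfl⟩
      exact ⟨rfl, hq', h1, h2⟩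
    · rintro ⟨rfl, hq', h1, h2⟩
      exact ⟨q, hq', ρ, ⟨h1, h2⟩, rfl, rfl, rfl⟩
  have memL : ∀ p : PC, p ∈ Lv ↔ ∃ a < m, (Tm.leaf a : Tm Tab r ℕ) ∈ LL m r S ∧
      p = (a + 1, [], []) := by
    intro p
    simp only [hLv, List.mem_map, List.mem_filter, decide_eq_true_eq, List.mem_range]
    constructor
    · rintro ⟨a, ⟨h1, h2⟩, rfl⟩
      exact ⟨a, h1, h2, rfl⟩
    · rintro ⟨a, h1, h2, rfl⟩
      exact ⟨a, ⟨h1, h2⟩, rfl⟩
  have entP : ∀ p ∈ P, ∀ x ∈ p.2.2, x = 1 ∨ ∃ l < N, x = l + 2 := fun p hp x hx =>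
    mem_ents.1 ((mem_tuples.1 ((memP p).1 hp).2.2.1).2 x hx)
  have getP : ∀ p ∈ P, ∀ j < r, p.2.2.getD j 0 = 1 ∨ ∃ l < N, p.2.2.getD j 0 = l + 2 := by
    intro p hp j hj
    have hlen : j < p.2.2.length := by rw [(mem_tuples.1 ((memP p).1 hp).2.2.1).1]; exact hj
    refine entP p hp _ ?_
    rw [List.getD_eq_getElem _ _ hlen]
    exact List.getElem_mem hlen
  have boundP : ∀ p ∈ P, p.1 ≤ m ∧ ∀ x ∈ p.2.2, x ≤ N + 1 := by
    intro p hp
    refine ⟨by rw [((memP p).1 hp).1]; exact Nat.zero_le _, fun x hx => ?_⟩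
    rcases entP p hp x hx with h | ⟨l, hl, h⟩ <;> omega
  have boundL : ∀ p ∈ Lv, p.1 ≤ m ∧ ∀ x ∈ p.2.2, x ≤ N + 1 := by
    intro p hp
    obtain ⟨a, ha, -, rfl⟩ := (memL p).1 hp
    exact ⟨ha, fun x hx => absurd hx (by simp)⟩
  -- every node arises from a sound production
  have prod : ∀ (q : Tab) (ch : Fin r → Tm Tab r ℕ), Tm.node q ch ∈ LL m r S →
      ∃ ρ, (0, q, ρ) ∈ P ∧ ∀ (j : Fin r) (l : ℕ), ρ.getD j 0 = l + 2 → DerT Γ l (ch j) := by
    intro q ch ht
    obtain ⟨ρ, h1, h2, h3⟩ := exists_prod hS he hI ht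
    refine ⟨ρ, (memP _).2 ⟨rfl, ?_, h1, h2⟩, h3⟩
    have := ht.1
    cases this with
    | node _ _ hq _ => exact hq
  -- soundness
  have sound : ∀ (Δ : Grm) (k : ℕ), (∀ p ∈ Δ.getD k [], p ∈ Lv ∨ p ∈ P) → ∀ t : Tm Tab r ℕ,
      DerT (Γ ++ Δ) (N + k) t → t ∈ LL m r S := by
    intro Δ k hk t ht
    refine sound_nt hok he (fun a ha => ?_) (fun q ρ hp => ?_) t ht
    · rw [getD_append_ge] at ha
      rcases hk _ ha with h | h
      · obtain ⟨b, -, hb, e⟩ := (memL _).1 h
        simp only [Prod.mk.injEq, Nat.add_right_cancel_iff, and_true] at e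
        rw [e]
        exact hb
      · have := ((memP _).1 h).1
        simp at this
    · rw [getD_append_ge] at hp
      rcases hk _ hp with h | h
      · obtain ⟨b, -, -, e⟩ := (memL _).1 h
        simp only [Prod.mk.injEq] at e
        omega
      · refine ⟨((memP _).1 h).2.2.2, fun j l hj => ?_⟩
        rcases getP _ h j j.2 with h1 | ⟨l', hl', h1⟩
        · simp only at h1
          omega
        · simp only at h1
          omega
  -- derivations of a node by a production in `P`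
  have der : ∀ (Δ : Grm) (k : ℕ) (q : Tab) (ρ : List ℕ) (ch : Fin r → Tm Tab r ℕ),
      (0, q, ρ) ∈ P → (0, q, ρ) ∈ Δ.getD k [] →
      (∀ (j : Fin r) (l : ℕ), ρ.getD j 0 = l + 2 → DerT Γ l (ch j)) →
      (∀ j : Fin r, ρ.getD j 0 = 1 → DerT (Γ ++ Δ) (N + k) (ch j)) →
      DerT (Γ ++ Δ) (N + k) (Tm.node q ch) := by
    intro Δ k q ρ ch hp hk h2 h1
    refine DerT.node _ q ρ ch (by rw [getD_append_ge]; exact hk) (fun j hj => ?_) h1
      fun j l hj => ?_
    · rcases getP _ hp j j.2 with h | ⟨l', -, h⟩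
      · simp only at h
        omega
      · simp only at h
        omega
    · rcases getP _ hp j j.2 with h | ⟨l', hl', h⟩
      · simp only at h
        omega
      · simp only at h
        have hl : l < Γ.length := by omega
        exact (derT_append hok l hl (ch j)).2 (h2 j l hj)
  by_cases hc : ∃ p ∈ P, ∃ j < r, ∃ k < r, j ≠ k ∧ p.2.2.getD j 0 = 1 ∧ p.2.2.getD k 0 = 1
  · -- one new nonterminal
    have hget : ([Lv ++ P] : Grm).getD 0 [] = Lv ++ P := rfl
    refine ⟨[Lv ++ P], [N + 0], okG_append hok ?_, ?_, ?_⟩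
    · intro k hk
      have hk0 : k = 0 := by simpa using hk
      subst hk0
      rw [hget]
      refine ⟨Or.inl ?_, fun p hp => ?_⟩
      · obtain ⟨p, hp, h⟩ := hc
        exact ⟨p, List.mem_append_right _ hp, ((memP p).1 hp).1, h⟩
      · rcases List.mem_append.1 hp with h | h
        · exact boundL p h
        · exact boundP p h
    · intro i hi
      rw [List.mem_singleton] at hi
      rw [hi, List.length_append]
      simp
      omega
    · intro t
      constructor
      · rintro ⟨i, hi, hd⟩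
        rw [List.mem_singleton] at hi
        rw [hi] at hd
        refine sound _ 0 (fun p hp => ?_) t hd
        rw [hget] at hp
        exact List.mem_append.1 hp
      · intro ht
        refine ⟨N + 0, List.mem_singleton.2 rfl, ?_⟩
        induction t with
        | emp => exact DerT.emp _
        | leaf a =>
          refine DerT.leaf _ _ ?_
          rw [getD_append_ge, hget]
          refine List.mem_append_left _ ((memL _).2 ⟨a, ?_, ht, rfl⟩)
          have := ht.1
          cases this with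
          | leaf _ h => exact h
        | node q ch ih =>
          obtain ⟨ρ, hp, h2⟩ := prod q ch ht
          exact der _ 0 q ρ ch hp (by rw [hget]; exact List.mem_append_right _ hp) h2
            fun j _ => ih j (LL.child ht j)
  · push Not at hc
    set P1 : List PC := P.filter fun p => decide (∃ j < r, p.2.2.getD j 0 = 1) with hP1
    set T0 : List PC := Lv ++ P.filter fun p => !decide (∃ j < r, p.2.2.getD j 0 = 1) with hT0
    have memP1 : ∀ p, p ∈ P1 ↔ p ∈ P ∧ ∃ j < r, p.2.2.getD j 0 = 1 := by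
      intro p
      rw [hP1, List.mem_filter, decide_eq_true_eq]
    have memT0 : ∀ p, p ∈ T0 ↔ p ∈ Lv ∨ (p ∈ P ∧ ¬ ∃ j < r, p.2.2.getD j 0 = 1) := by
      intro p
      rw [hT0, List.mem_append, List.mem_filter, Bool.not_eq_true', decide_eq_false_iff_not]
    set Δ : Grm := P1 :: T0.map fun o => P1 ++ [o] with hΔ
    have hget0 : Δ.getD 0 [] = P1 := rfl
    have hgetS : ∀ k (hk : k < T0.length), Δ.getD (k + 1) [] = P1 ++ [T0[k]] := by
      intro k hk
      rw [hΔ, List.getD_cons_succ, List.getD_eq_getElem _ _ (by rwa [List.length_map]),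
        List.getElem_map]
    have hlenΔ : Δ.length = T0.length + 1 := by
      rw [hΔ, List.length_cons, List.length_map]
    have hsub : ∀ k < Δ.length, (∀ p ∈ P1, p ∈ Δ.getD k []) ∧
        ∀ p ∈ Δ.getD k [], p ∈ Lv ∨ p ∈ P := by
      intro k hk
      rcases k with _ | k
      · rw [hget0]
        exact ⟨fun p hp => hp, fun p hp => Or.inr ((memP1 p).1 hp).1⟩
      · have hk' : k < T0.length := by omega
        rw [hgetS k hk']
        refine ⟨fun p hp => List.mem_append_left _ hp, fun p hp => ?_⟩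
        rcases List.mem_append.1 hp with h | h
        · exact Or.inr ((memP1 p).1 h).1
        · rw [List.mem_singleton] at h
          rw [h]
          rcases (memT0 _).1 (List.getElem_mem hk') with h' | h'
          · exact Or.inl h'
          · exact Or.inr h'.1
    refine ⟨Δ, (List.range Δ.length).map (N + ·), okG_append hok ?_, ?_, ?_⟩
    · intro k hk
      refine ⟨Or.inr ?_, fun p hp => ?_⟩
      · -- at most one production without self reference
        have hno : ∀ p ∈ P1, ¬ ∀ j < r, p.2.2.getD j 0 ≠ 1 := by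
          intro p hp h
          obtain ⟨-, j, hj, h1⟩ := (memP1 p).1 hp
          exact h j hj h1
        rcases k with _ | k
        · rw [hget0]
          intro p hp p' _ h _
          exact absurd h (hno p hp)
        · have hk' : k < T0.length := by omega
          rw [hgetS k hk']
          intro p hp p' hp' h h'
          rcases List.mem_append.1 hp with h1 | h1
          · exact absurd h (hno p h1)
          rcases List.mem_append.1 hp' with h2 | h2
          · exact absurd h' (hno p' h2)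
          rw [List.mem_singleton] at h1 h2
          rw [h1, h2]
      · rcases (hsub k hk).2 p hp with h | h
        · exact boundL p h
        · exact boundP p h
    · intro i hi
      obtain ⟨k, hk, rfl⟩ := List.mem_map.1 hi
      rw [List.mem_range] at hk
      rw [List.length_append]
      omega
    · intro t
      have hI' : (∃ i ∈ (List.range Δ.length).map (N + ·), DerT (Γ ++ Δ) i t) ↔
          ∃ k < Δ.length, DerT (Γ ++ Δ) (N + k) t := by
        constructor
        · rintro ⟨i, hi, hd⟩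
          obtain ⟨k, hk, rfl⟩ := List.mem_map.1 hi
          exact ⟨k, List.mem_range.1 hk, hd⟩
        · rintro ⟨k, hk, hd⟩
          exact ⟨N + k, List.mem_map.2 ⟨k, List.mem_range.2 hk, rfl⟩, hd⟩
      rw [hI']
      constructor
      · rintro ⟨k, hk, hd⟩
        exact sound Δ k (hsub k hk).2 t hd
      · intro ht
        induction t with
        | emp => exact ⟨0, by omega, DerT.emp _⟩
        | leaf a =>
          have ha : a < m := by
            have := ht.1
            cases this with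
            | leaf _ h => exact h
          have hm : ((a + 1, [], []) : PC) ∈ T0 :=
            (memT0 _).2 (Or.inl ((memL _).2 ⟨a, ha, ht, rfl⟩))
          obtain ⟨k, hk, e⟩ := List.getElem_of_mem hm
          refine ⟨k + 1, by omega, DerT.leaf _ _ ?_⟩
          rw [getD_append_ge, hgetS k hk, e]
          exact List.mem_append_right _ (List.mem_singleton.2 rfl)
        | node q ch ih =>
          obtain ⟨ρ, hp, h2⟩ := prod q ch ht
          by_cases hself : ∃ j < r, ρ.getD j 0 = 1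
          · obtain ⟨j0, hj0, h0⟩ := hself
            obtain ⟨k, hk, hd⟩ := ih ⟨j0, hj0⟩ (by
              have := hI'
              rw [Iff.comm] at this
              exact Iff.intro (fun ⟨i, hi, hd⟩ => by
                obtain ⟨k, hk, rfl⟩ := List.mem_map.1 hi
                exact ⟨k, List.mem_range.1 hk, hd⟩) (fun ⟨k, hk, hd⟩ =>
                ⟨N + k, List.mem_map.2 ⟨k, List.mem_range.2 hk, rfl⟩, hd⟩))
              (LL.child ht ⟨j0, hj0⟩)
            refine ⟨k, hk, der Δ k q ρ ch hp ((hsub k hk).1 _ ((memP1 _).2 ⟨hp, j0, hj0, h0⟩)) h2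
              fun j hj => ?_⟩
            have : (j : ℕ) = j0 := by
              by_contra hne
              exact hc _ hp j j.2 j0 hj0 hne hj h0
            have : j = ⟨j0, hj0⟩ := Fin.ext this
            rw [this]
            exact hd
          · have hm : ((0, q, ρ) : PC) ∈ T0 := (memT0 _).2 (Or.inr ⟨hp, hself⟩)
            obtain ⟨k, hk, e⟩ := List.getElem_of_mem hm
            refine ⟨k + 1, by omega, der Δ (k + 1) q ρ ch hp ?_ h2 fun j hj =>
              absurd ⟨j, j.2, hj⟩ hself⟩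
            rw [hgetS k hk, e]
            exact List.mem_append_right _ (List.mem_singleton.2 rfl)

theorem ext_upc {m r n : ℕ} : ∀ (k : ℕ) (S : Set (Tm Tab r ℕ)), UpC m r n S →
    (UU m r n \ S).ncard = k → Ext m r S := by
  intro k
  induction k using Nat.strong_induction_on with
  | _ k ih =>
    intro S hS hk Γ hΓ
    by_cases he : Tm.emp ∈ S
    · refine ⟨[], [], by rwa [List.append_nil], fun i hi => absurd hi (by simp), fun t => ?_⟩
      constructor
      · rintro ⟨i, hi, -⟩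
        exact absurd hi (by simp)
      · intro ht
        exact absurd (Le.emp t) (ht.2 _ he)
    · obtain ⟨Δ, hΔ, hI⟩ := Ext.all (F := {S' | UpC m r n S' ∧ S ⊂ S'})
        ((UU_finite m r n).finite_subsets.subset fun S' h => h.1.1) (by
          rintro S' ⟨h1, h2⟩
          refine ih _ ?_ S' h1 rfl
          rw [← hk]
          refine Set.ncard_lt_ncard ?_ ((UU_finite m r n).subset Set.sdiff_subset)
          obtain ⟨h3, x, hx, hxS⟩ := Set.ssubset_iff_exists.1 h2
          refine ⟨fun y hy => ⟨hy.1, fun hyS => hy.2 (h3 hyS)⟩, fun hcon => ?_⟩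
          exact (hcon ⟨h1.1 hx, hxS⟩).2 hx) Γ hΓ
      obtain ⟨Δ', I, hΔ', hS'⟩ := step_ext hΔ hS he fun S' h1 h2 => hI S' ⟨h1, h2⟩
      refine ⟨Δ ++ Δ', I, ?_, ?_⟩
      · rwa [← List.append_assoc]
      · rwa [← List.append_assoc]

/-- the decomposition -/
theorem decomp_terms (m r : ℕ) (hr : 0 < r) (n : ℕ) (S : Set (Tm Tab r ℕ))
    (hS : ∀ u ∈ S, Ok m r u ∧ u.height ≤ n) :
    ∃ (Γ : Grm) (I : List ℕ), okG m r Γ ∧
      ∀ t : Tm Tab r ℕ, (∃ i ∈ I, DerT Γ i t) ↔ (Ok m r t ∧ ∀ u ∈ S, ¬ Le u t) := by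
  have _ := hr
  obtain ⟨Δ, I, h1, h2⟩ := ext_upc (m := m) (n := n) _ {v | v ∈ UU m r n ∧ ∃ s ∈ S, Le s v}
    ⟨fun v hv => hv.1, fun u hu v hv huv => by
      obtain ⟨-, s, hs, hsu⟩ := hu
      exact ⟨hv, s, hs, hsu.trans huv⟩⟩ rfl [] (fun i hi => absurd hi (by simp))
  refine ⟨[] ++ Δ, I, h1, fun t => ?_⟩
  rw [h2.2 t]
  constructor
  · rintro ⟨h3, h4⟩
    exact ⟨h3, fun u hu hle => h4 u ⟨hS u hu, u, hu, Le.refl _⟩ hle⟩
  · rintro ⟨h3, h4⟩
    refine ⟨h3, ?_⟩
    rintro u ⟨-, s, hs, hsu⟩ hle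
    exact h4 s hs (hsu.trans hle)

end Pool.Agent.H12Tree
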