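import Pool.Agent.H12Tree.Decomp

/-!
# The decomposition of `Free F` into finitely many classes of a grammar
-/

namespace Pool.Agent.H12Tree

open Tm Pool.Agent.H12Letter

theorem Ok.of_le {m r : ℕ} {s t : Tm Tab r ℕ} (h : Le s t) (ht : Ok m r t) : Ok m r s := by
  induction h with
  | emp t => exact Ok.emp
  | leaf a => exact ht
  | child s ω ch i _ ih =>
    cases ht with
    | node _ _ _ h => exact ih (h i)
  | node ω ch ch' _ ih =>
    cases ht with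
    | node _ _ hq h => exact Ok.node _ _ hq fun i => ih i (h i)

/-- every decomposable set is realized by an admissible term -/
theorem exists_term_of_dec {V : Type} {G : SimpleGraph V} {m r : ℕ} {c : V → Fin m} {X : Set V}
    (h : Dec G m r c X) :
    ∃ t : Tm Tab r ℕ, Ok m r t ∧ Real G AT (fun v => (c v : ℕ)) t X := by
  induction h with
  | empty => exact ⟨.emp, Ok.emp, Real.emp⟩
  | single v => exact ⟨.leaf (c v : ℕ), Ok.leaf _ (c v).2, Real.leaf (c := fun v => (c v : ℕ)) v⟩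
  | union X f _ hd ha ih =>
    choose t ht hR using ih
    obtain ⟨q, hq, hqf⟩ := exists_tab m r f
    exact ⟨.node q t, Ok.node q t hq ht, Real.node q t X hR hd fun i j hij u hu v hv =>
      (ha i j hij u hu v hv).trans (hqf i j (c u) (c v)).symm⟩

/-- the minimal bad terms -/
def Bad (m r n : ℕ) (F : List (ℕ × List (ℕ × ℕ))) : Set (Tm Tab r ℕ) :=
  {u | Ok m r u ∧ u.height ≤ n ∧ ∃ (V : Type) (G : SimpleGraph V) (c : V → ℕ) (X : Set V),
    Real G AT c u X ∧ ∃ f ∈ F, ∃ φ : (decodeG f).2 ↪g G, ∀ v, φ v ∈ X}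

theorem exists_bound (F : List (ℕ × List (ℕ × ℕ))) : ∃ n, ∀ f ∈ F, f.1 ≤ n := by
  induction F with
  | nil => exact ⟨0, by simp⟩
  | cons f F ih =>
    obtain ⟨n, hn⟩ := ih
    refine ⟨max f.1 n, fun g hg => ?_⟩
    rcases List.mem_cons.1 hg with rfl | hg
    · exact le_max_left _ _
    · exact (hn g hg).trans (le_max_right _ _)

/-- a graph realizing a term which avoids the bad terms is in `Free F` -/
theorem mem_free_of_avoid {m r n : ℕ} {F : List (ℕ × List (ℕ × ℕ))} (hn : ∀ f ∈ F, f.1 ≤ n)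
    {G : FG} {c : Fin G.1 → ℕ} {t : Tm Tab r ℕ} (ht : Ok m r t)
    (hR : Real G.2 AT c t Set.univ) (ha : ∀ u ∈ Bad m r n F, ¬ Le u t) : G ∈ Free F := by
  rintro f hf ⟨φ⟩
  obtain ⟨s, hs, hsR⟩ := hR.restrict (Set.range φ)
  obtain ⟨s', hs', hsR', hh⟩ := hsR.reduce
  have hle : Le s' t := hs'.trans hs.le
  refine ha s' ⟨ht.of_le hle, hh.trans ?_, _, G.2, c, _, hsR', f, hf, φ,
    fun v => ⟨trivial, v, rfl⟩⟩ hle
  rw [Set.univ_inter, ← Set.image_univ, Set.ncard_image_of_injective _ φ.injective,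
    Set.ncard_univ, Nat.card_eq_fintype_card]
  refine le_trans (le_of_eq ?_) (hn f hf)
  exact Fintype.card_fin _

/-- a term realized by a member of `Free F` avoids the bad terms -/
theorem avoid_of_mem_free {m r n : ℕ} {F : List (ℕ × List (ℕ × ℕ))} {G : FG}
    {c : Fin G.1 → ℕ} {t : Tm Tab r ℕ} (hR : Real G.2 AT c t Set.univ) (hG : G ∈ Free F) :
    ∀ u ∈ Bad m r n F, ¬ Le u t := by
  rintro u ⟨-, -, V, G', c', X, hX, f, hf, φ, hφ⟩ hle
  obtain ⟨Y, -, hY⟩ := hR.le hle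
  obtain ⟨e, -, he⟩ := hX.unique hY
  refine hG f hf ⟨⟨⟨fun v => (e ⟨φ v, hφ v⟩ : Fin G.1), ?_⟩, ?_⟩⟩
  · intro v w hvw
    have h1 := e.injective (Subtype.ext hvw)
    exact φ.injective (Subtype.mk.inj h1)
  · intro v w
    change G.2.Adj (e ⟨φ v, hφ v⟩ : Fin G.1) (e ⟨φ w, hφ w⟩ : Fin G.1) ↔ _
    rw [he]
    exact φ.map_adj_iff

/-- the decomposition -/
theorem exists_grammar (m r : ℕ) (hr : 0 < r) (F : List Code) :
    ∃ (Γ : Grm) (I : List ℕ), okG m r Γ ∧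
      (∀ i ∈ I, ∀ G : FG, InCl r Γ i G.2 → G ∈ Free F) ∧
      ∀ G ∈ Free F, (∃ c : Fin G.1 → Fin m, Dec G.2 m r c Set.univ) →
        ∃ i ∈ I, InCl r Γ i G.2 := by
  obtain ⟨n, hn⟩ := exists_bound F
  obtain ⟨Γ, I, hok, hΓ⟩ := decomp_terms m r hr n (Bad m r n F) fun u hu => ⟨hu.1, hu.2.1⟩
  refine ⟨Γ, I, hok, ?_, ?_⟩
  · rintro i hi G ⟨c, t, hD, hR⟩
    obtain ⟨h1, h2⟩ := (hΓ t).1 ⟨i, hi, hD⟩
    exact mem_free_of_avoid hn h1 hR h2
  · rintro G hG ⟨c, hc⟩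
    obtain ⟨t, h1, h2⟩ := exists_term_of_dec hc
    obtain ⟨i, hi, hD⟩ := (hΓ t).2 ⟨h1, avoid_of_mem_free h2 hG⟩
    exact ⟨i, hi, _, t, hD, h2⟩

end Pool.Agent.H12Tree
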