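import Pool.Agent.H12Tree.Gram

/-!
# The first step of a generation
-/

namespace Pool.Agent.H12Tree

open Tm Pool.Agent.H12Letter

variable {r : ℕ} {Γ : Grm} {V : Type} {G : SimpleGraph V} {c : V → ℕ} {i : ℕ} {X Y : Set V}

theorem DerS.mono_set (h : DerS r Γ G c i X) (hY : Y ⊆ X) : DerS r Γ G c i Y := by
  obtain ⟨t, h1, h2⟩ := h
  obtain ⟨s, h3, h4⟩ := h2.restrict Y
  rw [Set.inter_eq_right.2 hY] at h4
  exact ⟨s, h1.shr h3, h4⟩

theorem DerS.empty : DerS r Γ G c i ∅ := ⟨.emp, DerT.emp _, Real.emp⟩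

theorem Step.mono {R R' : ℕ → Set V → Prop} (h : Step r Γ R G c i Y)
    (hR : ∀ l Z, R l Z → R' l Z) : Step r Γ R' G c i Y := by
  rcases h with h | ⟨p, h1, h2, κ, h3, h4, h5, h6⟩
  · exact Or.inl h
  · exact Or.inr ⟨p, h1, h2, κ, h3, h4, fun j hj hp => ⟨(h5 j hj hp).1, hR _ _ (h5 j hj hp).2⟩,
      fun j hj l hl => hR _ _ (h6 j hj l hl)⟩

theorem DerS.of_step (h : Step r Γ (DerS r Γ G c) G c i Y) : DerS r Γ G c i Y := by
  classical
  rcases h with ⟨v, rfl, h⟩ | ⟨⟨a, q, ρ⟩, h1, h2, κ, h3, h4, h5, h6⟩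
  · exact ⟨.leaf (c v), DerT.leaf _ _ h, Real.leaf v⟩
  · simp only at h2 h3 h4 h5 h6
    subst h2
    have key : ∀ j : Fin r, ∃ t : Tm Tab r ℕ, Real G AT c t {u | u ∈ Y ∧ κ u = j} ∧
        (ρ.getD j 0 = 0 → t = .emp) ∧ (ρ.getD j 0 = 1 → DerT Γ i t) ∧
        ∀ l, ρ.getD j 0 = l + 2 → DerT Γ l t := by
      intro j
      rcases hρ : ρ.getD j 0 with _ | _ | l
      · have : {u | u ∈ Y ∧ κ u = j} = ∅ := by
          ext u
          simp only [Set.mem_ofPred_eq, Set.mem_empty_iff_false, iff_false, not_and]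
          intro hu hκ
          have := (h3 u hu).2
          rw [hκ] at this
          exact this hρ
        rw [this]
        exact ⟨.emp, Real.emp, fun _ => rfl, by simp, by simp⟩
      · obtain ⟨-, t, h7, h8⟩ := h5 j j.2 hρ
        exact ⟨t, h8, by simp, fun _ => h7, by simp⟩
      · obtain ⟨t, h7, h8⟩ := h6 j j.2 l hρ
        refine ⟨t, h8, by simp, by simp, fun l' hl' => ?_⟩
        have : l = l' := by omega
        rw [← this]
        exact h7
    choose ch hr h0 h1' h2' using key
    refine ⟨.node q ch, DerT.node i q ρ ch h1 h0 h1' h2', ?_⟩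
    have hY : Y = ⋃ j : Fin r, {u | u ∈ Y ∧ κ u = j} := by
      ext u
      simp only [Set.mem_iUnion, Set.mem_ofPred_eq]
      constructor
      · intro hu
        exact ⟨⟨κ u, (h3 u hu).1⟩, hu, rfl⟩
      · rintro ⟨_, hu, _⟩
        exact hu
    rw [hY]
    refine Real.node q ch _ hr ?_ ?_
    · intro a b hab
      rw [Set.disjoint_left]
      rintro u ⟨_, hu⟩ ⟨_, hv⟩
      exact hab (Fin.ext (hu.symm.trans hv))
    · rintro a b hab u ⟨hu, hua⟩ v ⟨hv, hvb⟩
      have := h4 u hu v hv (by rw [hua, hvb]; exact hab)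
      rw [hua, hvb] at this
      exact this

theorem DerS.step (h : DerS r Γ G c i Y) (hY : Y.Nonempty) :
    Step r Γ (DerS r Γ G c) G c i Y := by
  classical
  obtain ⟨t, h1, h2⟩ := h
  induction h1 generalizing Y with
  | emp i =>
    cases h2
    exact absurd hY Set.not_nonempty_empty
  | leaf i a h =>
    generalize hs : (Tm.leaf a : Tm Tab r ℕ) = s at h2
    cases h2 with
    | emp => exact absurd hs (by simp)
    | leaf v =>
      simp only [Tm.leaf.injEq] at hs
      subst hs
      exact Or.inl ⟨v, rfl, h⟩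
    | node => exact absurd hs (by simp)
  | node i q ρ ch h h0 hd1 hd2 ih1 ih2 =>
    generalize hs : (Tm.node q ch : Tm Tab r ℕ) = s at h2
    cases h2 with
    | emp => exact absurd hs (by simp)
    | leaf v => exact absurd hs (by simp)
    | node q' ch' X hr hd ha =>
      simp only [Tm.node.injEq] at hs
      obtain ⟨rfl, rfl⟩ := hs
      by_cases hex : ∃ j : Fin r, ρ.getD j 0 = 1 ∧ X j = ⋃ j, X j
      · obtain ⟨j, hj, hX⟩ := hex
        rw [← hX] at hY ⊢
        exact ih1 j hj hY (hr j)
      · push Not at hex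
        have hk : ∀ u, u ∈ ⋃ j, X j → ∃ j, u ∈ X j := fun u hu => Set.mem_iUnion.1 hu
        set κ : V → ℕ := fun u => if hu : ∃ j, u ∈ X j then (hu.choose : ℕ) else r with hκ
        have hκ1 : ∀ (j : Fin r) (u : V), u ∈ X j → κ u = j := by
          intro j u hu
          have hu' : ∃ j, u ∈ X j := ⟨j, hu⟩
          have : hu'.choose = j := by
            by_contra hne
            exact Set.disjoint_left.1 (hd _ _ hne) hu'.choose_spec hu
          simp only [hκ, hu', dif_pos, this]
        have hpart : ∀ j : Fin r, {u | u ∈ (⋃ j, X j) ∧ κ u = j} = X j := by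
          intro j
          ext u
          simp only [Set.mem_ofPred_eq]
          constructor
          · rintro ⟨hu, hj⟩
            obtain ⟨j', hj'⟩ := hk u hu
            rw [hκ1 j' u hj'] at hj
            rw [← Fin.ext hj]
            exact hj'
          · intro hu
            exact ⟨Set.mem_iUnion.2 ⟨j, hu⟩, hκ1 j u hu⟩
        refine Or.inr ⟨(0, q, ρ), h, rfl, κ, ?_, ?_, ?_, ?_⟩
        · intro u hu
          obtain ⟨j, hj⟩ := hk u hu
          rw [hκ1 j u hj]
          refine ⟨j.2, fun hρ => ?_⟩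
          have h5 := hr j
          rw [h0 j hρ] at h5
          generalize X j = Z at h5 hj
          cases h5
          exact hj
        · intro u hu v hv huv
          obtain ⟨j, hj⟩ := hk u hu
          obtain ⟨k, hk'⟩ := hk v hv
          rw [hκ1 j u hj, hκ1 k v hk'] at huv ⊢
          exact ha j k huv u hj v hk'
        · intro j hj hρ
          refine ⟨?_, ?_⟩
          · obtain ⟨u, hu, hu'⟩ := Set.exists_of_ssubset
              ((Set.subset_iUnion X ⟨j, hj⟩).ssubset_of_ne (hex ⟨j, hj⟩ hρ))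
            refine ⟨u, hu, fun hc => hu' ?_⟩
            obtain ⟨j', hj'⟩ := hk u hu
            rw [hκ1 j' u hj'] at hc
            have : j' = ⟨j, hj⟩ := Fin.ext hc
            rw [← this]
            exact hj'
          · rw [hpart ⟨j, hj⟩]
            exact ⟨_, hd1 ⟨j, hj⟩ hρ, hr _⟩
        · intro j hj l hρ
          rw [hpart ⟨j, hj⟩]
          exact ⟨_, hd2 ⟨j, hj⟩ l hρ, hr _⟩

theorem mem_of_getD {ρ : List ℕ} {j l : ℕ} (h : ρ.getD j 0 = l + 2) : l + 2 ∈ ρ := by
  by_cases hj : j < ρ.length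
  · rw [List.getD_eq_getElem _ _ hj] at h
    rw [← h]
    exact List.getElem_mem _
  · rw [List.getD_eq_default _ _ (by omega)] at h
    omega

/-- generation by first steps of all nonempty subsets -/
theorem derS_iff_step (hX : X.Finite) (hΓ : ∀ p ∈ Γ.getD i [], ∀ x ∈ p.2.2, x ≤ i + 1) :
    DerS r Γ G c i X ↔ ∀ Y ⊆ X, Y.Nonempty →
      Step r Γ (fun l Z => l = i ∨ DerS r Γ G c l Z) G c i Y := by
  constructor
  · intro h Y hY hne
    exact ((h.mono_set hY).step hne).mono fun l Z hZ => Or.inr hZ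
  · intro h
    induction hn : X.ncard using Nat.strong_induction_on generalizing X with
    | _ n ih =>
      rcases Set.eq_empty_or_nonempty X with rfl | hne
      · exact DerS.empty
      · rcases h X subset_rfl hne with h1 | ⟨p, h1, h2, κ, h3, h4, h5, h6⟩
        · exact DerS.of_step (Or.inl h1)
        · refine DerS.of_step (Or.inr ⟨p, h1, h2, κ, h3, h4, fun j hj hp => ?_,
            fun j hj l hl => ?_⟩)
          · obtain ⟨⟨u, hu, hu'⟩, -⟩ := h5 j hj hp
            refine ⟨⟨u, hu, hu'⟩, ?_⟩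
            have hss : {u | u ∈ X ∧ κ u = j} ⊂ X := by
              refine (Set.ssubset_iff_of_subset fun v hv => hv.1).2 ⟨u, hu, fun hc => hu' hc.2⟩
            refine ih _ ?_ (hX.subset hss.subset) (fun Y hY => h Y (hY.trans hss.subset)) rfl
            rw [← hn]
            exact Set.ncard_lt_ncard hss hX
          · rcases h6 j hj l hl with h7 | h7
            · have := hΓ p h1 _ (mem_of_getD hl)
              omega
            · exact h7

end Pool.Agent.H12Tree
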