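import Pool.Agent.H12Tree.Bound
import Pool.Agent.H12Tree.Jep
import Pool.Agent.H12Tree.Code
import Pool.Agent.H12Tree.Decomp2

/-!
# The certificate for bounded width
-/

namespace Pool.Agent.H12Tree

open Tm Pool.Agent.H12Letter

/-- the grammar of all terms with `m` colours and `r` children -/
def full (m r : ℕ) : Grm :=
  [((List.range m).map fun a => (a + 1, [], [])) ++
    (tabs m r).map fun q => (0, q, (List.range r).map fun _ => 1)]

theorem mem_full {m r : ℕ} {p : PC} : p ∈ (full m r).getD 0 [] ↔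
    (∃ a < m, p = (a + 1, [], [])) ∨
      ∃ q ∈ tabs m r, p = (0, q, (List.range r).map fun _ => 1) := by
  simp only [full, List.getD_cons_zero, List.mem_append, List.mem_map, List.mem_range]
  constructor
  · rintro (⟨a, ha, rfl⟩ | ⟨q, hq, rfl⟩)
    · exact Or.inl ⟨a, ha, rfl⟩
    · exact Or.inr ⟨q, hq, rfl⟩
  · rintro (⟨a, ha, rfl⟩ | ⟨q, hq, rfl⟩)
    · exact Or.inl ⟨a, ha, rfl⟩
    · exact Or.inr ⟨q, hq, rfl⟩

theorem nil_mem_tabs (m r : ℕ) : ([] : Tab) ∈ tabs m r := by
  have := filter_mem_subs (quads m r) fun _ => false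
  simpa [tabs] using this

theorem okG_full {m r : ℕ} (hr : 2 ≤ r) : okG m r (full m r) := by
  intro i hi
  have h0 : i = 0 := by
    simp only [full, List.length_cons, List.length_nil] at hi
    omega
  subst h0
  refine ⟨Or.inl ⟨(0, [], (List.range r).map fun _ => 1), mem_full.2 (Or.inr
    ⟨[], nil_mem_tabs m r, rfl⟩), rfl, 0, by omega, 1, by omega, by omega, ?_, ?_⟩, ?_⟩
  · exact getD_map_range (fun _ => 1) (by omega)
  · exact getD_map_range (fun _ => 1) (by omega)
  · intro p hp
    rcases mem_full.1 hp with ⟨a, ha, rfl⟩ | ⟨q, -, rfl⟩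
    · exact ⟨ha, by simp⟩
    · refine ⟨Nat.zero_le _, fun x hx => ?_⟩
      simp only [List.mem_map] at hx
      obtain ⟨_, -, rfl⟩ := hx
      omega

theorem full_lv {m r i : ℕ} {t : Tm Tab r ℕ} (h : DerT (full m r) i t) : ∀ a ∈ t.lv, a < m := by
  induction h with
  | emp i => simp [Tm.lv]
  | leaf i a h =>
    intro b hb
    rw [Tm.lv, Set.mem_singleton_iff] at hb
    subst hb
    have hi := lt_length_of_mem h
    have h0 : i = 0 := by
      simp only [full, List.length_cons, List.length_nil] at hi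
      omega
    subst h0
    rcases mem_full.1 h with ⟨a', ha', he⟩ | ⟨q, -, he⟩
    · simp only [Prod.mk.injEq, Nat.add_right_cancel_iff, and_true] at he
      omega
    · simp at he
  | node i q ρ ch h h0 _ _ ih1 ih2 =>
    intro b hb
    simp only [Tm.lv, Set.mem_iUnion] at hb
    obtain ⟨j, hj⟩ := hb
    rcases hρ : ρ.getD j 0 with _ | _ | l
    · rw [h0 j hρ] at hj
      simp [Tm.lv] at hj
    · exact ih1 j hρ b hj
    · exact ih2 j l hρ b hj

/-- a realized term is a decomposition -/
theorem Real.dec {V : Type} {G : SimpleGraph V} {m r : ℕ} {c : V → Fin m} {c0 : V → ℕ}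
    {t : Tm Tab r ℕ} {X : Set V} (h : Real G AT c0 t X) (hc : ∀ v ∈ X, (c v : ℕ) = c0 v) :
    Dec G m r c X := by
  induction h with
  | emp => exact Dec.empty
  | leaf v => exact Dec.single v
  | node q ch X _ hd ha ih =>
    have hc' : ∀ i, ∀ v ∈ X i, (c v : ℕ) = c0 v := fun i v hv =>
      hc v (Set.mem_iUnion.2 ⟨i, hv⟩)
    refine Dec.union X (fun i j a b => AT q i j a b) (fun i => ih i (hc' i)) hd
      fun i j hij u hu v hv => ?_
    rw [ha i j hij u hu v hv, hc' i u hu, hc' j v hv]

theorem inCl_full {m r : ℕ} {V : Type} (G : SimpleGraph V) :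
    InCl r (full m r) 0 G ↔ ∃ c : V → Fin m, Dec G m r c Set.univ := by
  constructor
  · rintro ⟨c0, t, h1, h2⟩
    have hlt : ∀ v, c0 v < m := fun v => full_lv h1 _ (by rw [h2.lv]; exact ⟨v, trivial, rfl⟩)
    exact ⟨fun v => ⟨c0 v, hlt v⟩, h2.dec fun v _ => rfl⟩
  · rintro ⟨c, h⟩
    have key : ∀ X : Set V, Dec G m r c X → ∃ t : Tm Tab r ℕ, DerT (full m r) 0 t ∧
        Real G AT (fun v => (c v : ℕ)) t X := by
      intro X hX
      induction hX with
      | empty => exact ⟨.emp, DerT.emp _, Real.emp⟩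
      | single v =>
        exact ⟨.leaf (c v : ℕ), DerT.leaf _ _ (mem_full.2 (Or.inl ⟨_, (c v).2, rfl⟩)),
          Real.leaf (c := fun v => (c v : ℕ)) v⟩
      | union X f _ hd ha ih =>
        choose t ht hR using ih
        obtain ⟨q, hq, hqf⟩ := exists_tab m r f
        refine ⟨.node q t, DerT.node 0 q ((List.range r).map fun _ => 1) t
          (mem_full.2 (Or.inr ⟨q, hq, rfl⟩)) (fun j hj => ?_) (fun j _ => ht j)
          (fun j l hj => ?_), Real.node q t X hR hd fun i j hij u hu v hv =>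
            (ha i j hij u hu v hv).trans (hqf i j (c u) (c v)).symm⟩
        · rw [getD_map_range (fun _ => 1) j.2] at hj
          omega
        · rw [getD_map_range (fun _ => 1) j.2] at hj
          omega
    obtain ⟨t, h1, h2⟩ := key _ h
    exact ⟨_, t, h1, h2⟩

/-- more parts -/
theorem Dec.mono {V : Type} {G : SimpleGraph V} {m r r' : ℕ} (hr : r ≤ r') {c : V → Fin m}
    {X : Set V} (h : Dec G m r c X) : Dec G m r' c X := by
  induction h with
  | empty => exact Dec.empty
  | single v => exact Dec.single v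
  | union X f _ hd ha ih =>
    have hX : (⋃ i, X i) = ⋃ i : Fin r', if h : (i : ℕ) < r then X ⟨i, h⟩ else ∅ := by
      ext u
      simp only [Set.mem_iUnion]
      constructor
      · rintro ⟨i, hu⟩
        refine ⟨⟨i, by omega⟩, ?_⟩
        rw [dif_pos i.2]
        exact hu
      · rintro ⟨i, hu⟩
        by_cases hi : (i : ℕ) < r
        · rw [dif_pos hi] at hu
          exact ⟨_, hu⟩
        · rw [dif_neg hi] at hu
          exact hu.elim
    rw [hX]
    refine Dec.union _ (fun i j a b => ∃ (hi : (i : ℕ) < r) (hj : (j : ℕ) < r),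
      f ⟨i, hi⟩ ⟨j, hj⟩ a b) (fun i => ?_) (fun i j hij => ?_) fun i j hij u hu v hv => ?_
    · by_cases hi : (i : ℕ) < r
      · rw [dif_pos hi]
        exact ih _
      · rw [dif_neg hi]
        exact Dec.empty
    · by_cases hi : (i : ℕ) < r
      · by_cases hj : (j : ℕ) < r
        · rw [dif_pos hi, dif_pos hj]
          exact hd _ _ fun h => hij (Fin.ext (Fin.mk.inj h))
        · rw [dif_neg hj]
          exact disjoint_bot_right
      · rw [dif_neg hi]
        exact disjoint_bot_left
    · by_cases hi : (i : ℕ) < r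
      · by_cases hj : (j : ℕ) < r
        · rw [dif_pos hi] at hu
          rw [dif_pos hj] at hv
          rw [ha ⟨i, hi⟩ ⟨j, hj⟩ hij u hu v hv]
          exact ⟨fun h => ⟨hi, hj, h⟩, fun ⟨_, _, h⟩ => h⟩
        · rw [dif_neg hj] at hv
          exact hv.elim
      · rw [dif_neg hi] at hu
        exact hu.elim

/-- a vertex is added -/
theorem Dec.add_vertex {n m r : ℕ} (hr : 2 ≤ r) {G : SimpleGraph (Fin (n + 1))}
    {c : Fin n → Fin m} (h : Dec (G.comap Fin.castSucc) m r c Set.univ) :
    ∃ c' : Fin (n + 1) → Fin (2 * m + 1), Dec G (2 * m + 1) r c' Set.univ := by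
  classical
  have hlt : ∀ i : Fin n,
      2 * (c i : ℕ) + (if G.Adj (Fin.last n) (Fin.castSucc i) then 1 else 0) < 2 * m + 1 := by
    intro i
    have := (c i).2
    split_ifs <;> omega
  set c' : Fin (n + 1) → Fin (2 * m + 1) := Fin.lastCases ⟨2 * m, by omega⟩ fun i =>
    ⟨2 * (c i : ℕ) + (if G.Adj (Fin.last n) (Fin.castSucc i) then 1 else 0), hlt i⟩ with hc'
  have e1 : ∀ i : Fin n, (c' (Fin.castSucc i) : ℕ) =
      2 * (c i : ℕ) + (if G.Adj (Fin.last n) (Fin.castSucc i) then 1 else 0) := by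
    intro i
    simp only [hc', Fin.lastCases_castSucc]
  have hdiv : ∀ i : Fin n, (c' (Fin.castSucc i) : ℕ) / 2 = c i := by
    intro i
    rw [e1]
    split_ifs <;> omega
  have hmod : ∀ i : Fin n, (c' (Fin.castSucc i) : ℕ) % 2 = 1 ↔
      G.Adj (Fin.last n) (Fin.castSucc i) := by
    intro i
    rw [e1]
    split_ifs with hi
    · simp only [hi, iff_true]
      omega
    · simp only [hi, iff_false]
      omega
  refine ⟨c', ?_⟩
  have key : ∀ X : Set (Fin n), Dec (G.comap Fin.castSucc) m r c X →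
      Dec G (2 * m + 1) r c' (Fin.castSucc '' X) := by
    intro X hX
    induction hX with
    | empty =>
      rw [Set.image_empty]
      exact Dec.empty
    | single v =>
      rw [Set.image_singleton]
      exact Dec.single _
    | union X f _ hd ha ih =>
      rw [Set.image_iUnion]
      refine Dec.union _ (fun i j a b => ∃ x y : Fin m, (x : ℕ) = (a : ℕ) / 2 ∧
        (y : ℕ) = (b : ℕ) / 2 ∧ f i j x y) ih (fun i j hij => ?_) ?_
      · exact (Set.disjoint_image_iff (Fin.castSucc_injective n)).2 (hd i j hij)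
      · rintro i j hij _ ⟨u, hu, rfl⟩ _ ⟨v, hv, rfl⟩
        have := ha i j hij u hu v hv
        rw [SimpleGraph.comap_adj] at this
        rw [this, hdiv, hdiv]
        constructor
        · intro hf
          exact ⟨c u, c v, rfl, rfl, hf⟩
        · rintro ⟨x, y, hx, hy, hf⟩
          rw [Fin.ext hx, Fin.ext hy] at hf
          exact hf
  have h1 := key _ h
  have hU : (Set.univ : Set (Fin (n + 1))) = ⋃ i : Fin r, if (i : ℕ) = 0 then {Fin.last n} else
      if (i : ℕ) = 1 then Fin.castSucc '' Set.univ else ∅ := by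
    ext u
    simp only [Set.mem_univ, Set.mem_iUnion, true_iff]
    induction u using Fin.lastCases with
    | last =>
      refine ⟨⟨0, by omega⟩, ?_⟩
      rw [if_pos rfl]
      rfl
    | cast j =>
      refine ⟨⟨1, by omega⟩, ?_⟩
      rw [if_neg (by simp), if_pos rfl]
      exact ⟨j, trivial, rfl⟩
  rw [hU]
  refine Dec.union _ (fun _ _ _ b => (b : ℕ) % 2 = 1) (fun i => ?_) (fun i j hij => ?_)
    fun i j hij u hu v hv => ?_
  · split_ifs
    · exact Dec.single _
    · exact h1
    · exact Dec.empty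
  · have hij' : (i : ℕ) ≠ j := fun h => hij (Fin.ext h)
    have hd : Disjoint ({Fin.last n} : Set (Fin (n + 1))) (Fin.castSucc '' Set.univ) := by
      rw [Set.disjoint_left]
      rintro _ rfl ⟨w, -, hw⟩
      exact (Fin.castSucc_lt_last w).ne hw
    split_ifs with a1 a2 a3 a4 a5 a6
    · omega
    · exact hd
    · exact disjoint_bot_right
    · exact hd.symm
    · omega
    · exact disjoint_bot_right
    all_goals exact disjoint_bot_left
  · have hij' : (i : ℕ) < j := hij
    rw [if_neg (by omega)] at hv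
    by_cases hj : (j : ℕ) = 1
    · rw [if_pos hj] at hv
      rw [if_pos (by omega)] at hu
      obtain ⟨w, -, rfl⟩ := hv
      rw [Set.mem_singleton_iff] at hu
      subst hu
      exact (hmod w).symm
    · rw [if_neg hj] at hv
      exact hv.elim

/-- the certificate for width at most `(m, r)` -/
def CertK (F : List Code) (m r : ℕ) : Prop :=
  2 ≤ r ∧ ∀ n < Bd (2 * m + 1) m r (full m r) 0, ∀ D ∈ rels n, freeC F (n, D) →
    inClC m r (full m r) 0 (n, D)

/-- codes with the number of vertices `n` -/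
theorem exists_code_rels (G : FG) : ∃ D ∈ rels G.1, decodeG (G.1, D) = G := by
  obtain ⟨n, G⟩ := G
  obtain ⟨D, hD, h⟩ := exists_rel n fun x y => ∃ (h1 : x < n) (h2 : y < n),
    G.Adj ⟨x, h1⟩ ⟨y, h2⟩
  refine ⟨D, hD, ?_⟩
  unfold decodeG
  congr 1
  ext i j
  rw [SimpleGraph.fromRel_adj]
  simp only [h _ i.2 _ j.2, h _ j.2 _ i.2]
  constructor
  · rintro ⟨-, ⟨_, _, h⟩ | ⟨_, _, h⟩⟩
    · exact h
    · exact h.symm
  · intro h
    exact ⟨h.ne, Or.inl ⟨i.2, j.2, h⟩⟩

theorem certK_complete {F : List Code} {m r : ℕ} (hr : 2 ≤ r)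
    (h : ∀ G ∈ Free F, ∃ c : Fin G.1 → Fin m, Dec G.2 m r c Set.univ) : CertK F m r := by
  refine ⟨hr, fun n _ D _ hf => ?_⟩
  rw [inClC_iff (okG_full hr), inCl_full]
  exact h _ ((freeC_iff _ _).1 hf)

theorem certK_sound {F : List Code} {m r : ℕ} (h : CertK F m r) :
    ∀ G ∈ Free F, ∃ c : Fin G.1 → Fin m, Dec G.2 m r c Set.univ := by
  obtain ⟨hr, h⟩ := h
  rintro ⟨n, G⟩ hG
  induction n with
  | zero =>
    refine ⟨fun i => i.elim0, ?_⟩
    have : (Set.univ : Set (Fin 0)) = ∅ := by
      ext v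
      exact v.elim0
    change Dec G m r _ (Set.univ : Set (Fin 0))
    rw [this]
    exact Dec.empty
  | succ n ih =>
    have hsub : Emb ⟨n, G.comap Fin.castSucc⟩ ⟨n + 1, G⟩ :=
      ⟨SimpleGraph.Embedding.comap ⟨Fin.castSucc, Fin.castSucc_injective n⟩ G⟩
    obtain ⟨c, hc⟩ := ih (G.comap Fin.castSucc) (free_hereditary F _ _ hsub hG)
    obtain ⟨c', hc'⟩ := Dec.add_vertex hr hc
    by_contra hno
    have hn : ¬ InCl r (full m r) 0 G := fun h' => hno ((inCl_full G).1 h')
    obtain ⟨H, he, hH, hlt⟩ := exists_small (okG_full hr) 0 (G := ⟨n + 1, G⟩) c' hc' hn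
    obtain ⟨D, hD, hDe⟩ := exists_code_rels H
    have h1 := h H.1 hlt D hD ((freeC_iff _ _).2 (by
      rw [hDe]
      exact free_hereditary F _ _ he hG))
    rw [inClC_iff (okG_full hr), hDe] at h1
    exact hH h1

end Pool.Agent.H12Tree
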