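import Pool.Agent.H12Tree.Rec
import Pool.Agent.H12Letter.Prim

/-!
# Grammars of terms and the classes of graphs which they generate
-/

namespace Pool.Agent.H12Tree

open Tm Pool.Agent.H12Letter

/-- `X` can be built from single vertices by disjoint unions of `r` sets which have been built
before, where the adjacency of vertices in different parts is determined by the numbers of the
parts and the (fixed) labels of the vertices -/
inductive Dec {V : Type} (G : SimpleGraph V) (m r : ℕ) (c : V → Fin m) : Set V → Prop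
  | empty : Dec G m r c ∅
  | single (v : V) : Dec G m r c {v}
  | union (X : Fin r → Set V) (f : Fin r → Fin r → Fin m → Fin m → Prop)
      (h : ∀ i, Dec G m r c (X i)) (hd : ∀ i j, i ≠ j → Disjoint (X i) (X j))
      (ha : ∀ i j, i < j → ∀ u ∈ X i, ∀ v ∈ X j, (G.Adj u v ↔ f i j (c u) (c v))) :
      Dec G m r c (⋃ i, X i)

/-- table codes: `(i, j, a, b)` is in the list iff the vertices of colour `a` in part `i` are
adjacent to the vertices of colour `b` in part `j` (used for `i < j` only) -/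
abbrev Tab : Type := List (ℕ × ℕ × ℕ × ℕ)

/-- productions: `(a + 1, [], [])` stands for a single vertex of colour `a`, `(0, q, ρ)` for
a node with table `q` and references `ρ`; reference `0` is the empty set, reference `1` is
the nonterminal itself, reference `l + 2` is nonterminal number `l` -/
abbrev PC : Type := ℕ × Tab × List ℕ

/-- grammars: lists of nonterminals, each of which is the list of its productions -/
abbrev Grm : Type := List (List PC)

def AT {r : ℕ} (q : Tab) (i j : Fin r) (a b : ℕ) : Prop := ((i : ℕ), (j : ℕ), a, b) ∈ q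

/-- the terms generated by nonterminal `i` -/
inductive DerT {r : ℕ} (Γ : Grm) : ℕ → Tm Tab r ℕ → Prop
  | emp (i : ℕ) : DerT Γ i .emp
  | leaf (i a : ℕ) (h : (a + 1, [], []) ∈ Γ.getD i []) : DerT Γ i (.leaf a)
  | node (i : ℕ) (q : Tab) (ρ : List ℕ) (ch : Fin r → Tm Tab r ℕ)
      (h : (0, q, ρ) ∈ Γ.getD i [])
      (h0 : ∀ j : Fin r, ρ.getD j 0 = 0 → ch j = .emp)
      (h1 : ∀ j : Fin r, ρ.getD j 0 = 1 → DerT Γ i (ch j))
      (h2 : ∀ (j : Fin r) (l : ℕ), ρ.getD j 0 = l + 2 → DerT Γ l (ch j)) :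
      DerT Γ i (.node q ch)

/-- `G` is generated by nonterminal `i` of the grammar `Γ` -/
def InCl (r : ℕ) (Γ : Grm) (i : ℕ) {V : Type} (G : SimpleGraph V) : Prop :=
  ∃ (c : V → ℕ) (t : Tm Tab r ℕ), DerT Γ i t ∧ Real G AT c t Set.univ

/-- the productions of one nonterminal: one has two references to itself, or at most one has
no reference to itself -/
def okNT (r : ℕ) (ps : List PC) : Prop :=
  (∃ p ∈ ps, p.1 = 0 ∧ ∃ j < r, ∃ k < r, j ≠ k ∧ p.2.2.getD j 0 = 1 ∧ p.2.2.getD k 0 = 1) ∨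
    ∀ p ∈ ps, ∀ p' ∈ ps, (∀ j < r, p.2.2.getD j 0 ≠ 1) → (∀ j < r, p'.2.2.getD j 0 ≠ 1) →
      p = p'

/-- admissible grammars -/
def okG (m r : ℕ) (Γ : Grm) : Prop :=
  ∀ i < Γ.length, okNT r (Γ.getD i []) ∧
    ∀ p ∈ Γ.getD i [], p.1 ≤ m ∧ ∀ x ∈ p.2.2, x ≤ i + 1

/-- all lists of length at most `|S|` with members in `S` -/
def subs {α : Type} (S : List α) : List (List α) :=
  (List.range (S.length + 1)).flatMap fun n => tuples S n

theorem filter_mem_subs {α : Type} (S : List α) (p : α → Bool) : S.filter p ∈ subs S := by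
  rw [subs, List.mem_flatMap]
  refine ⟨(S.filter p).length, List.mem_range.2 ?_, mem_tuples.2 ⟨rfl, fun x hx =>
    (List.mem_filter.1 hx).1⟩⟩
  have := List.length_filter_le p S
  omega

theorem mem_of_mem_subs {α : Type} {S l : List α} (h : l ∈ subs S) : ∀ x ∈ l, x ∈ S := by
  rw [subs, List.mem_flatMap] at h
  obtain ⟨n, -, hn⟩ := h
  exact (mem_tuples.1 hn).2

def quads (m r : ℕ) : List (ℕ × ℕ × ℕ × ℕ) :=
  (pairs r).flatMap fun p => (pairs m).map fun q => (p.1, p.2, q.1, q.2)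

theorem mem_quads {m r i j a b : ℕ} :
    (i, j, a, b) ∈ quads m r ↔ (i < r ∧ j < r) ∧ a < m ∧ b < m := by
  simp only [quads, List.mem_flatMap, List.mem_map, mem_pairs, Prod.mk.injEq]
  constructor
  · rintro ⟨p, hp, q, hq, rfl, rfl, rfl, rfl⟩
    exact ⟨hp, hq⟩
  · rintro ⟨h1, h2⟩
    exact ⟨(i, j), h1, (a, b), h2, rfl, rfl, rfl, rfl⟩

/-- all tables for `r` parts and `m` colours -/
def tabs (m r : ℕ) : List Tab := subs (quads m r)

theorem exists_tab (m r : ℕ) (f : Fin r → Fin r → Fin m → Fin m → Prop) :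
    ∃ q ∈ tabs m r, ∀ (i j : Fin r) (a b : Fin m),
      (((i : ℕ), (j : ℕ), (a : ℕ), (b : ℕ)) ∈ q ↔ f i j a b) := by
  classical
  refine ⟨(quads m r).filter fun x => decide (∃ (h1 : x.1 < r) (h2 : x.2.1 < r)
    (h3 : x.2.2.1 < m) (h4 : x.2.2.2 < m), f ⟨x.1, h1⟩ ⟨x.2.1, h2⟩ ⟨x.2.2.1, h3⟩ ⟨x.2.2.2, h4⟩),
    filter_mem_subs _ _, fun i j a b => ?_⟩
  rw [List.mem_filter, mem_quads, decide_eq_true_iff]
  constructor
  · rintro ⟨-, _, _, _, _, h⟩
    exact h
  · intro h
    exact ⟨⟨⟨i.2, j.2⟩, a.2, b.2⟩, i.2, j.2, a.2, b.2, h⟩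

/-- the set `X` is generated by nonterminal `i` -/
def DerS (r : ℕ) (Γ : Grm) {V : Type} (G : SimpleGraph V) (c : V → ℕ) (i : ℕ) (X : Set V) :
    Prop := ∃ t : Tm Tab r ℕ, DerT Γ i t ∧ Real G AT c t X

/-- the first step of the generation of the nonempty set `Y` by nonterminal `i` -/
def Step (r : ℕ) (Γ : Grm) {V : Type} (R : ℕ → Set V → Prop) (G : SimpleGraph V) (c : V → ℕ)
    (i : ℕ) (Y : Set V) : Prop :=
  (∃ v, Y = {v} ∧ (c v + 1, [], []) ∈ Γ.getD i []) ∨
    ∃ p ∈ Γ.getD i [], p.1 = 0 ∧ ∃ κ : V → ℕ,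
      (∀ u ∈ Y, κ u < r ∧ p.2.2.getD (κ u) 0 ≠ 0) ∧
      (∀ u ∈ Y, ∀ v ∈ Y, κ u < κ v → (G.Adj u v ↔ (κ u, κ v, c u, c v) ∈ p.2.1)) ∧
      (∀ j < r, p.2.2.getD j 0 = 1 → (∃ u ∈ Y, κ u ≠ j) ∧ R i {u | u ∈ Y ∧ κ u = j}) ∧
      ∀ j < r, ∀ l, p.2.2.getD j 0 = l + 2 → R l {u | u ∈ Y ∧ κ u = j}

/-- leaf deletion -/
inductive Shr {Ω : Type} {r : ℕ} {Λ : Type} : Tm Ω r Λ → Tm Ω r Λ → Prop
  | emp : Shr .emp .emp
  | leaf (a : Λ) : Shr (.leaf a) (.leaf a)
  | del (a : Λ) : Shr .emp (.leaf a)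
  | node (ω : Ω) (ch ch' : Fin r → Tm Ω r Λ) (h : ∀ i, Shr (ch i) (ch' i)) :
      Shr (.node ω ch) (.node ω ch')

theorem Shr.le {Ω : Type} {r : ℕ} {Λ : Type} {s t : Tm Ω r Λ} (h : Shr s t) : Le s t := by
  induction h with
  | emp => exact Le.refl _
  | leaf a => exact Le.refl _
  | del a => exact Le.emp _
  | node ω ch ch' _ ih => exact Le.node _ _ _ ih

theorem DerT.shr {r : ℕ} {Γ : Grm} {i : ℕ} {s t : Tm Tab r ℕ} (h : DerT Γ i t)
    (hs : Shr s t) : DerT Γ i s := by
  induction h generalizing s with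
  | emp i =>
    cases hs with
    | emp => exact DerT.emp _
  | leaf i a h =>
    cases hs with
    | leaf => exact DerT.leaf _ _ h
    | del => exact DerT.emp _
  | node i q ρ ch h h0 _ _ ih1 ih2 =>
    cases hs with
    | node _ ch' _ hs =>
      refine DerT.node i q ρ ch' h (fun j hj => ?_) (fun j hj => ih1 j hj (hs j))
        fun j l hj => ih2 j l hj (hs j)
      have h1 := hs j
      rw [h0 j hj] at h1
      generalize ch' j = x at h1
      cases h1
      rfl

theorem Real.restrict {Ω : Type} {r : ℕ} {Λ V : Type} {G : SimpleGraph V}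
    {A : Ω → Fin r → Fin r → Λ → Λ → Prop} {c : V → Λ} {t : Tm Ω r Λ} {X : Set V}
    (h : Real G A c t X) (Y : Set V) : ∃ s, Shr s t ∧ Real G A c s (X ∩ Y) := by
  classical
  induction h with
  | emp =>
    rw [Set.empty_inter]
    exact ⟨.emp, Shr.emp, Real.emp⟩
  | leaf v =>
    by_cases hv : v ∈ Y
    · have : ({v} : Set V) ∩ Y = {v} := by
        ext u
        simp only [Set.mem_inter_iff, Set.mem_singleton_iff, and_iff_left_iff_imp]
        rintro rfl
        exact hv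
      rw [this]
      exact ⟨_, Shr.leaf _, Real.leaf v⟩
    · have : ({v} : Set V) ∩ Y = ∅ := by
        ext u
        simp only [Set.mem_inter_iff, Set.mem_singleton_iff, Set.mem_empty_iff_false, iff_false,
          not_and]
        rintro rfl
        exact hv
      rw [this]
      exact ⟨_, Shr.del _, Real.emp⟩
  | node ω ch X _ hd ha ih =>
    choose s hs hr using ih
    rw [Set.iUnion_inter]
    exact ⟨_, Shr.node ω s ch hs, Real.node ω s _ hr
      (fun i j hij => (hd i j hij).mono Set.inter_subset_left Set.inter_subset_left)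
      fun i j hij u hu v hv => ha i j hij u hu.1 v hv.1⟩

end Pool.Agent.H12Tree
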