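import Pool.Agent.H12Tree.NCw

/-!
# Substitution
-/

namespace Pool.Agent.H12Tree

open Tm Pool.Agent.H12Letter

/-- the closure of `Y` under substitution: the vertices `i` of a member `G` of `Y` are replaced
by graphs `H i` of the closure -/
inductive SubstCl (Y : Set FG) : FG → Prop
  | mem (G : FG) (h : G ∈ Y) : SubstCl Y G
  | subst (G : FG) (hG : G ∈ Y) (H : Fin G.1 → FG) (hH : ∀ i, SubstCl Y (H i)) (K : FG)
      (e : Fin K.1 ≃ Σ i, Fin (H i).1)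
      (he : ∀ x y, K.2.Adj x y ↔ (G.2.Adj (e x).1 (e y).1 ∨
        ∃ (i : Fin G.1) (u v : Fin (H i).1), e x = ⟨i, u⟩ ∧ e y = ⟨i, v⟩ ∧ (H i).2.Adj u v)) :
      SubstCl Y K

section Sub

variable {Λ : Type} {r : ℕ}

/-- the graph on the pairs: every vertex `x` of `g` is replaced by the graph `B x` -/
def subG (g : CG Λ) (B : g.V → CG Λ) : SimpleGraph (Σ x, (B x).V) where
  Adj x y := g.G.Adj x.1 y.1 ∨
    ∃ (i : g.V) (u v : (B i).V), x = ⟨i, u⟩ ∧ y = ⟨i, v⟩ ∧ (B i).G.Adj u v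
  symm := ⟨by
    rintro x y (h | ⟨i, u, v, h1, h2, h3⟩)
    · exact Or.inl h.symm
    · exact Or.inr ⟨i, v, u, h2, h1, h3.symm⟩⟩
  loopless := ⟨by
    rintro x (h | ⟨i, u, v, rfl, hy, h⟩)
    · exact h.ne rfl
    · simp only [Sigma.mk.injEq, heq_eq_eq, true_and] at hy
      subst hy
      exact h.ne rfl⟩

/-- the coloured graph obtained by substitution; the colours are those of `g` -/
def CG.sub (g : CG Λ) (B : g.V → CG Λ) : CG Λ :=
  ⟨Σ x, (B x).V, by have := g.fin; have := fun x => (B x).fin; infer_instance, subG g B,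
    fun x => g.c x.1⟩

theorem subG_adj_same {g : CG Λ} {B : g.V → CG Λ} {i : g.V} {u v : (B i).V} :
    (subG g B).Adj ⟨i, u⟩ ⟨i, v⟩ ↔ (B i).G.Adj u v := by
  constructor
  · rintro (h | ⟨j, u', v', h1, h2, h3⟩)
    · exact absurd rfl h.ne
    · rw [Sigma.mk.injEq] at h1 h2
      obtain ⟨rfl, h1⟩ := h1
      obtain ⟨-, h2⟩ := h2
      rw [heq_eq_eq] at h1 h2
      rw [h1, h2]
      exact h3
  · intro h
    exact Or.inr ⟨i, u, v, rfl, rfl, h⟩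

theorem subG_adj_ne {g : CG Λ} {B : g.V → CG Λ} {x y : Σ x, (B x).V} (h : x.1 ≠ y.1) :
    (subG g B).Adj x y ↔ g.G.Adj x.1 y.1 := by
  constructor
  · rintro (h1 | ⟨j, u', v', rfl, rfl, h3⟩)
    · exact h1
    · exact absurd rfl h
  · exact Or.inl

theorem glueG_adj_same {ω : Fin r → Fin r → Λ → Λ → Prop} {g : Fin r → CG Λ} {j : Fin r}
    {u v : (g j).V} : (glueG ω g).Adj ⟨j, u⟩ ⟨j, v⟩ ↔ (g j).G.Adj u v := by
  constructor
  · rintro (⟨k, u', v', h1, h2, h3⟩ | h | h)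
    · rw [Sigma.mk.injEq] at h1 h2
      obtain ⟨rfl, h1⟩ := h1
      obtain ⟨-, h2⟩ := h2
      rw [heq_eq_eq] at h1 h2
      rw [h1, h2]
      exact h3
    · exact absurd h.1 (lt_irrefl _)
    · exact absurd h.1 (lt_irrefl _)
  · intro h
    exact Or.inl ⟨j, u, v, rfl, rfl, h⟩

theorem glueG_adj_lt {ω : Fin r → Fin r → Λ → Λ → Prop} {g : Fin r → CG Λ}
    {x y : Σ j, (g j).V} (hxy : x.1 < y.1) :
    (glueG ω g).Adj x y ↔ ω x.1 y.1 ((g x.1).c x.2) ((g y.1).c y.2) := by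
  constructor
  · rintro (⟨k, u', v', rfl, rfl, h3⟩ | h | h)
    · exact absurd hxy (lt_irrefl _)
    · exact h.2
    · exact absurd (h.1.trans hxy) (lt_irrefl _)
  · intro h
    exact Or.inr (Or.inl ⟨hxy, h⟩)

theorem CG.sub_iso {g h : CG Λ} (e : g.Iso h) (B : h.V → CG Λ) :
    ∃ B' : g.V → CG Λ, (∀ x, ∃ y, B' x = B y) ∧ (g.sub B').Iso (h.sub B) := by
  obtain ⟨e, he⟩ := e
  refine ⟨fun x => B (e x), fun x => ⟨e x, rfl⟩, ?_⟩
  refine ⟨⟨Equiv.sigmaCongrLeft (β := fun y => (B y).V) e.toEquiv, ?_⟩, ?_⟩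
  · rintro ⟨x, u⟩ ⟨y, v⟩
    show (subG h B).Adj ⟨e x, u⟩ ⟨e y, v⟩ ↔ (subG g fun x => B (e x)).Adj ⟨x, u⟩ ⟨y, v⟩
    by_cases hxy : x = y
    · subst hxy
      rw [subG_adj_same, subG_adj_same]
    · rw [subG_adj_ne (show (⟨x, u⟩ : Σ x, (B (e x)).V).1 ≠ (⟨y, v⟩ : Σ x, (B (e x)).V).1 from hxy),
        subG_adj_ne (show (⟨e x, u⟩ : Σ y, (B y).V).1 ≠ (⟨e y, v⟩ : Σ y, (B y).V).1 from
          fun h1 => hxy (e.injective h1))]
      exact e.map_adj_iff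
  · rintro ⟨x, u⟩
    exact he x

theorem CG.sub_node (ω : Fin r → Fin r → Λ → Λ → Prop) (g : Fin r → CG Λ)
    (B : (CG.node ω g).V → CG Λ) :
    (CG.node ω fun j => (g j).sub fun x => B ⟨j, x⟩).Iso ((CG.node ω g).sub B) := by
  refine ⟨⟨(Equiv.sigmaAssoc fun j (x : (g j).V) => (B ⟨j, x⟩).V).symm, ?_⟩, ?_⟩
  · rintro ⟨i, x, u⟩ ⟨j, y, v⟩
    show (subG (CG.node ω g) B).Adj ⟨⟨i, x⟩, u⟩ ⟨⟨j, y⟩, v⟩ ↔
      (glueG ω fun j => (g j).sub fun x => B ⟨j, x⟩).Adj ⟨i, ⟨x, u⟩⟩ ⟨j, ⟨y, v⟩⟩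
    rcases lt_trichotomy i j with hij | hij | hij
    · rw [glueG_adj_lt (show (⟨i, ⟨x, u⟩⟩ : Σ j, ((g j).sub fun x => B ⟨j, x⟩).V).1 <
        (⟨j, ⟨y, v⟩⟩ : Σ j, ((g j).sub fun x => B ⟨j, x⟩).V).1 from hij), subG_adj_ne]
      · exact glueG_adj_lt (show (⟨i, x⟩ : Σ j, (g j).V).1 < (⟨j, y⟩ : Σ j, (g j).V).1 from hij)
      · intro h
        exact hij.ne (congrArg Sigma.fst h)
    · subst hij
      have h1 : (glueG ω fun j => (g j).sub fun x => B ⟨j, x⟩).Adj ⟨i, ⟨x, u⟩⟩ ⟨i, ⟨y, v⟩⟩ ↔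
          (subG (g i) fun x => B ⟨i, x⟩).Adj ⟨x, u⟩ ⟨y, v⟩ := glueG_adj_same
      refine Iff.trans ?_ h1.symm
      by_cases hxy : x = y
      · subst hxy
        have h2 : (subG (CG.node ω g) B).Adj ⟨⟨i, x⟩, u⟩ ⟨⟨i, x⟩, v⟩ ↔ (B ⟨i, x⟩).G.Adj u v :=
          subG_adj_same
        exact h2.trans (subG_adj_same (B := fun x => B ⟨i, x⟩)).symm
      · have h2 : (subG (CG.node ω g) B).Adj ⟨⟨i, x⟩, u⟩ ⟨⟨i, y⟩, v⟩ ↔
            (glueG ω g).Adj ⟨i, x⟩ ⟨i, y⟩ := subG_adj_ne fun h => by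
          have h4 : (⟨i, x⟩ : Σ j, (g j).V) = ⟨i, y⟩ := h
          rw [Sigma.mk.injEq, heq_eq_eq] at h4
          exact hxy h4.2
        have h3 : (subG (g i) fun x => B ⟨i, x⟩).Adj ⟨x, u⟩ ⟨y, v⟩ ↔ (g i).G.Adj x y :=
          subG_adj_ne hxy
        exact h2.trans (glueG_adj_same.trans h3.symm)
    · rw [SimpleGraph.adj_comm, SimpleGraph.adj_comm _ (⟨i, ⟨x, u⟩⟩ : Σ j, ((g j).sub fun x => B ⟨j, x⟩).V),
        glueG_adj_lt (show (⟨j, ⟨y, v⟩⟩ : Σ j, ((g j).sub fun x => B ⟨j, x⟩).V).1 <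
        (⟨i, ⟨x, u⟩⟩ : Σ j, ((g j).sub fun x => B ⟨j, x⟩).V).1 from hij), subG_adj_ne]
      · exact glueG_adj_lt (show (⟨j, y⟩ : Σ j, (g j).V).1 < (⟨i, x⟩ : Σ j, (g j).V).1 from hij)
      · intro h
        exact hij.ne (congrArg Sigma.fst h)
  · rintro ⟨i, x, u⟩
    rfl

theorem DRR.mono {R R' : Set (Λ → Λ)} (hR : R ⊆ R') {At : Set (CG Λ)} {g : CG Λ}
    (h : DRR r R At g) : DRR r R' At g := by
  induction h with
  | emp => exact .emp
  | sing a => exact .sing a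
  | atom g h => exact .atom g h
  | node ω g _ ih => exact .node ω g ih
  | rel σ hσ g _ ih => exact .rel σ (hR hσ) g ih
  | iso g h e _ ih => exact .iso g h e ih

theorem DRR.sub {R R' : Set (Λ → Λ)} (hR : R ⊆ R') (hc : ∀ a : Λ, (fun _ => a) ∈ R')
    {g : CG Λ} (h : DRR r R ∅ g) :
    ∀ B : g.V → CG Λ, (∀ x, DRR r R' ∅ (B x)) → DRR r R' ∅ (g.sub B) := by
  induction h with
  | emp =>
    intro B _
    refine .iso .emp _ ⟨⟨⟨Empty.elim, fun x => x.1, fun x => x.elim, fun x => x.1.elim⟩, ?_⟩,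
      fun x => x.elim⟩ .emp
    intro x
    exact x.elim
  | sing a =>
    intro B hB
    refine .iso ((B ()).rel fun _ => a) _ ⟨⟨⟨fun u => ⟨(), u⟩, fun x => x.2, fun _ => rfl,
      fun _ => rfl⟩, ?_⟩, fun _ => rfl⟩ (.rel _ (hc a) _ (hB ()))
    intro u v
    exact subG_adj_same (g := CG.sing a)
  | atom g h => exact absurd h (Set.notMem_empty _)
  | node ω g _ ih =>
    intro B hB
    exact .iso _ _ (CG.sub_node ω g B) (.node ω _ fun j => ih j _ fun x => hB _)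
  | rel σ hσ g _ ih =>
    intro B hB
    exact .rel σ (hR hσ) _ (ih B hB)
  | iso g h e _ ih =>
    intro B hB
    obtain ⟨B', h1, h2⟩ := CG.sub_iso e B
    refine .iso _ _ h2 (ih B' fun x => ?_)
    obtain ⟨y, hy⟩ := h1 x
    rw [hy]
    exact hB y

end Sub

theorem BoundedNested.subst {Y : Set FG} (h : BoundedNested Y) :
    BoundedNested {K | SubstCl Y K} := by
  obtain ⟨m, r, R, ⟨hR1, hR2⟩, hY⟩ := h
  refine ⟨m, r, R ∪ Set.range (fun (a : Fin m) (_ : Fin m) => a), ⟨?_, ?_⟩, ?_⟩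
  · rintro σ (hσ | ⟨a, rfl⟩) x
    · exact hR1 σ hσ x
    · rfl
  · rintro σ (hσ | ⟨a, rfl⟩) τ (hτ | ⟨b, rfl⟩)
    · exact hR2 σ hσ τ hτ
    · exact Or.inl fun _ _ _ => rfl
    · exact Or.inr fun _ _ _ => rfl
    · exact Or.inl fun _ _ _ => rfl
  · intro K hK
    induction hK with
    | mem G h =>
      obtain ⟨c, hc⟩ := hY G h
      exact ⟨c, hc.mono Set.subset_union_left⟩
    | subst G hG H _ K e he ih =>
      obtain ⟨c, hc⟩ := hY G hG
      choose d hd using ih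
      refine ⟨fun x => c (e x).1, ?_⟩
      have h1 := hc.sub (R' := R ∪ Set.range (fun (a : Fin m) (_ : Fin m) => a))
        Set.subset_union_left (fun a => Or.inr ⟨a, rfl⟩)
        (fun i => ⟨Fin (H i).1, inferInstance, (H i).2, d i⟩) hd
      refine .iso _ _ ⟨⟨e.symm, ?_⟩, ?_⟩ h1
      · intro x y
        refine (he (e.symm x) (e.symm y)).trans ?_
        have h2 : ∀ z, e (e.symm z) = z := fun z => e.apply_symm_apply z
        rw [h2 x, h2 y]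
        exact Iff.rfl
      · intro x
        exact congrArg (fun z : (Σ i, Fin (H i).1) => c z.1) (e.apply_symm_apply x)

end Pool.Agent.H12Tree
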