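import Pool.Agent.H12Tree.NDrt
import Pool.Agent.H12Tree.NSub

/-!
# Nested classes are contained in classes with the condition of Daligault, Rao, Thomassé
-/

namespace Pool.Agent.H12Tree

open Tm Pool.Agent.H12Letter

theorem BoundedNested.nlc {X : Set FG} (h : BoundedNested X) : BoundedNLC X := by
  obtain ⟨m, r, R, ⟨hR1, hR2⟩, hX⟩ := h
  set S : Set (Fin m → Fin m) := {f | (∀ x, f (f x) = f x) ∧
    ∃ τ ∈ R, ∀ x y, f x = f y ↔ τ x = τ y} with hS
  have key : ∀ f ∈ S, ∀ g ∈ S, (∀ x y, f x = f y → g x = g y) →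
      g ∘ f = g ∧ f ∘ g ∈ S := by
    rintro f ⟨hf1, -⟩ g ⟨hg1, σ, hσ, hg2⟩ hfg
    have h1 : g ∘ f = g := funext fun x => hfg _ _ (hf1 x)
    have h1' : ∀ x, g (f x) = g x := fun x => congrFun h1 x
    refine ⟨h1, ?_, σ, hσ, fun x y => ?_⟩
    · intro x
      change f (g (f (g x))) = f (g x)
      rw [h1', hg1]
    · change f (g x) = f (g y) ↔ _
      rw [← hg2]
      constructor
      · intro hh
        have := hfg _ _ hh
        rwa [hg1, hg1] at this
      · intro hh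
        rw [hh]
  have cmp : ∀ f ∈ S, ∀ g ∈ S, (∀ x y, f x = f y → g x = g y) ∨
      ∀ x y, g x = g y → f x = f y := by
    rintro f ⟨-, τ, hτ, hf⟩ g ⟨-, σ, hσ, hg⟩
    rcases hR2 τ hτ σ hσ with h | h
    · left
      intro x y hxy
      exact (hg x y).2 (h x y ((hf x y).1 hxy))
    · right
      intro x y hxy
      exact (hf x y).2 (h x y ((hg x y).1 hxy))
  refine ⟨m, r, S, ⟨?_, ?_⟩, fun G hG => ?_⟩
  · intro f hf g hg
    rcases cmp f hf g hg with h | h
    · exact (key f hf g hg h).2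
    · rw [(key g hg f hf h).1]
      exact hf
  · intro f hf g hg
    rcases cmp f hf g hg with h | h
    · right
      rw [(key f hf g hg h).1]
    · left
      rw [(key g hg f hf h).1]
  · obtain ⟨c, hc⟩ := hX G hG
    have hRS : R ⊆ S := fun σ hσ => ⟨hR1 σ hσ, σ, hσ, fun _ _ => Iff.rfl⟩
    exact ⟨c, hc.mono hRS⟩

theorem boundedNested_iff {X : Set FG} : BoundedNested X ↔ BoundedNLC X :=
  ⟨BoundedNested.nlc, BoundedNLC.nested⟩

theorem BoundedNLC.subst {Y : Set FG} (h : BoundedNLC Y) : BoundedNLC {K | SubstCl Y K} :=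
  h.nested.subst.nlc

theorem BoundedNLC.mono {X Y : Set FG} (hXY : X ⊆ Y) (h : BoundedNLC Y) : BoundedNLC X := by
  obtain ⟨m, r, S, hS, hY⟩ := h
  exact ⟨m, r, S, hS, fun G hG => hY G (hXY hG)⟩

end Pool.Agent.H12Tree
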