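import Pool.Agent.H12Tree.NFinal
import Pool.Agent.H12Tree.NEq
import Pool.Agent.H12Tree.CorA
import Pool.Agent.H12Tree.CorB
import Pool.Agent.H12Tree.CorC

/-!
# The algorithm and the classes on which it halts
-/

namespace Pool.Agent.H12Tree

open Tm Pool.Agent.H12Letter

theorem CW.mono {k l : ℕ} (hkl : k ≤ l) {V : Type} {G : SimpleGraph V} {c : V → Fin k}
    (h : CW k V G c) : CW l V G fun v => Fin.castLE hkl (c v) := by
  induction h with
  | single a => exact CW.single _
  | union V W G H c d _ _ ih1 ih2 =>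
    have e : (fun v => Fin.castLE hkl (Sum.elim c d v)) =
        Sum.elim (fun v => Fin.castLE hkl (c v)) fun v => Fin.castLE hkl (d v) := by
      funext v
      rcases v with v | v <;> rfl
    rw [e]
    exact CW.union _ _ _ _ _ _ ih1 ih2
  | join V G c i j hij _ ih =>
    have h1 := CW.join V G _ (Fin.castLE hkl i) (Fin.castLE hkl j)
      (fun hh => hij (Fin.castLE_injective hkl hh)) ih
    have e : (SimpleGraph.fromRel fun u v => Fin.castLE hkl (c u) = Fin.castLE hkl i ∧
        Fin.castLE hkl (c v) = Fin.castLE hkl j) =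
        SimpleGraph.fromRel fun u v => c u = i ∧ c v = j := by
      ext u v
      simp only [SimpleGraph.fromRel_adj, (Fin.castLE_injective hkl).eq_iff]
    rw [e] at h1
    exact h1
  | relabel V G c i j _ ih =>
    have h1 := CW.relabel V G _ (Fin.castLE hkl i) (Fin.castLE hkl j) ih
    have e : (fun v => Fin.castLE hkl (if c v = i then j else c v)) = fun v =>
        if Fin.castLE hkl (c v) = Fin.castLE hkl i then Fin.castLE hkl j
        else Fin.castLE hkl (c v) := by
      funext v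
      simp only [(Fin.castLE_injective hkl).eq_iff]
      split_ifs <;> rfl
    rw [e]
    exact h1
  | iso V W G H c d e hc _ ih =>
    exact CW.iso _ _ _ _ _ _ e (fun v => by rw [hc]) ih

theorem CliqueWidthLE.mono {k l : ℕ} (hkl : k ≤ l) {G : FG} (h : CliqueWidthLE k G) :
    CliqueWidthLE l G := by
  rcases h with h | ⟨c, h⟩
  · exact Or.inl h
  · exact Or.inr ⟨_, h.mono hkl⟩

/-- the algorithm halts if the class is not atomic, or is boundedly atomic, or has clique-width
at most `2`, or is contained in the closure under substitution of a class with `BoundedNLC` -/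
theorem main5 : ∃ A : ℕ × List (ℕ × List (ℕ × ℕ)) →. Bool, Partrec A ∧
    ∀ (k : ℕ) (F : List (ℕ × List (ℕ × ℕ))), (∀ G ∈ Free F, CliqueWidthLE k G) →
      (∀ b ∈ A (k, F), (b = true ↔ Atomic (Free F))) ∧
      ((A (k, F)).Dom ↔ (¬ Atomic (Free F) ∨ BoundedlyAtomic (Free F))) ∧
      (k ≤ 2 → (A (k, F)).Dom) ∧
      (∀ Y : Set FG, BoundedNLC Y → (∀ G ∈ Free F, SubstCl Y G) → (A (k, F)).Dom) := by
  obtain ⟨A, hA, h⟩ := main2
  refine ⟨A, hA, fun k F hk => ?_⟩
  obtain ⟨h1, h2⟩ := h k F hk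
  have h3 : BoundedNested (Free F) → (A (k, F)).Dom := by
    intro hX
    rw [h1]
    by_cases hJ : Atomic (Free F)
    · exact Or.inr (main4 F hX hJ)
    · exact Or.inl hJ
  exact ⟨h2, h1, fun hk2 => h3 (BoundedDec.nested
    (boundedDec_of_cliqueWidth_two fun G hG => (hk G hG).mono hk2)), fun Y hY hF =>
    h3 (BoundedNLC.nested (BoundedNLC.mono (fun G hG => hF G hG) hY.subst))⟩

/-- the algorithm without promise -/
theorem main6 : ∃ A : List (ℕ × List (ℕ × ℕ)) →. Bool, Partrec A ∧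
    (∀ F, ∀ b ∈ A F, (b = true ↔ Atomic (Free F))) ∧
    (∀ F, (A F).Dom ↔ BoundedDec (Free F)) ∧
    (∀ F, (A F).Dom → ∃ k, ∀ G ∈ Free F, CliqueWidthLE k G) ∧
    (∀ F, (∀ G ∈ Free F, CliqueWidthLE 2 G) → (A F).Dom) ∧
    (∀ F, BoundedLettericity (Free F) → (A F).Dom) ∧
    (∀ F m, (∀ G ∈ Free F, ∃ c : Fin G.1 → Fin m, MPart G.2 m c Set.univ) → (A F).Dom) ∧
    (∀ F k d, (∀ G ∈ Free F, G.1 = 0 ∨ ∃ c : Fin G.1 → Fin k, CWd k d (Fin G.1) G.2 c) →
      (A F).Dom) := by
  obtain ⟨A, h1, h2, h3⟩ := main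
  exact ⟨A, h1, h3, h2, fun F h => boundedDec_cliqueWidth ((h2 F).1 h),
    fun F h => (h2 F).2 (boundedDec_of_cliqueWidth_two h),
    fun F h => (h2 F).2 (boundedDec_of_lettericity h),
    fun F m h => (h2 F).2 (boundedDec_of_mpart h),
    fun F k d h => (h2 F).2 (boundedDec_of_relabel h)⟩

end Pool.Agent.H12Tree
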