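import Pool.Agent.H12Tree.NCG

/-!
# Basic boundedly directed classes
-/

namespace Pool.Agent.H12Tree

open Tm Pool.Agent.H12Letter

variable {Λ Λ' Λ'' : Type} {r : ℕ}

theorem BD.empty (v : Λ → Λ') : BD v (∅ : Set (CG Λ)) :=
  ⟨Unit, inferInstance, fun _ h => absurd h (Set.notMem_empty _)⟩

theorem BD.emp (v : Λ → Λ') : BD v ({CG.emp} : Set (CG Λ)) := by
  refine ⟨Unit, inferInstance, ?_⟩
  rintro _ rfl _ rfl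
  refine ⟨CG.emp, rfl, SimpleGraph.Embedding.refl, SimpleGraph.Embedding.refl, Empty.elim,
    Empty.elim, fun _ _ => True, fun _ _ => True, fun x => x.elim, fun x => x.elim,
    fun x => x.elim⟩

theorem BD.sing (v : Λ → Λ') (a : Λ) : BD v ({CG.sing a} : Set (CG Λ)) := by
  refine ⟨Unit, inferInstance, ?_⟩
  rintro _ rfl _ rfl
  refine ⟨CG.sing a, rfl, SimpleGraph.Embedding.refl, SimpleGraph.Embedding.refl, fun _ => (),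
    fun _ => (), fun _ _ => True, fun _ _ => False, fun _ => rfl, fun _ => rfl,
    fun x y => ⟨?_, ?_⟩⟩
  · exact iff_of_true rfl trivial
  · exact Iff.rfl

theorem BD.comp {v : Λ → Λ'} {K : Set (CG Λ)} (h : BD v K) (w : Λ' → Λ'') :
    BD (fun x => w (v x)) K := by
  obtain ⟨D, hD, h⟩ := h
  refine ⟨D, hD, fun A hA B hB => ?_⟩
  obtain ⟨u, hu, φ₁, φ₂, d₁, d₂, E, T, h₁, h₂, h₃⟩ := h A hA B hB
  exact ⟨u, hu, φ₁, φ₂, d₁, d₂, E, T, fun x => congrArg w (h₁ x), fun y => congrArg w (h₂ y), h₃⟩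

/-- recolourings which factor through `v` -/
theorem BD.rel {v : Λ → Λ'} {K : Set (CG Λ)} (h : BD v K) {σ : Λ → Λ}
    (hσ : ∀ x y, v x = v y → σ x = σ y) : BD (id : Λ → Λ) (CG.rel σ '' K) := by
  obtain ⟨D, hD, h⟩ := h
  refine ⟨D, hD, ?_⟩
  rintro _ ⟨A, hA, rfl⟩ _ ⟨B, hB, rfl⟩
  obtain ⟨u, hu, φ₁, φ₂, d₁, d₂, E, T, h₁, h₂, h₃⟩ := h A hA B hB
  exact ⟨u.rel σ, ⟨u, hu, rfl⟩, φ₁, φ₂, d₁, d₂, E, T, fun x => hσ _ _ (h₁ x),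
    fun y => hσ _ _ (h₂ y), h₃⟩

/-- embeddings of the parts which preserve the colours give an embedding of the union -/
def nodeEmb (ω : Fin r → Fin r → Λ → Λ → Prop) {g k : Fin r → CG Λ}
    (φ : ∀ j, (g j).G ↪g (k j).G) (hφ : ∀ j x, (k j).c (φ j x) = (g j).c x) :
    (CG.node ω g).G ↪g (CG.node ω k).G where
  toFun x := ⟨x.1, φ x.1 x.2⟩
  inj' := by
    rintro ⟨i, x⟩ ⟨j, y⟩ h
    change (⟨i, φ i x⟩ : Σ j, (k j).V) = ⟨j, φ j y⟩ at h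
    obtain ⟨rfl, h⟩ := Sigma.mk.inj_iff.1 h
    exact congrArg (Sigma.mk i) ((φ i).injective (eq_of_heq h))
  map_rel_iff' := by
    rintro ⟨i, x⟩ ⟨j, y⟩
    change (glueG ω k).Adj ⟨i, φ i x⟩ ⟨j, φ j y⟩ ↔ (glueG ω g).Adj ⟨i, x⟩ ⟨j, y⟩
    simp only [glueG, hφ]
    refine or_congr ?_ Iff.rfl
    constructor
    · rintro ⟨l, u, w, h₁, h₂, h₃⟩
      obtain ⟨rfl, h₁⟩ := Sigma.mk.inj_iff.1 h₁
      obtain ⟨rfl, h₂⟩ := Sigma.mk.inj_iff.1 h₂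
      obtain rfl := eq_of_heq h₁
      obtain rfl := eq_of_heq h₂
      exact ⟨_, x, y, rfl, rfl, (φ _).map_rel_iff.1 h₃⟩
    · rintro ⟨l, u, w, h₁, h₂, h₃⟩
      obtain ⟨rfl, h₁⟩ := Sigma.mk.inj_iff.1 h₁
      obtain ⟨rfl, h₂⟩ := Sigma.mk.inj_iff.1 h₂
      obtain rfl := eq_of_heq h₁
      obtain rfl := eq_of_heq h₂
      exact ⟨_, _, _, rfl, rfl, (φ _).map_rel_iff.2 h₃⟩

theorem BD.node [Finite Λ] (ω : Fin r → Fin r → Λ → Λ → Prop) (K : Fin r → Set (CG Λ))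
    (h : ∀ j, BD (id : Λ → Λ) (K j)) :
    BD (id : Λ → Λ) {g | ∃ h : Fin r → CG Λ, (∀ j, h j ∈ K j) ∧ g = CG.node ω h} := by
  choose D hD h using h
  refine ⟨(Σ j, D j) × Λ, inferInstance, ?_⟩
  rintro _ ⟨A, hA, rfl⟩ _ ⟨B, hB, rfl⟩
  choose u hu φ₁ φ₂ d₁ d₂ E T h₁ h₂ h₃ using fun j => h j (A j) (hA j) (B j) (hB j)
  refine ⟨CG.node ω u, ⟨u, hu, rfl⟩, nodeEmb ω φ₁ h₁, nodeEmb ω φ₂ h₂,
    fun x => (⟨x.1, d₁ x.1 x.2⟩, (A x.1).c x.2), fun y => (⟨y.1, d₂ y.1 y.2⟩, (B y.1).c y.2),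
    fun p q => ∃ (j : Fin r) (a b : D j), p.1 = ⟨j, a⟩ ∧ q.1 = ⟨j, b⟩ ∧ E j a b,
    fun p q => (∃ (j : Fin r) (a b : D j), p.1 = ⟨j, a⟩ ∧ q.1 = ⟨j, b⟩ ∧ T j a b) ∨
      (p.1.1 < q.1.1 ∧ ω p.1.1 q.1.1 p.2 q.2) ∨ (q.1.1 < p.1.1 ∧ ω q.1.1 p.1.1 q.2 p.2),
    fun x => h₁ x.1 x.2, fun y => h₂ y.1 y.2, ?_⟩
  rintro ⟨i, x⟩ ⟨j, y⟩
  constructor
  · change (⟨i, φ₁ i x⟩ : Σ j, (u j).V) = ⟨j, φ₂ j y⟩ ↔ _
    constructor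
    · intro h
      obtain ⟨rfl, h⟩ := Sigma.mk.inj_iff.1 h
      exact ⟨i, _, _, rfl, rfl, (h₃ i x y).1.1 (eq_of_heq h)⟩
    · rintro ⟨l, a, b, hp, hq, hE⟩
      obtain ⟨rfl, hp⟩ := Sigma.mk.inj_iff.1 hp
      obtain ⟨rfl, hq⟩ := Sigma.mk.inj_iff.1 hq
      obtain rfl := eq_of_heq hp
      obtain rfl := eq_of_heq hq
      rw [(h₃ _ x y).1.2 hE]
  · change (glueG ω u).Adj ⟨i, φ₁ i x⟩ ⟨j, φ₂ j y⟩ ↔ _
    have h₁' : ∀ j x, (u j).c (φ₁ j x) = (A j).c x := h₁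
    have h₂' : ∀ j x, (u j).c (φ₂ j x) = (B j).c x := h₂
    simp only [glueG, h₁', h₂']
    refine or_congr ?_ Iff.rfl
    constructor
    · rintro ⟨l, a, b, hp, hq, hT⟩
      obtain ⟨rfl, hp⟩ := Sigma.mk.inj_iff.1 hp
      obtain ⟨rfl, hq⟩ := Sigma.mk.inj_iff.1 hq
      obtain rfl := eq_of_heq hp
      obtain rfl := eq_of_heq hq
      exact ⟨_, _, _, rfl, rfl, (h₃ _ x y).2.1 hT⟩
    · rintro ⟨l, a, b, hp, hq, hT⟩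
      obtain ⟨rfl, hp⟩ := Sigma.mk.inj_iff.1 hp
      obtain ⟨rfl, hq⟩ := Sigma.mk.inj_iff.1 hq
      obtain rfl := eq_of_heq hp
      obtain rfl := eq_of_heq hq
      exact ⟨_, _, _, rfl, rfl, (h₃ _ x y).2.2 hT⟩

theorem FU.union {v : Λ → Λ'} {L₁ L₂ : Set (CG Λ)} (h₁ : FU v L₁) (h₂ : FU v L₂) :
    FU v (L₁ ∪ L₂) := by
  obtain ⟨I, hI, K, a₁, a₂, a₃⟩ := h₁
  obtain ⟨J, hJ, M, b₁, b₂, b₃⟩ := h₂
  refine ⟨I ⊕ J, inferInstance, Sum.elim K M, ?_, ?_, ?_⟩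
  · rintro (i | j)
    · exact a₁ i
    · exact b₁ j
  · rintro (i | j)
    · exact (a₂ i).trans Set.subset_union_left
    · exact (b₂ j).trans Set.subset_union_right
  · rintro g (h | h)
    · obtain ⟨i, hi⟩ := a₃ g h
      exact ⟨Sum.inl i, hi⟩
    · obtain ⟨j, hj⟩ := b₃ g h
      exact ⟨Sum.inr j, hj⟩

end Pool.Agent.H12Tree
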