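import Pool.Agent.H12Tree.BJ

/-!
# Coloured graphs, operations and contexts
-/

namespace Pool.Agent.H12Tree

open Tm Pool.Agent.H12Letter

/-- finite graphs with vertex colours in `Λ` -/
structure CG (Λ : Type) where
  V : Type
  fin : Finite V
  G : SimpleGraph V
  c : V → Λ

variable {Λ Λ' Λ'' : Type} {r : ℕ}

/-- isomorphic coloured graphs -/
def CG.Iso (g h : CG Λ) : Prop := ∃ e : g.G ≃g h.G, ∀ v, h.c (e v) = g.c v

/-- the empty graph -/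
def CG.emp : CG Λ := ⟨Empty, inferInstance, ⊥, Empty.elim⟩

/-- one vertex of colour `a` -/
def CG.sing (a : Λ) : CG Λ := ⟨Unit, inferInstance, ⊥, fun _ => a⟩

/-- the disjoint union of `r` coloured graphs with additional edges: `u` in part `i` and `v` in
part `j`, `i < j`, are adjacent iff `ω i j (c u) (c v)` -/
def glueG (ω : Fin r → Fin r → Λ → Λ → Prop) (g : Fin r → CG Λ) :
    SimpleGraph (Σ j, (g j).V) where
  Adj x y := (∃ (j : Fin r) (u v : (g j).V), x = ⟨j, u⟩ ∧ y = ⟨j, v⟩ ∧ (g j).G.Adj u v) ∨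
    (x.1 < y.1 ∧ ω x.1 y.1 ((g x.1).c x.2) ((g y.1).c y.2)) ∨
    (y.1 < x.1 ∧ ω y.1 x.1 ((g y.1).c y.2) ((g x.1).c x.2))
  symm := ⟨by
    rintro x y (⟨i, u, v, rfl, rfl, h⟩ | h | h)
    · exact Or.inl ⟨i, v, u, rfl, rfl, h.symm⟩
    · exact Or.inr (Or.inr h)
    · exact Or.inr (Or.inl h)⟩
  loopless := ⟨by
    rintro x (⟨i, u, v, rfl, hy, h⟩ | h | h)
    · simp only [Sigma.mk.injEq, heq_eq_eq, true_and] at hy
      subst hy
      exact h.ne rfl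
    · exact lt_irrefl _ h.1
    · exact lt_irrefl _ h.1⟩

/-- the union with table `ω` -/
def CG.node (ω : Fin r → Fin r → Λ → Λ → Prop) (g : Fin r → CG Λ) : CG Λ :=
  ⟨Σ j, (g j).V, by have := fun j => (g j).fin; infer_instance, glueG ω g,
    fun x => (g x.1).c x.2⟩

/-- the recoloured graph -/
def CG.rel (σ : Λ → Λ) (g : CG Λ) : CG Λ := ⟨g.V, g.fin, g.G, fun x => σ (g.c x)⟩

/-- the coloured graphs which are obtained from the members of `At`, the empty graph and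
single vertices by unions of `r` graphs with tables and by recolourings in `R` -/
inductive DRR (r : ℕ) (R : Set (Λ → Λ)) (At : Set (CG Λ)) : CG Λ → Prop
  | emp : DRR r R At .emp
  | sing (a : Λ) : DRR r R At (.sing a)
  | atom (g : CG Λ) (h : g ∈ At) : DRR r R At g
  | node (ω : Fin r → Fin r → Λ → Λ → Prop) (g : Fin r → CG Λ) (h : ∀ j, DRR r R At (g j)) :
      DRR r R At (.node ω g)
  | rel (σ : Λ → Λ) (hσ : σ ∈ R) (g : CG Λ) (h : DRR r R At g) : DRR r R At (g.rel σ)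
  | iso (g h : CG Λ) (e : g.Iso h) (hg : DRR r R At g) : DRR r R At h

/-- idempotent recolourings with pairwise comparable kernels -/
def Chain (R : Set (Λ → Λ)) : Prop :=
  (∀ σ ∈ R, ∀ x, σ (σ x) = σ x) ∧
    ∀ σ ∈ R, ∀ τ ∈ R, (∀ x y, σ x = σ y → τ x = τ y) ∨ (∀ x y, τ x = τ y → σ x = σ y)

/-- the types of the partial `q`-tuples, with the colours seen through `v` -/
def ty (v : Λ → Λ') (q : ℕ) (g : CG Λ) : Set (PTy Λ' q) := tyS q g.G fun x => v (g.c x)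

/-- `u` is a joint embedding of `A` and `B` which preserves the colours seen through `v`, and
whose interaction is described with colours in `D` -/
def JoinR (v : Λ → Λ') (D : Type) (A B u : CG Λ) : Prop :=
  ∃ (φ₁ : A.G ↪g u.G) (φ₂ : B.G ↪g u.G) (d₁ : A.V → D) (d₂ : B.V → D) (E T : D → D → Prop),
    (∀ x, v (u.c (φ₁ x)) = v (A.c x)) ∧ (∀ y, v (u.c (φ₂ y)) = v (B.c y)) ∧
      ∀ x y, (φ₁ x = φ₂ y ↔ E (d₁ x) (d₂ y)) ∧ (u.G.Adj (φ₁ x) (φ₂ y) ↔ T (d₁ x) (d₂ y))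

/-- boundedly directed classes -/
def BD (v : Λ → Λ') (K : Set (CG Λ)) : Prop :=
  ∃ (D : Type) (_ : Finite D), ∀ A ∈ K, ∀ B ∈ K, ∃ u ∈ K, JoinR v D A B u

/-- finite unions of boundedly directed classes -/
def FU (v : Λ → Λ') (L : Set (CG Λ)) : Prop :=
  ∃ (I : Type) (_ : Finite I) (K : I → Set (CG Λ)), (∀ i, BD v (K i)) ∧ (∀ i, K i ⊆ L) ∧
    ∀ g ∈ L, ∃ i, g ∈ K i

/-- contexts: the argument `u` is put into a hole (embedding `ι u`), where it is seen with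
colours which depend only on `v`; the vertices outside of the hole are adjacent to those in
the hole according to `v` -/
def IsCtx (v : Λ → Λ') (C : CG Λ → CG Λ) : Prop :=
  ∃ (ι : ∀ u : CG Λ, u.G ↪g (C u).G) (μ : Λ → Λ),
    (∀ x y, v x = v y → μ x = μ y) ∧ (∀ x, v (μ x) = v x) ∧
    (∀ u y, (C u).c (ι u y) = μ (u.c y)) ∧
    ∀ (g u : CG Λ) (φ : g.G ↪g u.G), (∀ x, v (u.c (φ x)) = v (g.c x)) →
      ∃ Φ : (C g).G ↪g (C u).G, (∀ x, (C u).c (Φ x) = (C g).c x) ∧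
        (∀ x, Φ (ι g x) = ι u (φ x)) ∧
        ∀ x, (∃ x₀, x = ι g x₀) ∨
          ∃ ρ : Λ' → Prop, ∀ y, Φ x ≠ ι u y ∧ ((C u).G.Adj (Φ x) (ι u y) ↔ ρ (v (u.c y)))

/-- the closure of `K₀` under the contexts in `𝒞` -/
inductive Cl (𝒞 : Set (CG Λ → CG Λ)) (K₀ : Set (CG Λ)) : CG Λ → Prop
  | base (g : CG Λ) (h : g ∈ K₀) : Cl 𝒞 K₀ g
  | step (C : CG Λ → CG Λ) (hC : C ∈ 𝒞) (g : CG Λ) (h : Cl 𝒞 K₀ g) : Cl 𝒞 K₀ (C g)
  | iso (g h : CG Λ) (e : g.Iso h) (hg : Cl 𝒞 K₀ g) : Cl 𝒞 K₀ h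

theorem CG.Iso.refl (g : CG Λ) : g.Iso g := ⟨SimpleGraph.Iso.refl, fun _ => rfl⟩

theorem CG.Iso.symm {g h : CG Λ} (e : g.Iso h) : h.Iso g := by
  obtain ⟨e, he⟩ := e
  refine ⟨e.symm, fun v => ?_⟩
  rw [← he, RelIso.apply_symm_apply]

theorem CG.Iso.trans {g h k : CG Λ} (e : g.Iso h) (e' : h.Iso k) : g.Iso k := by
  obtain ⟨e, he⟩ := e
  obtain ⟨e', he'⟩ := e'
  exact ⟨e.trans e', fun v => (he' (e v)).trans (he v)⟩

end Pool.Agent.H12Tree
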