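import Pool.Agent.H12Tree.NCG

/-!
# The closure of a boundedly directed class under contexts is boundedly directed
-/

namespace Pool.Agent.H12Tree

open Tm Pool.Agent.H12Letter

variable {Λ Λ' : Type}

/-- the description of the pair `(x, y)` (colours `cx`, `cy`; `e`: the images are equal, `a`: the
images are adjacent) by the labels `p` and `q` -/
def RX {D Λ' : Type} (E T : D → D → Prop) (p q : D ⊕ (Λ' → Prop)) (cx cy : Λ') (e a : Prop) :
    Prop :=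
  match p, q with
  | .inl i, .inl j => (e ↔ E i j) ∧ (a ↔ T i j)
  | .inl _, .inr ρ => ¬ e ∧ (a ↔ ρ cx)
  | .inr ρ, _ => ¬ e ∧ (a ↔ ρ cy)

/-- joint embeddings described by labels in `D` or by a condition on the colours of the other
side; `L`: the labels of `A` are in `D` -/
def JoinX (v : Λ → Λ') (D : Type) (L : Prop) (A B u : CG Λ) : Prop :=
  ∃ (φ₁ : A.G ↪g u.G) (φ₂ : B.G ↪g u.G) (d₁ : A.V → D ⊕ (Λ' → Prop))
    (d₂ : B.V → D ⊕ (Λ' → Prop)) (E T : D → D → Prop),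
    (L → ∀ x, ∃ i, d₁ x = .inl i) ∧
    (∀ x, v (u.c (φ₁ x)) = v (A.c x)) ∧ (∀ y, v (u.c (φ₂ y)) = v (B.c y)) ∧
      ∀ x y, RX E T (d₁ x) (d₂ y) (v (A.c x)) (v (B.c y)) (φ₁ x = φ₂ y)
        (u.G.Adj (φ₁ x) (φ₂ y))

theorem JoinX.joinR {v : Λ → Λ'} {D : Type} {L : Prop} {A B u : CG Λ}
    (h : JoinX v D L A B u) : JoinR v ((D ⊕ (Λ' → Prop)) × Λ') A B u := by
  obtain ⟨φ₁, φ₂, d₁, d₂, E, T, -, h1, h2, h3⟩ := h
  refine ⟨φ₁, φ₂, fun x => (d₁ x, v (A.c x)), fun y => (d₂ y, v (B.c y)),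
    fun p q => match p.1, q.1 with
      | .inl i, .inl j => E i j
      | .inl _, .inr _ => False
      | .inr _, _ => False,
    fun p q => match p.1, q.1 with
      | .inl i, .inl j => T i j
      | .inl _, .inr ρ => ρ p.2
      | .inr ρ, _ => ρ q.2, h1, h2, fun x y => ?_⟩
  have h := h3 x y
  dsimp only
  cases hx : d₁ x with
  | inl i =>
    cases hy : d₂ y with
    | inl j =>
      rw [hx, hy] at h
      exact h
    | inr ρ =>
      rw [hx, hy] at h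
      exact ⟨iff_false_intro h.1, h.2⟩
  | inr ρ =>
    rw [hx] at h
    exact ⟨iff_false_intro h.1, h.2⟩

/-- `B` is put into a context -/
theorem JoinX.right {v : Λ → Λ'} {D : Type} {A g u : CG Λ} (h : JoinX v D True A g u)
    {C : CG Λ → CG Λ} (hC : IsCtx v C) : JoinX v D True A (C g) (C u) := by
  classical
  obtain ⟨φ₁, φ₂, d₁, d₂, E, T, h0, h1, h2, h3⟩ := h
  obtain ⟨ι, μ, -, hμ, hι, hC⟩ := hC
  obtain ⟨Φ, hc, hΦ, hρ⟩ := hC g u φ₂ h2
  have hρ' : ∀ x, (¬ ∃ x₀, x = ι g x₀) →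
      ∃ ρ : Λ' → Prop, ∀ y, Φ x ≠ ι u y ∧ ((C u).G.Adj (Φ x) (ι u y) ↔ ρ (v (u.c y))) :=
    fun x hx => (hρ x).resolve_left hx
  refine ⟨φ₁.trans (ι u), Φ, d₁,
    fun y => if hy : ∃ y₀, y = ι g y₀ then d₂ hy.choose else .inr (hρ' y hy).choose, E, T,
    h0, fun x => ?_, fun y => congrArg v (hc y), fun x y => ?_⟩
  · show v ((C u).c (ι u (φ₁ x))) = _
    rw [hι, hμ, h1]
  · show RX E T (d₁ x) _ _ _ (ι u (φ₁ x) = Φ y) ((C u).G.Adj (ι u (φ₁ x)) (Φ y))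
    obtain ⟨i, hi⟩ := h0 trivial x
    beta_reduce
    by_cases hy : ∃ y₀, y = ι g y₀
    · rw [dif_pos hy]
      have h := h3 x hy.choose
      have e : Φ y = ι u (φ₂ hy.choose) := by
        conv_lhs => rw [hy.choose_spec]
        exact hΦ _
      rw [e, (ι u).injective.eq_iff, (ι u).map_adj_iff]
      rw [hi] at h ⊢
      cases hd : d₂ hy.choose with
      | inl j =>
        rw [hd] at h
        exact h
      | inr ρ =>
        rw [hd] at h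
        exact h
    · rw [dif_neg hy, hi]
      have h := (hρ' y hy).choose_spec (φ₁ x)
      rw [h1] at h
      exact ⟨fun e => h.1 e.symm, by rw [SimpleGraph.adj_comm]; exact h.2⟩

/-- `A` is put into a context -/
theorem JoinX.left {v : Λ → Λ'} {D : Type} {g B u : CG Λ} (h : JoinX v D False g B u)
    {C : CG Λ → CG Λ} (hC : IsCtx v C) : JoinX v D False (C g) B (C u) := by
  classical
  obtain ⟨φ₁, φ₂, d₁, d₂, E, T, -, h1, h2, h3⟩ := h
  obtain ⟨ι, μ, -, hμ, hι, hC⟩ := hC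
  obtain ⟨Φ, hc, hΦ, hρ⟩ := hC g u φ₁ h1
  have hρ' : ∀ x, (¬ ∃ x₀, x = ι g x₀) →
      ∃ ρ : Λ' → Prop, ∀ y, Φ x ≠ ι u y ∧ ((C u).G.Adj (Φ x) (ι u y) ↔ ρ (v (u.c y))) :=
    fun x hx => (hρ x).resolve_left hx
  refine ⟨Φ, φ₂.trans (ι u),
    fun x => if hx : ∃ x₀, x = ι g x₀ then d₁ hx.choose else .inr (hρ' x hx).choose, d₂, E, T,
    False.elim, fun x => congrArg v (hc x), fun y => ?_, fun x y => ?_⟩
  · show v ((C u).c (ι u (φ₂ y))) = _
    rw [hι, hμ, h2]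
  · show RX E T _ (d₂ y) _ _ (Φ x = ι u (φ₂ y)) ((C u).G.Adj (Φ x) (ι u (φ₂ y)))
    beta_reduce
    by_cases hx : ∃ x₀, x = ι g x₀
    · rw [dif_pos hx]
      have h := h3 hx.choose y
      have e : Φ x = ι u (φ₁ hx.choose) := by
        conv_lhs => rw [hx.choose_spec]
        exact hΦ _
      have ec : v ((C g).c x) = v (g.c hx.choose) := by
        conv_lhs => rw [hx.choose_spec, hι, hμ]
      rw [e, (ι u).injective.eq_iff, (ι u).map_adj_iff, ec]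
      exact h
    · rw [dif_neg hx]
      have h := (hρ' x hx).choose_spec (φ₂ y)
      rw [h2] at h
      exact h

theorem JoinX.iso_right {v : Λ → Λ'} {D : Type} {L : Prop} {A g k u : CG Λ}
    (h : JoinX v D L A g u) (e : g.Iso k) : JoinX v D L A k u := by
  obtain ⟨φ₁, φ₂, d₁, d₂, E, T, h0, h1, h2, h3⟩ := h
  obtain ⟨e, he⟩ := e.symm
  refine ⟨φ₁, e.toEmbedding.trans φ₂, d₁, fun y => d₂ (e y), E, T, h0, h1, fun y => ?_,
    fun x y => ?_⟩
  · show v (u.c (φ₂ (e y))) = _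
    rw [h2, he]
  · have h := h3 x (e y)
    rw [he] at h
    exact h

theorem JoinX.iso_left {v : Λ → Λ'} {D : Type} {g k B u : CG Λ}
    (h : JoinX v D False g B u) (e : g.Iso k) : JoinX v D False k B u := by
  obtain ⟨φ₁, φ₂, d₁, d₂, E, T, -, h1, h2, h3⟩ := h
  obtain ⟨e, he⟩ := e.symm
  refine ⟨e.toEmbedding.trans φ₁, φ₂, fun x => d₁ (e x), d₂, E, T, False.elim, fun x => ?_, h2,
    fun x y => ?_⟩
  · show v (u.c (φ₁ (e x))) = _
    rw [h1, he]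
  · have h := h3 (e x) y
    rw [he] at h
    exact h

theorem BD.closure {v : Λ → Λ'} [Finite Λ'] {𝒞 : Set (CG Λ → CG Λ)} {K₀ : Set (CG Λ)}
    (h : BD v K₀) (h𝒞 : ∀ C ∈ 𝒞, IsCtx v C) : BD v {g | Cl 𝒞 K₀ g} := by
  obtain ⟨D, hD, h⟩ := h
  have step1 : ∀ A ∈ K₀, ∀ B, Cl 𝒞 K₀ B → ∃ u, Cl 𝒞 K₀ u ∧ JoinX v D True A B u := by
    intro A hA B hB
    induction hB with
    | base g hg =>
      obtain ⟨u, hu, φ₁, φ₂, d₁, d₂, E, T, h1, h2, h3⟩ := h A hA g hg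
      exact ⟨u, .base u hu, φ₁, φ₂, fun x => .inl (d₁ x), fun y => .inl (d₂ y), E, T,
        fun _ x => ⟨_, rfl⟩, h1, h2, h3⟩
    | step C hC g hg ih =>
      obtain ⟨u, hu, hj⟩ := ih
      exact ⟨C u, .step C hC u hu, hj.right (h𝒞 C hC)⟩
    | iso g k e hg ih =>
      obtain ⟨u, hu, hj⟩ := ih
      exact ⟨u, hu, hj.iso_right e⟩
  have step2 : ∀ A, Cl 𝒞 K₀ A → ∀ B, Cl 𝒞 K₀ B →
      ∃ u, Cl 𝒞 K₀ u ∧ JoinX v D False A B u := by
    intro A hA B hB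
    induction hA with
    | base g hg =>
      obtain ⟨u, hu, φ₁, φ₂, d₁, d₂, E, T, -, h1, h2, h3⟩ := step1 g hg B hB
      exact ⟨u, hu, φ₁, φ₂, d₁, d₂, E, T, False.elim, h1, h2, h3⟩
    | step C hC g hg ih =>
      obtain ⟨u, hu, hj⟩ := ih
      exact ⟨C u, .step C hC u hu, hj.left (h𝒞 C hC)⟩
    | iso g k e hg ih =>
      obtain ⟨u, hu, hj⟩ := ih
      exact ⟨u, hu, hj.iso_left e⟩
  refine ⟨(D ⊕ (Λ' → Prop)) × Λ', inferInstance, fun A hA B hB => ?_⟩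
  obtain ⟨u, hu, hj⟩ := step2 A hA B hB
  exact ⟨u, hu, hj.joinR⟩

end Pool.Agent.H12Tree
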