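import Pool.Agent.H12Tree.NCG

/-!
# Contexts
-/

namespace Pool.Agent.H12Tree

open Tm Pool.Agent.H12Letter

variable {Λ Λ' : Type} {r : ℕ}

/-- the embedding given by an equality of coloured graphs -/
def castE {A B : CG Λ} (e : A = B) : A.G ↪g B.G := e ▸ SimpleGraph.Embedding.refl

theorem castE_c {A B : CG Λ} (e : A = B) (x : A.V) : B.c (castE e x) = A.c x := by
  subst e
  rfl

theorem castE_castE {A B : CG Λ} (e : A = B) (x : A.V) : castE e.symm (castE e x) = x := by
  subst e
  rfl

theorem castE_castE' {A B : CG Λ} (e : A = B) (x : B.V) : castE e (castE e.symm x) = x := by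
  subst e
  rfl

/-- the embedding of part `j` into the union -/
def toNode (ω : Fin r → Fin r → Λ → Λ → Prop) (k : Fin r → CG Λ) (j : Fin r) :
    (k j).G ↪g (CG.node ω k).G where
  toFun x := ⟨j, x⟩
  inj' := by
    intro x y h
    have h' : (⟨j, x⟩ : Σ j, (k j).V) = ⟨j, y⟩ := h
    exact eq_of_heq (Sigma.mk.inj_iff.1 h').2
  map_rel_iff' := by
    intro x y
    constructor
    · rintro (⟨i, u, v, h1, h2, h⟩ | h | h)
      · cases h1
        cases h2
        exact h
      · exact absurd h.1 (lt_irrefl _)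
      · exact absurd h.1 (lt_irrefl _)
    · intro h
      exact Or.inl ⟨j, x, y, rfl, rfl, h⟩

theorem toNode_apply (ω : Fin r → Fin r → Λ → Λ → Prop) (k : Fin r → CG Λ) (j : Fin r)
    (x : (k j).V) : toNode ω k j x = ⟨j, x⟩ := rfl

/-- the adjacency between different parts -/
theorem node_adj_ne (ω : Fin r → Fin r → Λ → Λ → Prop) (k : Fin r → CG Λ) {l j : Fin r}
    (h : l ≠ j) (x : (k l).V) (y : (k j).V) :
    (CG.node ω k).G.Adj ⟨l, x⟩ ⟨j, y⟩ ↔
      (l < j ∧ ω l j ((k l).c x) ((k j).c y)) ∨ (j < l ∧ ω j l ((k j).c y) ((k l).c x)) := by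
  constructor
  · rintro (⟨i, u, v, h1, h2, -⟩ | h' | h')
    · cases h1
      cases h2
      exact absurd rfl h
    · exact Or.inl h'
    · exact Or.inr h'
  · rintro (h' | h')
    · exact Or.inr (Or.inl h')
    · exact Or.inr (Or.inr h')

/-- colour preserving embeddings of the parts give an embedding of the union -/
def nodeE (ω : Fin r → Fin r → Λ → Λ → Prop) {g h : Fin r → CG Λ}
    (e : ∀ l, (g l).G ↪g (h l).G) (he : ∀ l x, (h l).c (e l x) = (g l).c x) :
    (CG.node ω g).G ↪g (CG.node ω h).G where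
  toFun x := ⟨x.1, e x.1 x.2⟩
  inj' := by
    rintro ⟨l, x⟩ ⟨l', y⟩ h'
    have h1 : l = l' := congrArg Sigma.fst h'
    subst h1
    have h2 : (⟨l, e l x⟩ : Σ l, (h l).V) = ⟨l, e l y⟩ := h'
    exact congrArg (fun z => (⟨l, z⟩ : Σ l, (g l).V))
      ((e l).injective (eq_of_heq (Sigma.mk.inj_iff.1 h2).2))
  map_rel_iff' := by
    rintro ⟨l, x⟩ ⟨l', y⟩
    by_cases hl : l = l'
    · subst hl
      exact ((toNode ω h l).map_adj_iff (v := e l x) (w := e l y)).trans
        (((e l).map_adj_iff (v := x) (w := y)).trans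
          ((toNode ω g l).map_adj_iff (v := x) (w := y)).symm)
    · refine (node_adj_ne ω h hl (e l x) (e l' y)).trans
        (Iff.trans ?_ (node_adj_ne ω g hl x y).symm)
      rw [he, he]

theorem nodeE_apply (ω : Fin r → Fin r → Λ → Λ → Prop) {g h : Fin r → CG Λ}
    (e : ∀ l, (g l).G ↪g (h l).G) (he : ∀ l x, (h l).c (e l x) = (g l).c x) (l : Fin r)
    (x : (g l).V) : nodeE ω e he ⟨l, x⟩ = ⟨l, e l x⟩ := rfl

/-- a recolouring is a context for the colouring `v` through which it factors -/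
theorem isCtx_base {v : Λ → Λ'} {σ : Λ → Λ} (h1 : ∀ x y, v x = v y → σ x = σ y)
    (h2 : ∀ x, v (σ x) = v x) : IsCtx v (CG.rel σ) := by
  refine ⟨fun u => (SimpleGraph.Embedding.refl : u.G ↪g u.G), σ, h1, h2, fun _ _ => rfl, ?_⟩
  intro g u φ hφ
  exact ⟨φ, fun x => h1 _ _ (hφ x), fun _ => rfl, fun x => Or.inl ⟨x, rfl⟩⟩

theorem isCtx_node {v : Λ → Λ'} {C : CG Λ → CG Λ} (hC : IsCtx v C)
    (ω : Fin r → Fin r → Λ → Λ → Prop) (h : Fin r → CG Λ) (j : Fin r) :
    IsCtx v fun u => CG.node ω (Function.update h j (C u)) := by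
  obtain ⟨ι, μ, h1, h2, h3, h4⟩ := hC
  have es : ∀ u : CG Λ, C u = Function.update h j (C u) j := fun u =>
    (Function.update_self j (C u) h).symm
  refine ⟨fun u => ((ι u).trans (castE (es u))).trans (toNode ω _ j), μ, h1, h2, ?_, ?_⟩
  · intro u y
    exact (castE_c (es u) (ι u y)).trans (h3 u y)
  intro g u φ hφ
  obtain ⟨Φ, h5, h6, h7⟩ := h4 g u φ hφ
  have ene : ∀ l, l ≠ j → Function.update h j (C g) l = Function.update h j (C u) l := by
    intro l hl
    rw [Function.update_of_ne hl, Function.update_of_ne hl]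
  -- the embeddings of the parts
  have hE : ∃ e : ∀ l, (Function.update h j (C g) l).G ↪g (Function.update h j (C u) l).G,
      (∀ l x, (Function.update h j (C u) l).c (e l x) = (Function.update h j (C g) l).c x) ∧
      (∀ x, e j (castE (es g) x) = castE (es u) (Φ x)) := by
    refine ⟨fun l => if hl : l = j then
      ((castE (show Function.update h j (C g) l = C g by
        rw [hl]; exact (es g).symm)).trans Φ).trans
        (castE (show C u = Function.update h j (C u) l by rw [hl]; exact es u))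
      else castE (ene l hl), ?_, ?_⟩
    · intro l x
      by_cases hl : l = j
      · simp only [dif_pos hl]
        exact (castE_c _ _).trans ((h5 _).trans (castE_c _ _))
      · simp only [dif_neg hl]
        exact castE_c _ _
    · intro x
      simp only [dif_pos]
      exact congrArg (fun z => castE (es u) (Φ z)) (castE_castE (es g) x)
  obtain ⟨e, he, hj⟩ := hE
  refine ⟨nodeE ω e he, ?_, ?_, ?_⟩
  · rintro ⟨l, x⟩
    exact he l x
  · intro x
    refine (nodeE_apply ω e he j (castE (es g) (ι g x))).trans ?_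
    rw [hj, h6]
    rfl
  · rintro ⟨l, x⟩
    by_cases hl : l = j
    · subst hl
      obtain ⟨x', rfl⟩ : ∃ x', x = castE (es g) x' := ⟨castE (es g).symm x, (castE_castE' _ _).symm⟩
      rcases h7 x' with ⟨x₀, rfl⟩ | ⟨ρ, hρ⟩
      · exact Or.inl ⟨x₀, rfl⟩
      · refine Or.inr ⟨ρ, fun y => ?_⟩
        obtain ⟨h8, h9⟩ := hρ y
        rw [nodeE_apply, hj]
        constructor
        · intro h10
          have h11 := (toNode ω (Function.update h l (C u)) l).injective h10
          exact h8 ((castE (es u)).injective h11)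
        · refine Iff.trans ?_ h9
          exact ((toNode ω (Function.update h l (C u)) l).map_adj_iff).trans
            ((castE (es u)).map_adj_iff)
    · refine Or.inr ⟨fun b => ∃ z, v z = b ∧
        ((l < j ∧ ω l j ((Function.update h j (C g) l).c x) (μ z)) ∨
          (j < l ∧ ω j l (μ z) ((Function.update h j (C g) l).c x))), fun y => ?_⟩
      rw [nodeE_apply]
      constructor
      · intro h10
        exact hl (congrArg Sigma.fst h10)
      · refine (node_adj_ne ω (Function.update h j (C u)) hl (e l x)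
          (castE (es u) (ι u y))).trans ?_
        rw [he, castE_c, h3]
        constructor
        · intro h11
          exact ⟨u.c y, rfl, h11⟩
        · rintro ⟨z, hz, h11⟩
          rwa [h1 _ _ hz] at h11

/-- a hole in part `j` of a union, seen with all colours -/
theorem isCtx_node_id (ω : Fin r → Fin r → Λ → Λ → Prop) (h : Fin r → CG Λ) (j : Fin r) :
    IsCtx (id : Λ → Λ) fun u => CG.node ω (Function.update h j u) :=
  isCtx_node (C := CG.rel id) (isCtx_base (fun _ _ h => h) fun _ => rfl) ω h j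

theorem isCtx_rel {v : Λ → Λ'} {C : CG Λ → CG Λ} (hC : IsCtx v C) {τ : Λ → Λ}
    (hτ : ∀ x, v (τ x) = v x) : IsCtx v fun u => (C u).rel τ := by
  obtain ⟨ι, μ, h1, h2, h3, h4⟩ := hC
  refine ⟨ι, fun x => τ (μ x), fun x y h => congrArg τ (h1 x y h), fun x => (hτ _).trans (h2 x),
    fun u y => congrArg τ (h3 u y), ?_⟩
  intro g u φ hφ
  obtain ⟨Φ, h5, h6, h7⟩ := h4 g u φ hφ
  exact ⟨Φ, fun x => congrArg τ (h5 x), h6, h7⟩

/-- contexts respect isomorphisms -/
theorem CG.Iso.node {ω : Fin r → Fin r → Λ → Λ → Prop} {g h : Fin r → CG Λ}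
    (e : ∀ j, (g j).Iso (h j)) : (CG.node ω g).Iso (CG.node ω h) := by
  choose f hf using e
  refine ⟨⟨Equiv.sigmaCongrRight fun l => (f l).toEquiv, ?_⟩, ?_⟩
  · intro x y
    exact (nodeE ω (fun l => ((f l).toEmbedding : (g l).G ↪g (h l).G)) hf).map_adj_iff
  · rintro ⟨l, x⟩
    exact hf l x

theorem CG.Iso.rel {g h : CG Λ} (e : g.Iso h) (σ : Λ → Λ) : (g.rel σ).Iso (h.rel σ) := by
  obtain ⟨e, he⟩ := e
  exact ⟨e, fun v => congrArg σ (he v)⟩

end Pool.Agent.H12Tree
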