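import Pool.Agent.H12Tree.NTy
import Pool.Agent.H12Tree.NCtx
import Pool.Agent.H12Tree.NCl
import Pool.Agent.H12Tree.NBase

/-!
# Nested classes are finite unions of boundedly directed classes
-/

namespace Pool.Agent.H12Tree

open Tm Pool.Agent.H12Letter

variable {Λ : Type} {r q : ℕ}

theorem FU.comp {Λ' Λ'' : Type} {v : Λ → Λ'} {L : Set (CG Λ)} (h : FU v L) (w : Λ' → Λ'') :
    FU (fun x => w (v x)) L := by
  obtain ⟨I, hI, K, h1, h2, h3⟩ := h
  exact ⟨I, hI, K, fun i => (h1 i).comp w, h2, h3⟩

/-- the atoms with bounded types form a finite union of boundedly directed classes -/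
def Dcmp (q : ℕ) (At : Set (CG Λ)) : Prop :=
  ∀ T : Set (PTy Λ q), FU (id : Λ → Λ) {g | g ∈ At ∧ ty id q g ⊆ T}

theorem BD.restrict {Λ' : Type} {v : Λ → Λ'} {K : Set (CG Λ)} (h : BD v K) (P : Prop) :
    BD v {g | g ∈ K ∧ P} := by
  by_cases hP : P
  · have : {g | g ∈ K ∧ P} = K := by
      ext g
      simp [hP]
    rw [this]
    exact h
  · have : {g | g ∈ K ∧ P} = ∅ := by
      ext g
      simp [hP]
    rw [this]
    exact BD.empty v

theorem drr_update {R : Set (Λ → Λ)} {At : Set (CG Λ)} {g : Fin r → CG Λ}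
    (hg : ∀ j, DRR r R At (g j)) {j : Fin r} {u : CG Λ} (hu : DRR r R At u) (l : Fin r) :
    DRR r R At (Function.update g j u l) := by
  by_cases hl : l = j
  · subst hl
    rw [Function.update_self]
    exact hu
  · rw [Function.update_of_ne hl]
    exact hg l

theorem ty_update {g : Fin r → CG Λ} {j : Fin r} {u : CG Λ}
    (hu : ty id q u ⊆ ty id q (g j)) (l : Fin r) :
    ty id q (Function.update g j u l) ⊆ ty id q (g l) := by
  by_cases hl : l = j
  · subst hl
    rw [Function.update_self]
    exact hu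
  · rw [Function.update_of_ne hl]

theorem fu_base [Finite Λ] (r q : ℕ) (At : Set (CG Λ)) (hAt : Dcmp q At)
    (T : Set (PTy Λ q)) : FU (id : Λ → Λ) {g | DRR r ∅ At g ∧ ty id q g ⊆ T} := by
  classical
  induction T using WellFoundedLT.induction with
  | _ T ih =>
    choose I hI K hBD hsub hcov using fun T' : {T' : Set (PTy Λ q) // T' < T} => ih T' T'.2
    obtain ⟨IA, hIA, KA, hBDA, hsubA, hcovA⟩ := hAt T
    set L : Set (CG Λ) := {g | DRR r ∅ At g ∧ ty id q g ⊆ T} with hL
    set K0 : Unit ⊕ (Λ ⊕ (IA ⊕ ((Fin r → Fin r → Λ → Λ → Prop) ×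
        (∀ _ : Fin r, Σ T' : {T' : Set (PTy Λ q) // T' < T}, I T')))) → Set (CG Λ) :=
      fun o => match o with
        | .inl _ => {CG.emp}
        | .inr (.inl a) => {CG.sing a}
        | .inr (.inr (.inl ia)) => KA ia
        | .inr (.inr (.inr x)) => {g | ∃ h : Fin r → CG Λ, (∀ j, h j ∈ K (x.2 j).1 (x.2 j).2) ∧
            g = CG.node x.1 h} with hK0
    have hBD0 : ∀ o, BD (id : Λ → Λ) (K0 o) := by
      rintro (_ | a | ia | x)
      · exact BD.emp _
      · exact BD.sing _ a
      · exact hBDA ia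
      · exact BD.node x.1 _ fun j => hBD _ _
    set 𝒞 : Set (CG Λ → CG Λ) := {C | IsCtx (id : Λ → Λ) C ∧ ∀ u ∈ L, C u ∈ L} with h𝒞
    refine ⟨_, ?_, fun o => {g | Cl 𝒞 {g | g ∈ K0 o ∧ K0 o ⊆ L} g}, fun o => ?_,
      fun o => ?_, ?_⟩
    · have i1 : Finite IA := hIA
      have i2 : ∀ T', Finite (I T') := hI
      have i3 : Finite (Σ T' : {T' : Set (PTy Λ q) // T' < T}, I T') := inferInstance
      have i4 : Finite (Fin r → Fin r → Λ → Λ → Prop) := inferInstance
      have i5 : Finite ((Fin r → Fin r → Λ → Λ → Prop) ×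
        (∀ _ : Fin r, Σ T' : {T' : Set (PTy Λ q) // T' < T}, I T')) := inferInstance
      infer_instance
    · exact ((hBD0 o).restrict _).closure fun C hC => hC.1
    · intro g hg
      induction hg with
      | base g h => exact h.2 h.1
      | step C hC g _ ih => exact hC.2 g ih
      | iso g h e _ ih =>
        refine ⟨DRR.iso g h e ih.1, ?_⟩
        rw [← ty_iso e]
        exact ih.2
    · rintro g ⟨hg, hgT⟩
      induction hg with
      | emp =>
        refine ⟨.inl (), Cl.base _ ⟨rfl, ?_⟩⟩
        rintro g rfl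
        exact ⟨DRR.emp, hgT⟩
      | sing a =>
        refine ⟨.inr (.inl a), Cl.base _ ⟨rfl, ?_⟩⟩
        rintro g rfl
        exact ⟨DRR.sing a, hgT⟩
      | atom g h =>
        obtain ⟨ia, hia⟩ := hcovA g ⟨h, hgT⟩
        refine ⟨.inr (.inr (.inl ia)), Cl.base _ ⟨hia, ?_⟩⟩
        intro g' hg'
        exact ⟨DRR.atom g' (hsubA ia hg').1, (hsubA ia hg').2⟩
      | node ω g hg ihg =>
        have hchild : ∀ j, ty id q (g j) ⊆ T := fun j => (ty_child ω g j).trans hgT
        by_cases hex : ∃ j, ty id q (g j) = T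
        · obtain ⟨j, hj⟩ := hex
          obtain ⟨o, ho⟩ := ihg j (hchild j)
          refine ⟨o, ?_⟩
          have hC : (fun u => CG.node ω (Function.update g j u)) ∈ 𝒞 := by
            refine ⟨isCtx_node_id ω g j, fun u hu => ⟨DRR.node ω _ fun l => drr_update hg hu.1 l,
              ?_⟩⟩
            refine (ty_node_mono fun l => ty_update ?_ l).trans hgT
            rw [hj]
            exact hu.2
          have := Cl.step _ hC _ ho
          simp only [Function.update_eq_self] at this
          exact this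
        · push Not at hex
          have hlt : ∀ j, ty id q (g j) < T := fun j => lt_of_le_of_ne (hchild j) (hex j)
          choose idx hidx using fun j => hcov ⟨_, hlt j⟩ (g j) ⟨hg j, subset_rfl⟩
          refine ⟨.inr (.inr (.inr (ω, fun j => ⟨⟨_, hlt j⟩, idx j⟩))), Cl.base _
            ⟨⟨g, hidx, rfl⟩, ?_⟩⟩
          rintro _ ⟨h, hh, rfl⟩
          exact ⟨DRR.node ω h fun j => (hsub _ _ (hh j)).1,
            (ty_node_mono fun j => (hsub _ _ (hh j)).2).trans hgT⟩
      | rel σ hσ g hg ihg => exact absurd hσ (Set.notMem_empty σ)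
      | iso g h e hg ihg =>
        rw [← ty_iso e] at hgT
        obtain ⟨o, ho⟩ := ihg hgT
        exact ⟨o, Cl.iso g h e ho⟩

theorem FU.congr {Λ' : Type} {v : Λ → Λ'} {L L' : Set (CG Λ)} (h : FU v L) (hL : L = L') :
    FU v L' := hL ▸ h

theorem exists_coarsest [Finite Λ] {R : Set (Λ → Λ)} (hR : Chain R) (hne : R.Nonempty) :
    ∃ σ₀ ∈ R, ∀ τ ∈ R, ∀ x y, τ x = τ y → σ₀ x = σ₀ y := by
  classical
  obtain ⟨σ₀, h0, hmax⟩ := Set.exists_max_image R
    (fun τ => {p : Λ × Λ | τ p.1 = τ p.2}.ncard) (Set.toFinite R) hne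
  refine ⟨σ₀, h0, fun τ hτ => ?_⟩
  rcases hR.2 τ hτ σ₀ h0 with h | h
  · exact h
  · have hsub : {p : Λ × Λ | σ₀ p.1 = σ₀ p.2} ⊆ {p : Λ × Λ | τ p.1 = τ p.2} :=
      fun p hp => h p.1 p.2 hp
    have heq := Set.eq_of_subset_of_ncard_le hsub (hmax τ hτ) (Set.toFinite _)
    intro x y hxy
    have : (x, y) ∈ {p : Λ × Λ | τ p.1 = τ p.2} := hxy
    rw [← heq] at this
    exact this

theorem Chain.mono {R R' : Set (Λ → Λ)} (h : Chain R) (hR : R' ⊆ R) : Chain R' :=
  ⟨fun σ hσ => h.1 σ (hR hσ), fun σ hσ τ hτ => h.2 σ (hR hσ) τ (hR hτ)⟩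

/-- the main decomposition -/
theorem fu_claim [Finite Λ] (r q : ℕ) (n : ℕ) : ∀ R : Set (Λ → Λ), R.ncard = n → Chain R →
    ∀ At : Set (CG Λ), Dcmp q At → ∀ (Λ' : Type) (v : Λ → Λ'),
      (∀ τ ∈ R, ∀ x, v (τ x) = v x) → ∀ N : Set (PTy Λ' q),
        FU v {g | DRR r R At g ∧ ty v q g ⊆ N} := by
  classical
  induction n using Nat.strong_induction_on with
  | _ n ihn =>
    intro R hn hR At hAt Λ' v hv N
    rcases R.eq_empty_or_nonempty with rfl | hne
    · have := (fu_base r q At hAt {s | ((fun i => (s.1 i).map v), s.2) ∈ N}).comp v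
      refine this.congr ?_
      ext g
      exact and_congr_right fun _ => (ty_of_id v).symm
    obtain ⟨w, hwR, hw⟩ := exists_coarsest hR hne
    set Rt : Set (Λ → Λ) := {σ | σ ∈ R ∧ ∀ x y, w x = w y → σ x = σ y} with hRt
    set R' : Set (Λ → Λ) := {σ | σ ∈ R ∧ σ ∉ Rt} with hR'
    have hR'R : R' ⊆ R := fun σ hσ => hσ.1
    have hwt : w ∈ Rt := ⟨hwR, fun _ _ h => h⟩
    have hlt : R'.ncard < n := by
      rw [← hn]
      refine Set.ncard_lt_ncard ?_ (Set.toFinite R)
      exact (Set.ssubset_iff_of_subset hR'R).2 ⟨w, hwR, fun h => h.2 hwt⟩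
    have w1 : ∀ τ ∈ R, ∀ x, w (τ x) = w x := fun τ hτ x => hw τ hτ _ _ (hR.1 τ hτ x)
    -- the claim for `w`
    have main : ∀ N : Set (PTy Λ q), FU w {g | DRR r R At g ∧ ty w q g ⊆ N} := by
      intro N
      induction N using WellFoundedLT.induction with
      | _ N ihN =>
        choose I hI K hBD hsub hcov using
          fun N' : {N' : Set (PTy Λ q) // N' < N} => ihN N' N'.2
        set AN : Set (CG Λ) := {g | ∃ σ ∈ Rt, ∃ h, DRR r R At h ∧ ty w q h < N ∧
          g = h.rel σ} with hAN
        have hANd : Dcmp q AN := by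
          intro T
          refine ⟨{σ // σ ∈ Rt} × (Σ N' : {N' : Set (PTy Λ q) // N' < N}, I N'), ?_,
            fun x => {g | g ∈ CG.rel x.1.1 '' K x.2.1 x.2.2 ∧
              CG.rel x.1.1 '' K x.2.1 x.2.2 ⊆ {g | g ∈ AN ∧ ty id q g ⊆ T}},
            fun x => ?_, fun x => ?_, ?_⟩
          · infer_instance
          · exact BD.restrict ((hBD _ _).rel x.1.2.2) _
          · intro g hg
            exact hg.2 hg.1
          · rintro _ ⟨⟨σ, hσ, h, hh, hhN, rfl⟩, hT⟩
            obtain ⟨i, hi⟩ := hcov ⟨_, hhN⟩ h ⟨hh, subset_rfl⟩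
            refine ⟨(⟨σ, hσ⟩, ⟨⟨_, hhN⟩, i⟩), ⟨h, hi, rfl⟩, ?_⟩
            rintro _ ⟨h', hh', rfl⟩
            obtain ⟨e1, e2⟩ := hsub _ _ hh'
            exact ⟨⟨σ, hσ, h', e1, lt_of_le_of_lt e2 hhN, rfl⟩, (ty_rel hσ.2 e2).trans hT⟩
        have hAt' : Dcmp q (At ∪ AN) := by
          intro T
          refine ((hAt T).union (hANd T)).congr ?_
          ext g
          simp only [Set.mem_union, Set.mem_ofPred_eq]
          tauto
        obtain ⟨J, hJ, K1, hBD1, hsub1, hcov1⟩ := ihn R'.ncard hlt R' rfl (hR.mono hR'R)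
          (At ∪ AN) hAt' Λ w (fun τ hτ => w1 τ (hR'R hτ)) N
        set L : Set (CG Λ) := {g | DRR r R At g ∧ ty w q g ⊆ N} with hL
        have hD0 : ∀ g, DRR r R' (At ∪ AN) g → DRR r R At g := by
          intro g hg
          induction hg with
          | emp => exact DRR.emp
          | sing a => exact DRR.sing a
          | atom g h =>
            rcases h with h | ⟨σ, hσ, h', hh', -, rfl⟩
            · exact DRR.atom g h
            · exact DRR.rel σ hσ.1 h' hh'
          | node ω g _ ih => exact DRR.node ω g ih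
          | rel σ hσ g _ ih => exact DRR.rel σ (hR'R hσ) g ih
          | iso g h e _ ih => exact DRR.iso g h e ih
        set 𝒞 : Set (CG Λ → CG Λ) := {C | IsCtx w C ∧ ∀ u ∈ L, C u ∈ L} with h𝒞
        -- extraction of a big block
        have hcovL : ∀ g, (DRR r R' (At ∪ AN) g ∨ ∃ (C : CG Λ → CG Λ) (h : CG Λ), IsCtx w C ∧
            (∀ u, DRR r R At u → DRR r R At (C u)) ∧
            (∀ u, ty w q u ⊆ ty w q h → ty id q (C u) ⊆ ty id q (C h)) ∧
            ty w q h = N ∧ (∃ i, Cl 𝒞 (K1 i) h) ∧ (C h).Iso g) → ty w q g ⊆ N →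
            ∃ i, Cl 𝒞 (K1 i) g := by
          rintro g (hg | ⟨C, h, hC, hC1, hC2, hhN, ⟨i, hi⟩, e⟩) hgN
          · obtain ⟨i, hi⟩ := hcov1 g ⟨hg, hgN⟩
            exact ⟨i, Cl.base g hi⟩
          · have hmem : C ∈ 𝒞 := by
              refine ⟨hC, fun u hu => ⟨hC1 u hu.1, ?_⟩⟩
              have h1 : ty id q (C u) ⊆ ty id q (C h) := hC2 u (by rw [hhN]; exact hu.2)
              have h2 : ty w q (C u) ⊆ ty w q (C h) := ty_comp w h1
              rw [ty_iso e] at h2
              exact h2.trans hgN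
            exact ⟨i, Cl.iso _ _ e (Cl.step C hmem h hi)⟩
        have hext : ∀ g, DRR r R At g → ty w q g ⊆ N → (DRR r R' (At ∪ AN) g ∨
            ∃ (C : CG Λ → CG Λ) (h : CG Λ), IsCtx w C ∧
            (∀ u, DRR r R At u → DRR r R At (C u)) ∧
            (∀ u, ty w q u ⊆ ty w q h → ty id q (C u) ⊆ ty id q (C h)) ∧
            ty w q h = N ∧ (∃ i, Cl 𝒞 (K1 i) h) ∧ (C h).Iso g) := by
          intro g hg
          induction hg with
          | emp => exact fun _ => Or.inl DRR.emp
          | sing a => exact fun _ => Or.inl (DRR.sing a)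
          | atom g h => exact fun _ => Or.inl (DRR.atom g (Or.inl h))
          | node ω g hg ih =>
            intro hgN
            have hchild : ∀ j, ty w q (g j) ⊆ N := fun j => (ty_child ω g j).trans hgN
            by_cases hall : ∀ j, DRR r R' (At ∪ AN) (g j)
            · exact Or.inl (DRR.node ω g hall)
            · push Not at hall
              obtain ⟨j, hj⟩ := hall
              obtain ⟨C, h, hC, hC1, hC2, hhN, hcv, e⟩ := (ih j (hchild j)).resolve_left hj
              refine Or.inr ⟨fun u => CG.node ω (Function.update g j (C u)), h,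
                isCtx_node hC ω g j, fun u hu => DRR.node ω _ fun l =>
                  drr_update hg (hC1 u hu) l, fun u hu => ?_, hhN, hcv, ?_⟩
              · refine ty_node_mono fun l => ?_
                by_cases hl : l = j
                · subst hl
                  rw [Function.update_self, Function.update_self]
                  exact hC2 u hu
                · rw [Function.update_of_ne hl, Function.update_of_ne hl]
              · refine CG.Iso.node fun l => ?_
                by_cases hl : l = j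
                · subst hl
                  rw [Function.update_self]
                  exact e
                · rw [Function.update_of_ne hl]
                  exact CG.Iso.refl _
          | rel σ hσ g hg ih =>
            intro hgN
            have htw : ty w q (g.rel σ) = ty w q g := ty_rel_eq (w1 σ hσ) g
            rw [htw] at hgN
            by_cases hσt : σ ∈ Rt
            · by_cases hN : ty w q g = N
              · exact Or.inr ⟨CG.rel σ, g, isCtx_base hσt.2 (w1 σ hσ),
                  fun u hu => DRR.rel σ hσ u hu, fun u hu => ty_rel hσt.2 hu, hN,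
                  hcovL g (ih hgN) hgN, CG.Iso.refl _⟩
              · exact Or.inl (DRR.atom _ (Or.inr ⟨σ, hσt, g, hg, lt_of_le_of_ne hgN hN, rfl⟩))
            · rcases ih hgN with hl | ⟨C, h, hC, hC1, hC2, hhN, hcv, e⟩
              · exact Or.inl (DRR.rel σ (show σ ∈ R' from ⟨hσ, hσt⟩) g hl)
              · exact Or.inr ⟨fun u => (C u).rel σ, h, isCtx_rel hC (w1 σ hσ),
                  fun u hu => DRR.rel σ hσ _ (hC1 u hu),
                  fun u hu => ty_rel (v := id) (fun x y hxy => congrArg σ hxy) (hC2 u hu),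
                  hhN, hcv, e.rel σ⟩
          | iso g h e hg ih =>
            intro hhN
            rw [← ty_iso e] at hhN
            rcases ih hhN with hl | ⟨C, h', hC, hC1, hC2, hhN', hcv, e'⟩
            · exact Or.inl (DRR.iso g h e hl)
            · exact Or.inr ⟨C, h', hC, hC1, hC2, hhN', hcv, e'.trans e⟩
        refine ⟨J, hJ, fun i => {g | Cl 𝒞 (K1 i) g}, fun i => ?_, fun i => ?_, ?_⟩
        · exact (hBD1 i).closure fun C hC => hC.1
        · intro g hg
          induction hg with
          | base g h => exact ⟨hD0 g (hsub1 i h).1, (hsub1 i h).2⟩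
          | step C hC g _ ih => exact hC.2 g ih
          | iso g h e _ ih =>
            refine ⟨DRR.iso g h e ih.1, ?_⟩
            rw [← ty_iso e]
            exact ih.2
        · rintro g ⟨hg, hgN⟩
          exact hcovL g (hext g hg hgN) hgN
    -- the general case
    have hvw : v = fun x => v (w x) := funext fun x => (hv w hwR x).symm
    have h2 := (main {s | ((fun i => (s.1 i).map v), s.2) ∈ N}).comp v
    rw [← hvw] at h2
    refine h2.congr ?_
    ext g
    refine and_congr_right fun _ => ?_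
    have h3 := ty_of_id (q := q) v (g := g.rel w) (N := N)
    have h4 : ty v q (g.rel w) = ty v q g := by
      conv_rhs => rw [hvw]
      rfl
    rw [h4] at h3
    exact h3.symm

end Pool.Agent.H12Tree
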