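import Pool.Agent.H12Tree.NCG

/-!
# Nested classes have bounded clique-width
-/

namespace Pool.Agent.H12Tree

open Tm Pool.Agent.H12Letter

/-- classes of bounded nested width -/
def BoundedNested (X : Set FG) : Prop :=
  ∃ (m r : ℕ) (R : Set (Fin m → Fin m)), Chain R ∧ ∀ G ∈ X, ∃ c : Fin G.1 → Fin m,
    DRR r R ∅ ⟨Fin G.1, inferInstance, G.2, c⟩

/-- the label `(i, a)` -/
def lb (s m : ℕ) (i : Fin s) (a : Fin m) : Fin (s * m) := finProdFinEquiv (i, a)

theorem lb_inj {s m : ℕ} {i j : Fin s} {a b : Fin m} (h : lb s m i a = lb s m j b) :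
    i = j ∧ a = b := by
  have := finProdFinEquiv.injective h
  exact ⟨congrArg Prod.fst this, congrArg Prod.snd this⟩

theorem lb_symm {s m : ℕ} (i : Fin s) (a : Fin m) :
    (finProdFinEquiv.symm (lb s m i a)).2 = a := by
  unfold lb
  rw [Equiv.symm_apply_apply]

/-- one union with a table -/
theorem CWOn.unionStep {V : Type} {G : SimpleGraph V} {m r : ℕ} {c : V → Fin m}
    {X : Fin r → Set V} (f : Fin r → Fin r → Fin m → Fin m → Prop)
    (hd : ∀ i j, i ≠ j → Disjoint (X i) (X j))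
    (ha : ∀ i j, i < j → ∀ u ∈ X i, ∀ v ∈ X j, (G.Adj u v ↔ f i j (c u) (c v)))
    (ih : ∀ i, CWOn ((r + 2) * m) G (fun v => lb (r + 2) m 0 (c v)) (X i)) :
    CWOn ((r + 2) * m) G (fun v => lb (r + 2) m 0 (c v)) (⋃ i, X i) := by
  classical
  let τ : Fin r → Fin (r + 2) := fun i => i.castSucc.succ
  have hτ0 : ∀ i, τ i ≠ 0 := fun i => Fin.succ_ne_zero _
  have hτ : ∀ {i j}, τ i = τ j → i = j := fun h =>
    Fin.castSucc_injective _ (Fin.succ_injective _ h)
  -- number of the part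
  let p : V → Fin (r + 2) := fun v => if h : ∃ i, v ∈ X i then τ h.choose else 0
  have hp : ∀ i, ∀ v ∈ X i, p v = τ i := by
    intro i v hv
    have h1 : ∃ i, v ∈ X i := ⟨i, hv⟩
    have h2 : p v = τ h1.choose := dif_pos h1
    rw [h2]
    by_contra h3
    have h4 : h1.choose ≠ i := fun h => h3 (by rw [h])
    exact Set.disjoint_left.1 (hd _ _ h4) h1.choose_spec hv
  let E : SimpleGraph V :=
    { Adj := fun u v => G.Adj u v ∧ p u = p v
      symm := ⟨fun _ _ h => ⟨h.1.symm, h.2.symm⟩⟩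
      loopless := ⟨fun _ h => G.loopless.irrefl _ h.1⟩ }
  let d : V → Fin ((r + 2) * m) := fun v => lb (r + 2) m (p v) (c v)
  -- each part
  have hA : ∀ i, CWOn ((r + 2) * m) E d (X i) := by
    intro i
    have h1 := (ih i).relabels (Finset.univ.image (lb (r + 2) m 0))
      (fun x => lb (r + 2) m (τ i) (finProdFinEquiv.symm x).2) (by
        intro x _ h2
        obtain ⟨a, -, h3⟩ := Finset.mem_image.1 h2
        exact absurd (lb_inj h3).1.symm (hτ0 i))
    refine h1.congr (fun u hu v hv => ?_) fun v hv => ?_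
    · show G.Adj u v ∧ p u = p v ↔ G.Adj u v
      rw [hp i u hu, hp i v hv]
      simp
    · show lb (r + 2) m (p v) (c v) = _
      rw [if_pos (Finset.mem_image.2 ⟨c v, Finset.mem_univ _, rfl⟩), hp i v hv, lb_symm]
  -- the disjoint union
  have hB : ∀ s : Finset (Fin r), CWOn ((r + 2) * m) E d (⋃ i ∈ s, X i) := by
    intro s
    induction s using Finset.induction_on with
    | empty => simpa using CWOn.empty
    | insert i s hi ih2 =>
      rw [Finset.set_biUnion_insert]
      refine (hA i).union ih2 ?_ ?_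
      · rw [Set.disjoint_left]
        intro v hv h2
        obtain ⟨j, hj, h3⟩ := Set.mem_iUnion₂.1 h2
        have : i ≠ j := fun h => hi (h ▸ hj)
        exact Set.disjoint_left.1 (hd _ _ this) hv h3
      · intro u hu v h2 h4
        obtain ⟨j, hj, h3⟩ := Set.mem_iUnion₂.1 h2
        have h5 : p u = p v := h4.2
        rw [hp i u hu, hp j v h3] at h5
        exact hi (hτ h5 ▸ hj)
  have hB' : CWOn ((r + 2) * m) E d (⋃ i, X i) := by
    have := hB Finset.univ
    simpa using this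
  -- the edges between the parts
  have hC := hB'.joins (Finset.univ.filter fun q : Fin ((r + 2) * m) × Fin ((r + 2) * m) =>
    ∃ i j a b, i < j ∧ f i j a b ∧ q = (lb (r + 2) m (τ i) a, lb (r + 2) m (τ j) b)) (by
      intro q hq h2
      obtain ⟨i, j, a, b, hij, -, rfl⟩ := (Finset.mem_filter.1 hq).2
      have := (lb_inj h2).1
      exact hij.ne (hτ this))
  have hmem : ∀ i j u v, u ∈ X i → v ∈ X j →
      ((d u, d v) ∈ (Finset.univ.filter fun q : Fin ((r + 2) * m) × Fin ((r + 2) * m) =>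
        ∃ i j a b, i < j ∧ f i j a b ∧ q = (lb (r + 2) m (τ i) a, lb (r + 2) m (τ j) b)) ↔
          i < j ∧ f i j (c u) (c v)) := by
    intro i j u v hu hv
    rw [Finset.mem_filter]
    have hdu : d u = lb (r + 2) m (τ i) (c u) := by
      show lb (r + 2) m (p u) (c u) = _
      rw [hp i u hu]
    have hdv : d v = lb (r + 2) m (τ j) (c v) := by
      show lb (r + 2) m (p v) (c v) = _
      rw [hp j v hv]
    rw [hdu, hdv]
    constructor
    · rintro ⟨-, i', j', a, b, h1, h2, h3⟩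
      rw [Prod.ext_iff] at h3
      obtain ⟨h4, h5⟩ := lb_inj h3.1
      obtain ⟨h6, h7⟩ := lb_inj h3.2
      have h4 := hτ h4
      have h6 := hτ h6
      subst h4 h6 h5 h7
      exact ⟨h1, h2⟩
    · rintro ⟨h1, h2⟩
      exact ⟨Finset.mem_univ _, i, j, c u, c v, h1, h2, rfl⟩
  have hG : CWOn ((r + 2) * m) G d (⋃ i, X i) := by
    refine hC.congr (fun u hu v hv => ?_) fun _ _ => rfl
    obtain ⟨i, hu⟩ := Set.mem_iUnion.1 hu
    obtain ⟨j, hv⟩ := Set.mem_iUnion.1 hv
    rw [SimpleGraph.sup_adj, SimpleGraph.fromRel_adj, hmem i j u v hu hv, hmem j i v u hv hu]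
    have hEa : E.Adj u v ↔ G.Adj u v ∧ i = j := by
      show G.Adj u v ∧ p u = p v ↔ _
      rw [hp i u hu, hp j v hv]
      constructor
      · rintro ⟨h1, h2⟩
        exact ⟨h1, hτ h2⟩
      · rintro ⟨h1, h2⟩
        exact ⟨h1, by rw [h2]⟩
    rw [hEa]
    rcases lt_trichotomy i j with hij | hij | hij
    · have h1 := ha i j hij u hu v hv
      have h2 : u ≠ v := by
        rintro rfl
        exact Set.disjoint_left.1 (hd _ _ hij.ne) hu hv
      simp only [hij.ne, and_false, false_or, hij, true_and, hij.not_gt, false_and, or_false,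
        h1, h2, ne_eq, not_false_eq_true]
    · subst hij
      simp
    · have h1 := ha j i hij v hv u hu
      have h2 : u ≠ v := by
        rintro rfl
        exact Set.disjoint_left.1 (hd _ _ hij.ne) hv hu
      rw [SimpleGraph.adj_comm] at h1
      simp only [hij.ne', and_false, false_or, hij, true_and, hij.not_gt, false_and,
        h1, h2, ne_eq, not_false_eq_true]
  have hD := hG.relabels (Finset.univ.filter fun x => ∀ a, x ≠ lb (r + 2) m 0 a)
    (fun x => lb (r + 2) m 0 (finProdFinEquiv.symm x).2) (by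
      intro x _ h2
      exact (Finset.mem_filter.1 h2).2 _ rfl)
  refine hD.congr (fun _ _ _ _ => Iff.rfl) fun v _ => ?_
  show lb (r + 2) m 0 (c v) = _
  have h3 : (finProdFinEquiv.symm (d v)).2 = c v := lb_symm _ _
  split_ifs with h1
  · rw [h3]
  · rw [Finset.mem_filter] at h1
    push Not at h1
    obtain ⟨a, h2⟩ := h1 (Finset.mem_univ _)
    obtain ⟨h5, h6⟩ := lb_inj h2
    show lb (r + 2) m 0 (c v) = lb (r + 2) m (p v) (c v)
    rw [h5]

/-- recolouring -/
theorem CWOn.recolour {V : Type} {G : SimpleGraph V} {m r : ℕ} {c : V → Fin m} {X : Set V}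
    (σ : Fin m → Fin m) (h : CWOn ((r + 2) * m) G (fun v => lb (r + 2) m 0 (c v)) X) :
    CWOn ((r + 2) * m) G (fun v => lb (r + 2) m 0 (σ (c v))) X := by
  classical
  have hne : (Fin.last (r + 1) : Fin (r + 2)) ≠ 0 := Fin.last_pos.ne'
  have h1 := (h.relabels (Finset.univ.image (lb (r + 2) m 0))
    (fun x => lb (r + 2) m (Fin.last (r + 1)) (finProdFinEquiv.symm x).2) (by
      intro x _ h2
      obtain ⟨a, -, h3⟩ := Finset.mem_image.1 h2
      exact absurd (lb_inj h3).1.symm hne)).congr (E' := G)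
    (d' := fun v => lb (r + 2) m (Fin.last (r + 1)) (c v)) (fun _ _ _ _ => Iff.rfl) (by
      intro v _
      show lb (r + 2) m (Fin.last (r + 1)) (c v) = _
      rw [if_pos (Finset.mem_image.2 ⟨c v, Finset.mem_univ _, rfl⟩), lb_symm])
  refine (h1.relabels (Finset.univ.image (lb (r + 2) m (Fin.last (r + 1))))
    (fun x => lb (r + 2) m 0 (σ (finProdFinEquiv.symm x).2)) (by
      intro x _ h2
      obtain ⟨a, -, h3⟩ := Finset.mem_image.1 h2
      exact absurd (lb_inj h3).1 hne)).congr (fun _ _ _ _ => Iff.rfl) ?_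
  intro v _
  show lb (r + 2) m 0 (σ (c v)) = _
  rw [if_pos (Finset.mem_image.2 ⟨c v, Finset.mem_univ _, rfl⟩), lb_symm]

/-- isomorphic induced graphs -/
theorem CWOn.iso {k : ℕ} {V W : Type} {E : SimpleGraph V} {F : SimpleGraph W} {d : V → Fin k}
    {d' : W → Fin k} {X : Set V} {Y : Set W} (e : E.induce X ≃g F.induce Y)
    (hd : ∀ v : X, d' (e v) = d v) (h : CWOn k E d X) : CWOn k F d' Y := by
  rintro ⟨y, hy⟩
  exact CW.iso _ _ _ _ _ _ e hd (h ⟨_, (e.symm ⟨y, hy⟩).2⟩)

section node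

variable {Λ : Type} {r : ℕ} {ω : Fin r → Fin r → Λ → Λ → Prop} {g : Fin r → CG Λ}

theorem glueG_same (i : Fin r) (u v : (g i).V) :
    (glueG ω g).Adj ⟨i, u⟩ ⟨i, v⟩ ↔ (g i).G.Adj u v := by
  constructor
  · rintro (⟨j, a, b, h1, h2, h⟩ | h | h)
    · simp only [Sigma.mk.injEq] at h1 h2
      obtain ⟨rfl, h3⟩ := h1
      obtain ⟨-, h4⟩ := h2
      rw [eq_of_heq h3, eq_of_heq h4]
      exact h
    · exact absurd h.1 (lt_irrefl _)
    · exact absurd h.1 (lt_irrefl _)
  · exact fun h => Or.inl ⟨i, u, v, rfl, rfl, h⟩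

theorem glueG_lt {x y : Σ j, (g j).V} (h : x.1 < y.1) :
    (glueG ω g).Adj x y ↔ ω x.1 y.1 ((g x.1).c x.2) ((g y.1).c y.2) := by
  constructor
  · rintro (⟨j, a, b, rfl, rfl, -⟩ | h1 | h1)
    · exact absurd h (lt_irrefl _)
    · exact h1.2
    · exact absurd h1.1 h.not_gt
  · exact fun h1 => Or.inr (Or.inl ⟨h, h1⟩)

/-- the parts of a union -/
noncomputable def partIso (i : Fin r) :
    (g i).G.induce Set.univ ≃g (glueG ω g).induce {x | x.1 = i} :=
  { toEquiv := Equiv.ofBijective (fun v => ⟨⟨i, v.1⟩, rfl⟩) (by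
      constructor
      · intro u v h
        have h1 := congrArg Subtype.val h
        simp only [Sigma.mk.injEq, heq_eq_eq, true_and] at h1
        exact Subtype.ext h1
      · rintro ⟨⟨j, v⟩, h⟩
        have h : j = i := h
        subst h
        exact ⟨⟨v, trivial⟩, rfl⟩)
    map_rel_iff' := by
      intro a b
      exact glueG_same i a.1 b.1 }

end node

theorem DRR.cwOn {m r : ℕ} {R : Set (Fin m → Fin m)} {g : CG (Fin m)} (h : DRR r R ∅ g) :
    CWOn ((r + 2) * m) g.G (fun v => lb (r + 2) m 0 (g.c v)) Set.univ := by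
  induction h with
  | emp => exact fun ⟨x, _⟩ => x.elim
  | sing a =>
    have h1 : (Set.univ : Set Unit) = {()} := by
      ext x
      simp
    show CWOn _ _ _ (Set.univ : Set Unit)
    rw [h1]
    exact CWOn.single ()
  | atom g h => exact absurd h (Set.notMem_empty _)
  | node ω g _ ih =>
    have h1 : (Set.univ : Set (Σ j, (g j).V)) = ⋃ i, {x | x.1 = i} := by
      ext x
      simp
    show CWOn _ (glueG ω g) (fun x => lb (r + 2) m 0 ((g x.1).c x.2))
      (Set.univ : Set (Σ j, (g j).V))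
    rw [h1]
    refine CWOn.unionStep (c := fun x : Σ j, (g j).V => (g x.1).c x.2) ω ?_ ?_ ?_
    · intro i j hij
      rw [Set.disjoint_left]
      intro x hx hy
      exact hij (hx.symm.trans hy)
    · rintro i j hij u rfl v rfl
      exact glueG_lt hij
    · intro i
      exact CWOn.iso (partIso i) (fun _ => rfl) (ih i)
  | rel σ _ g _ ih => exact ih.recolour σ
  | iso g h e _ ih =>
    obtain ⟨e, he⟩ := e
    refine CWOn.iso
      (((SimpleGraph.induceUnivIso g.G).trans e).trans (SimpleGraph.induceUnivIso h.G).symm) ?_ ih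
    intro v
    show lb (r + 2) m 0 (h.c (e v.1)) = _
    rw [he]

theorem boundedNested_cliqueWidth {X : Set FG} (h : BoundedNested X) :
    ∃ k, ∀ G ∈ X, CliqueWidthLE k G := by
  obtain ⟨m, r, R, -, h⟩ := h
  refine ⟨(r + 2) * m, fun G hG => ?_⟩
  obtain ⟨c, hc⟩ := h G hG
  rcases Nat.eq_zero_or_pos G.1 with h0 | h0
  · exact Or.inl h0
  · exact Or.inr ⟨fun v => lb (r + 2) m 0 (c v),
      CW.iso _ _ _ _ _ _ (SimpleGraph.induceUnivIso G.2) (fun _ => rfl)
        (hc.cwOn ⟨⟨0, h0⟩, trivial⟩)⟩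

theorem Dec.drr {V : Type} [Finite V] {G : SimpleGraph V} {m r : ℕ} {c : V → Fin m} {X : Set V}
    (h : Dec G m r c X) : DRR r ∅ ∅ ⟨X, inferInstance, G.induce X, fun v => c v⟩ := by
  induction h with
  | empty =>
    refine DRR.iso .emp _ ⟨⟨⟨fun x => Empty.elim x, fun x => absurd x.2 (Set.notMem_empty _),
      fun x => Empty.elim x, fun x => absurd x.2 (Set.notMem_empty _)⟩, ?_⟩, ?_⟩ DRR.emp
    · intro a
      exact Empty.elim a
    · intro a
      exact Empty.elim a
  | single v =>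
    refine DRR.iso _ _ ⟨⟨⟨fun _ => ⟨v, rfl⟩, fun _ => (), fun _ => rfl,
      fun u => Subtype.ext u.2.symm⟩, ?_⟩, ?_⟩ (DRR.sing (c v))
    · intro a b
      show G.Adj v v ↔ False
      simp
    · intro a
      rfl
  | union X f _ hd ha ih =>
    refine DRR.iso _ _ ?_ (DRR.node f (fun i => ⟨X i, inferInstance, G.induce (X i),
      fun v => c v⟩) ih)
    have hu : ∀ x ∈ ⋃ i, X i, ∃ i, x ∈ X i := fun x hx => Set.mem_iUnion.1 hx
    refine ⟨⟨Equiv.ofBijective
      (fun x : (Σ i, X i) => (⟨x.2.1, Set.mem_iUnion.2 ⟨x.1, x.2.2⟩⟩ : ↥(⋃ i, X i))) ?_, ?_⟩, ?_⟩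
    · constructor
      · rintro ⟨i, x, hx⟩ ⟨j, y, hy⟩ h
        have h1 : x = y := congrArg Subtype.val h
        subst h1
        have h2 : i = j := by
          by_contra h3
          exact Set.disjoint_left.1 (hd i j h3) hx hy
        subst h2
        rfl
      · rintro ⟨x, hx⟩
        obtain ⟨i, hi⟩ := hu x hx
        exact ⟨⟨i, x, hi⟩, rfl⟩
    · rintro ⟨i, x, hx⟩ ⟨j, y, hy⟩
      show G.Adj x y ↔ (glueG f fun i => (⟨X i, inferInstance, G.induce (X i),
        fun v => c v⟩ : CG (Fin m))).Adj ⟨i, ⟨x, hx⟩⟩ ⟨j, ⟨y, hy⟩⟩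
      rcases lt_trichotomy i j with h | h | h
      · rw [glueG_lt h]
        exact ha i j h x hx y hy
      · subst h
        rw [glueG_same]
        rfl
      · rw [SimpleGraph.adj_comm, SimpleGraph.adj_comm (glueG _ _), glueG_lt h]
        exact ha j i h y hy x hx
    · rintro ⟨i, x, hx⟩
      rfl

theorem BoundedDec.nested {X : Set FG} (h : BoundedDec X) : BoundedNested X := by
  obtain ⟨m, r, h⟩ := h
  refine ⟨m, r, ∅, ⟨fun σ hσ => absurd hσ (Set.notMem_empty _),
    fun σ hσ => absurd hσ (Set.notMem_empty _)⟩, fun G hG => ?_⟩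
  obtain ⟨c, hc⟩ := h G hG
  exact ⟨c, DRR.iso _ _ ⟨SimpleGraph.induceUnivIso G.2, fun _ => rfl⟩ hc.drr⟩

end Pool.Agent.H12Tree
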