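import Pool.Agent.H12Tree.NCw

/-!
# The condition of Daligault, Rao and Thomassé
-/

namespace Pool.Agent.H12Tree

open Tm Pool.Agent.H12Letter

/-- the condition of Daligault, Rao and Thomassé on a set of relabelling functions which is
closed under composition: `Im (f ∘ g) = Im f` or `Im (g ∘ f) = Im g` -/
def DRT {m : ℕ} (S : Set (Fin m → Fin m)) : Prop :=
  (∀ f ∈ S, ∀ g ∈ S, f ∘ g ∈ S) ∧
    ∀ f ∈ S, ∀ g ∈ S, Set.range (f ∘ g) = Set.range f ∨ Set.range (g ∘ f) = Set.range g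

/-- classes contained in a class `NLC` with relabelling functions in a set `S` which satisfies
the condition of Daligault, Rao and Thomassé -/
def BoundedNLC (X : Set FG) : Prop :=
  ∃ (m r : ℕ) (S : Set (Fin m → Fin m)), DRT S ∧ ∀ G ∈ X, ∃ c : Fin G.1 → Fin m,
    DRR r S ∅ ⟨Fin G.1, inferInstance, G.2, c⟩

private theorem rk_le_left {m : ℕ} (f g : Fin m → Fin m) :
    (Set.range (f ∘ g)).ncard ≤ (Set.range f).ncard :=
  Set.ncard_le_ncard (Set.range_comp_subset_range g f) (Set.toFinite _)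

private theorem rk_le_right {m : ℕ} (f g : Fin m → Fin m) :
    (Set.range (f ∘ g)).ncard ≤ (Set.range g).ncard := by
  rw [Set.range_comp]
  exact Set.ncard_image_le (Set.toFinite _)

private theorem rk_lt {m : ℕ} {S : Set (Fin m → Fin m)} (hS : DRT S) {f g : Fin m → Fin m}
    (hf : f ∈ S) (hg : g ∈ S) (h : (Set.range f).ncard < (Set.range g).ncard) :
    (Set.range (f ∘ g)).ncard = (Set.range f).ncard := by
  rcases hS.2 f hf g hg with h1 | h1
  · rw [h1]
  · exfalso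
    have h2 := rk_le_right g f
    rw [h1] at h2
    omega

private theorem rk_eq {m : ℕ} {S : Set (Fin m → Fin m)} (hS : DRT S) {f g : Fin m → Fin m}
    (hf : f ∈ S) (hg : g ∈ S) (h : (Set.range f).ncard = (Set.range g).ncard) :
    (Set.range (f ∘ g)).ncard = (Set.range f).ncard := by
  rcases hS.2 f hf g hg with h1 | h1
  · rw [h1]
  · have hp : g ∘ f ∈ S := hS.1 g hg f hf
    have h2 : Set.range ((g ∘ f) ∘ (g ∘ f)) = Set.range (g ∘ f) := by
      rcases hS.2 _ hp _ hp with h | h <;> exact h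
    have h3 : (g ∘ f) ∘ (g ∘ f) = g ∘ ((f ∘ g) ∘ f) := rfl
    have h4 : (Set.range (g ∘ f)).ncard ≤ (Set.range (f ∘ g)).ncard := by
      rw [← h2, h3]
      exact (rk_le_right _ _).trans (rk_le_left _ _)
    have h5 := rk_le_left f g
    rw [h1] at h4
    omega

theorem DRT.ncard_comp {m : ℕ} {S : Set (Fin m → Fin m)} (hS : DRT S) {f g : Fin m → Fin m}
    (hf : f ∈ S) (hg : g ∈ S) :
    (Set.range (f ∘ g)).ncard = min (Set.range f).ncard (Set.range g).ncard := by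
  rcases lt_trichotomy (Set.range f).ncard (Set.range g).ncard with h | h | h
  · rw [rk_lt hS hf hg h, min_eq_left h.le]
  · rw [rk_eq hS hf hg h, h, min_self]
  · rw [min_eq_right h.le]
    have hp : g ∘ f ∈ S := hS.1 g hg f hf
    have h1 : (Set.range (g ∘ f)).ncard = (Set.range g).ncard := rk_lt hS hg hf h
    have h2 : (Set.range ((g ∘ f) ∘ g)).ncard = (Set.range (g ∘ f)).ncard := rk_eq hS hp hg h1
    have h3 : (g ∘ f) ∘ g = g ∘ (f ∘ g) := rfl
    have h4 := rk_le_right g (f ∘ g)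
    have h5 := rk_le_right f g
    rw [← h3, h2, h1] at h4
    omega

/-- the coloured graph with the new colours `f c` -/
def CG.recol {Λ Λ' : Type} (f : Λ → Λ') (g : CG Λ) : CG Λ' := ⟨g.V, g.fin, g.G, fun x => f (g.c x)⟩

theorem CG.recol_iso {Λ Λ' : Type} (f : Λ → Λ') {g h : CG Λ} (e : g.Iso h) :
    (g.recol f).Iso (h.recol f) := by
  obtain ⟨e, he⟩ := e
  exact ⟨e, fun v => congrArg f (he v)⟩

theorem CG.recol_node {Λ Λ' : Type} {r : ℕ} (f : Λ → Λ') (s : Λ' → Λ) (hs : ∀ a, s (f a) = a)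
    (ω : Fin r → Fin r → Λ → Λ → Prop) (g : Fin r → CG Λ) :
    (CG.node (fun i j a b => ω i j (s a) (s b)) fun j => (g j).recol f).Iso
      ((CG.node ω g).recol f) := by
  refine ⟨⟨Equiv.refl _, ?_⟩, fun v => rfl⟩
  intro x y
  show (glueG ω g).Adj x y ↔
    (glueG (fun i j a b => ω i j (s a) (s b)) fun j => (g j).recol f).Adj x y
  show ((∃ (j : Fin r) (u v : (g j).V), x = ⟨j, u⟩ ∧ y = ⟨j, v⟩ ∧ (g j).G.Adj u v) ∨
    (x.1 < y.1 ∧ ω x.1 y.1 ((g x.1).c x.2) ((g y.1).c y.2)) ∨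
    (y.1 < x.1 ∧ ω y.1 x.1 ((g y.1).c y.2) ((g x.1).c x.2))) ↔
    ((∃ (j : Fin r) (u v : (g j).V), x = ⟨j, u⟩ ∧ y = ⟨j, v⟩ ∧ (g j).G.Adj u v) ∨
    (x.1 < y.1 ∧ ω x.1 y.1 (s (f ((g x.1).c x.2))) (s (f ((g y.1).c y.2)))) ∨
    (y.1 < x.1 ∧ ω y.1 x.1 (s (f ((g y.1).c y.2))) (s (f ((g x.1).c x.2)))))
  simp only [hs]

/-- transport of expressions to new colours -/
theorem DRR.recol {Λ Λ' : Type} {r : ℕ} {R : Set (Λ → Λ)} {R' : Set (Λ' → Λ')}
    {P : Set (Λ → Λ')} (hs : ∀ f ∈ P, ∃ s : Λ' → Λ, ∀ a, s (f a) = a)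
    (hr : ∀ f ∈ P, ∀ τ ∈ R, ∃ f' ∈ P, ∃ ρ ∈ R', ∀ a, f (τ a) = ρ (f' a))
    {g : CG Λ} (hg : DRR r R ∅ g) : ∀ f ∈ P, DRR r R' ∅ (g.recol f) := by
  induction hg with
  | emp => exact fun f _ => DRR.iso CG.emp _ ⟨SimpleGraph.Iso.refl, fun v => v.elim⟩ DRR.emp
  | sing a => exact fun f _ => DRR.sing (f a)
  | atom g h => exact absurd h (Set.notMem_empty g)
  | node ω g _ ih =>
    intro f hf
    obtain ⟨s, hs⟩ := hs f hf
    exact DRR.iso _ _ (CG.recol_node f s hs ω g) (DRR.node _ _ fun j => ih j f hf)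
  | rel τ hτ g _ ih =>
    intro f hf
    obtain ⟨f', hf', ρ, hρ, h⟩ := hr f hf τ hτ
    refine DRR.iso _ _ ?_ (DRR.rel ρ hρ _ (ih f' hf'))
    exact ⟨SimpleGraph.Iso.refl, fun v => h _⟩
  | iso g h e _ ih => exact fun f hf => DRR.iso _ _ (CG.recol_iso f e) (ih f hf)

theorem BoundedNested.of_finite {X : Set FG} {Λ : Type} [Finite Λ] {r : ℕ} {R : Set (Λ → Λ)}
    (hR : Chain R) (h : ∀ G ∈ X, ∃ c : Fin G.1 → Λ,
      DRR r R ∅ ⟨Fin G.1, inferInstance, G.2, c⟩) : BoundedNested X := by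
  obtain ⟨n, ⟨e⟩⟩ := Finite.exists_equiv_fin Λ
  refine ⟨n, r, {ρ | ∃ σ ∈ R, ρ = fun y => e (σ (e.symm y))}, ⟨?_, ?_⟩, ?_⟩
  · rintro _ ⟨σ, hσ, rfl⟩ y
    simp only [Equiv.symm_apply_apply, hR.1 σ hσ]
  · rintro _ ⟨σ, hσ, rfl⟩ _ ⟨τ, hτ, rfl⟩
    rcases hR.2 σ hσ τ hτ with h | h
    · exact Or.inl fun x y hxy => congrArg e (h _ _ (e.injective hxy))
    · exact Or.inr fun x y hxy => congrArg e (h _ _ (e.injective hxy))
  · intro G hG
    obtain ⟨c, hc⟩ := h G hG
    refine ⟨fun v => e (c v), ?_⟩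
    refine DRR.recol (P := {(e : Λ → Fin n)}) ?_ ?_ hc e rfl
    · rintro f rfl
      exact ⟨e.symm, e.symm_apply_apply⟩
    · rintro f rfl τ hτ
      refine ⟨e, rfl, _, ⟨τ, hτ, rfl⟩, fun a => ?_⟩
      simp only [Equiv.symm_apply_apply]

/-- the recolourings of level `i` -/
def lev {m : ℕ} (i : Fin (m + 1)) (l : Fin m → Fin m) (μ : Fin (m + 1) → Fin m → Fin m) :
    Fin m × (Fin (m + 1) → Fin m) → Fin m × (Fin (m + 1) → Fin m) :=
  fun p => (l (p.2 i), fun j => if j ≤ i then p.2 j else μ j (p.2 i))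

theorem lev_eq {m : ℕ} {i : Fin (m + 1)} {l : Fin m → Fin m} {μ : Fin (m + 1) → Fin m → Fin m}
    {i' : Fin (m + 1)} {l' : Fin m → Fin m} {μ' : Fin (m + 1) → Fin m → Fin m} (hi : i' ≤ i)
    {x y : Fin m × (Fin (m + 1) → Fin m)} (h : lev i l μ x = lev i l μ y) :
    lev i' l' μ' x = lev i' l' μ' y := by
  have h1 : ∀ j ≤ i, x.2 j = y.2 j := by
    intro j hj
    have h2 := congrFun (congrArg Prod.snd h) j
    simpa [lev, hj] using h2
  unfold lev
  rw [h1 i' hi]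
  refine Prod.ext rfl ?_
  funext j
  by_cases hj : j ≤ i'
  · simp only [hj, if_true]
    exact h1 j (hj.trans hi)
  · simp only [hj, if_false]

theorem lev_chain (m : ℕ) : Chain {ρ : Fin m × (Fin (m + 1) → Fin m) →
    Fin m × (Fin (m + 1) → Fin m) | ∃ i l μ, ρ = lev i l μ} := by
  refine ⟨?_, ?_⟩
  · rintro _ ⟨i, l, μ, rfl⟩ x
    unfold lev
    refine Prod.ext ?_ ?_
    · simp
    · funext j
      by_cases hj : j ≤ i
      · simp [hj]
      · simp [hj]
  · rintro _ ⟨i, l, μ, rfl⟩ _ ⟨i', l', μ', rfl⟩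
    rcases le_total i' i with h | h
    · exact Or.inl fun x y hxy => lev_eq h hxy
    · exact Or.inr fun x y hxy => lev_eq h hxy

theorem BoundedNLC.nested {X : Set FG} (h : BoundedNLC X) : BoundedNested X := by
  classical
  obtain ⟨m, r, S, hS, hX⟩ := h
  refine BoundedNested.of_finite (Λ := Fin m × (Fin (m + 1) → Fin m)) (r := r) (lev_chain m) ?_
  intro G hG
  obtain ⟨c, hc⟩ := hX G hG
  refine ⟨fun v => (c v, fun _ => c v), ?_⟩
  let fH : (Fin (m + 1) → Fin m → Fin m) → Fin m → Fin m × (Fin (m + 1) → Fin m) :=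
    fun H a => (a, fun j => H j a)
  refine DRR.recol (P := {f | ∃ H : Fin (m + 1) → Fin m → Fin m,
    (∀ j, H j = id ∨ (H j ∈ S ∧ (j : ℕ) ≤ (Set.range (H j)).ncard)) ∧ f = fH H}) ?_ ?_ hc
    (fH fun _ => id) ⟨fun _ => id, fun _ => Or.inl rfl, rfl⟩
  · rintro _ ⟨H, _, rfl⟩
    exact ⟨Prod.fst, fun a => rfl⟩
  · rintro _ ⟨H, hH, rfl⟩ τ hτ
    have hrk : (Set.range τ).ncard < m + 1 := by
      have h1 := Set.ncard_le_ncard (Set.subset_univ (Set.range τ)) (Set.toFinite _)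
      rw [Set.ncard_univ, Nat.card_eq_fintype_card, Fintype.card_fin] at h1
      omega
    let i : Fin (m + 1) := ⟨(Set.range τ).ncard, hrk⟩
    have hinj : Set.InjOn (H i) (Set.range τ) := by
      rcases hH i with h1 | ⟨h1, h2⟩
      · rw [h1]
        exact Set.injOn_id _
      · refine Set.injOn_of_ncard_image_eq ?_ (Set.toFinite _)
        rw [← Set.range_comp, hS.ncard_comp h1 hτ]
        exact min_eq_right h2
    let l : Fin m → Fin m := fun y => if h : ∃ z ∈ Set.range τ, H i z = y then h.choose else y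
    have hl : ∀ z ∈ Set.range τ, l (H i z) = z := by
      intro z hz
      have h1 : ∃ z' ∈ Set.range τ, H i z' = H i z := ⟨z, hz, rfl⟩
      have h2 : l (H i z) = h1.choose := dif_pos h1
      rw [h2]
      exact hinj h1.choose_spec.1 hz h1.choose_spec.2
    refine ⟨fH fun j => if j ≤ i then H j ∘ τ else id, ⟨_, fun j => ?_, rfl⟩,
      lev i l (fun j => H j ∘ l), ⟨i, l, _, rfl⟩, fun a => ?_⟩
    · by_cases hj : j ≤ i
      · simp only [hj, if_true]
        refine Or.inr ?_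
        have hj' : (j : ℕ) ≤ (Set.range τ).ncard := hj
        rcases hH j with h1 | ⟨h1, h2⟩
        · rw [h1]
          exact ⟨hτ, hj'⟩
        · refine ⟨hS.1 _ h1 _ hτ, ?_⟩
          rw [hS.ncard_comp h1 hτ]
          exact le_min h2 hj'
      · exact Or.inl (if_neg hj)
    · have h1 : l (H i (τ a)) = τ a := hl _ ⟨a, rfl⟩
      refine Prod.ext ?_ ?_
      · show τ a = l ((if i ≤ i then H i ∘ τ else id) a)
        simp only [le_refl, if_true, Function.comp_apply]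
        exact h1.symm
      · funext j
        show H j (τ a) = if j ≤ i then (if j ≤ i then H j ∘ τ else id) a
          else (H j ∘ l) ((if i ≤ i then H i ∘ τ else id) a)
        by_cases hj : j ≤ i
        · simp only [hj, if_true, Function.comp_apply]
        · simp only [hj, if_false, le_refl, if_true, Function.comp_apply, h1]

end Pool.Agent.H12Tree
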