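import Pool.Agent.H12Tree.NClaim
import Pool.Agent.H12Tree.NCw
import Pool.Agent.H12Tree.BFinal

/-!
# Atomic nested classes are boundedly atomic
-/

namespace Pool.Agent.H12Tree

open Tm Pool.Agent.H12Letter

theorem dcmp_empty {Λ : Type} {q : ℕ} : Dcmp q (∅ : Set (CG Λ)) := by
  intro T
  refine ⟨Empty, inferInstance, fun i => i.elim, fun i => i.elim, fun i => i.elim, ?_⟩
  rintro g ⟨hg, -⟩
  exact absurd hg (Set.notMem_empty g)

theorem main4 (F : List Code) (hX : BoundedNested (Free F)) (hJ : Atomic (Free F)) :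
    BoundedlyAtomic (Free F) := by
  classical
  rw [atomic_iff (free_hereditary F)] at hJ
  obtain ⟨m, r, R, hR, hk⟩ := hX
  by_cases hne : (Free F).Nonempty
  swap
  · exact ⟨0, fun G hG => absurd ⟨G, hG⟩ hne⟩
  obtain ⟨N, hN⟩ := exists_types_free (Λ := Fin m) (q := qF F) F le_qF
  obtain ⟨I, hI, K, hBD, hsub, hcov⟩ := fu_claim (Λ := Fin m) r (qF F) R.ncard R rfl hR ∅
    dcmp_empty Unit (fun _ => ()) (fun _ _ _ => rfl) N
  have : Fintype I := Fintype.ofFinite I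
  obtain ⟨i, -, hi⟩ : ∃ i ∈ (Finset.univ : Finset I).toList, Free F ⊆
      {G : FG | ∃ u ∈ K i, Nonempty (G.2 ↪g u.G)} := by
    by_contra hno
    push Not at hno
    obtain ⟨G, hG, h⟩ := directed_union (Free F) hJ hne
      (fun i : I => {G : FG | ∃ u ∈ K i, Nonempty (G.2 ↪g u.G)}) (by
        rintro i G H ⟨φ⟩ ⟨u, hu, ⟨ψ⟩⟩
        exact ⟨u, hu, ⟨φ.trans ψ⟩⟩) (Finset.univ : Finset I).toList hno
    obtain ⟨c, hc⟩ := hk G hG
    obtain ⟨i, hi⟩ := hcov _ ⟨hc, (hN G c).1 hG⟩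
    exact h i (Finset.mem_toList.2 (Finset.mem_univ i)) ⟨_, hi, ⟨SimpleGraph.Embedding.refl⟩⟩
  obtain ⟨D, hD, hB⟩ := hBD i
  set eD : D ≃ Fin (Nat.card D) := Finite.equivFin D with heD
  refine ⟨Nat.card D, fun G₁ hG₁ G₂ hG₂ => ?_⟩
  obtain ⟨A, hA, ⟨ψ₁⟩⟩ := hi hG₁
  obtain ⟨B, hBK, ⟨ψ₂⟩⟩ := hi hG₂
  obtain ⟨u, hu, φ₁, φ₂, d₁, d₂, E, T, -, -, h⟩ := hB A hA B hBK
  have hfin := u.fin
  set e : u.V ≃ Fin (Nat.card u.V) := Finite.equivFin u.V with he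
  set H : FG := ⟨Nat.card u.V, u.G.comap e.symm⟩ with hH
  set iso : u.G ≃g H.2 := ⟨e, fun {a b} => by
    change u.G.Adj (e.symm (e a)) (e.symm (e b)) ↔ u.G.Adj a b
    rw [Equiv.symm_apply_apply, Equiv.symm_apply_apply]⟩ with hiso
  refine ⟨H, ?_, ?_⟩
  · rw [hN H (fun x => u.c (e.symm x))]
    have h1 : u.Iso (⟨Fin H.1, inferInstance, H.2, fun x => u.c (e.symm x)⟩ : CG (Fin m)) :=
      ⟨iso, fun x => by
        change u.c (e.symm (e x)) = u.c x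
        rw [Equiv.symm_apply_apply]⟩
    rw [← ty_iso h1]
    exact (hsub i hu).2
  · refine ⟨(ψ₁.trans φ₁).trans iso.toEmbedding, (ψ₂.trans φ₂).trans iso.toEmbedding,
      fun x => eD (d₁ (ψ₁ x)), fun x => eD (d₂ (ψ₂ x)),
      fun a b => E (eD.symm a) (eD.symm b), fun a b => T (eD.symm a) (eD.symm b), ?_⟩
    intro x y
    obtain ⟨h1, h2⟩ := h (ψ₁ x) (ψ₂ y)
    refine ⟨?_, ?_⟩
    · change iso (φ₁ (ψ₁ x)) = iso (φ₂ (ψ₂ y)) ↔
        E (eD.symm (eD (d₁ (ψ₁ x)))) (eD.symm (eD (d₂ (ψ₂ y))))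
      rw [Equiv.symm_apply_apply, Equiv.symm_apply_apply, ← h1]
      exact ⟨fun hh => iso.injective hh, fun hh => congrArg iso hh⟩
    · change H.2.Adj (iso (φ₁ (ψ₁ x))) (iso (φ₂ (ψ₂ y))) ↔
        T (eD.symm (eD (d₁ (ψ₁ x)))) (eD.symm (eD (d₂ (ψ₂ y))))
      rw [Equiv.symm_apply_apply, Equiv.symm_apply_apply, ← h2]
      exact iso.map_adj_iff

end Pool.Agent.H12Tree
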