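import Pool.Agent.H12Tree.NCG
import Pool.Agent.H12Tree.Transfer

/-!
# Types of coloured graphs
-/

namespace Pool.Agent.H12Tree

open Tm Pool.Agent.H12Letter

variable {Λ Λ' Λ'' : Type} {r q : ℕ}

section Aty

variable {V W : Type} {G : SimpleGraph V} {H : SimpleGraph W} {c : V → Λ} {d : W → Λ}
  {x : Fin q → Option V} {y : Fin q → Option W}

theorem aty_eq (h1 : ∀ i, (y i).map d = (x i).map c)
    (h2 : ∀ i j, (∃ v, y i = some v ∧ y j = some v) ↔ ∃ v, x i = some v ∧ x j = some v)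
    (h3 : ∀ i j, (∃ u v, y i = some u ∧ y j = some v ∧ H.Adj u v) ↔
      ∃ u v, x i = some u ∧ x j = some v ∧ G.Adj u v) : aty H d y = aty G c x :=
  Prod.ext (funext h1) (Prod.ext (funext fun i => funext fun j => propext (h2 i j))
    (funext fun i => funext fun j => propext (h3 i j)))

theorem aty_col (h : aty H d y = aty G c x) (i : Fin q) : (y i).map d = (x i).map c :=
  congrFun (congrArg Prod.fst h) i

theorem aty_same (h : aty H d y = aty G c x) (i j : Fin q) :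
    (∃ v, y i = some v ∧ y j = some v) ↔ ∃ v, x i = some v ∧ x j = some v :=
  iff_of_eq (congrFun (congrFun (congrArg (fun t => t.2.1) h) i) j)

theorem aty_adj (h : aty H d y = aty G c x) (i j : Fin q) :
    (∃ u v, y i = some u ∧ y j = some v ∧ H.Adj u v) ↔
      ∃ u v, x i = some u ∧ x j = some v ∧ G.Adj u v :=
  iff_of_eq (congrFun (congrFun (congrArg (fun t => t.2.2) h) i) j)

theorem aty_emb (φ : G ↪g H) (d : W → Λ) (x : Fin q → Option V) :
    aty H d (fun i => (x i).map φ) = aty G (fun v => d (φ v)) x := by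
  refine aty_eq (fun i => ?_) (fun i j => ⟨?_, ?_⟩) (fun i j => ⟨?_, ?_⟩)
  · rw [Option.map_map]
    rfl
  · rintro ⟨v, h1, h2⟩
    obtain ⟨a, ha, rfl⟩ := Option.map_eq_some_iff.1 h1
    obtain ⟨b, hb, hab⟩ := Option.map_eq_some_iff.1 h2
    obtain rfl : b = a := φ.injective hab
    exact ⟨b, ha, hb⟩
  · rintro ⟨v, h1, h2⟩
    exact ⟨φ v, by rw [h1]; rfl, by rw [h2]; rfl⟩
  · rintro ⟨u, v, h1, h2, h3⟩
    obtain ⟨a, ha, rfl⟩ := Option.map_eq_some_iff.1 h1
    obtain ⟨b, hb, rfl⟩ := Option.map_eq_some_iff.1 h2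
    exact ⟨a, b, ha, hb, φ.map_adj_iff.1 h3⟩
  · rintro ⟨u, v, h1, h2, h3⟩
    exact ⟨φ u, φ v, by rw [h1]; rfl, by rw [h2]; rfl, φ.map_adj_iff.2 h3⟩

/-- change of the colours -/
theorem aty_recol {Λ₁ : Type} {c₁ : V → Λ₁} {d₁ : W → Λ₁} (h : aty H d y = aty G c x)
    (hcd : ∀ u v, d v = c u → d₁ v = c₁ u) : aty H d₁ y = aty G c₁ x := by
  refine aty_eq (fun i => ?_) (aty_same h) (aty_adj h)
  have h1 := aty_col h i
  cases hx : x i with
  | none =>
    rw [hx] at h1
    have hy : y i = none := Option.map_eq_none_iff.1 h1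
    rw [hy]
    rfl
  | some a =>
    obtain ⟨b, hb, hc⟩ := sim_some h hx
    rw [hb]
    exact congrArg some (hcd a b hc)

end Aty

theorem ty_sub_iff {v : Λ → Λ'} {g h : CG Λ} : ty v q g ⊆ ty v q h ↔
    ∀ x : Fin q → Option g.V, ∃ y : Fin q → Option h.V,
      aty h.G (fun a => v (h.c a)) y = aty g.G (fun a => v (g.c a)) x := by
  constructor
  · intro H x
    exact H ⟨x, rfl⟩
  · rintro H _ ⟨x, rfl⟩
    exact H x

theorem ty_emb {v : Λ → Λ'} {g h : CG Λ} (φ : g.G ↪g h.G)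
    (hφ : ∀ x, v (h.c (φ x)) = v (g.c x)) : ty v q g ⊆ ty v q h := by
  rintro _ ⟨x, rfl⟩
  refine ⟨fun i => (x i).map φ, ?_⟩
  have h1 := aty_emb φ (fun a => v (h.c a)) x
  have h2 : (fun a => v (h.c (φ a))) = fun a => v (g.c a) := funext hφ
  rw [h2] at h1
  exact h1

theorem ty_iso {v : Λ → Λ'} {g h : CG Λ} (e : g.Iso h) : ty v q g = ty v q h := by
  obtain ⟨e, he⟩ := e
  apply Set.Subset.antisymm
  · exact ty_emb e.toEmbedding fun x => congrArg v (he x)
  · refine ty_emb e.symm.toEmbedding fun x => congrArg v ?_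
    have := he (e.symm x)
    rw [RelIso.apply_symm_apply] at this
    exact this.symm

theorem ty_comp {v : Λ → Λ'} (w : Λ' → Λ'') {g h : CG Λ} (hgh : ty v q g ⊆ ty v q h) :
    ty (fun x => w (v x)) q g ⊆ ty (fun x => w (v x)) q h := by
  rw [ty_sub_iff] at hgh ⊢
  intro x
  obtain ⟨y, hy⟩ := hgh x
  exact ⟨y, aty_recol hy fun _ _ h => congrArg w h⟩

/-- if `σ` factors through `v` then the types seen through `v` determine the types of the
recoloured graph -/
theorem ty_rel {v : Λ → Λ'} {σ : Λ → Λ} (hσ : ∀ x y, v x = v y → σ x = σ y) {g h : CG Λ}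
    (hgh : ty v q g ⊆ ty v q h) : ty id q (g.rel σ) ⊆ ty id q (h.rel σ) := by
  rw [ty_sub_iff] at hgh ⊢
  intro x
  obtain ⟨y, hy⟩ := hgh x
  exact ⟨y, aty_recol hy fun _ _ h => hσ _ _ h⟩

/-- recolourings which preserve `v` do not change the types seen through `v` -/
theorem ty_rel_eq {v : Λ → Λ'} {σ : Λ → Λ} (hσ : ∀ x, v (σ x) = v x) (g : CG Λ) :
    ty v q (g.rel σ) = ty v q g := by
  show tyS q g.G (fun x => v (σ (g.c x))) = tyS q g.G fun x => v (g.c x)
  simp only [hσ]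

section Node

variable {g : Fin r → CG Λ}

/-- the coordinates of a partial tuple which lie in part `j` -/
noncomputable def part (x : Fin q → Option (Σ j, (g j).V)) (j : Fin r) (i : Fin q) :
    Option (g j).V :=
  (x i).bind fun s => if h : s.1 = j then some (h ▸ s.2) else none

theorem part_iff (x : Fin q → Option (Σ j, (g j).V)) (j : Fin r) (i : Fin q) (a : (g j).V) :
    x i = some ⟨j, a⟩ ↔ part x j i = some a := by
  unfold part
  constructor
  · intro h
    rw [h]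
    simp
  · intro h
    obtain ⟨s, hs, h2⟩ := Option.bind_eq_some_iff.1 h
    obtain ⟨k, b⟩ := s
    by_cases hk : k = j
    · subst hk
      simp only [dif_pos] at h2
      rw [hs, ← Option.some.inj h2]
    · simp only [hk, dif_neg, not_false_iff] at h2
      exact absurd h2 (by simp)

theorem node_dir {ω : Fin r → Fin r → Λ → Λ → Prop} {g h : Fin r → CG Λ}
    {x : Fin q → Option (Σ j, (g j).V)} {y : Fin q → Option (Σ j, (h j).V)}
    {xx : ∀ j, Fin q → Option (g j).V} {yy : ∀ j, Fin q → Option (h j).V}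
    (hx : ∀ j i a, x i = some ⟨j, a⟩ ↔ xx j i = some a)
    (hy : ∀ j i b, y i = some ⟨j, b⟩ ↔ yy j i = some b)
    (hty : ∀ j, aty (h j).G (fun a => id ((h j).c a)) (yy j) =
      aty (g j).G (fun a => id ((g j).c a)) (xx j)) (i k : Fin q) :
    ((∃ v, x i = some v ∧ x k = some v) → ∃ v, y i = some v ∧ y k = some v) ∧
    ((∃ u v, x i = some u ∧ x k = some v ∧ (glueG ω g).Adj u v) →
      ∃ u v, y i = some u ∧ y k = some v ∧ (glueG ω h).Adj u v) := by
  constructor
  · rintro ⟨⟨j, a⟩, h1, h2⟩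
    obtain ⟨b, hb1, hb2⟩ := (aty_same (hty j) i k).2 ⟨a, (hx j i a).1 h1, (hx j k a).1 h2⟩
    exact ⟨⟨j, b⟩, (hy j i b).2 hb1, (hy j k b).2 hb2⟩
  · rintro ⟨s, t, h1, h2, h3⟩
    rcases h3 with ⟨l, u, v, rfl, rfl, h4⟩ | ⟨h4, h5⟩ | ⟨h4, h5⟩
    · obtain ⟨b, b', hb1, hb2, hb3⟩ := (aty_adj (hty l) i k).2
        ⟨u, v, (hx l i u).1 h1, (hx l k v).1 h2, h4⟩
      exact ⟨⟨l, b⟩, ⟨l, b'⟩, (hy l i b).2 hb1, (hy l k b').2 hb2,
        Or.inl ⟨l, b, b', rfl, rfl, hb3⟩⟩
    · obtain ⟨j, a⟩ := s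
      obtain ⟨j', a'⟩ := t
      obtain ⟨b, hb, hc⟩ := sim_some (hty j) ((hx j i a).1 h1)
      obtain ⟨b', hb', hc'⟩ := sim_some (hty j') ((hx j' k a').1 h2)
      refine ⟨⟨j, b⟩, ⟨j', b'⟩, (hy j i b).2 hb, (hy j' k b').2 hb', Or.inr (Or.inl ⟨h4, ?_⟩)⟩
      simp only [id] at hc hc'
      show ω j j' ((h j).c b) ((h j').c b')
      rw [hc, hc']
      exact h5
    · obtain ⟨j, a⟩ := s
      obtain ⟨j', a'⟩ := t
      obtain ⟨b, hb, hc⟩ := sim_some (hty j) ((hx j i a).1 h1)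
      obtain ⟨b', hb', hc'⟩ := sim_some (hty j') ((hx j' k a').1 h2)
      refine ⟨⟨j, b⟩, ⟨j', b'⟩, (hy j i b).2 hb, (hy j' k b').2 hb', Or.inr (Or.inr ⟨h4, ?_⟩)⟩
      simp only [id] at hc hc'
      show ω j' j ((h j').c b') ((h j).c b)
      rw [hc, hc']
      exact h5

theorem ty_node_mono {ω : Fin r → Fin r → Λ → Λ → Prop} {g h : Fin r → CG Λ}
    (hgh : ∀ j, ty id q (g j) ⊆ ty id q (h j)) :
    ty id q (CG.node ω g) ⊆ ty id q (CG.node ω h) := by
  rw [ty_sub_iff]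
  intro x
  change Fin q → Option (Σ j, (g j).V) at x
  choose yy hyy using fun j => ty_sub_iff.1 (hgh j) (part x j)
  let y : Fin q → Option (Σ j, (h j).V) := fun i =>
    (x i).bind fun s => (yy s.1 i).map (Sigma.mk s.1)
  have hy : ∀ j i b, y i = some ⟨j, b⟩ ↔ yy j i = some b := by
    intro j i b
    constructor
    · intro h1
      obtain ⟨⟨k, a⟩, hs, h2⟩ := Option.bind_eq_some_iff.1 h1
      obtain ⟨b', hb', h3⟩ := Option.map_eq_some_iff.1 h2
      cases h3
      exact hb'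
    · intro h1
      obtain ⟨a, ha, -⟩ := sim_some (hyy j).symm h1
      have hx := (part_iff x j i a).2 ha
      show (x i).bind _ = _
      rw [hx]
      show (yy j i).map (fun a => (⟨j, a⟩ : Σ j, (h j).V)) = _
      rw [h1]
      rfl
  refine ⟨y, aty_eq (fun i => ?_) (fun i k => ⟨?_, ?_⟩) (fun i k => ⟨?_, ?_⟩)⟩
  · cases hx : x i with
    | none =>
      have : y i = none := by
        show (x i).bind _ = _
        rw [hx]
        rfl
      rw [this]
      rfl
    | some s =>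
      obtain ⟨j, a⟩ := s
      obtain ⟨b, hb, hc⟩ := sim_some (hyy j) ((part_iff x j i a).1 hx)
      rw [(hy j i b).2 hb]
      exact congrArg some hc
  · exact (node_dir (ω := ω) hy (part_iff x) (fun j => (hyy j).symm) i k).1
  · exact (node_dir (ω := ω) (part_iff x) hy hyy i k).1
  · exact (node_dir (ω := ω) hy (part_iff x) (fun j => (hyy j).symm) i k).2
  · exact (node_dir (ω := ω) (part_iff x) hy hyy i k).2

end Node

/-- the embedding of a part -/
def childEmb (ω : Fin r → Fin r → Λ → Λ → Prop) (g : Fin r → CG Λ) (j : Fin r) :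
    (g j).G ↪g (CG.node ω g).G where
  toFun u := (⟨j, u⟩ : Σ j, (g j).V)
  inj' := fun u v h => sigma_mk_injective (β := fun j => (g j).V) h
  map_rel_iff' := by
    intro u v
    constructor
    · rintro (⟨l, a, b, ha, hb, h⟩ | ⟨h, -⟩ | ⟨h, -⟩)
      · cases ha
        cases hb
        exact h
      · exact absurd h (lt_irrefl _)
      · exact absurd h (lt_irrefl _)
    · intro h
      exact Or.inl ⟨j, u, v, rfl, rfl, h⟩

theorem ty_child {v : Λ → Λ'} (ω : Fin r → Fin r → Λ → Λ → Prop) (g : Fin r → CG Λ)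
    (j : Fin r) : ty v q (g j) ⊆ ty v q (CG.node ω g) :=
  ty_emb (childEmb ω g j) fun x => by
    show v ((g j).c x) = v ((g j).c x)
    rfl

/-- the types seen through `v` are determined by the full types -/
theorem ty_of_id (v : Λ → Λ') {g : CG Λ} {N : Set (PTy Λ' q)} :
    ty v q g ⊆ N ↔ ty id q g ⊆ {s | ((fun i => (s.1 i).map v), s.2) ∈ N} := by
  have h : ∀ x : Fin q → Option g.V, aty g.G (fun a => v (g.c a)) x =
      ((fun i => ((aty g.G (fun a => id (g.c a)) x).1 i).map v),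
        (aty g.G (fun a => id (g.c a)) x).2) := by
    intro x
    refine Prod.ext ?_ rfl
    funext i
    show (x i).map (fun a => v (g.c a)) = ((x i).map fun a => id (g.c a)).map v
    rw [Option.map_map]
    rfl
  constructor
  · rintro H _ ⟨x, rfl⟩
    show (_, _) ∈ N
    rw [← h x]
    exact H ⟨x, rfl⟩
  · rintro H _ ⟨x, rfl⟩
    have h1 : aty g.G (fun a => id (g.c a)) x ∈ ty id q g := ⟨x, rfl⟩
    have h2 := H h1
    change (_, _) ∈ N at h2
    rw [← h x] at h2
    exact h2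

/-- `Free F` is described by types -/
theorem exists_types_free (F : List Code) (hq : ∀ g ∈ F, g.1 ≤ q) :
    ∃ N : Set (PTy Unit q), ∀ (G : FG) (c : Fin G.1 → Λ),
      (G ∈ Free F ↔ ty (fun _ => ()) q (⟨Fin G.1, inferInstance, G.2, c⟩ : CG Λ) ⊆ N) := by
  refine ⟨{s | ∃ G ∈ Free F, s ∈ tyS q G.2 fun _ => ()}, fun G c => ⟨?_, ?_⟩⟩
  · intro hG s hs
    exact ⟨G, hG, hs⟩
  · intro H g hg hE
    obtain ⟨ψ⟩ := hE
    obtain ⟨G', hG', y, hy⟩ := H ⟨(fun i : Fin q => if hi : i.1 < g.1 then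
      some (ψ (⟨i, hi⟩ : Fin g.1)) else none), rfl⟩
    have hx : ∀ i : Fin g.1, (fun i : Fin q => if hi : i.1 < g.1 then
        some (ψ (⟨i, hi⟩ : Fin g.1)) else none) (Fin.castLE (hq g hg) i) = some (ψ i) := by
      intro i
      simp only [Fin.val_castLE, i.2, dif_pos]
    choose u hu hc using fun i : Fin g.1 => sim_some hy (hx i)
    refine hG' g hg ⟨⟨⟨u, fun i j hij => ?_⟩, fun {i j} => ?_⟩⟩
    · exact ψ.injective ((sim_eq hy (hx i) (hx j) (hu i) (hu j)).1 hij)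
    · exact (sim_adj hy (hx i) (hx j) (hu i) (hu j)).trans ψ.map_adj_iff

end Pool.Agent.H12Tree
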