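import Pool.Agent.H12Tree.Terms

/-!
# Recognizable properties of terms (finite congruences) and pumping
-/

namespace Pool.Agent.H12Tree

open Tm

variable {Ω : Type} {r : ℕ} {Λ Λ' : Type}

/-- `P` is recognized by a congruence with at most `N` classes -/
def Rec (N : ℕ) (P : Tm Ω r Λ → Prop) : Prop :=
  ∃ (Q : Type) (_ : Fintype Q) (h : Tm Ω r Λ → Q), Fintype.card Q ≤ N ∧
    (∀ ω ch ch', (∀ i, h (ch i) = h (ch' i)) → h (.node ω ch) = h (.node ω ch')) ∧
    ∀ t t', h t = h t' → P t → P t'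

theorem Rec.mono {N N' : ℕ} {P : Tm Ω r Λ → Prop} (h : Rec N P) (hN : N ≤ N') : Rec N' P := by
  obtain ⟨Q, i, f, h1, h2, h3⟩ := h
  exact ⟨Q, i, f, h1.trans hN, h2, h3⟩

theorem Rec.congr {N : ℕ} {P P' : Tm Ω r Λ → Prop} (h : Rec N P) (hP : ∀ t, P t ↔ P' t) :
    Rec N P' := by
  obtain ⟨Q, i, f, h1, h2, h3⟩ := h
  exact ⟨Q, i, f, h1, h2, fun t t' ht hp => (hP t').1 (h3 t t' ht ((hP t).2 hp))⟩

theorem Rec.not {N : ℕ} {P : Tm Ω r Λ → Prop} (h : Rec N P) : Rec N fun t => ¬ P t := by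
  obtain ⟨Q, i, f, h1, h2, h3⟩ := h
  exact ⟨Q, i, f, h1, h2, fun t t' ht hp hp' => hp (h3 t' t ht.symm hp')⟩

theorem Rec.and {N N' : ℕ} {P P' : Tm Ω r Λ → Prop} (h : Rec N P) (h' : Rec N' P') :
    Rec (N * N') fun t => P t ∧ P' t := by
  obtain ⟨Q, i, f, h1, h2, h3⟩ := h
  obtain ⟨Q', i', f', h1', h2', h3'⟩ := h'
  refine ⟨Q × Q', inferInstance, fun t => (f t, f' t), ?_, ?_, ?_⟩
  · rw [Fintype.card_prod]
    exact Nat.mul_le_mul h1 h1'
  · intro ω ch ch' hch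
    exact Prod.ext (h2 ω ch ch' fun i => congrArg Prod.fst (hch i))
      (h2' ω ch ch' fun i => congrArg Prod.snd (hch i))
  · intro t t' ht hp
    exact ⟨h3 t t' (congrArg Prod.fst ht) hp.1, h3' t t' (congrArg Prod.snd ht) hp.2⟩

theorem Rec.or {N N' : ℕ} {P P' : Tm Ω r Λ → Prop} (h : Rec N P) (h' : Rec N' P') :
    Rec (N * N') fun t => P t ∨ P' t :=
  (h.not.and h'.not).not.congr fun t => by tauto

theorem Rec.imp {N N' : ℕ} {P P' : Tm Ω r Λ → Prop} (h : Rec N P) (h' : Rec N' P') :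
    Rec (N * N') fun t => P t → P' t :=
  (h.and h'.not).not.congr fun t => by tauto

theorem Rec.map {N : ℕ} {P : Tm Ω r Λ → Prop} (h : Rec N P) (g : Λ' → Λ) :
    Rec N fun t : Tm Ω r Λ' => P (t.map g) := by
  obtain ⟨Q, i, f, h1, h2, h3⟩ := h
  refine ⟨Q, i, fun t => f (t.map g), h1, fun ω ch ch' hch => ?_, fun t t' ht hp =>
    h3 _ _ ht hp⟩
  simp only [Tm.map]
  exact h2 ω _ _ hch

theorem Rec.del {N : ℕ} {P : Tm Ω r Λ → Prop} (h : Rec N P) (p : Λ → Bool) :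
    Rec N fun t : Tm Ω r Λ => P (t.del p) := by
  obtain ⟨Q, i, f, h1, h2, h3⟩ := h
  refine ⟨Q, i, fun t => f (t.del p), h1, fun ω ch ch' hch => ?_, fun t t' ht hp =>
    h3 _ _ ht hp⟩
  simp only [Tm.del]
  exact h2 ω _ _ hch

theorem Rec.exmap {N : ℕ} {P : Tm Ω r Λ' → Prop} (h : Rec N P) (g : Λ' → Λ) :
    Rec (2 ^ N) fun t : Tm Ω r Λ => ∃ t', t'.map g = t ∧ P t' := by
  classical
  obtain ⟨Q, i, f, h1, h2, h3⟩ := h
  have key : ∀ (ω : Ω) (ch ch' : Fin r → Tm Ω r Λ),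
      (∀ i, {q | ∃ t', t'.map g = ch i ∧ f t' = q} = {q | ∃ t', t'.map g = ch' i ∧ f t' = q}) →
      {q | ∃ t', t'.map g = .node ω ch ∧ f t' = q} ⊆
        {q | ∃ t', t'.map g = .node ω ch' ∧ f t' = q} := by
    rintro ω ch ch' hch q ⟨t', ht', rfl⟩
    cases t' with
    | emp => simp [Tm.map] at ht'
    | leaf a => simp [Tm.map] at ht'
    | node ω' tc =>
      simp only [Tm.map, Tm.node.injEq] at ht'
      obtain ⟨rfl, htc⟩ := ht'
      have : ∀ i, ∃ s, s.map g = ch' i ∧ f s = f (tc i) := by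
        intro i
        have hm : f (tc i) ∈ {q | ∃ t', t'.map g = ch i ∧ f t' = q} :=
          ⟨tc i, congrFun htc i, rfl⟩
        rw [hch i] at hm
        exact hm
      choose s hs1 hs2 using this
      refine ⟨.node ω' s, ?_, h2 _ _ _ hs2⟩
      simp only [Tm.map, hs1]
  refine ⟨Set Q, inferInstance, fun t => {q | ∃ t', t'.map g = t ∧ f t' = q}, ?_, ?_, ?_⟩
  · rw [Fintype.card_set]
    exact Nat.pow_le_pow_right (by norm_num) h1
  · intro ω ch ch' hch
    exact Set.Subset.antisymm (key ω ch ch' hch) (key ω ch' ch fun i => (hch i).symm)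
  · rintro t t' ht ⟨s, hs, hp⟩
    have hm : f s ∈ {q | ∃ t', t'.map g = t ∧ f t' = q} := ⟨s, hs, rfl⟩
    have ht2 : {q | ∃ t', t'.map g = t ∧ f t' = q} = {q | ∃ s, s.map g = t' ∧ f s = q} := ht
    rw [ht2] at hm
    obtain ⟨s', hs', he⟩ := hm
    exact ⟨s', hs', h3 s s' he.symm hp⟩

theorem Rec.allmap {N : ℕ} {P : Tm Ω r Λ' → Prop} (h : Rec N P) (g : Λ' → Λ) :
    Rec (2 ^ N) fun t : Tm Ω r Λ => ∀ t', t'.map g = t → P t' :=
  (h.not.exmap g).not.congr fun t => by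
    constructor
    · intro h1 t' ht'
      by_contra hc
      exact h1 ⟨t', ht', hc⟩
    · rintro h1 ⟨t', ht', hc⟩
      exact hc (h1 t' ht')

theorem rec_lv [Fintype Λ] (φ : Set Λ → Prop) :
    Rec (2 ^ Fintype.card Λ) fun t : Tm Ω r Λ => φ t.lv := by
  classical
  refine ⟨Set Λ, inferInstance, fun t => t.lv, by rw [Fintype.card_set], ?_, ?_⟩
  · intro ω ch ch' hch
    simp only [Tm.lv, hch]
  · intro t t' ht hp
    have ht' : t.lv = t'.lv := ht
    rw [← ht']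
    exact hp

/-- a condition on all pairs of leaves in different branches -/
def PW (Φ : Ω → Fin r → Fin r → Λ → Λ → Prop) : Tm Ω r Λ → Prop
  | .emp => True
  | .leaf _ => True
  | .node ω ch => (∀ i, PW Φ (ch i)) ∧
      ∀ i j, i < j → ∀ a ∈ (ch i).lv, ∀ b ∈ (ch j).lv, Φ ω i j a b

theorem rec_pw [Fintype Λ] (Φ : Ω → Fin r → Fin r → Λ → Λ → Prop) :
    Rec (2 * 2 ^ Fintype.card Λ) (PW Φ) := by
  classical
  refine ⟨Prop × Set Λ, inferInstance, fun t => (PW Φ t, t.lv), ?_, ?_, ?_⟩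
  · rw [Fintype.card_prod, Fintype.card_set, Fintype.card_prop]
  · intro ω ch ch' hch
    have h1 : ∀ i, PW Φ (ch i) = PW Φ (ch' i) := fun i => congrArg Prod.fst (hch i)
    have h2 : ∀ i, (ch i).lv = (ch' i).lv := fun i => congrArg Prod.snd (hch i)
    simp only [PW, Tm.lv, h1, h2]
  · intro t t' ht hp
    have h1 : PW Φ t = PW Φ t' := congrArg Prod.fst ht
    rw [← h1]
    exact hp

theorem min_sum_two {n : ℕ} (f : Fin n → ℕ) :
    min (∑ i, f i) 2 = min (∑ i, min (f i) 2) 2 := by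
  have : ∀ s : Finset (Fin n), min (∑ i ∈ s, f i) 2 = min (∑ i ∈ s, min (f i) 2) 2 := by
    classical
    intro s
    induction s using Finset.induction_on with
    | empty => simp
    | insert a s ha ih =>
      rw [Finset.sum_insert ha, Finset.sum_insert ha]
      omega
  exact this Finset.univ

theorem rec_cnt (k : ℕ) (hk : k < 2) : Rec 3 fun t : Tm Ω r Λ => t.cnt = k := by
  refine ⟨Fin 3, inferInstance, fun t => ⟨min t.cnt 2, by omega⟩, by simp, ?_, ?_⟩
  · intro ω ch ch' hch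
    have h : ∀ i, min (ch i).cnt 2 = min (ch' i).cnt 2 := fun i => Fin.mk.inj_iff.1 (hch i)
    apply Fin.ext
    simp only [Tm.cnt]
    rw [min_sum_two, min_sum_two fun i => (ch' i).cnt]
    simp only [h]
  · intro t t' ht hp
    have := Fin.mk.inj_iff.1 ht
    omega

theorem rec_pi {n N : ℕ} {P : Fin n → Tm Ω r Λ → Prop} (h : ∀ j, Rec N (P j)) :
    Rec (N ^ n) fun t => ∀ j, P j t := by
  classical
  choose Q i f h1 h2 h3 using h
  refine ⟨∀ j, Q j, inferInstance, fun t j => f j t, ?_, ?_, ?_⟩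
  · rw [Fintype.card_pi]
    calc ∏ j, Fintype.card (Q j) ≤ ∏ _j : Fin n, N := Finset.prod_le_prod' fun j _ => h1 j
      _ = N ^ n := by simp
  · intro ω ch ch' hch
    funext j
    exact h2 j ω ch ch' fun i => congrFun (hch i) j
  · intro t t' ht hp j
    exact h3 j t t' (congrFun ht j) (hp j)

theorem rec_exlist {α : Type} {N : ℕ} (l : List α) {P : α → Tm Ω r Λ → Prop}
    (h : ∀ x ∈ l, Rec N (P x)) : Rec (N ^ l.length) fun t => ∃ x ∈ l, P x t := by
  have := rec_pi (P := fun (j : Fin l.length) t => ¬ P l[j] t)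
    fun j => (h _ (List.getElem_mem j.2)).not
  refine this.not.congr fun t => ?_
  constructor
  · intro h1
    by_contra hc
    push Not at hc
    exact h1 fun j => hc _ (List.getElem_mem j.2)
  · rintro ⟨x, hx, hp⟩ h1
    obtain ⟨j, hj, rfl⟩ := List.getElem_of_mem hx
    exact h1 ⟨j, hj⟩ hp

/-! ### pumping -/

section Pump

variable {Q : Type} (h : Tm Ω r Λ → Q)

/-- the values of the subterms -/
def vals : Tm Ω r Λ → Set Q
  | .emp => {h .emp}
  | .leaf a => {h (.leaf a)}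
  | .node ω ch => {h (.node ω ch)} ∪ ⋃ i, vals (ch i)

theorem self_mem_vals (t : Tm Ω r Λ) : h t ∈ vals h t := by
  cases t with
  | emp => simp [vals]
  | leaf a => simp [vals]
  | node ω ch => simp [vals]

theorem exists_deep (t : Tm Ω r Λ) (q : Q) (hq : q ∈ vals h t) :
    ∃ t0, Le t0 t ∧ h t0 = q ∧ vals h t0 ⊆ vals h t ∧
      (t0 = .emp ∨ (∃ a, t0 = .leaf a) ∨ ∃ ω ch, t0 = .node ω ch ∧ ∀ i, q ∉ vals h (ch i)) := by
  induction t with
  | emp =>
    simp only [vals, Set.mem_singleton_iff] at hq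
    exact ⟨.emp, Le.refl _, hq.symm, subset_rfl, Or.inl rfl⟩
  | leaf a =>
    simp only [vals, Set.mem_singleton_iff] at hq
    exact ⟨.leaf a, Le.refl _, hq.symm, subset_rfl, Or.inr (Or.inl ⟨a, rfl⟩)⟩
  | node ω ch ih =>
    by_cases hex : ∃ i, q ∈ vals h (ch i)
    · obtain ⟨i, hi⟩ := hex
      obtain ⟨t0, h1, h2, h3, h4⟩ := ih i hi
      refine ⟨t0, Le.child _ _ _ i h1, h2, h3.trans ?_, h4⟩
      intro x hx
      exact Or.inr (Set.mem_iUnion.2 ⟨i, hx⟩)
    · push Not at hex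
      have : q = h (.node ω ch) := by
        rcases hq with hq | hq
        · exact hq
        · obtain ⟨i, hi⟩ := Set.mem_iUnion.1 hq
          exact absurd hi (hex i)
      exact ⟨.node ω ch, Le.refl _, this.symm, subset_rfl, Or.inr (Or.inr ⟨ω, ch, rfl, hex⟩)⟩

theorem exists_low (hcong : ∀ ω ch ch', (∀ i, h (ch i) = h (ch' i)) →
    h (.node ω ch) = h (.node ω ch')) (n : ℕ) (S : Set Q) (hSf : S.Finite) (hS : S.ncard ≤ n)
    (t : Tm Ω r Λ) (ht : vals h t ⊆ S) : ∃ s, Le s t ∧ h s = h t ∧ s.height ≤ n := by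
  induction n generalizing S t with
  | zero =>
    have : S = ∅ := (Set.ncard_eq_zero hSf).1 (by omega)
    have h1 := ht (self_mem_vals h t)
    rw [this] at h1
    exact h1.elim
  | succ n ih =>
    obtain ⟨t0, h1, h2, h3, h4⟩ := exists_deep h t (h t) (self_mem_vals h t)
    rcases h4 with rfl | ⟨a, rfl⟩ | ⟨ω, ch, rfl, h4⟩
    · exact ⟨_, h1, h2, by simp [height]⟩
    · exact ⟨_, h1, h2, by simp [height]⟩
    · have key : ∀ i, ∃ s, Le s (ch i) ∧ h s = h (ch i) ∧ s.height ≤ n := by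
        intro i
        refine ih (S \ {h t}) (hSf.subset Set.sdiff_subset) ?_ (ch i) ?_
        · have hmem : h t ∈ S := ht (self_mem_vals h t)
          have := Set.ncard_sdiff_singleton_add_one hmem hSf
          omega
        · intro x hx
          refine ⟨ht (h3 (Or.inr (Set.mem_iUnion.2 ⟨i, hx⟩))), ?_⟩
          rintro rfl
          exact h4 i hx
      choose s hs1 hs2 hs3 using key
      refine ⟨.node ω s, (Le.node _ _ _ hs1).trans h1, (hcong _ _ _ hs2).trans h2, ?_⟩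
      simp only [height]
      exact Nat.succ_le_succ (Finset.sup_le fun i _ => hs3 i)

end Pump

theorem Rec.pump {N : ℕ} {P : Tm Ω r Λ → Prop} (h : Rec N P) (t : Tm Ω r Λ) :
    ∃ s, Le s t ∧ s.height ≤ N ∧ (P s ↔ P t) := by
  obtain ⟨Q, i, f, h1, h2, h3⟩ := h
  obtain ⟨s, hs1, hs2, hs3⟩ := exists_low f h2 N Set.univ (Set.toFinite _) (by
    rw [Set.ncard_univ, Nat.card_eq_fintype_card]
    exact h1) t (Set.subset_univ _)
  exact ⟨s, hs1, hs3, ⟨h3 s t hs2, h3 t s hs2.symm⟩⟩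

end Pool.Agent.H12Tree
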