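import Pool.Agent.H12Tree.BJ
import Pool.Agent.H12Tree.Rec

/-!
# Small representatives of the graphs of clique-width at most `k`
-/

namespace Pool.Agent.H12Tree

open Tm Pool.Agent.H12Letter

section Types

variable {V W Λ Λ' : Type} {q : ℕ}

theorem tyS_iso {G : SimpleGraph V} {H : SimpleGraph W} (e : G ≃g H) (d : W → Λ) :
    tyS q H d = tyS q G fun v => d (e v) := by
  ext t
  constructor
  · rintro ⟨x, rfl⟩
    refine ⟨fun i => (x i).map e.symm, ?_⟩
    refine Prod.ext ?_ (Prod.ext ?_ ?_)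
    · funext i
      show ((x i).map e.symm).map (fun v => d (e v)) = (x i).map d
      rw [Option.map_map]
      congr 1
      funext v
      simp
    · funext i j
      apply propext
      show (∃ v, (x i).map e.symm = some v ∧ (x j).map e.symm = some v) ↔
        ∃ v, x i = some v ∧ x j = some v
      constructor
      · rintro ⟨v, h1, h2⟩
        obtain ⟨a, ha, rfl⟩ := Option.map_eq_some_iff.1 h1
        obtain ⟨b, hb, hab⟩ := Option.map_eq_some_iff.1 h2
        have : b = a := e.symm.injective hab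
        exact ⟨a, ha, this ▸ hb⟩
      · rintro ⟨v, h1, h2⟩
        exact ⟨e.symm v, by rw [h1]; rfl, by rw [h2]; rfl⟩
    · funext i j
      apply propext
      show (∃ u v, (x i).map e.symm = some u ∧ (x j).map e.symm = some v ∧ G.Adj u v) ↔
        ∃ u v, x i = some u ∧ x j = some v ∧ H.Adj u v
      constructor
      · rintro ⟨u, v, h1, h2, h3⟩
        obtain ⟨a, ha, rfl⟩ := Option.map_eq_some_iff.1 h1
        obtain ⟨b, hb, rfl⟩ := Option.map_eq_some_iff.1 h2
        exact ⟨a, b, ha, hb, e.symm.map_adj_iff.1 h3⟩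
      · rintro ⟨u, v, h1, h2, h3⟩
        exact ⟨e.symm u, e.symm v, by rw [h1]; rfl, by rw [h2]; rfl, e.symm.map_adj_iff.2 h3⟩
  · rintro ⟨x, rfl⟩
    refine ⟨fun i => (x i).map e, ?_⟩
    refine Prod.ext ?_ (Prod.ext ?_ ?_)
    · funext i
      show ((x i).map e).map d = (x i).map fun v => d (e v)
      rw [Option.map_map]
      rfl
    · funext i j
      apply propext
      show (∃ v, (x i).map e = some v ∧ (x j).map e = some v) ↔
        ∃ v, x i = some v ∧ x j = some v
      constructor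
      · rintro ⟨v, h1, h2⟩
        obtain ⟨a, ha, rfl⟩ := Option.map_eq_some_iff.1 h1
        obtain ⟨b, hb, hab⟩ := Option.map_eq_some_iff.1 h2
        have : b = a := e.injective hab
        exact ⟨a, ha, this ▸ hb⟩
      · rintro ⟨v, h1, h2⟩
        exact ⟨e v, by rw [h1]; rfl, by rw [h2]; rfl⟩
    · funext i j
      apply propext
      show (∃ u v, (x i).map e = some u ∧ (x j).map e = some v ∧ H.Adj u v) ↔
        ∃ u v, x i = some u ∧ x j = some v ∧ G.Adj u v
      constructor
      · rintro ⟨u, v, h1, h2, h3⟩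
        obtain ⟨a, ha, rfl⟩ := Option.map_eq_some_iff.1 h1
        obtain ⟨b, hb, rfl⟩ := Option.map_eq_some_iff.1 h2
        exact ⟨a, b, ha, hb, e.map_adj_iff.1 h3⟩
      · rintro ⟨u, v, h1, h2, h3⟩
        exact ⟨e u, e v, by rw [h1]; rfl, by rw [h2]; rfl, e.map_adj_iff.2 h3⟩

/-- change of the labels in a type -/
def modL (g : Λ → Λ') (t : PTy Λ q) : PTy Λ' q := (fun a => (t.1 a).map g, t.2)

theorem tyS_modL (G : SimpleGraph V) (c : V → Λ) (g : Λ → Λ') :
    tyS q G (fun v => g (c v)) = modL g '' tyS q G c := by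
  have h : ∀ x : Fin q → Option V, aty G (fun v => g (c v)) x = modL g (aty G c x) := by
    intro x
    refine Prod.ext ?_ rfl
    funext i
    show (x i).map (fun v => g (c v)) = ((x i).map c).map g
    rw [Option.map_map]
    rfl
  ext t
  constructor
  · rintro ⟨x, rfl⟩
    exact ⟨_, ⟨x, rfl⟩, (h x).symm⟩
  · rintro ⟨_, ⟨x, rfl⟩, rfl⟩
    exact ⟨x, h x⟩

/-- adding the edges between the labels in `r` -/
def modJ (r : Λ → Λ → Prop) (t : PTy Λ q) : PTy Λ q :=
  (t.1, t.2.1, fun a b => t.2.2 a b ∨ (¬ t.2.1 a b ∧ ∃ l l', t.1 a = some l ∧ t.1 b = some l' ∧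
    (r l l' ∨ r l' l)))

theorem tyS_modJ (G : SimpleGraph V) (c : V → Λ) (r : Λ → Λ → Prop) :
    tyS q (G ⊔ SimpleGraph.fromRel fun u v => r (c u) (c v)) c = modJ r '' tyS q G c := by
  have h : ∀ x : Fin q → Option V,
      aty (G ⊔ SimpleGraph.fromRel fun u v => r (c u) (c v)) c x = modJ r (aty G c x) := by
    intro x
    refine Prod.ext rfl (Prod.ext rfl ?_)
    funext i j
    apply propext
    show (∃ u v, x i = some u ∧ x j = some v ∧
      (G ⊔ SimpleGraph.fromRel fun u v => r (c u) (c v)).Adj u v) ↔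
      (∃ u v, x i = some u ∧ x j = some v ∧ G.Adj u v) ∨
        (¬ (∃ v, x i = some v ∧ x j = some v) ∧ ∃ l l', (x i).map c = some l ∧
          (x j).map c = some l' ∧ (r l l' ∨ r l' l))
    constructor
    · rintro ⟨u, v, h1, h2, h3⟩
      rw [SimpleGraph.sup_adj, SimpleGraph.fromRel_adj] at h3
      rcases h3 with h3 | ⟨h3, h4⟩
      · exact Or.inl ⟨u, v, h1, h2, h3⟩
      · refine Or.inr ⟨?_, c u, c v, by rw [h1]; rfl, by rw [h2]; rfl, h4⟩
        rintro ⟨w, hw1, hw2⟩
        rw [h1] at hw1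
        rw [h2] at hw2
        exact h3 (Option.some_injective _ (hw1.trans hw2.symm))
    · rintro (⟨u, v, h1, h2, h3⟩ | ⟨h1, l, l', h2, h3, h4⟩)
      · exact ⟨u, v, h1, h2, by rw [SimpleGraph.sup_adj]; exact Or.inl h3⟩
      · obtain ⟨u, hu, rfl⟩ := Option.map_eq_some_iff.1 h2
        obtain ⟨v, hv, rfl⟩ := Option.map_eq_some_iff.1 h3
        refine ⟨u, v, hu, hv, ?_⟩
        rw [SimpleGraph.sup_adj, SimpleGraph.fromRel_adj]
        refine Or.inr ⟨?_, h4⟩
        rintro rfl
        exact h1 ⟨u, hu, hv⟩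
  ext t
  constructor
  · rintro ⟨x, rfl⟩
    exact ⟨_, ⟨x, rfl⟩, (h x).symm⟩
  · rintro ⟨_, ⟨x, rfl⟩, rfl⟩
    exact ⟨x, h x⟩

/-- the type of a tuple in a disjoint union -/
def comb (s s' : PTy Λ q) : PTy Λ q :=
  (fun i => (s.1 i).or (s'.1 i), fun i j => s.2.1 i j ∨ s'.2.1 i j,
    fun i j => s.2.2 i j ∨ s'.2.2 i j)

/-- the sets of types of a disjoint union -/
def combS (S S' : Set (PTy Λ q)) : Set (PTy Λ q) :=
  {t | ∃ s ∈ S, ∃ s' ∈ S', (∀ i, s.1 i = none ∨ s'.1 i = none) ∧ t = comb s s'}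

theorem tyS_sum (G : SimpleGraph V) (H : SimpleGraph W) (c : V → Λ) (d : W → Λ) :
    tyS q (G ⊕g H) (Sum.elim c d) = combS (tyS q G c) (tyS q H d) := by
  -- a tuple of the disjoint union and its two parts
  have key : ∀ (y : Fin q → Option V) (z : Fin q → Option W) (x : Fin q → Option (V ⊕ W)),
      (∀ i, y i = none ∨ z i = none) →
      (∀ i, x i = ((y i).map Sum.inl).or ((z i).map Sum.inr)) →
      aty (G ⊕g H) (Sum.elim c d) x = comb (aty G c y) (aty H d z) := by
    intro y z x hyz hx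
    have hl : ∀ i v, x i = some (Sum.inl v) ↔ y i = some v := by
      intro i v
      rw [hx i]
      rcases hy : y i with _ | a
      · rcases hz : z i with _ | b
        · simp
        · simp
      · simp
    have hr : ∀ i w, x i = some (Sum.inr w) ↔ z i = some w := by
      intro i w
      rw [hx i]
      rcases hy : y i with _ | a
      · rcases hz : z i with _ | b
        · simp
        · simp
      · have := (hyz i).resolve_left (by rw [hy]; simp)
        rw [this]
        simp
    refine Prod.ext ?_ (Prod.ext ?_ ?_)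
    · funext i
      show (x i).map (Sum.elim c d) = ((y i).map c).or ((z i).map d)
      rw [hx i]
      rcases hy : y i with _ | a
      · rcases hz : z i with _ | b
        · rfl
        · rfl
      · rfl
    · funext i j
      apply propext
      show (∃ v, x i = some v ∧ x j = some v) ↔
        (∃ v, y i = some v ∧ y j = some v) ∨ ∃ v, z i = some v ∧ z j = some v
      constructor
      · rintro ⟨v | v, h1, h2⟩
        · exact Or.inl ⟨v, (hl i v).1 h1, (hl j v).1 h2⟩
        · exact Or.inr ⟨v, (hr i v).1 h1, (hr j v).1 h2⟩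
      · rintro (⟨v, h1, h2⟩ | ⟨v, h1, h2⟩)
        · exact ⟨Sum.inl v, (hl i v).2 h1, (hl j v).2 h2⟩
        · exact ⟨Sum.inr v, (hr i v).2 h1, (hr j v).2 h2⟩
    · funext i j
      apply propext
      show (∃ u v, x i = some u ∧ x j = some v ∧ (G ⊕g H).Adj u v) ↔
        (∃ u v, y i = some u ∧ y j = some v ∧ G.Adj u v) ∨
          ∃ u v, z i = some u ∧ z j = some v ∧ H.Adj u v
      constructor
      · rintro ⟨u | u, v | v, h1, h2, h3⟩
        · exact Or.inl ⟨u, v, (hl i u).1 h1, (hl j v).1 h2, by simpa using h3⟩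
        · simp at h3
        · simp at h3
        · exact Or.inr ⟨u, v, (hr i u).1 h1, (hr j v).1 h2, by simpa using h3⟩
      · rintro (⟨u, v, h1, h2, h3⟩ | ⟨u, v, h1, h2, h3⟩)
        · exact ⟨Sum.inl u, Sum.inl v, (hl i u).2 h1, (hl j v).2 h2, by simpa using h3⟩
        · exact ⟨Sum.inr u, Sum.inr v, (hr i u).2 h1, (hr j v).2 h2, by simpa using h3⟩
  ext t
  constructor
  · rintro ⟨x, rfl⟩
    let y : Fin q → Option V := fun i => (x i).bind Sum.getLeft?
    let z : Fin q → Option W := fun i => (x i).bind Sum.getRight?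
    have h1 : ∀ i, y i = none ∨ z i = none := by
      intro i
      show (x i).bind Sum.getLeft? = none ∨ (x i).bind Sum.getRight? = none
      rcases x i with _ | (v | w)
      · exact Or.inl rfl
      · exact Or.inr rfl
      · exact Or.inl rfl
    have h2 : ∀ i, x i = ((y i).map Sum.inl).or ((z i).map Sum.inr) := by
      intro i
      show x i = (((x i).bind Sum.getLeft?).map Sum.inl).or (((x i).bind Sum.getRight?).map Sum.inr)
      rcases x i with _ | (v | w)
      · rfl
      · rfl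
      · rfl
    refine ⟨aty G c y, ⟨y, rfl⟩, aty H d z, ⟨z, rfl⟩, ?_, key y z x h1 h2⟩
    intro i
    rcases h1 i with h | h
    · left
      show (y i).map c = none
      rw [h]
      rfl
    · right
      show (z i).map d = none
      rw [h]
      rfl
  · rintro ⟨_, ⟨y, rfl⟩, _, ⟨z, rfl⟩, h, rfl⟩
    refine ⟨fun i => ((y i).map Sum.inl).or ((z i).map Sum.inr), ?_⟩
    refine key y z _ ?_ fun i => rfl
    intro i
    rcases h i with h | h
    · exact Or.inl (Option.map_eq_none_iff.1 h)
    · exact Or.inr (Option.map_eq_none_iff.1 h)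

end Types

/-! ## classes of labelled graphs -/

section Cls

variable {k : ℕ} (f q : ℕ) {V W : Type}

/-- the set of the sets of types, for all colourings -/
def cls (G : SimpleGraph V) (lab : V → Fin k) : Set (Set (PTy (Fin k × Fin f) q)) :=
  Set.range fun c : V → Fin f => tyS q G fun v => (lab v, c v)

theorem cls_iso {G : SimpleGraph V} {H : SimpleGraph W} {c : V → Fin k} {d : W → Fin k}
    (e : G ≃g H) (hc : ∀ v, d (e v) = c v) : cls f q H d = cls f q G c := by
  ext S
  constructor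
  · rintro ⟨c2, rfl⟩
    refine ⟨fun v => c2 (e v), ?_⟩
    show tyS q G (fun v => (c v, c2 (e v))) = tyS q H fun v => (d v, c2 v)
    rw [tyS_iso e]
    congr 1
    funext v
    rw [hc v]
  · rintro ⟨c2, rfl⟩
    refine ⟨fun v => c2 (e.symm v), ?_⟩
    show tyS q H (fun v => (d v, c2 (e.symm v))) = tyS q G fun v => (c v, c2 v)
    rw [tyS_iso e]
    congr 1
    funext v
    rw [hc v]
    simp

theorem cls_sum (G : SimpleGraph V) (H : SimpleGraph W) (c : V → Fin k) (d : W → Fin k) :
    cls f q (G ⊕g H) (Sum.elim c d) = Set.image2 combS (cls f q G c) (cls f q H d) := by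
  ext S
  constructor
  · rintro ⟨c2, rfl⟩
    refine ⟨_, ⟨fun v => c2 (Sum.inl v), rfl⟩, _, ⟨fun v => c2 (Sum.inr v), rfl⟩, ?_⟩
    show combS (tyS q G fun v => (c v, c2 (Sum.inl v)))
      (tyS q H fun v => (d v, c2 (Sum.inr v))) = tyS q (G ⊕g H) fun v => (Sum.elim c d v, c2 v)
    rw [← tyS_sum]
    congr 1
    funext v
    rcases v with v | v <;> rfl
  · rintro ⟨_, ⟨c1, rfl⟩, _, ⟨c2, rfl⟩, rfl⟩
    refine ⟨Sum.elim c1 c2, ?_⟩
    show tyS q (G ⊕g H) (fun v => (Sum.elim c d v, Sum.elim c1 c2 v)) =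
      combS (tyS q G fun v => (c v, c1 v)) (tyS q H fun v => (d v, c2 v))
    rw [← tyS_sum]
    congr 1
    funext v
    rcases v with v | v <;> rfl

theorem cls_join (G : SimpleGraph V) (c : V → Fin k) (i j : Fin k) :
    cls f q (G ⊔ SimpleGraph.fromRel fun u v => c u = i ∧ c v = j) c =
      (fun S => modJ (fun l l' => l.1 = i ∧ l'.1 = j) '' S) '' cls f q G c := by
  have h : ∀ c2 : V → Fin f,
      tyS q (G ⊔ SimpleGraph.fromRel fun u v => c u = i ∧ c v = j) (fun v => (c v, c2 v)) =
        modJ (fun l l' => l.1 = i ∧ l'.1 = j) '' tyS q G fun v => (c v, c2 v) := fun c2 =>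
    tyS_modJ G (fun v => (c v, c2 v)) fun l l' => l.1 = i ∧ l'.1 = j
  ext S
  constructor
  · rintro ⟨c2, rfl⟩
    exact ⟨_, ⟨c2, rfl⟩, (h c2).symm⟩
  · rintro ⟨_, ⟨c2, rfl⟩, rfl⟩
    exact ⟨c2, h c2⟩

theorem cls_relabel (G : SimpleGraph V) (c : V → Fin k) (i j : Fin k) :
    cls f q G (fun v => if c v = i then j else c v) =
      (fun S => modL (fun l => (if l.1 = i then j else l.1, l.2)) '' S) '' cls f q G c := by
  have h : ∀ c2 : V → Fin f,
      tyS q G (fun v => (if c v = i then j else c v, c2 v)) =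
        modL (fun l => (if l.1 = i then j else l.1, l.2)) '' tyS q G fun v => (c v, c2 v) :=
    fun c2 => tyS_modL G (fun v => (c v, c2 v)) fun l => (if l.1 = i then j else l.1, l.2)
  ext S
  constructor
  · rintro ⟨c2, rfl⟩
    exact ⟨_, ⟨c2, rfl⟩, (h c2).symm⟩
  · rintro ⟨_, ⟨c2, rfl⟩, rfl⟩
    exact ⟨c2, h c2⟩

/-- the operations: `none` is the disjoint union, `some (true, i, j)` adds edges,
`some (false, i, j)` changes labels; the unary operations use the child `0` only -/
abbrev Op (k : ℕ) : Type := Option (Bool × Fin k × Fin k)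

/-- the class of a term -/
def tcls : Tm (Op k) 2 (Fin k) → Set (Set (PTy (Fin k × Fin f) q))
  | .emp => cls f q (⊥ : SimpleGraph Empty) fun v => v.elim
  | .leaf a => cls f q (⊥ : SimpleGraph Unit) fun _ => a
  | .node none ch => Set.image2 combS (tcls (ch 0)) (tcls (ch 1))
  | .node (some (true, i, j)) ch =>
      (fun S => modJ (fun l l' => l.1 = i ∧ l'.1 = j) '' S) '' tcls (ch 0)
  | .node (some (false, i, j)) ch =>
      (fun S => modL (fun l => (if l.1 = i then j else l.1, l.2)) '' S) '' tcls (ch 0)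

theorem tcls_cong (ω : Op k) (ch ch' : Fin 2 → Tm (Op k) 2 (Fin k))
    (h : ∀ i, tcls f q (ch i) = tcls f q (ch' i)) :
    tcls f q (.node ω ch) = tcls f q (.node ω ch') := by
  rcases ω with _ | ⟨b, i, j⟩
  · simp only [tcls, h]
  · cases b
    · simp only [tcls, h]
    · simp only [tcls, h]

theorem exists_term {V : Type} {G : SimpleGraph V} {c : V → Fin k} (h : CW k V G c) :
    ∃ t : Tm (Op k) 2 (Fin k), tcls f q t = cls f q G c := by
  induction h with
  | single a => exact ⟨.leaf a, rfl⟩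
  | union V W G H c d _ _ ih1 ih2 =>
    obtain ⟨t1, h1⟩ := ih1
    obtain ⟨t2, h2⟩ := ih2
    refine ⟨.node none ![t1, t2], ?_⟩
    rw [cls_sum, ← h1, ← h2]
    rfl
  | join V G c i j _ _ ih =>
    obtain ⟨t, h1⟩ := ih
    refine ⟨.node (some (true, i, j)) fun _ => t, ?_⟩
    rw [cls_join, ← h1]
    rfl
  | relabel V G c i j _ ih =>
    obtain ⟨t, h1⟩ := ih
    refine ⟨.node (some (false, i, j)) fun _ => t, ?_⟩
    rw [cls_relabel, ← h1]
    rfl
  | iso V W G H c d e hc _ ih =>
    obtain ⟨t, h1⟩ := ih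
    exact ⟨t, by rw [h1, cls_iso f q e hc]⟩

theorem realize (t : Tm (Op k) 2 (Fin k)) :
    ∃ (V : Type) (_ : Fintype V) (G : SimpleGraph V) (c : V → Fin k),
      Fintype.card V ≤ t.cnt ∧ cls f q G c = tcls f q t := by
  induction t with
  | emp => exact ⟨Empty, inferInstance, ⊥, fun v => v.elim, by simp, rfl⟩
  | leaf a => exact ⟨Unit, inferInstance, ⊥, fun _ => a, by simp [Tm.cnt], rfl⟩
  | node ω ch ih =>
    obtain ⟨V, iV, G, c, h1, h2⟩ := ih 0
    have hc : (Tm.node ω ch).cnt = (ch 0).cnt + (ch 1).cnt := by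
      simp [Tm.cnt, Fin.sum_univ_two]
    rcases ω with _ | ⟨b, i, j⟩
    · obtain ⟨W, iW, H, d, h3, h4⟩ := ih 1
      refine ⟨V ⊕ W, inferInstance, G ⊕g H, Sum.elim c d, ?_, ?_⟩
      · rw [Fintype.card_sum, hc]
        omega
      · rw [cls_sum, h2, h4]
        rfl
    · cases b
      · refine ⟨V, iV, G, _, ?_, (cls_relabel f q G c i j).trans ?_⟩
        · rw [hc]
          omega
        · rw [h2]
          rfl
      · refine ⟨V, iV, _, c, ?_, (cls_join f q G c i j).trans ?_⟩
        · rw [hc]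
          omega
        · rw [h2]
          rfl

end Cls

theorem cnt_le_two {Ω Λ : Type} (t : Tm Ω 2 Λ) : t.cnt ≤ 2 ^ t.height := by
  induction t with
  | emp => simp [cnt]
  | leaf a => simp [cnt, height]
  | node ω ch ih =>
    simp only [cnt, height]
    calc ∑ i, (ch i).cnt ≤ ∑ _i : Fin 2, 2 ^ (Finset.univ.sup fun i => (ch i).height) := by
          refine Finset.sum_le_sum fun i _ => (ih i).trans ?_
          exact Nat.pow_le_pow_right (by omega)
            (Finset.le_sup (f := fun i => (ch i).height) (Finset.mem_univ i))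
      _ = 2 ^ ((Finset.univ.sup fun i => (ch i).height) + 1) := by
          rw [pow_succ]
          simp [mul_comm]

theorem card_pty (Λ : Type) [Fintype Λ] (q : ℕ) :
    Nat.card (PTy Λ q) = (Fintype.card Λ + 1) ^ q * (2 ^ (q * q) * 2 ^ (q * q)) := by
  classical
  rw [Nat.card_prod, Nat.card_prod, Nat.card_eq_fintype_card, Nat.card_eq_fintype_card,
    Fintype.card_fun, Fintype.card_option, Fintype.card_fin, Fintype.card_fun, Fintype.card_fun,
    Fintype.card_prop, Fintype.card_fin, ← pow_mul]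

/-- every graph of clique-width at most `k` has the same coloured types as a small graph -/
theorem exists_small_rep (k f q : ℕ) {G : FG} (hG : CliqueWidthLE k G) :
    ∃ G' : FG, G'.1 ≤ Bq k f q ∧
      (∀ c' : Fin G'.1 → Fin f, ∃ c : Fin G.1 → Fin f, tyS q G'.2 c' = tyS q G.2 c) ∧
      ∀ c : Fin G.1 → Fin f, ∃ c' : Fin G'.1 → Fin f, tyS q G.2 c = tyS q G'.2 c' := by
  classical
  rcases hG with h0 | ⟨lab, hcw⟩
  · exact ⟨G, by rw [h0]; exact Nat.zero_le _, fun c => ⟨c, rfl⟩, fun c => ⟨c, rfl⟩⟩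
  obtain ⟨t, ht⟩ := exists_term f q hcw
  set N := 2 ^ (2 ^ ((k * f + 1) ^ q * (2 ^ (q * q) * 2 ^ (q * q)))) with hN
  obtain ⟨s, -, hs2, hs3⟩ := exists_low (tcls f q) (tcls_cong f q) N Set.univ (Set.toFinite _)
    (by
      rw [Set.ncard_univ, Nat.card_eq_fintype_card, Fintype.card_set, Fintype.card_set,
        ← Nat.card_eq_fintype_card (α := PTy (Fin k × Fin f) q), card_pty]
      simp [hN]) t (Set.subset_univ _)
  obtain ⟨V, iV, H, d, h1, h2⟩ := realize f q s
  -- transport to `Fin n`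
  let e := Fintype.equivFin V
  let H' : SimpleGraph (Fin (Fintype.card V)) := H.map e.toEmbedding
  let e' : H ≃g H' := SimpleGraph.Iso.map e H
  have h3 : cls f q H' (fun v => d (e'.symm v)) = cls f q H d :=
    cls_iso f q e' fun v => by simp
  have hcl : cls f q H' (fun v => d (e'.symm v)) = cls f q G.2 lab := by
    rw [h3, h2, hs2, ht]
  refine ⟨⟨Fintype.card V, H'⟩, ?_, ?_, ?_⟩
  · refine h1.trans ((cnt_le_two s).trans ?_)
    exact Nat.pow_le_pow_right (by norm_num) hs3
  · intro c'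
    have hm : (tyS q H' fun v => (d (e'.symm v), c' v)) ∈
        cls f q H' (fun v => d (e'.symm v)) := ⟨c', rfl⟩
    rw [hcl] at hm
    obtain ⟨c, hc⟩ := hm
    refine ⟨c, ?_⟩
    have hc' : (tyS q G.2 fun v => (lab v, c v)) = tyS q H' fun v => (d (e'.symm v), c' v) := hc
    have a1 := tyS_modL (q := q) H' (fun v => (d (e'.symm v), c' v)) Prod.snd
    have a2 := tyS_modL (q := q) G.2 (fun v => (lab v, c v)) Prod.snd
    show tyS q H' c' = tyS q G.2 c
    rw [hc'] at a2
    exact a1.trans a2.symm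
  · intro c
    have hm : (tyS q G.2 fun v => (lab v, c v)) ∈ cls f q G.2 lab := ⟨c, rfl⟩
    rw [← hcl] at hm
    obtain ⟨c', hc⟩ := hm
    refine ⟨c', ?_⟩
    have hc' : (tyS q H' fun v => (d (e'.symm v), c' v)) = tyS q G.2 fun v => (lab v, c v) := hc
    have a1 := tyS_modL (q := q) H' (fun v => (d (e'.symm v), c' v)) Prod.snd
    have a2 := tyS_modL (q := q) G.2 (fun v => (lab v, c v)) Prod.snd
    show tyS q G.2 c = tyS q H' c'
    rw [hc'] at a1
    exact a2.trans a1.symm

end Pool.Agent.H12Tree
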