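import Mathlib

/-!
# Terms, their order and their realizations in graphs
-/

namespace Pool.Agent.H12Tree

open Set

/-- terms with leaf labels `Λ`, node labels `Ω` and `r` children at every node -/
inductive Tm (Ω : Type) (r : ℕ) (Λ : Type) : Type
  | emp : Tm Ω r Λ
  | leaf (a : Λ) : Tm Ω r Λ
  | node (ω : Ω) (ch : Fin r → Tm Ω r Λ) : Tm Ω r Λ

namespace Tm

variable {Ω : Type} {r : ℕ} {Λ Λ' Λ'' : Type}

def map (g : Λ → Λ') : Tm Ω r Λ → Tm Ω r Λ'
  | emp => emp
  | leaf a => leaf (g a)
  | node ω ch => node ω fun i => (ch i).map g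

def del (p : Λ → Bool) : Tm Ω r Λ → Tm Ω r Λ
  | emp => emp
  | leaf a => if p a then leaf a else emp
  | node ω ch => node ω fun i => (ch i).del p

/-- leaf labels -/
def lv : Tm Ω r Λ → Set Λ
  | emp => ∅
  | leaf a => {a}
  | node _ ch => ⋃ i, (ch i).lv

/-- number of leaves -/
def cnt : Tm Ω r Λ → ℕ
  | emp => 0
  | leaf _ => 1
  | node _ ch => ∑ i, (ch i).cnt

def height : Tm Ω r Λ → ℕ
  | emp => 0
  | leaf _ => 1
  | node _ ch => (Finset.univ.sup fun i => (ch i).height) + 1

/-- homeomorphic embedding -/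
inductive Le : Tm Ω r Λ → Tm Ω r Λ → Prop
  | emp (t : Tm Ω r Λ) : Le .emp t
  | leaf (a : Λ) : Le (.leaf a) (.leaf a)
  | child (s : Tm Ω r Λ) (ω : Ω) (ch : Fin r → Tm Ω r Λ) (i : Fin r) (h : Le s (ch i)) :
      Le s (.node ω ch)
  | node (ω : Ω) (ch ch' : Fin r → Tm Ω r Λ) (h : ∀ i, Le (ch i) (ch' i)) :
      Le (.node ω ch) (.node ω ch')

theorem Le.refl (t : Tm Ω r Λ) : Le t t := by
  induction t with
  | emp => exact Le.emp _
  | leaf a => exact Le.leaf a
  | node ω ch ih => exact Le.node ω ch ch ih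

theorem Le.trans {s t u : Tm Ω r Λ} (h : Le s t) (h' : Le t u) : Le s u := by
  induction h' generalizing s with
  | emp t =>
    cases h with
    | emp => exact Le.emp _
  | leaf a => exact h
  | child t ω ch i _ ih => exact Le.child _ _ _ i (ih h)
  | node ω ch ch' _ ih =>
    cases h with
    | emp => exact Le.emp _
    | child _ _ _ i h => exact Le.child _ _ _ i (ih i h)
    | node _ ch'' _ h => exact Le.node _ _ _ fun i => ih i (h i)

theorem Le.height_le {s t : Tm Ω r Λ} (h : Le s t) : s.height ≤ t.height := by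
  induction h with
  | emp t => simp [height]
  | leaf a => exact le_rfl
  | child s ω ch i _ ih =>
    have : (ch i).height ≤ Finset.univ.sup fun i => (ch i).height :=
      Finset.le_sup (f := fun i => (ch i).height) (Finset.mem_univ i)
    simp only [height]
    omega
  | node ω ch ch' _ ih =>
    simp only [height]
    exact Nat.succ_le_succ (Finset.sup_mono_fun fun i _ => ih i)

theorem map_map (g : Λ → Λ') (g' : Λ' → Λ'') (t : Tm Ω r Λ) :
    (t.map g).map g' = t.map (g' ∘ g) := by
  induction t with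
  | emp => rfl
  | leaf a => rfl
  | node ω ch ih => simp only [map, ih]

theorem map_id' (t : Tm Ω r Λ) : t.map id = t := by
  induction t with
  | emp => rfl
  | leaf a => rfl
  | node ω ch ih => simp only [map, ih]

theorem cnt_le (t : Tm Ω r Λ) : t.cnt ≤ (r + 1) ^ t.height := by
  induction t with
  | emp => simp [cnt]
  | leaf a => simp [cnt, height]
  | node ω ch ih =>
    simp only [cnt, height]
    calc ∑ i, (ch i).cnt ≤ ∑ _i : Fin r, (r + 1) ^ (Finset.univ.sup fun i => (ch i).height) := by
          refine Finset.sum_le_sum fun i _ => (ih i).trans ?_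
          exact Nat.pow_le_pow_right (by omega)
            (Finset.le_sup (f := fun i => (ch i).height) (Finset.mem_univ i))
      _ = r * (r + 1) ^ (Finset.univ.sup fun i => (ch i).height) := by simp
      _ ≤ (r + 1) ^ ((Finset.univ.sup fun i => (ch i).height) + 1) := by
          rw [pow_succ, mul_comm]
          exact Nat.mul_le_mul_left _ (by omega)

theorem finite_height (Ω : Type) (r : ℕ) (Λ : Type) [Finite Ω] [Finite Λ] (n : ℕ) :
    {t : Tm Ω r Λ | t.height ≤ n}.Finite := by
  induction n with
  | zero =>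
    refine (Set.finite_singleton (emp : Tm Ω r Λ)).subset ?_
    intro t ht
    cases t with
    | emp => rfl
    | leaf a => simp [height] at ht
    | node ω ch => simp [height] at ht
  | succ n ih =>
    have h1 : (Set.range (leaf : Λ → Tm Ω r Λ)).Finite := Set.finite_range _
    have h2 : {f : Fin r → Tm Ω r Λ | ∀ i, f i ∈ {t : Tm Ω r Λ | t.height ≤ n}}.Finite :=
      Set.Finite.pi' fun _ => ih
    have h3 : (Set.image2 (fun (ω : Ω) (ch : Fin r → Tm Ω r Λ) => node ω ch) Set.univ
        {f : Fin r → Tm Ω r Λ | ∀ i, f i ∈ {t : Tm Ω r Λ | t.height ≤ n}}).Finite :=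
      Set.Finite.image2 _ Set.finite_univ h2
    refine (((Set.finite_singleton (emp : Tm Ω r Λ)).union h1).union h3).subset ?_
    intro t ht
    cases t with
    | emp => exact Or.inl (Or.inl rfl)
    | leaf a => exact Or.inl (Or.inr ⟨a, rfl⟩)
    | node ω ch =>
      refine Or.inr ⟨ω, trivial, ch, fun i => ?_, rfl⟩
      have h4 : (ch i).height ≤ Finset.univ.sup fun i => (ch i).height :=
        Finset.le_sup (f := fun i => (ch i).height) (Finset.mem_univ i)
      simp only [Set.mem_ofPred_eq, height] at ht ⊢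
      omega

end Tm

open Tm

section Real

variable {Ω : Type} {r : ℕ} {Λ Λ' : Type}

/-- the set `X` of vertices of `G` with labels `c` realizes the term; `A` interprets the node
labels -/
inductive Real {V : Type} (G : SimpleGraph V) (A : Ω → Fin r → Fin r → Λ → Λ → Prop)
    (c : V → Λ) : Tm Ω r Λ → Set V → Prop
  | emp : Real G A c .emp ∅
  | leaf (v : V) : Real G A c (.leaf (c v)) {v}
  | node (ω : Ω) (ch : Fin r → Tm Ω r Λ) (X : Fin r → Set V)
      (h : ∀ i, Real G A c (ch i) (X i)) (hd : ∀ i j, i ≠ j → Disjoint (X i) (X j))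
      (ha : ∀ i j, i < j → ∀ u ∈ X i, ∀ v ∈ X j, (G.Adj u v ↔ A ω i j (c u) (c v))) :
      Real G A c (.node ω ch) (⋃ i, X i)

variable {V W : Type} {G : SimpleGraph V} {H : SimpleGraph W}
  {A : Ω → Fin r → Fin r → Λ → Λ → Prop} {c : V → Λ} {t : Tm Ω r Λ} {X : Set V}

theorem Real.congr {c' : V → Λ} (h : Real G A c t X) (hc : ∀ v ∈ X, c v = c' v) :
    Real G A c' t X := by
  induction h with
  | emp => exact Real.emp
  | leaf v =>
    rw [hc v rfl]
    exact Real.leaf v
  | node ω ch X _ hd ha ih =>
    have hc' : ∀ i, ∀ v ∈ X i, c v = c' v := fun i v hv => hc v (Set.mem_iUnion.2 ⟨i, hv⟩)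
    refine Real.node ω ch X (fun i => ih i (hc' i)) hd fun i j hij u hu v hv => ?_
    rw [ha i j hij u hu v hv, hc' i u hu, hc' j v hv]

theorem Real.finite (h : Real G A c t X) : X.Finite := by
  induction h with
  | emp => exact Set.finite_empty
  | leaf v => exact Set.finite_singleton v
  | node ω ch X _ _ _ ih => exact Set.finite_iUnion ih

theorem Real.map {A' : Ω → Fin r → Fin r → Λ' → Λ' → Prop} (g : Λ → Λ')
    (hA : ∀ ω i j a b, A ω i j a b ↔ A' ω i j (g a) (g b)) (h : Real G A c t X) :
    Real G A' (g ∘ c) (t.map g) X := by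
  induction h with
  | emp => exact Real.emp
  | leaf v => exact Real.leaf (c := g ∘ c) v
  | node ω ch X _ hd ha ih =>
    exact Real.node ω _ X ih hd fun i j hij u hu v hv => (ha i j hij u hu v hv).trans (hA _ _ _ _ _)

theorem Real.del (p : Λ → Bool) (h : Real G A c t X) :
    Real G A c (t.del p) {v | v ∈ X ∧ p (c v) = true} := by
  induction h with
  | emp =>
    have : {v : V | v ∈ (∅ : Set V) ∧ p (c v) = true} = ∅ := by
      ext v; simp
    rw [this]
    exact Real.emp
  | leaf v =>
    by_cases hp : p (c v) = true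
    · have : {u : V | u ∈ ({v} : Set V) ∧ p (c u) = true} = {v} := by
        ext u
        simp only [Set.mem_singleton_iff, Set.mem_ofPred_eq, and_iff_left_iff_imp]
        rintro rfl
        exact hp
      rw [this]
      simp only [Tm.del, hp, if_true]
      exact Real.leaf v
    · have : {u : V | u ∈ ({v} : Set V) ∧ p (c u) = true} = ∅ := by
        ext u
        simp only [Set.mem_singleton_iff, Set.mem_ofPred_eq, Set.mem_empty_iff_false, iff_false,
          not_and]
        rintro rfl
        exact hp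
      rw [this]
      simp only [Tm.del, hp]
      exact Real.emp
  | node ω ch X _ hd ha ih =>
    have : {v : V | v ∈ (⋃ i, X i) ∧ p (c v) = true} = ⋃ i, {v | v ∈ X i ∧ p (c v) = true} := by
      ext v
      simp only [Set.mem_iUnion, Set.mem_ofPred_eq]
      constructor
      · rintro ⟨⟨i, hi⟩, hp⟩
        exact ⟨i, hi, hp⟩
      · rintro ⟨i, hi, hp⟩
        exact ⟨⟨i, hi⟩, hp⟩
    rw [this]
    refine Real.node ω _ _ ih (fun i j hij => ?_) fun i j hij u hu v hv =>
      ha i j hij u hu.1 v hv.1
    exact (hd i j hij).mono (fun v hv => hv.1) (fun v hv => hv.1)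

theorem Real.lift {c' : V → Λ'} (g : Λ' → Λ) (h : Real G A (g ∘ c') t X) :
    ∃ t' : Tm Ω r Λ', t'.map g = t ∧
      Real G (fun ω i j a b => A ω i j (g a) (g b)) c' t' X := by
  induction h with
  | emp => exact ⟨.emp, rfl, Real.emp⟩
  | leaf v => exact ⟨.leaf (c' v), rfl, Real.leaf v⟩
  | node ω ch X _ hd ha ih =>
    choose t' ht hr using ih
    refine ⟨.node ω t', ?_, Real.node ω t' X hr hd ha⟩
    simp only [Tm.map, ht]

theorem Real.unlift (g : Λ' → Λ) (c0 : V → Λ') (h : Real G A c t X) {t' : Tm Ω r Λ'}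
    (ht : t'.map g = t) :
    ∃ c' : V → Λ', (∀ v ∈ X, g (c' v) = c v) ∧
      Real G (fun ω i j a b => A ω i j (g a) (g b)) c' t' X := by
  classical
  induction h generalizing t' with
  | emp =>
    cases t' with
    | emp => exact ⟨c0, by simp, Real.emp⟩
    | leaf a => simp [Tm.map] at ht
    | node ω ch => simp [Tm.map] at ht
  | leaf v =>
    cases t' with
    | emp => simp [Tm.map] at ht
    | leaf a =>
      simp only [Tm.map, Tm.leaf.injEq] at ht
      refine ⟨fun _ => a, ?_, ?_⟩
      · intro u hu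
        rw [Set.mem_singleton_iff.1 hu]
        exact ht
      · exact Real.leaf (c := fun _ : V => a) v
    | node ω ch => simp [Tm.map] at ht
  | node ω ch X _ hd ha ih =>
    cases t' with
    | emp => simp [Tm.map] at ht
    | leaf a => simp [Tm.map] at ht
    | node ω' ch' =>
      simp only [Tm.map, Tm.node.injEq] at ht
      obtain ⟨rfl, hch⟩ := ht
      choose c' hc' hr using fun i => ih i (congrFun hch i)
      -- combine
      set d : V → Λ' := fun v => if h : ∃ i, v ∈ X i then c' h.choose v else c0 v with hd'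
      have hdi : ∀ i, ∀ v ∈ X i, d v = c' i v := by
        intro i v hv
        have hex : ∃ i, v ∈ X i := ⟨i, hv⟩
        have : hex.choose = i := by
          by_contra hne
          exact Set.disjoint_left.1 (hd _ _ hne) hex.choose_spec hv
        simp only [hd', hex, dif_pos, this]
      refine ⟨d, ?_, ?_⟩
      · intro v hv
        obtain ⟨i, hi⟩ := Set.mem_iUnion.1 hv
        rw [hdi i v hi]
        exact hc' i v hi
      · refine Real.node ω' ch' X (fun i => (hr i).congr fun v hv => (hdi i v hv).symm) hd ?_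
        intro i j hij u hu v hv
        rw [ha i j hij u hu v hv, hdi i u hu, hdi j v hv, hc' i u hu, hc' j v hv]

theorem Real.le {s : Tm Ω r Λ} (hs : Le s t) (h : Real G A c t X) :
    ∃ Y ⊆ X, Real G A c s Y := by
  induction h generalizing s with
  | emp =>
    cases hs with
    | emp => exact ⟨∅, Set.empty_subset _, Real.emp⟩
  | leaf v =>
    cases hs with
    | emp => exact ⟨∅, Set.empty_subset _, Real.emp⟩
    | leaf => exact ⟨{v}, subset_rfl, Real.leaf v⟩
  | node ω ch X _ hd ha ih =>
    cases hs with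
    | emp => exact ⟨∅, Set.empty_subset _, Real.emp⟩
    | child _ _ _ i hs =>
      obtain ⟨Y, hY, hr⟩ := ih i hs
      exact ⟨Y, hY.trans (Set.subset_iUnion X i), hr⟩
    | node _ ch' _ hs =>
      choose Y hY hr using fun i => ih i (hs i)
      refine ⟨⋃ i, Y i, Set.iUnion_mono hY, Real.node ω ch' Y hr (fun i j hij =>
        (hd i j hij).mono (hY i) (hY j)) fun i j hij u hu v hv =>
        ha i j hij u (hY i hu) v (hY j hv)⟩

theorem Real.lv (h : Real G A c t X) : t.lv = c '' X := by
  induction h with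
  | emp => simp [Tm.lv]
  | leaf v => simp [Tm.lv]
  | node ω ch X _ _ _ ih =>
    simp only [Tm.lv, ih, Set.image_iUnion]

theorem Real.cnt (h : Real G A c t X) : t.cnt = X.ncard := by
  classical
  induction h with
  | emp => simp [Tm.cnt]
  | leaf v => simp [Tm.cnt]
  | node ω ch X h hd _ ih =>
    simp only [Tm.cnt, ih]
    rw [Set.ncard_iUnion_of_finite (fun i => (h i).finite) (fun i j hij => hd i j hij),
      finsum_eq_sum_of_fintype]

theorem Real.push {c' : W → Λ} (f : V → W) (hf : Set.InjOn f X)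
    (hadj : ∀ u ∈ X, ∀ v ∈ X, (H.Adj (f u) (f v) ↔ G.Adj u v)) (hc : ∀ v ∈ X, c' (f v) = c v)
    (h : Real G A c t X) : Real H A c' t (f '' X) := by
  induction h with
  | emp =>
    rw [Set.image_empty]
    exact Real.emp
  | leaf v =>
    rw [Set.image_singleton, ← hc v rfl]
    exact Real.leaf (f v)
  | node ω ch X _ hd ha ih =>
    rw [Set.image_iUnion]
    have hsub : ∀ i, X i ⊆ ⋃ i, X i := Set.subset_iUnion X
    refine Real.node ω ch _ (fun i => ih i (hf.mono (hsub i))
      (fun u hu v hv => hadj u (hsub i hu) v (hsub i hv)) (fun v hv => hc v (hsub i hv)))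
      ?_ ?_
    · intro i j hij
      rw [Set.disjoint_left]
      rintro _ ⟨u, hu, rfl⟩ ⟨v, hv, hvu⟩
      have := hf (hsub j hv) (hsub i hu) hvu
      subst this
      exact Set.disjoint_left.1 (hd i j hij) hu hv
    · rintro i j hij _ ⟨u, hu, rfl⟩ _ ⟨v, hv, rfl⟩
      rw [hadj u (hsub i hu) v (hsub j hv), hc u (hsub i hu), hc v (hsub j hv)]
      exact ha i j hij u hu v hv

/-- every term has a realization -/
theorem exists_real (A : Ω → Fin r → Fin r → Λ → Λ → Prop) (t : Tm Ω r Λ) :
    ∃ (V : Type) (G : SimpleGraph V) (c : V → Λ), Real G A c t Set.univ := by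
  induction t with
  | emp =>
    refine ⟨Empty, ⊥, Empty.elim, ?_⟩
    have : (Set.univ : Set Empty) = ∅ := by
      ext x; exact x.elim
    rw [this]
    exact Real.emp
  | leaf a =>
    refine ⟨Unit, ⊥, fun _ => a, ?_⟩
    have : (Set.univ : Set Unit) = {()} := by
      ext x; simp
    rw [this]
    exact Real.leaf (c := fun _ : Unit => a) ()
  | node ω ch ih =>
    choose V G c h using ih
    set H : SimpleGraph (Σ i, V i) :=
      { Adj := fun x y => (∃ (i : Fin r) (u v : V i), x = ⟨i, u⟩ ∧ y = ⟨i, v⟩ ∧ (G i).Adj u v) ∨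
          (x.1 < y.1 ∧ A ω x.1 y.1 (c x.1 x.2) (c y.1 y.2)) ∨
          (y.1 < x.1 ∧ A ω y.1 x.1 (c y.1 y.2) (c x.1 x.2))
        symm := ⟨by
          rintro x y (⟨i, u, v, rfl, rfl, h⟩ | h | h)
          · exact Or.inl ⟨i, v, u, rfl, rfl, h.symm⟩
          · exact Or.inr (Or.inr h)
          · exact Or.inr (Or.inl h)⟩
        loopless := ⟨by
          rintro x (⟨i, u, v, rfl, hy, h⟩ | h | h)
          · simp only [Sigma.mk.injEq, heq_eq_eq, true_and] at hy
            subst hy
            exact h.ne rfl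
          · exact lt_irrefl _ h.1
          · exact lt_irrefl _ h.1⟩ } with hH
    refine ⟨Σ i, V i, H, fun x => c x.1 x.2, ?_⟩
    have huniv : (Set.univ : Set (Σ i, V i)) = ⋃ i, (fun v => (⟨i, v⟩ : Σ i, V i)) '' Set.univ := by
      ext ⟨i, v⟩
      simp only [Set.mem_univ, Set.mem_iUnion, Set.image_univ, Set.mem_range, true_iff]
      exact ⟨i, v, rfl⟩
    rw [huniv]
    refine Real.node ω ch _ (fun i => (h i).push (fun v => (⟨i, v⟩ : Σ i, V i)) ?_ ?_ ?_) ?_ ?_
    · intro u _ v _ huv
      simpa using huv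
    · intro u _ v _
      constructor
      · rintro (⟨j, u', v', hu, hv, h⟩ | h | h)
        · simp only [Sigma.mk.injEq] at hu hv
          obtain ⟨rfl, hu⟩ := hu
          rw [heq_eq_eq] at hu
          obtain ⟨-, hv⟩ := hv
          rw [heq_eq_eq] at hv
          rw [hu, hv]
          exact h
        · exact absurd h.1 (lt_irrefl _)
        · exact absurd h.1 (lt_irrefl _)
      · intro hh
        exact Or.inl ⟨i, u, v, rfl, rfl, hh⟩
    · intro v _
      rfl
    · intro i j hij
      rw [Set.disjoint_left]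
      rintro _ ⟨u, _, rfl⟩ ⟨v, _, hv⟩
      simp only [Sigma.mk.injEq] at hv
      exact hij hv.1.symm
    · rintro i j hij _ ⟨u, _, rfl⟩ _ ⟨v, _, rfl⟩
      constructor
      · rintro (⟨k, u', v', hu, hv, h⟩ | h | h)
        · simp only [Sigma.mk.injEq] at hu hv
          rw [hu.1, hv.1] at hij
          exact absurd hij (lt_irrefl _)
        · exact h.2
        · exact absurd hij (not_lt.2 (le_of_lt h.1))
      · intro hh
        exact Or.inr (Or.inl ⟨hij, hh⟩)

/-- two realizations of a term are isomorphic -/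
theorem Real.unique {c' : W → Λ} {Y : Set W} (h : Real G A c t X) (h' : Real H A c' t Y) :
    ∃ e : X ≃ Y, (∀ x, c' (e x) = c x) ∧ ∀ x y : X, H.Adj (e x) (e y) ↔ G.Adj x y := by
  classical
  induction h generalizing Y with
  | emp =>
    cases h' with
    | emp =>
      exact ⟨⟨fun x => x.2.elim, fun x => x.2.elim, fun x => x.2.elim, fun x => x.2.elim⟩,
        fun x => x.2.elim, fun x => x.2.elim⟩
  | leaf v =>
    generalize hs : (Tm.leaf (c v) : Tm Ω r Λ) = s at h'
    cases h' with
    | emp => exact absurd hs (by simp)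
    | leaf w =>
      simp only [Tm.leaf.injEq] at hs
      refine ⟨⟨fun _ => ⟨w, rfl⟩, fun _ => ⟨v, rfl⟩, ?_, ?_⟩, ?_, ?_⟩
      · rintro ⟨x, hx⟩
        exact Subtype.ext (Set.mem_singleton_iff.1 hx).symm
      · rintro ⟨x, hx⟩
        exact Subtype.ext (Set.mem_singleton_iff.1 hx).symm
      · rintro ⟨x, hx⟩
        rw [Set.mem_singleton_iff] at hx
        subst hx
        exact hs.symm
      · rintro ⟨x, hx⟩ ⟨y, hy⟩
        rw [Set.mem_singleton_iff] at hx hy
        subst hx
        subst hy
        simp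
    | node => exact absurd hs (by simp)
  | node ω ch X _ hd ha ih =>
    generalize hs : (Tm.node ω ch : Tm Ω r Λ) = s at h'
    cases h' with
    | emp => exact absurd hs (by simp)
    | leaf w => exact absurd hs (by simp)
    | node ω' ch' Y h'' hd' ha' =>
      simp only [Tm.node.injEq] at hs
      obtain ⟨rfl, rfl⟩ := hs
      choose e he1 he2 using fun i => ih i (h'' i)
      have hdX : Pairwise (Function.onFun Disjoint X) := fun i j hij => hd i j hij
      have hdY : Pairwise (Function.onFun Disjoint Y) := fun i j hij => hd' i j hij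
      set E : (⋃ i, X i : Set V) ≃ (⋃ i, Y i : Set W) := (Set.unionEqSigmaOfDisjoint hdX).trans
        ((Equiv.sigmaCongrRight e).trans (Set.unionEqSigmaOfDisjoint hdY).symm) with hE
      have key : ∀ (i : Fin r) (x : (⋃ i, X i : Set V)) (hx : (x : V) ∈ X i),
          (E x : W) = e i ⟨x, hx⟩ := by
        intro i x hx
        have h1 : Set.unionEqSigmaOfDisjoint hdX x = ⟨i, ⟨x, hx⟩⟩ := by
          rw [← Equiv.eq_symm_apply]
          apply Subtype.ext
          rw [Set.coe_unionEqSigmaOfDisjoint_symm_apply]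
        rw [hE]
        simp only [Equiv.trans_apply, h1, Equiv.sigmaCongrRight_apply]
        rw [Set.coe_unionEqSigmaOfDisjoint_symm_apply]
      refine ⟨E, ?_, ?_⟩
      · intro x
        obtain ⟨i, hi⟩ := Set.mem_iUnion.1 x.2
        rw [key i x hi]
        exact he1 i ⟨x, hi⟩
      · intro x y
        obtain ⟨i, hi⟩ := Set.mem_iUnion.1 x.2
        obtain ⟨j, hj⟩ := Set.mem_iUnion.1 y.2
        rw [key i x hi, key j y hj]
        rcases lt_trichotomy i j with hij | hij | hij
        · rw [ha i j hij x hi y hj, ha' i j hij _ (e i ⟨x, hi⟩).2 _ (e j ⟨y, hj⟩).2,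
            he1, he1]
        · subst hij
          exact he2 i ⟨x, hi⟩ ⟨y, hj⟩
        · rw [SimpleGraph.adj_comm, G.adj_comm, ha j i hij y hj x hi,
            ha' j i hij _ (e j ⟨y, hj⟩).2 _ (e i ⟨x, hi⟩).2, he1, he1]

/-- reduction of the height -/
theorem Real.reduce (h : Real G A c t X) :
    ∃ s, Le s t ∧ Real G A c s X ∧ s.height ≤ X.ncard := by
  classical
  induction h with
  | emp => exact ⟨.emp, Le.refl _, Real.emp, by simp [height]⟩
  | leaf v => exact ⟨.leaf (c v), Le.refl _, Real.leaf v, by simp [height]⟩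
  | node ω ch X h hd ha ih =>
    choose s hs hr hh using ih
    have hfin : (⋃ i, X i).Finite := Set.finite_iUnion fun i => (h i).finite
    by_cases hX : (⋃ i, X i) = ∅
    · rw [hX]
      exact ⟨.emp, Le.emp _, Real.emp, by simp [height]⟩
    by_cases hex : ∃ i, X i = ⋃ i, X i
    · obtain ⟨i, hi⟩ := hex
      refine ⟨s i, Le.child _ _ _ i (hs i), ?_, ?_⟩
      · rw [← hi]
        exact hr i
      · rw [← hi]
        exact hh i
    · push Not at hex
      refine ⟨.node ω s, Le.node _ _ _ hs, Real.node ω s X hr hd ha, ?_⟩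
      have hlt : ∀ i, (s i).height < (⋃ i, X i).ncard := fun i =>
        (hh i).trans_lt (Set.ncard_lt_ncard ((Set.subset_iUnion X i).ssubset_of_ne (hex i)) hfin)
      have hpos : 0 < (⋃ i, X i).ncard := by
        rw [Set.ncard_pos hfin]
        exact Set.nonempty_iff_ne_empty.2 hX
      simp only [height]
      have : (Finset.univ.sup fun i => (s i).height) ≤ (⋃ i, X i).ncard - 1 :=
        Finset.sup_le fun i _ => by
          have := hlt i
          omega
      omega

end Real

end Pool.Agent.H12Tree
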